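import Pool.Agent.R867.H.Asm

/-! The general hypersurface of a given multidegree is irreducible. -/

set_option autoImplicit false

namespace Pool.Agent.R867.H

open MvPolynomial

universe u v w

section Mark

variable {N : ℕ} {ι : Type} [DecidableEq ι] (β : Fin N → ι)

/-- the degree of an exponent in the block `j` -/
def bd (j : ι) (m : Fin N →₀ ℕ) : ℕ := ∑ l with β l = j, m l

theorem bd_add (j : ι) (m m' : Fin N →₀ ℕ) : bd β j (m + m') = bd β j m + bd β j m' := by
  unfold bd
  rw [← Finset.sum_add_distrib]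
  rfl

variable {R : Type u} [CommRing R]

/-- the variables of the block `j` are multiplied by a new variable -/
noncomputable def mk (j : ι) : MvPolynomial (Fin N) R →+* Polynomial (MvPolynomial (Fin N) R) :=
  eval₂Hom ((Polynomial.C).comp C) (fun l => if β l = j then Polynomial.C (X l) * Polynomial.X
    else Polynomial.C (X l))

theorem mk_monomial (j : ι) (m : Fin N →₀ ℕ) (a : R) :
    mk β j (monomial m a) = Polynomial.C (monomial m a) * Polynomial.X ^ bd β j m := by
  classical
  unfold mk bd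
  rw [coe_eval₂Hom, eval₂_monomial, RingHom.comp_apply, Finsupp.prod_fintype _ _ (fun _ => pow_zero _),
    monomial_eq, Finsupp.prod_fintype _ _ (fun _ => pow_zero _), map_mul, map_prod, Finset.sum_filter,
    ← Finset.prod_pow_eq_pow_sum, mul_assoc, ← Finset.prod_mul_distrib]
  congr 1
  refine Finset.prod_congr rfl fun l _ => ?_
  split_ifs with h
  · rw [mul_pow, Polynomial.C_pow]
  · rw [pow_zero, mul_one, Polynomial.C_pow]

theorem coeff_mk (j : ι) (g : MvPolynomial (Fin N) R) (e : ℕ) (m : Fin N →₀ ℕ) :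
    coeff m ((mk β j g).coeff e) = if bd β j m = e then coeff m g else 0 := by
  classical
  induction g using MvPolynomial.induction_on' with
  | monomial m' a =>
    rw [mk_monomial, Polynomial.coeff_C_mul, Polynomial.coeff_X_pow, coeff_monomial]
    by_cases h : m' = m
    · subst h
      by_cases he : e = bd β j m'
      · rw [if_pos he, if_pos he.symm, mul_one, coeff_monomial]
      · rw [if_neg he, if_neg (Ne.symm he), mul_zero, coeff_zero]
    · rw [if_neg h, ite_self, mul_ite, mul_one, mul_zero]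
      split_ifs
      · rw [coeff_monomial, if_neg h]
      · rw [coeff_zero]
  | add p q hp hq =>
    rw [map_add, Polynomial.coeff_add, coeff_add, coeff_add, hp, hq]
    split_ifs
    · rfl
    · rw [add_zero]

theorem bd_le {j : ι} {g : MvPolynomial (Fin N) R} {m : Fin N →₀ ℕ} (hm : coeff m g ≠ 0) :
    bd β j m ≤ (mk β j g).natDegree := by
  by_contra hcon
  push Not at hcon
  have h1 := Polynomial.coeff_eq_zero_of_natDegree_lt hcon
  have h2 := coeff_mk β j g (bd β j m) m
  rw [h1, if_pos rfl, coeff_zero] at h2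
  exact hm h2.symm

theorem mk_ne {j : ι} {g : MvPolynomial (Fin N) R} (hg : g ≠ 0) : mk β j g ≠ 0 := by
  intro h0
  obtain ⟨m, hm⟩ := exists_coeff_ne_zero hg
  have h2 := coeff_mk β j g (bd β j m) m
  rw [h0, Polynomial.coeff_zero, if_pos rfl, coeff_zero] at h2
  exact hm h2.symm

theorem natDegree_mk_le {j : ι} {g : MvPolynomial (Fin N) R} {e : ℕ}
    (h : ∀ m, coeff m g ≠ 0 → bd β j m ≤ e) : (mk β j g).natDegree ≤ e := by
  rw [Polynomial.natDegree_le_iff_coeff_eq_zero]
  intro e' he'
  ext m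
  rw [coeff_mk, coeff_zero]
  split_ifs with h1
  · by_contra h2
    have := h m h2
    omega
  · rfl

end Mark

section Split

variable {N : ℕ} {ι : Type} [DecidableEq ι] {β : Fin N → ι}

theorem mem_expo' {d : ι → ℕ} {m : Fin N →₀ ℕ} : m ∈ expo β d ↔ ∀ j, bd β j m ≤ d j := mem_expo

theorem eq_zero_of_bd {m : Fin N →₀ ℕ} (h : ∀ j, bd β j m = 0) : m = 0 := by
  ext l
  have h1 := h (β l)
  unfold bd at h1
  exact (Finset.sum_eq_zero_iff.mp h1) l (Finset.mem_filter.mpr ⟨Finset.mem_univ l, rfl⟩)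

theorem bd_zero (j : ι) : bd β j (0 : Fin N →₀ ℕ) = 0 := by
  unfold bd
  simp

theorem split_deg {L : Type u} [Field L] {d : ι → ℕ} {f g h : MvPolynomial (Fin N) L}
    (hf : f.support ⊆ expo β d) (hg : ¬ IsUnit g) (hh : ¬ IsUnit h) (hg0 : g ≠ 0) (hh0 : h ≠ 0)
    (hgh : f = g * h) : ∃ a b : ι → ℕ, (∀ j, a j + b j = d j) ∧ g.support ⊆ expo β a ∧
      h.support ⊆ expo β b ∧ (∃ j, a j ≠ 0) ∧ ∃ j, b j ≠ 0 := by
  classical
  have key : ∀ j, (mk β j g).natDegree + (mk β j h).natDegree ≤ d j := by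
    intro j
    rw [← Polynomial.natDegree_mul (mk_ne β hg0) (mk_ne β hh0), ← map_mul, ← hgh]
    exact natDegree_mk_le β fun m hm => mem_expo'.mp (hf (mem_support_iff.mpr hm)) j
  have unit_of : ∀ {p : MvPolynomial (Fin N) L}, p ≠ 0 → (∀ j, ∀ m, coeff m p ≠ 0 → bd β j m = 0) →
      IsUnit p := by
    intro p hp0 hp
    have h1 : p = C (coeff 0 p) := by
      ext m
      rw [coeff_C]
      split_ifs with hm
      · rw [← hm]
      · by_contra h2
        exact hm (eq_zero_of_bd fun j => hp j m h2).symm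
    rw [isUnit_iff_eq_C_of_isReduced]
    refine ⟨coeff 0 p, isUnit_iff_ne_zero.mpr fun h2 => hp0 ?_, h1⟩
    rw [h1, h2, C_0]
  refine ⟨fun j => (mk β j g).natDegree, fun j => d j - (mk β j g).natDegree, fun j => ?_,
    fun m hm => ?_, fun m hm => ?_, ?_, ?_⟩
  · have := key j
    change (mk β j g).natDegree + (d j - (mk β j g).natDegree) = d j
    omega
  · exact mem_expo'.mpr fun j => bd_le β (mem_support_iff.mp hm)
  · refine mem_expo'.mpr fun j => ?_
    have h1 := bd_le β (j := j) (mem_support_iff.mp hm)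
    have h2 := key j
    omega
  · by_contra hcon
    push Not at hcon
    refine hg (unit_of hg0 fun j m hm => ?_)
    have h1 := bd_le β (j := j) hm
    rw [hcon j] at h1
    omega
  · by_contra hcon
    push Not at hcon
    refine hh (unit_of hh0 fun j m hm => ?_)
    have h1 := bd_le β (j := j) hm
    have h2 := key j
    have h3 := hcon j
    omega

theorem bd_single (j : ι) (i : Fin N) (a : ℕ) :
    bd β j (Finsupp.single i a) = if β i = j then a else 0 := sum_single i a j

theorem bd_sum {κ : Type*} (j : ι) (s : Finset κ) (m : κ → Fin N →₀ ℕ) :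
    bd β j (∑ x ∈ s, m x) = ∑ x ∈ s, bd β j (m x) := by
  classical
  induction s using Finset.induction_on with
  | empty => rw [Finset.sum_empty, Finset.sum_empty, bd_zero]
  | insert x s hx ih => rw [Finset.sum_insert hx, Finset.sum_insert hx, bd_add, ih]

/-- the dimension count -/
theorem card_expo [Fintype ι] {a b d : ι → ℕ} (hN : 2 ≤ N) (hβ : Function.Surjective β)
    (hd : ∀ j, 1 ≤ d j) (hab : ∀ j, a j + b j = d j) (ha : ∃ j, a j ≠ 0) (hb : ∃ j, b j ≠ 0) :
    (expo β a).card + (expo β b).card ≤ (expo β d).card := by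
  classical
  choose l hl using hβ
  have hlinj : Function.Injective l := fun j j' h => by rw [← hl j, ← hl j', h]
  obtain ⟨μ, hμ⟩ : ∃ μ : Fin N →₀ ℕ, μ = ∑ j, Finsupp.single (l j) (a j) := ⟨_, rfl⟩
  have hμbd : ∀ j, bd β j μ = a j := by
    intro j
    rw [hμ, bd_sum, Finset.sum_eq_single j]
    · rw [bd_single, if_pos (hl j)]
    · intro j' _ hj'
      rw [bd_single, if_neg (by rw [hl]; exact hj')]
    · intro h
      exact absurd (Finset.mem_univ j) h
  have hμl : ∀ j, μ (l j) = a j := by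
    intro j
    rw [hμ, Finsupp.finset_sum_apply, Finset.sum_eq_single j]
    · rw [Finsupp.single_eq_same]
    · intro j' _ hj'
      rw [Finsupp.single_apply, if_neg (fun h => hj' (hlinj h))]
    · intro h
      exact absurd (Finset.mem_univ j) h
  -- an additional exponent
  obtain ⟨j, j', l', hj, hj', hl', hne⟩ : ∃ (j j' : ι) (l' : Fin N), a j ≠ 0 ∧ b j' ≠ 0 ∧ β l' = j' ∧
      l' ≠ l j := by
    obtain ⟨j₁, h1⟩ := ha
    obtain ⟨j₂, h2⟩ := hb
    by_cases h12 : j₁ = j₂
    · subst h12
      obtain ⟨l'', hl''⟩ : ∃ l'' : Fin N, l'' ≠ l j₁ := by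
        have : Nontrivial (Fin N) := Fin.nontrivial_iff_two_le.mpr hN
        exact exists_ne _
      by_cases h3 : β l'' = j₁
      · exact ⟨j₁, j₁, l'', h1, h2, h3, hl''⟩
      · by_cases h4 : b (β l'') ≠ 0
        · exact ⟨j₁, β l'', l'', h1, h4, rfl, hl''⟩
        · push Not at h4
          have h5 : a (β l'') ≠ 0 := by
            have := hab (β l'')
            have := hd (β l'')
            omega
          refine ⟨β l'', j₁, l j₁, h5, h2, hl j₁, fun h => h3 (hlinj h).symm⟩
    · exact ⟨j₁, j₂, l j₂, h1, h2, hl j₂, fun h => h12 (hlinj h).symm⟩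
  obtain ⟨e, he⟩ : ∃ e : Fin N →₀ ℕ, e = Finsupp.single l' (d j') := ⟨_, rfl⟩
  obtain ⟨S₂, hS₂⟩ : ∃ S₂, S₂ = (expo β b).image (fun m => m + μ) := ⟨_, rfl⟩
  have hS₂c : S₂.card = (expo β b).card := by
    rw [hS₂, Finset.card_image_of_injective _ (add_left_injective μ)]
  have he1 : e ∉ expo β a := by
    rw [mem_expo']
    intro h
    have h1 := h j'
    rw [he, bd_single, if_pos hl'] at h1
    have := hab j'
    omega
  have he2 : e ∉ S₂ := by
    rw [hS₂, Finset.mem_image]
    rintro ⟨m, -, hm⟩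
    have h1 := congrArg (fun z : Fin N →₀ ℕ => z (l j)) hm
    simp only [Finsupp.add_apply] at h1
    rw [hμl, he, Finsupp.single_apply, if_neg hne] at h1
    omega
  have hint : expo β a ∩ S₂ ⊆ {μ} := by
    intro m hm
    rw [Finset.mem_inter, hS₂, Finset.mem_image] at hm
    obtain ⟨h1, m', h2, rfl⟩ := hm
    rw [mem_expo'] at h1
    have h3 : m' = 0 := eq_zero_of_bd (β := β) fun j => by
      have := h1 j
      rw [bd_add, hμbd] at this
      omega
    rw [h3, zero_add]
    exact Finset.mem_singleton_self _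
  have hsub : insert e (expo β a ∪ S₂) ⊆ expo β d := by
    intro m hm
    rw [Finset.mem_insert, Finset.mem_union] at hm
    rcases hm with rfl | hm | hm
    · rw [mem_expo']
      intro j''
      rw [he, bd_single]
      split_ifs with h
      · rw [← h, hl']
      · exact Nat.zero_le _
    · rw [mem_expo'] at hm ⊢
      intro j''
      have := hm j''
      have := hab j''
      omega
    · rw [hS₂, Finset.mem_image] at hm
      obtain ⟨m', h2, rfl⟩ := hm
      rw [mem_expo'] at h2 ⊢
      intro j''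
      rw [bd_add, hμbd]
      have := h2 j''
      have := hab j''
      omega
  have h1 := Finset.card_le_card hsub
  rw [Finset.card_insert_of_notMem (by
    rw [Finset.mem_union]
    exact fun h => h.elim he1 he2)] at h1
  have h2 := Finset.card_union_add_card_inter (expo β a) S₂
  have h3 := Finset.card_le_card hint
  rw [Finset.card_singleton] at h3
  omega

end Split

section Mult

variable {N : ℕ}

/-- multiplication of polynomials one of which has a coefficient equal to `1` is not dominant -/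
theorem mult_ker (A B D : Finset (Fin N →₀ ℕ)) {α : Fin N →₀ ℕ} (hα : α ∈ A)
    (hcard : A.card + B.card ≤ D.card) : ∃ Φ : MvPolynomial D ℚ, Φ ≠ 0 ∧
      ∀ {L : Type u} [Field L] [CharZero L] (g h : MvPolynomial (Fin N) L), g.support ⊆ A →
        h.support ⊆ B → coeff α g = 1 → sp D (g * h) Φ = 0 := by
  classical
  let κ : Type := {m : A // (m : Fin N →₀ ℕ) ≠ α} ⊕ B
  let G : MvPolynomial (Fin N) (MvPolynomial κ ℚ) :=
    ∑ m : A, monomial (m : Fin N →₀ ℕ) (if h : (m : Fin N →₀ ℕ) = α then 1 else X (Sum.inl ⟨m, h⟩))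
  let H : MvPolynomial (Fin N) (MvPolynomial κ ℚ) :=
    ∑ m : B, monomial (m : Fin N →₀ ℕ) (X (Sum.inr m))
  let μ : MvPolynomial D ℚ →ₐ[ℚ] MvPolynomial κ ℚ := aeval (fun m : D => coeff (m : Fin N →₀ ℕ) (G * H))
  have hninj : ¬ Function.Injective μ := by
    intro hinj
    have h1 : AlgebraicIndependent ℚ (fun m : D => coeff (m : Fin N →₀ ℕ) (G * H)) := hinj
    have h2 := h1.cardinalMk_le_trdeg
    rw [MvPolynomial.trdeg_of_isDomain, Cardinal.lift_id, Cardinal.mk_fintype, Cardinal.mk_fintype,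
      Nat.cast_le, Fintype.card_coe, Fintype.card_sum, Fintype.card_coe] at h2
    have h3 : Fintype.card {m : A // (m : Fin N →₀ ℕ) ≠ α} < A.card := by
      rw [← Fintype.card_coe A]
      exact Fintype.card_subtype_lt (x := ⟨α, hα⟩) (by simp)
    omega
  rw [injective_iff_map_eq_zero] at hninj
  push Not at hninj
  obtain ⟨Φ, hΦ, hΦ0⟩ := hninj
  refine ⟨Φ, hΦ0, fun {L} _ _ g h hg hh hα1 => ?_⟩
  let ev : MvPolynomial κ ℚ →ₐ[ℚ] L := aeval (Sum.elim
    (fun m : {m : A // (m : Fin N →₀ ℕ) ≠ α} => coeff ((m : A) : Fin N →₀ ℕ) g)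
    (fun m : B => coeff (m : Fin N →₀ ℕ) h))
  have hG : MvPolynomial.map (ev : MvPolynomial κ ℚ →+* L) G = g := by
    rw [map_sum]
    have h1 : ∀ m : A, MvPolynomial.map (ev : MvPolynomial κ ℚ →+* L) (monomial (m : Fin N →₀ ℕ)
        (if h : (m : Fin N →₀ ℕ) = α then 1 else X (Sum.inl ⟨m, h⟩))) =
        monomial (m : Fin N →₀ ℕ) (coeff (m : Fin N →₀ ℕ) g) := by
      intro m
      rw [map_monomial]
      congr 1
      split_ifs with h
      · rw [map_one, h, hα1]
      · change ev (X _) = _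
        rw [aeval_X]
        rfl
    rw [Finset.sum_congr rfl fun m _ => h1 m, Finset.sum_coe_sort A (fun m => monomial m (coeff m g)),
      ← Finset.sum_subset hg]
    · exact g.support_sum_monomial_coeff
    · intro m _ hm
      rw [notMem_support_iff.mp hm, monomial_zero]
  have hH : MvPolynomial.map (ev : MvPolynomial κ ℚ →+* L) H = h := by
    rw [map_sum]
    have h1 : ∀ m : B, MvPolynomial.map (ev : MvPolynomial κ ℚ →+* L) (monomial (m : Fin N →₀ ℕ)
        (X (Sum.inr m))) = monomial (m : Fin N →₀ ℕ) (coeff (m : Fin N →₀ ℕ) h) := by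
      intro m
      rw [map_monomial]
      congr 1
      change ev (X _) = _
      rw [aeval_X]
      rfl
    rw [Finset.sum_congr rfl fun m _ => h1 m, Finset.sum_coe_sort B (fun m => monomial m (coeff m h)),
      ← Finset.sum_subset hh]
    · exact h.support_sum_monomial_coeff
    · intro m _ hm
      rw [notMem_support_iff.mp hm, monomial_zero]
  have hcomp : (aeval (fun m : D => coeff (m : Fin N →₀ ℕ) (g * h)) : MvPolynomial D ℚ →ₐ[ℚ] L) =
      ev.comp μ := by
    apply MvPolynomial.algHom_ext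
    intro m
    rw [aeval_X, AlgHom.comp_apply, aeval_X]
    have h1 : MvPolynomial.map (ev : MvPolynomial κ ℚ →+* L) (G * H) = g * h := by
      rw [map_mul, hG, hH]
    rw [← h1, coeff_map]
    rfl
  change (aeval (fun m : D => coeff (m : Fin N →₀ ℕ) (g * h)) : MvPolynomial D ℚ →ₐ[ℚ] L) Φ = 0
  rw [hcomp, AlgHom.comp_apply, hΦ, map_zero]

end Mult

/-- **Generic irreducibility.** -/
theorem gen_irr {N : ℕ} {ι : Type} [DecidableEq ι] [Fintype ι] {β : Fin N → ι} {d : ι → ℕ}
    (hN : 2 ≤ N) (hβ : Function.Surjective β) (hd : ∀ j, 1 ≤ d j) :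
    ∃ Φ : MvPolynomial (expo β d) ℚ, Φ ≠ 0 ∧ ∀ {L : Type u} [Field L] [CharZero L]
      (f : MvPolynomial (Fin N) L), f.support ⊆ expo β d → sp (expo β d) f Φ ≠ 0 →
      Irreducible f := by
  classical
  -- the condition for a multidegree and a coefficient
  have key : ∀ q : (∀ j : ι, Fin (d j + 1)) × expo β d, ∃ Φ : MvPolynomial (expo β d) ℚ, Φ ≠ 0 ∧
      ((∃ j, (q.1 j : ℕ) ≠ 0) → (∃ j, d j - (q.1 j : ℕ) ≠ 0) →
        (q.2 : Fin N →₀ ℕ) ∈ expo β (fun j => (q.1 j : ℕ)) →
      ∀ {L : Type u} [Field L] [CharZero L] (g h : MvPolynomial (Fin N) L),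
        g.support ⊆ expo β (fun j => (q.1 j : ℕ)) → h.support ⊆ expo β (fun j => d j - (q.1 j : ℕ)) →
        coeff (q.2 : Fin N →₀ ℕ) g = 1 → sp (expo β d) (g * h) Φ = 0) := by
    intro q
    by_cases h1 : (∃ j, (q.1 j : ℕ) ≠ 0) ∧ (∃ j, d j - (q.1 j : ℕ) ≠ 0) ∧
        (q.2 : Fin N →₀ ℕ) ∈ expo β (fun j => (q.1 j : ℕ))
    · obtain ⟨h1, h2, h3⟩ := h1
      obtain ⟨Φ, h4, h5⟩ := mult_ker.{u} (expo β (fun j => (q.1 j : ℕ)))
        (expo β (fun j => d j - (q.1 j : ℕ))) (expo β d) h3
        (card_expo hN hβ hd (fun j => by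
          have := (q.1 j).is_lt
          omega) h1 h2)
      exact ⟨Φ, h4, fun _ _ _ {L} _ _ g h => h5 g h⟩
    · refine ⟨1, one_ne_zero, fun h2 h3 h4 => absurd ⟨h2, h3, h4⟩ h1⟩
  choose Φ hΦ hmain using key
  obtain ⟨l₀⟩ : Nonempty (Fin N) := ⟨⟨0, by omega⟩⟩
  refine ⟨X ⟨Finsupp.single l₀ 1, single_mem (hd _)⟩ * ∏ q, Φ q,
    mul_ne_zero (X_ne_zero _) (Finset.prod_ne_zero_iff.mpr fun q _ => hΦ q),
    fun {L} _ _ f hf hsp => ?_⟩
  rw [map_mul, map_prod] at hsp
  have hsp' : ∀ q, sp (expo β d) f (Φ q) ≠ 0 := fun q =>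
    Finset.prod_ne_zero_iff.mp (right_ne_zero_of_mul hsp) q (Finset.mem_univ q)
  have hc1 : coeff (Finsupp.single l₀ 1) f ≠ 0 := by
    intro h0
    apply left_ne_zero_of_mul hsp
    unfold sp
    simp [h0]
  have hf0 : f ≠ 0 := by
    rintro rfl
    exact hc1 (coeff_zero _)
  constructor
  · intro hu
    obtain ⟨r, -, hr⟩ := isUnit_iff_eq_C_of_isReduced.mp hu
    rw [hr, coeff_C, if_neg (fun h => one_ne_zero (Finsupp.single_eq_zero.mp h.symm))] at hc1
    exact hc1 rfl
  · intro g h hgh
    by_contra hcon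
    push Not at hcon
    have hg0 : g ≠ 0 := by
      rintro rfl
      exact hf0 (by rw [hgh, zero_mul])
    have hh0 : h ≠ 0 := by
      rintro rfl
      exact hf0 (by rw [hgh, mul_zero])
    obtain ⟨a, b, hab, hga, hhb, hja, hjb⟩ := split_deg hf hcon.1 hcon.2 hg0 hh0 hgh
    obtain ⟨α, hα⟩ := exists_coeff_ne_zero hg0
    have hαa : α ∈ expo β a := hga (mem_support_iff.mpr hα)
    have hαd : α ∈ expo β d := by
      rw [mem_expo'] at hαa ⊢
      intro j
      have := hαa j
      have := hab j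
      omega
    have hea : (fun j => (((⟨a j, by have := hab j; omega⟩ : Fin (d j + 1)) : Fin (d j + 1)) : ℕ)) = a := rfl
    have heb : (fun j => d j - a j) = b := by
      funext j
      have := hab j
      omega
    have h1 := hmain (fun j => ⟨a j, by have := hab j; omega⟩, ⟨α, hαd⟩) hja (by
      obtain ⟨j, hj⟩ := hjb
      refine ⟨j, ?_⟩
      change d j - a j ≠ 0
      have := hab j
      omega) hαa (C (coeff α g)⁻¹ * g) (C (coeff α g) * h) (by
        refine subset_trans ?_ hga
        intro m hm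
        rw [mem_support_iff, coeff_C_mul] at hm
        exact mem_support_iff.mpr (right_ne_zero_of_mul hm)) (by
        change _ ⊆ expo β (fun j => d j - a j)
        rw [heb]
        refine subset_trans ?_ hhb
        intro m hm
        rw [mem_support_iff, coeff_C_mul] at hm
        exact mem_support_iff.mpr (right_ne_zero_of_mul hm)) (by
        rw [coeff_C_mul, inv_mul_cancel₀ hα])
    have h2 : C (coeff α g)⁻¹ * g * (C (coeff α g) * h) = f := by
      have h3 : C (coeff α g)⁻¹ * g * (C (coeff α g) * h) =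
          C ((coeff α g)⁻¹ * coeff α g) * (g * h) := by
        rw [C_mul]
        ring
      rw [h3, inv_mul_cancel₀ hα, C_1, one_mul, hgh]
    rw [h2] at h1
    exact hsp' _ h1

end Pool.Agent.R867.H
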