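import Pool.Agent.R867.H.Gp
import Pool.Agent.R867.J.Main

/-! Taylor expansion of a polynomial along a line in a coordinate plane. -/

set_option autoImplicit false

namespace Pool.Agent.R867.H

open MvPolynomial Pool.Agent.R867.Mov

universe u v w

section Lin

variable {k : Type u} [Field k] {N : ℕ} {Ω : Type v} [Field Ω] [Algebra k Ω]

/-- the polynomial `g(x + T v)` in the variable `T` -/
noncomputable def lin (x v : Fin N → Ω) : MvPolynomial (Fin N) k →ₐ[k] Polynomial Ω :=
  aeval (fun l => Polynomial.C (x l) + Polynomial.X * Polynomial.C (v l))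

theorem lin_X (x v : Fin N → Ω) (l : Fin N) :
    lin (k := k) x v (X l) = Polynomial.C (x l) + Polynomial.X * Polynomial.C (v l) := by
  unfold lin
  rw [aeval_X]

theorem lin_C (x v : Fin N → Ω) (c : k) :
    lin x v (C c) = Polynomial.C (algebraMap k Ω c) := by
  unfold lin
  rw [aeval_C]
  rfl

theorem lin_eval (x v : Fin N → Ω) (t : Ω) (g : MvPolynomial (Fin N) k) :
    (lin x v g).eval t = aeval (fun l => x l + t * v l) g := by
  induction g using MvPolynomial.induction_on with
  | C c => rw [lin_C, Polynomial.eval_C, aeval_C]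
  | add p q hp hq => rw [map_add, map_add, Polynomial.eval_add, hp, hq]
  | mul_X p i hp =>
    rw [map_mul, map_mul, Polynomial.eval_mul, hp, lin_X, aeval_X, Polynomial.eval_add,
      Polynomial.eval_mul, Polynomial.eval_C, Polynomial.eval_C, Polynomial.eval_X]

theorem lin_zero (x v : Fin N → Ω) (g : MvPolynomial (Fin N) k) :
    (lin x v g).eval 0 = aeval x g := by
  rw [lin_eval]
  congr 2
  funext l
  rw [zero_mul, add_zero]

theorem lin_der {x v : Fin N → Ω} {i j : Fin N} (hij : i ≠ j)
    (hv : ∀ l, l ≠ i → l ≠ j → v l = 0) (g : MvPolynomial (Fin N) k) :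
    Polynomial.derivative (lin x v g) = Polynomial.C (v i) * lin x v (pderiv i g) +
      Polynomial.C (v j) * lin x v (pderiv j g) := by
  induction g using MvPolynomial.induction_on with
  | C c =>
    rw [lin_C, pderiv_C, pderiv_C, map_zero, mul_zero, mul_zero, add_zero, Polynomial.derivative_C]
  | add p q hp hq =>
    simp only [map_add, hp, hq]
    ring
  | mul_X p l hp =>
    rw [map_mul, Polynomial.derivative_mul, hp, pderiv_mul, pderiv_mul, lin_X]
    simp only [map_add, map_mul, lin_X, Polynomial.derivative_C, Polynomial.derivative_X, Polynomial.derivative_mul]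
    by_cases h1 : l = i
    · subst h1
      rw [pderiv_X_self, pderiv_X_of_ne hij, map_one, map_zero]
      ring
    · by_cases h2 : l = j
      · subst h2
        rw [pderiv_X_self, pderiv_X_of_ne (Ne.symm hij), map_one, map_zero]
        ring
      · rw [pderiv_X_of_ne h1, pderiv_X_of_ne h2, hv l h1 h2, map_zero]
        simp only [map_zero]
        ring

theorem lin_natDegree {x v : Fin N → Ω} {i j : Fin N}
    (hv : ∀ l, l ≠ i → l ≠ j → v l = 0) {d : ℕ} {g : MvPolynomial (Fin N) k}
    (hij : i ≠ j) (hd : ∀ m ∈ g.support, m i + m j ≤ d) : (lin x v g).natDegree ≤ d := by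
  classical
  have h1 : lin x v g = ∑ m ∈ g.support, lin x v (monomial m (coeff m g)) := by
    conv_lhs => rw [g.as_sum]
    rw [map_sum]
  rw [h1]
  refine Polynomial.natDegree_sum_le_of_forall_le _ _ fun m hm => ?_
  refine le_trans ?_ (hd m hm)
  rw [monomial_eq, map_mul, lin_C]
  refine (Polynomial.natDegree_C_mul_le _ _).trans ?_
  rw [Finsupp.prod, map_prod]
  refine (Polynomial.natDegree_prod_le _ _).trans ?_
  have h2 : ∀ l ∈ m.support, (lin x v (X l ^ m l : MvPolynomial (Fin N) k)).natDegree ≤
      (if l = i then m i else 0) + (if l = j then m j else 0) := by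
    intro l _
    rw [map_pow, lin_X]
    by_cases h : l = i
    · subst h
      rw [if_pos rfl, if_neg hij, add_zero]
      refine (Polynomial.natDegree_pow_le).trans ?_
      have h3 : (Polynomial.C (x l) + Polynomial.X * Polynomial.C (v l) :
          Polynomial Ω).natDegree ≤ 1 := by
        rw [add_comm, mul_comm]
        exact Polynomial.natDegree_linear_le
      calc _ ≤ m l * 1 := Nat.mul_le_mul_left _ h3
        _ = m l := mul_one _
    · by_cases h' : l = j
      · subst h'
        rw [if_neg h, if_pos rfl, zero_add]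
        refine (Polynomial.natDegree_pow_le).trans ?_
        have h3 : (Polynomial.C (x l) + Polynomial.X * Polynomial.C (v l) :
            Polynomial Ω).natDegree ≤ 1 := by
          rw [add_comm, mul_comm]
          exact Polynomial.natDegree_linear_le
        calc _ ≤ m l * 1 := Nat.mul_le_mul_left _ h3
          _ = m l := mul_one _
      · rw [hv l h h', map_zero, mul_zero, add_zero, ← Polynomial.C_pow, Polynomial.natDegree_C]
        exact Nat.zero_le _
  refine (Finset.sum_le_sum h2).trans ?_
  rw [Finset.sum_add_distrib, Finset.sum_ite_eq', Finset.sum_ite_eq']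
  apply Nat.add_le_add
  · split_ifs
    · exact le_rfl
    · exact Nat.zero_le _
  · split_ifs
    · exact le_rfl
    · exact Nat.zero_le _

theorem eval_cubic [CharZero Ω] {p : Polynomial Ω} (hp : p.natDegree ≤ 3) (t : Ω) :
    6 * p.eval t = 6 * p.eval 0 + 6 * (Polynomial.derivative p).eval 0 * t +
      3 * (Polynomial.derivative (Polynomial.derivative p)).eval 0 * t ^ 2 +
      (Polynomial.derivative (Polynomial.derivative (Polynomial.derivative p))).eval 0 * t ^ 3 := by
  obtain ⟨a, b, c, e, rfl⟩ : ∃ a b c e : Ω, p = Polynomial.C a * Polynomial.X ^ 3 +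
      Polynomial.C b * Polynomial.X ^ 2 + Polynomial.C c * Polynomial.X + Polynomial.C e := by
    refine ⟨p.coeff 3, p.coeff 2, p.coeff 1, p.coeff 0, ?_⟩
    conv_lhs => rw [p.as_sum_range' 4 (by omega)]
    simp only [Finset.sum_range_succ, Finset.sum_range_zero, ← Polynomial.C_mul_X_pow_eq_monomial]
    ring
  simp only [Polynomial.derivative_add, Polynomial.derivative_mul, Polynomial.derivative_C,
    Polynomial.derivative_X_pow, Polynomial.derivative_X, Polynomial.eval_add,
    Polynomial.eval_mul, Polynomial.eval_C, Polynomial.eval_pow, Polynomial.eval_X,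
    Polynomial.eval_zero, zero_mul]
  simp
  ring

end Lin

section Ind

variable {k : Type u} {K : Type v} [Field k] [Field K] [Algebra k K] {N : ℕ}

theorem indep_of_notMem {y : Fin N → K} {i j : Fin N} (hij : i ≠ j)
    (h : AlgebraicIndependent k (fun l : {l : Fin N // l ≠ i ∧ l ≠ j} => y l))
    (hyj : y j ∉ cl k (y '' {l | l ≠ i ∧ l ≠ j})) :
    AlgebraicIndependent k (fun l : {l : Fin N // l ≠ i} => y l) := by
  have h1 : AlgebraicIndepOn k y {l | l ≠ i ∧ l ≠ j} := h
  have h2 := h1.insert hyj
  have h3 : insert j {l : Fin N | l ≠ i ∧ l ≠ j} = {l | l ≠ i} := by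
    ext l
    simp only [Set.mem_insert_iff, Set.mem_ofPred_eq]
    constructor
    · rintro (rfl | h)
      · exact Ne.symm hij
      · exact h.1
    · intro h
      by_cases h4 : l = j
      · exact Or.inl h4
      · exact Or.inr ⟨h, h4⟩
  rw [h3] at h2
  exact h2

/-- the chain rule -/
theorem der_aeval (D : Derivation k K K) {x : Fin N → K} {i j : Fin N} (hij : i ≠ j)
    (hD : ∀ l, l ≠ i → l ≠ j → D (x l) = 0) (g : MvPolynomial (Fin N) k) :
    D (aeval x g) = aeval x (pderiv i g) * D (x i) + aeval x (pderiv j g) * D (x j) := by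
  induction g using MvPolynomial.induction_on with
  | C c =>
    rw [aeval_C, pderiv_C, pderiv_C, map_zero, zero_mul, zero_mul, add_zero, D.map_algebraMap]
  | add p q hp hq =>
    simp only [map_add, hp, hq]
    ring
  | mul_X p l hp =>
    rw [map_mul, Derivation.leibniz, hp, pderiv_mul, pderiv_mul]
    simp only [map_add, map_mul, aeval_X, smul_eq_mul]
    by_cases h1 : l = i
    · subst h1
      rw [pderiv_X_self, pderiv_X_of_ne hij, map_one, map_zero]
      ring
    · by_cases h2 : l = j
      · subst h2
        rw [pderiv_X_self, pderiv_X_of_ne (Ne.symm hij), map_one, map_zero]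
        ring
      · rw [pderiv_X_of_ne h1, pderiv_X_of_ne h2, hD l h1 h2, map_zero]
        ring

variable {f : MvPolynomial (Fin N) k} {ξ : Fin N → K}

theorem not_dvd_of_deg {f g : MvPolynomial (Fin N) k} {j : Fin N}
    (hg : g ≠ 0) (h : degreeOf j g < degreeOf j f) : ¬ f ∣ g := by
  intro h1
  have := degreeOf_le_of_dvd h1 hg j
  omega

theorem GP.pderiv_ne [CharZero k] {ξ : Fin N → K} (h : ∀ P : MvPolynomial (Fin N) k, aeval ξ P = 0 → f ∣ P)
    {j : Fin N} (hj : degreeOf j f ≠ 0) : aeval ξ (pderiv j f) ≠ 0 :=
  fun h0 => not_dvd_pderiv (Nat.one_le_iff_ne_zero.mpr hj) (h _ h0)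

end Ind

end Pool.Agent.R867.H
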