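import Pool.Agent.R867.H.Irr
import Pool.Agent.Y716.M.Defs

/-! Multihomogeneous forms and their affine equations. -/

set_option autoImplicit false

namespace Pool.Agent.R867.H

open MvPolynomial Pool.Agent.Y716.M

universe u v w

variable {r : ℕ} {n d : Fin r → ℕ} {N : ℕ} (ε : (Σ i : Fin r, Fin (n i)) ≃ Fin N)

/-- the block of an affine variable -/
def bet (l : Fin N) : Fin r := (ε.symm l).1

theorem bet_apply (a : Σ i : Fin r, Fin (n i)) : bet ε (ε a) = a.1 := by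
  unfold bet
  rw [ε.symm_apply_apply]

theorem sum_bet {M : Type*} [AddCommMonoid M] (i : Fin r) (g : Fin N → M) :
    ∑ l with bet ε l = i, g l = ∑ j : Fin (n i), g (ε ⟨i, j⟩) := by
  classical
  symm
  refine Finset.sum_bij (fun j _ => ε ⟨i, j⟩) ?_ ?_ ?_ ?_
  · intro j _
    rw [Finset.mem_filter]
    exact ⟨Finset.mem_univ _, bet_apply ε ⟨i, j⟩⟩
  · intro j _ j' _ h
    have := ε.injective h
    simpa using this
  · intro l hl
    rw [Finset.mem_filter] at hl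
    obtain ⟨a, rfl⟩ := ε.surjective l
    rw [bet_apply] at hl
    obtain ⟨i', j⟩ := a
    obtain ⟨-, rfl⟩ := hl
    exact ⟨j, Finset.mem_univ _, rfl⟩
  · intro j _
    rfl

theorem card_bet (i : Fin r) : (Finset.univ.filter fun l => bet ε l = i).card = n i := by
  have := sum_bet ε i (fun _ => 1)
  rw [Finset.sum_const, Finset.sum_const, Finset.card_univ, Fintype.card_fin] at this
  simpa using this

/-- dehomogenization of an exponent -/
noncomputable def dm (s : Var n →₀ ℕ) : Fin N →₀ ℕ :=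
  Finsupp.equivFunOnFinite.symm fun l => s ⟨(ε.symm l).1, (ε.symm l).2.succ⟩

theorem dm_apply (s : Var n →₀ ℕ) (i : Fin r) (j : Fin (n i)) :
    dm ε s (ε ⟨i, j⟩) = s ⟨i, j.succ⟩ := by
  unfold dm
  rw [Finsupp.equivFunOnFinite_symm_apply_apply, ε.symm_apply_apply]

/-- homogenization of an exponent -/
noncomputable def hm (d : Fin r → ℕ) (m : Fin N →₀ ℕ) : Var n →₀ ℕ :=
  Finsupp.equivFunOnFinite.symm fun a => Fin.cases (motive := fun _ => ℕ)
    (d a.1 - bd (bet ε) a.1 m) (fun j => m (ε ⟨a.1, j⟩)) a.2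

theorem hm_zero (m : Fin N →₀ ℕ) (i : Fin r) : hm ε d m ⟨i, 0⟩ = d i - bd (bet ε) i m := by
  unfold hm
  rw [Finsupp.equivFunOnFinite_symm_apply_apply]
  rfl

theorem hm_succ (m : Fin N →₀ ℕ) (i : Fin r) (j : Fin (n i)) :
    hm ε d m ⟨i, j.succ⟩ = m (ε ⟨i, j⟩) := by
  unfold hm
  rw [Finsupp.equivFunOnFinite_symm_apply_apply]
  rfl

theorem bd_dm (s : Var n →₀ ℕ) (i : Fin r) :
    bd (bet ε) i (dm ε s) = ∑ j : Fin (n i), s ⟨i, j.succ⟩ := by
  unfold bd
  rw [sum_bet]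
  exact Finset.sum_congr rfl fun j _ => dm_apply ε s i j

theorem dm_hm (m : Fin N →₀ ℕ) : dm ε (hm ε d m) = m := by
  ext l
  obtain ⟨a, rfl⟩ := ε.surjective l
  obtain ⟨i, j⟩ := a
  rw [dm_apply, hm_succ]

theorem hm_dm {s : Var n →₀ ℕ} (hs : s ∈ monsM n d) : hm ε d (dm ε s) = s := by
  rw [mem_monsM] at hs
  ext a
  obtain ⟨i, j⟩ := a
  refine Fin.cases ?_ (fun j => ?_) j
  · rw [hm_zero, bd_dm]
    have := hs i
    rw [Fin.sum_univ_succ] at this
    omega
  · rw [hm_succ, dm_apply]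

theorem dm_mem {s : Var n →₀ ℕ} (hs : s ∈ monsM n d) : dm ε s ∈ expo (bet ε) d := by
  rw [mem_expo']
  intro i
  rw [bd_dm]
  have := mem_monsM.mp hs i
  rw [Fin.sum_univ_succ] at this
  omega

theorem hm_mem {m : Fin N →₀ ℕ} (hm' : m ∈ expo (bet ε) d) : hm ε d m ∈ monsM n d := by
  rw [mem_monsM]
  intro i
  rw [Fin.sum_univ_succ, hm_zero]
  have h1 : ∑ j : Fin (n i), hm ε d m ⟨i, j.succ⟩ = bd (bet ε) i m := by
    unfold bd
    rw [sum_bet]
    exact Finset.sum_congr rfl fun j _ => hm_succ ε m i j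
  rw [h1]
  have := mem_expo'.mp hm' i
  omega

/-- the affine equation -/
noncomputable def af (d : Fin r → ℕ) (f : MvPolynomial (Var n) ℤ) (L : Type u) [CommRing L] :
    MvPolynomial (Fin N) L :=
  ∑ m ∈ expo (bet ε) d, monomial m ((coeff (hm ε d m) f : ℤ) : L)

/-- the homogeneous coordinates of an affine point -/
def hat {Ω : Type v} [One Ω] (x : Fin N → Ω) (a : Var n) : Ω :=
  Fin.cases (motive := fun _ => Ω) 1 (fun j => x (ε ⟨a.1, j⟩)) a.2

theorem hat_zero {Ω : Type v} [One Ω] (x : Fin N → Ω) (i : Fin r) :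
    hat ε x (⟨i, 0⟩ : Var n) = 1 := rfl

theorem hat_succ {Ω : Type v} [One Ω] (x : Fin N → Ω) (i : Fin r) (j : Fin (n i)) :
    hat ε x (⟨i, j.succ⟩ : Var n) = x (ε ⟨i, j⟩) := rfl

theorem coeff_af (f : MvPolynomial (Var n) ℤ) (L : Type u) [CommRing L] {m : Fin N →₀ ℕ}
    (hm' : m ∈ expo (bet ε) d) : coeff m (af ε d f L) = ((coeff (hm ε d m) f : ℤ) : L) := by
  classical
  unfold af
  rw [coeff_sum]
  simp only [coeff_monomial]
  rw [Finset.sum_ite_eq' (expo (bet ε) d) m, if_pos hm']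

theorem af_support (f : MvPolynomial (Var n) ℤ) (L : Type u) [CommRing L] :
    (af ε d f L).support ⊆ expo (bet ε) d := by
  classical
  intro m hm'
  by_contra hcon
  rw [mem_support_iff] at hm'
  apply hm'
  unfold af
  rw [coeff_sum]
  simp only [coeff_monomial]
  rw [Finset.sum_ite_eq' (expo (bet ε) d) m, if_neg hcon]

theorem prod_hat {Ω : Type v} [CommRing Ω] (x : Fin N → Ω) (s : Var n →₀ ℕ) :
    ∏ a : Var n, hat ε x a ^ s a = ∏ l, x l ^ dm ε s l := by
  rw [Fintype.prod_sigma]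
  have h1 : ∀ i : Fin r, ∏ j : Fin (n i + 1), hat ε x (⟨i, j⟩ : Var n) ^ s ⟨i, j⟩ =
      ∏ j : Fin (n i), x (ε ⟨i, j⟩) ^ dm ε s (ε ⟨i, j⟩) := by
    intro i
    rw [Fin.prod_univ_succ, hat_zero, one_pow, one_mul]
    refine Finset.prod_congr rfl fun j _ => ?_
    rw [hat_succ, dm_apply]
  rw [Finset.prod_congr rfl fun i _ => h1 i,
    ← Fintype.prod_sigma (fun a : Σ i : Fin r, Fin (n i) => x (ε a) ^ dm ε s (ε a))]
  exact Fintype.prod_equiv ε _ _ (fun a => rfl)

theorem aeval_hat {f : MvPolynomial (Var n) ℤ} (hf : ∀ s ∈ f.support, ∀ i : Fin r,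
    ∑ j : Fin (n i + 1), s ⟨i, j⟩ = d i) {L : Type u} [CommRing L] {Ω : Type v} [CommRing Ω]
    [Algebra L Ω] (x : Fin N → Ω) : aeval (hat ε x) f = aeval x (af ε d f L) := by
  classical
  have h1 : aeval (hat ε x) f = ∑ s ∈ monsM n d, ((coeff s f : ℤ) : Ω) * ∏ a, hat ε x a ^ s a := by
    rw [aeval_def, eval₂_eq']
    refine (Finset.sum_subset (fun s hs => mem_monsM.mpr (hf s hs)) ?_).trans ?_
    · intro s _ hs
      rw [notMem_support_iff.mp hs, map_zero, zero_mul]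
    · refine Finset.sum_congr rfl fun s _ => ?_
      rw [eq_intCast]
  have h2 : aeval x (af ε d f L) = ∑ m ∈ expo (bet ε) d, ((coeff (hm ε d m) f : ℤ) : Ω) *
      ∏ l, x l ^ m l := by
    unfold af
    rw [map_sum]
    refine Finset.sum_congr rfl fun m _ => ?_
    rw [aeval_monomial, map_intCast, Finsupp.prod_fintype _ _ (fun _ => pow_zero _)]
  rw [h1, h2]
  refine Finset.sum_bij' (fun s _ => dm ε s) (fun m _ => hm ε d m) (fun s hs => dm_mem ε hs)
    (fun m hm' => hm_mem ε hm') (fun s hs => hm_dm ε hs) (fun m _ => dm_hm ε m) (fun s hs => ?_)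
  rw [hm_dm ε hs, prod_hat]

end Pool.Agent.R867.H
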