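import Pool.Agent.R867.H.Th
import Pool.Agent.R867.H.Homog
import Mathlib.Algebra.MvPolynomial.Funext

/-! Specialization of the universal polynomial over the integers. -/

set_option autoImplicit false

namespace Pool.Agent.R867.H

open MvPolynomial Pool.Agent.R867.Mov

section Spec

variable {N : ℕ} {E : Finset (Fin N →₀ ℕ)}

theorem exists_int_pt {S : Type} [CommRing S] [IsDomain S] [CharZero S]
    {Q : MvPolynomial (Fin N) S} (hQ : Q ≠ 0) :
    ∃ a : Fin N → ℤ, eval (fun i => (a i : S)) Q ≠ 0 := by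
  by_contra hcon
  push Not at hcon
  apply hQ
  refine MvPolynomial.funext_set (fun _ : Fin N => Set.range (fun z : ℤ => (z : S)))
    (fun _ => Set.infinite_range_of_injective Int.cast_injective) ?_
  intro x hx
  rw [map_zero]
  have h1 : ∀ i, ∃ z : ℤ, (z : S) = x i := fun i => hx i (Set.mem_univ i)
  choose a ha using h1
  have h2 := hcon a
  have h3 : (fun i => (a i : S)) = x := funext ha
  rwa [h3] at h2

theorem eval_map_point {S : Type} [CommRing S] (ev : MvPolynomial E ℤ →+* S) (a : Fin N → ℤ)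
    (Q : MvPolynomial (Fin N) (MvPolynomial E ℤ)) :
    eval (fun i => (a i : S)) (MvPolynomial.map ev Q) =
      ev (eval (fun i => ((a i : ℤ) : MvPolynomial E ℤ)) Q) := by
  have h : (eval (fun i => (a i : S))).comp (MvPolynomial.map ev) =
      ev.comp (eval (fun i => ((a i : ℤ) : MvPolynomial E ℤ))) := by
    apply MvPolynomial.ringHom_ext
    · intro s
      rw [RingHom.comp_apply, RingHom.comp_apply, map_C, eval_C, eval_C]
    · intro i
      rw [RingHom.comp_apply, RingHom.comp_apply, map_X, eval_X, eval_X, map_intCast]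
  exact congrArg (fun g : MvPolynomial (Fin N) (MvPolynomial E ℤ) →+* S => g Q) h

/-- the coefficients of the value at an integral point -/
def mval (a : Fin N → ℤ) (m : Fin N →₀ ℕ) : ℤ := ∏ i, a i ^ m i

theorem mval_zero (a : Fin N → ℤ) : mval a 0 = 1 := by
  unfold mval
  simp

theorem eval_uR (a : Fin N → ℤ) :
    eval (fun i => ((a i : ℤ) : MvPolynomial E ℤ)) (uR ℤ E) =
      ∑ m : E, ((mval a m : ℤ) : MvPolynomial E ℤ) * X m := by
  unfold uR
  rw [map_sum]
  refine Finset.sum_congr rfl fun m _ => ?_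
  rw [eval_monomial, Finsupp.prod_fintype _ _ (fun _ => pow_zero _), mul_comm]
  unfold mval
  push_cast
  rfl

/-- the coefficients of the value of the derivative -/
noncomputable def dval (a : Fin N → ℤ) (l : Fin N) (m : Fin N →₀ ℕ) : ℤ :=
  (m l : ℤ) * mval a (m - Finsupp.single l 1)

theorem eval_pd_uR (a : Fin N → ℤ) (l : Fin N) :
    eval (fun i => ((a i : ℤ) : MvPolynomial E ℤ)) (pderiv l (uR ℤ E)) =
      ∑ m : E, ((dval a l m : ℤ) : MvPolynomial E ℤ) * X m := by
  unfold uR
  rw [map_sum, map_sum]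
  refine Finset.sum_congr rfl fun m _ => ?_
  rw [pderiv_monomial, eval_monomial, Finsupp.prod_fintype _ _ (fun _ => pow_zero _)]
  unfold dval mval
  push_cast
  ring

theorem dval_zero (a : Fin N → ℤ) (l : Fin N) : dval a l 0 = 0 := by
  unfold dval
  simp

theorem dval_single (a : Fin N → ℤ) (l : Fin N) : dval a l (Finsupp.single l 1) = 1 := by
  unfold dval
  rw [tsub_self, mval_zero, Finsupp.single_eq_same]
  norm_num

/-- the two nonvanishing conditions -/
noncomputable def W1 (a : Fin N → ℤ) (Q : MvPolynomial (Fin N) (MvPolynomial E ℤ)) :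
    MvPolynomial E ℤ := eval (fun i => ((a i : ℤ) : MvPolynomial E ℤ)) (th ℤ E Q)

/-- the two nonvanishing conditions -/
noncomputable def W2 (E : Finset (Fin N →₀ ℕ)) (a : Fin N → ℤ) (l : Fin N) :
    MvPolynomial E ℤ := eval (fun i => ((a i : ℤ) : MvPolynomial E ℤ)) (pderiv l (uR ℤ E))

theorem W2_ne (a : Fin N → ℤ) {l : Fin N} (hl : Finsupp.single l 1 ∈ E) : W2 E a l ≠ 0 := by
  classical
  intro h0
  unfold W2 at h0
  rw [eval_pd_uR] at h0
  have h1 := congrArg (eval (Pi.single (⟨_, hl⟩ : E) (1 : ℤ))) h0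
  rw [map_sum, map_zero] at h1
  rw [Finset.sum_eq_single (⟨_, hl⟩ : E)] at h1
  · rw [map_mul, map_intCast, eval_X, Pi.single_eq_same, dval_single] at h1
    norm_num at h1
  · intro m _ hm
    rw [map_mul, eval_X, Pi.single_eq_of_ne hm, mul_zero]
  · intro h
    exact absurd (Finset.mem_univ _) h

theorem W1_indep (h0 : (0 : Fin N →₀ ℕ) ∈ E) (a : Fin N → ℤ)
    (Q : MvPolynomial (Fin N) (MvPolynomial E ℤ)) {p : ℕ} (c c' : E → ZMod p)
    (h : ∀ m, m ≠ ⟨0, h0⟩ → c m = c' m) :
    (W1 a Q).eval₂ (Int.castRingHom (ZMod p)) c = (W1 a Q).eval₂ (Int.castRingHom (ZMod p)) c' := by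
  classical
  obtain ⟨H, hH⟩ : ∃ H : (E → ZMod p) → (MvPolynomial (Fin N) (MvPolynomial E ℤ) →+* ZMod p),
    ∀ c, H c = (eval₂Hom (Int.castRingHom (ZMod p)) c).comp
      ((eval (fun i => ((a i : ℤ) : MvPolynomial E ℤ))).comp (th ℤ E)) := ⟨_, fun _ => rfl⟩
  have hHX : ∀ c m, H c (C (X m)) = if (m : Fin N →₀ ℕ) = 0 then
      c m - ∑ m' : E, (mval a m' : ZMod p) * c m' else c m := by
    intro c m
    rw [hH, RingHom.comp_apply, RingHom.comp_apply, th_C]
    unfold thA
    rw [aeval_X]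
    split_ifs
    · rw [map_sub, map_sub, eval_C, eval_uR, coe_eval₂Hom, eval₂_X, eval₂_sum]
      congr 1
      refine Finset.sum_congr rfl fun m' _ => ?_
      rw [eval₂_mul, eval₂_X, ← coe_eval₂Hom, map_intCast]
    · rw [eval_C, coe_eval₂Hom, eval₂_X]
  have hHl : ∀ c l, H c (X l) = (a l : ZMod p) := by
    intro c l
    rw [hH, RingHom.comp_apply, RingHom.comp_apply, th_X, eval_X, map_intCast]
  have hsum : ∀ c : E → ZMod p, ∑ m' : E, (mval a m' : ZMod p) * c m' =
      c ⟨0, h0⟩ + ∑ m' ∈ Finset.univ.erase (⟨0, h0⟩ : E), (mval a m' : ZMod p) * c m' := by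
    intro c
    rw [← Finset.add_sum_erase _ _ (Finset.mem_univ (⟨0, h0⟩ : E)), mval_zero, Int.cast_one,
      one_mul]
  have hHH : H c = H c' := by
    apply MvPolynomial.ringHom_ext
    · intro s
      have h1 : (H c).comp C = (H c').comp C := by
        apply MvPolynomial.ringHom_ext
        · intro z
          exact congrArg (fun g : ℤ →+* ZMod p => g z)
            (RingHom.ext_int (((H c).comp C).comp C) (((H c').comp C).comp C))
        · intro m
          rw [RingHom.comp_apply, RingHom.comp_apply, hHX, hHX]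
          by_cases hm : (m : Fin N →₀ ℕ) = 0
          · rw [if_pos hm, if_pos hm, hsum, hsum]
            have h2 : m = ⟨0, h0⟩ := Subtype.ext hm
            rw [h2]
            have h3 : ∑ m' ∈ Finset.univ.erase (⟨0, h0⟩ : E), (mval a m' : ZMod p) * c m' =
                ∑ m' ∈ Finset.univ.erase (⟨0, h0⟩ : E), (mval a m' : ZMod p) * c' m' := by
              refine Finset.sum_congr rfl fun m' hm' => ?_
              rw [h m' (Finset.ne_of_mem_erase hm')]
            rw [h3]
            ring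
          · rw [if_neg hm, if_neg hm]
            exact h m (fun h2 => hm (congrArg Subtype.val h2))
      exact congrArg (fun g : MvPolynomial E ℤ →+* ZMod p => g s) h1
    · intro l
      rw [hHl, hHl]
  have h1 := congrArg (fun g : MvPolynomial (Fin N) (MvPolynomial E ℤ) →+* ZMod p => g Q) hHH
  simp only [hH, RingHom.comp_apply, coe_eval₂Hom] at h1
  exact h1

theorem W2_indep (h0 : (0 : Fin N →₀ ℕ) ∈ E) (a : Fin N → ℤ) (l : Fin N)
    {p : ℕ} (c c' : E → ZMod p) (h : ∀ m, m ≠ ⟨0, h0⟩ → c m = c' m) :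
    (W2 E a l).eval₂ (Int.castRingHom (ZMod p)) c =
      (W2 E a l).eval₂ (Int.castRingHom (ZMod p)) c' := by
  classical
  unfold W2
  rw [eval_pd_uR, eval₂_sum, eval₂_sum]
  refine Finset.sum_congr rfl fun m _ => ?_
  rw [eval₂_mul, eval₂_mul, eval₂_X, eval₂_X]
  by_cases hm : m = ⟨0, h0⟩
  · rw [hm, dval_zero, Int.cast_zero, eval₂_zero, eval₂_zero, zero_mul, zero_mul]
  · rw [h m hm, ← coe_eval₂Hom, map_intCast, ← coe_eval₂Hom, map_intCast]

/-- the polynomials with given values of the coefficients -/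
noncomputable def gc (Q : MvPolynomial (Fin N) (MvPolynomial E ℤ)) (c : E → ℤ) :
    MvPolynomial (Fin N) ℤ := MvPolynomial.map (eval c) Q

theorem eval_gc (Q : MvPolynomial (Fin N) (MvPolynomial E ℤ)) (c : E → ℤ) (a : Fin N → ℤ) :
    eval a (gc Q c) = eval c (eval (fun i => ((a i : ℤ) : MvPolynomial E ℤ)) Q) := by
  have := eval_map_point (eval c) a Q
  unfold gc
  rw [← this]
  congr 1

theorem eval_gc_uR (c : E → ℤ) (a : Fin N → ℤ) :
    eval a (gc (uR ℤ E) c) = ∑ m : E, mval a m * c m := by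
  rw [eval_gc, eval_uR, map_sum]
  refine Finset.sum_congr rfl fun m _ => ?_
  rw [map_mul, map_intCast, eval_X]
  simp

theorem eval_gc_pd (c : E → ℤ) (a : Fin N → ℤ) (l : Fin N) :
    eval a (pderiv l (gc (uR ℤ E) c)) = eval c (W2 E a l) := by
  unfold W2
  rw [← eval_gc]
  unfold gc
  rw [pderiv_map]

/-- the key congruence -/
theorem not_dvd_gc {p : ℕ} {Q : MvPolynomial (Fin N) (MvPolynomial E ℤ)}
    {c : E → ℤ} {a : Fin N → ℤ} (h1 : (p : ℤ) ∣ ∑ m : E, mval a m * c m)
    (h2 : ¬ (p : ℤ) ∣ eval c (W1 a Q)) : ¬ (p : ℤ) ∣ eval a (gc Q c) := by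
  intro h3
  apply h2
  obtain ⟨G, hG⟩ := th_sub Q
  have h4 : th ℤ E Q = Q - uR ℤ E * G := by rw [← hG]; ring
  unfold W1
  rw [h4, map_sub, map_mul, map_sub, map_mul, ← eval_gc, ← eval_gc, eval_gc_uR]
  exact dvd_sub h3 (h1.mul_right _)

theorem coeff_gc_uR (c : E → ℤ) (m : E) : coeff (m : Fin N →₀ ℕ) (gc (uR ℤ E) c) = c m := by
  unfold gc
  rw [coeff_map, coeff_uR, eval_X]

theorem supp_gc_uR (c : E → ℤ) : (gc (uR ℤ E) c).support ⊆ E := by
  classical
  intro m hm
  by_contra hcon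
  rw [mem_support_iff] at hm
  apply hm
  unfold gc uR
  rw [coeff_map, coeff_sum]
  simp only [coeff_monomial]
  rw [Finset.sum_eq_zero, map_zero]
  intro m' _
  rw [if_neg]
  rintro rfl
  exact hcon m'.2

end Spec

end Pool.Agent.R867.H
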