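import Pool.Agent.R867.H.Geo

/-! Rational points over extensions. -/

set_option autoImplicit false

namespace Pool.Agent.R867.H

open MvPolynomial Pool.Agent.R867.Mov Pool.Agent.R867.D

universe u

variable {k K : Type u} [Field k] [Field K] [Algebra k K] {N : ℕ} {f : MvPolynomial (Fin N) k}
  {ξ : Fin N → K}

theorem main_dens [CharZero k] (hξ : GP f ξ)
    (hirr : Irreducible (MvPolynomial.map (algebraMap k (AlgebraicClosure k)) f))
    (hrel : Rel k ξ Set.univ) :
    ∃ g : MvPolynomial (Fin N) k, ¬ f ∣ g ∧ ∀ (E : Type u) [Field E] [Algebra k E] (c : Fin N → E),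
      aeval c f = 0 → aeval c g ≠ 0 →
      (∃ (n : ℕ) (P : Fin N → FractionRing (MvPolynomial (Fin n) E)),
        ∀ G : MvPolynomial (Fin N) E, aeval P G = 0 ↔ MvPolynomial.map (algebraMap k E) f ∣ G) ∧
      ∀ G : MvPolynomial (Fin N) E, ¬ MvPolynomial.map (algebraMap k E) f ∣ G →
        ∃ e : Fin N → E, aeval e f = 0 ∧ aeval e G ≠ 0 := by
  classical
  have hf : f ≠ 0 := by
    rintro rfl
    exact hirr.ne_zero (map_zero _)
  obtain ⟨l₀, hl₀⟩ : ∃ l, degreeOf l f ≠ 0 := by
    by_contra hcon
    push Not at hcon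
    obtain ⟨m, hm, hc⟩ := exists_coeff hirr.ne_zero hirr.not_isUnit
    rw [coeff_map] at hc
    have h1 : m ∈ f.support := mem_support_iff.mpr ((map_ne_zero _).mp hc)
    apply hm
    ext l
    have h2 := monomial_le_degreeOf l h1
    rw [hcon l] at h2
    exact Nat.le_zero.mp h2
  have hmov : ∀ a : K, a ∉ Set.range (algebraMap k K) → Movable k a := by
    intro a ha
    by_contra hcon
    have h1 : Imm k a := by
      intro n σ
      by_contra h2
      exact hcon ⟨n, σ, h2⟩
    have h2 := hrel a h1
    rw [Set.compl_univ, Set.image_empty, mem_cl_iff, IntermediateField.adjoin_empty] at h2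
    apply ha
    apply closed_of_geom hξ hirr
    have h3 : Algebra.IsAlgebraic k (⊥ : IntermediateField k K) := inferInstance
    exact h2.restrictScalars k
  obtain ⟨g, hg, hmain⟩ := dens_main hξ.gen hmov
  refine ⟨g, fun h => hg ((hξ.zero_iff g).mpr h), ?_⟩
  intro E _ _ c hcf hcg
  obtain ⟨n, d, P, u, hd, hP, hu⟩ := hmain (E := E) c (fun Q hQ => by
    obtain ⟨h, rfl⟩ := (hξ.zero_iff Q).mp hQ
    rw [map_mul, hcf, zero_mul]) hcg
  obtain ⟨fE, hfE⟩ : ∃ fE, fE = MvPolynomial.map (algebraMap k E) f := ⟨_, rfl⟩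
  have hirrE : Irreducible fE := by
    rw [hfE]
    exact irr_ext hirr
  have hPf : aeval P fE = 0 := by
    rw [hfE, aeval_map_algebraMap]
    exact (hP f).mp ((hξ.zero_iff f).mpr dvd_rfl)
  have hdN : d = N - 1 := by
    have h1 := trdeg_eq hξ hf hl₀
    rw [hd] at h1
    exact_mod_cast h1
  have hui : Function.Injective u := fun a b hab => hu.injective (congrArg P hab)
  have hN : 0 < N := l₀.pos
  -- the missing index
  obtain ⟨l, hl⟩ : ∃ l, l ∉ Set.range u := by
    by_contra hcon
    push Not at hcon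
    have h1 : Function.Surjective u := hcon
    have h2 := Fintype.card_le_of_surjective u h1
    rw [Fintype.card_fin, Fintype.card_fin] at h2
    omega
  have hsurj : ∀ i, i ≠ l → i ∈ Set.range u := by
    intro i hi
    by_contra hcon
    have h1 : (Finset.univ.image u).card = d := by
      rw [Finset.card_image_of_injective _ hui, Finset.card_univ, Fintype.card_fin]
    have h2 : Finset.univ.image u ⊆ (Finset.univ.erase l).erase i := by
      intro j hj
      obtain ⟨a, -, rfl⟩ := Finset.mem_image.mp hj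
      refine Finset.mem_erase.mpr ⟨fun h => hcon ⟨a, h⟩, Finset.mem_erase.mpr ⟨fun h => hl ⟨a, h⟩,
        Finset.mem_univ _⟩⟩
    have h3 := Finset.card_le_card h2
    rw [h1, Finset.card_erase_of_mem (Finset.mem_erase.mpr ⟨hi, Finset.mem_univ i⟩),
      Finset.card_erase_of_mem (Finset.mem_univ l), Finset.card_univ, Fintype.card_fin] at h3
    have h4 : 2 ≤ N := by
      have h5 : ({i, l} : Finset (Fin N)).card ≤ Fintype.card (Fin N) := Finset.card_le_univ _
      rw [Finset.card_pair hi, Fintype.card_fin] at h5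
      exact h5
    omega
  choose v hv using hsurj
  have hind : AlgebraicIndependent E (fun i : {i : Fin N // i ≠ l} => P i) := by
    have h1 := hu.comp (fun i : {i : Fin N // i ≠ l} => v i i.2) (fun a b hab => by
      apply Subtype.ext
      rw [← hv a a.2, ← hv b b.2]
      exact congrArg u hab)
    have h2 : (P ∘ u) ∘ (fun i : {i : Fin N // i ≠ l} => v i i.2) =
        (fun i : {i : Fin N // i ≠ l} => P i) := by
      funext i
      change P (u (v i i.2)) = P i
      rw [hv i i.2]
    rw [← h2]
    exact h1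
  have hlf : degreeOf l fE ≠ 0 := by
    intro h0
    have h3 : ∀ m ∈ fE.vars, m ≠ l := by
      rintro m hm rfl
      obtain ⟨e, he, hme⟩ := (mem_vars m).mp hm
      have h4 := monomial_le_degreeOf m he
      have h5 := Finsupp.mem_support_iff.mp hme
      omega
    obtain ⟨q, hq⟩ := exists_rename_eq_of_vars_subset_range fE
      (Subtype.val : {m : Fin N // m ≠ l} → Fin N) Subtype.val_injective
      (fun m hm => ⟨⟨m, h3 m hm⟩, rfl⟩)
    rw [← hq, aeval_rename] at hPf
    have h4 : q = 0 := by
      apply hind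
      rw [map_zero]
      exact hPf
    rw [h4, map_zero] at hq
    exact hirrE.ne_zero hq.symm
  obtain ⟨KE, _, _, ξE, hξE⟩ := exists_gp hirrE
  have hgen : ∀ G : MvPolynomial (Fin N) E, aeval P G = 0 ↔ fE ∣ G :=
    fun G => generic_iff hξE hPf hlf hirrE.ne_zero hind G
  rw [← hfE]
  refine ⟨⟨n, P, hgen⟩, fun G hG => ?_⟩
  have hcE : CharZero E := charZero_of_injective_algebraMap (algebraMap k E).injective
  obtain ⟨e, he, heG⟩ := dense_of_rt (k := E) (x := ξE) (fun Q hQ =>
    (hgen Q).mpr ((hξE.zero_iff Q).mp hQ)) (G := G) (fun h => hG ((hgen G).mp h))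
  refine ⟨e, ?_, heG⟩
  have h1 := he fE ((hξE.zero_iff fE).mpr dvd_rfl)
  rwa [hfE, aeval_map_algebraMap] at h1

end Pool.Agent.R867.H
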