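import Pool.Agent.R867.H.Th
import Pool.Agent.R867.H.DensH

/-! A uniform dense open subset for all the members of the family. -/

set_option autoImplicit false

namespace Pool.Agent.R867.H

open MvPolynomial Pool.Agent.R867.Mov Pool.Agent.R867.D

universe u v w

section Mov

variable {k K : Type u} [Field k] [Field K] [Algebra k K] {N : ℕ} {f : MvPolynomial (Fin N) k}
  {ξ : Fin N → K}

theorem all_mov (hξ : GP f ξ)
    (hirr : Irreducible (MvPolynomial.map (algebraMap k (AlgebraicClosure k)) f))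
    (hrel : Rel k ξ Set.univ) (a : K) (ha : a ∉ Set.range (algebraMap k K)) : Movable k a := by
  by_contra hcon
  have h1 : Imm k a := by
    intro n σ
    by_contra h2
    exact hcon ⟨n, σ, h2⟩
  have h2 := hrel a h1
  rw [Set.compl_univ, Set.image_empty, mem_cl_iff, IntermediateField.adjoin_empty] at h2
  apply ha
  apply closed_of_geom hξ hirr
  have h3 : Algebra.IsAlgebraic k (⊥ : IntermediateField k K) := inferInstance
  exact h2.restrictScalars k

end Mov

section Clear

/-- clearing denominators -/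
theorem clear_frac {A : Type u} [CommRing A] [IsDomain A] {F : Type w} [Field F] (ψ : A →+* F)
    (hfrac : ∀ c : F, ∃ p q : A, q ≠ 0 ∧ ψ q * c = ψ p) {σ : Type v}
    (a : MvPolynomial σ F) : ∃ (s : A) (a' : MvPolynomial σ A), s ≠ 0 ∧
      C (ψ s) * a = MvPolynomial.map ψ a' := by
  induction a using MvPolynomial.induction_on with
  | C c =>
    obtain ⟨p, q, hq, hpq⟩ := hfrac c
    refine ⟨q, C p, hq, ?_⟩
    rw [map_C, ← C_mul, hpq]
  | add p q hp hq =>
    obtain ⟨s, a', hs, h⟩ := hp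
    obtain ⟨s', a'', hs', h'⟩ := hq
    refine ⟨s * s', C s' * a' + C s * a'', mul_ne_zero hs hs', ?_⟩
    simp only [map_add, map_mul, map_C, ← h, ← h']
    ring
  | mul_X p i hp =>
    obtain ⟨s, a', hs, h⟩ := hp
    refine ⟨s, a' * X i, hs, ?_⟩
    rw [map_mul, ← h, map_X]
    ring

theorem exists_frac_field (A : Type) [CommRing A] [IsDomain A] : ∃ (F : Type) (_ : Field F)
    (ψ : A →+* F), Function.Injective ψ ∧ ∀ c : F, ∃ p q : A, q ≠ 0 ∧ ψ q * c = ψ p := by
  refine ⟨FractionRing A, inferInstance, algebraMap A _, IsFractionRing.injective A _, fun c => ?_⟩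
  obtain ⟨p, q, hq, hpq⟩ := IsFractionRing.div_surjective (A := A) c
  have hq0 : q ≠ 0 := nonZeroDivisors.ne_zero hq
  refine ⟨p, q, hq0, ?_⟩
  rw [← hpq, mul_div_cancel₀]
  rw [Ne, map_eq_zero_iff _ (IsFractionRing.injective A _)]
  exact hq0

theorem clear_int {σ : Type v} (a : MvPolynomial σ ℚ) : ∃ (s : ℤ) (a' : MvPolynomial σ ℤ), s ≠ 0 ∧
      C (s : ℚ) * a = MvPolynomial.map (Int.castRingHom ℚ) a' := by
  induction a using MvPolynomial.induction_on with
  | C c =>
    refine ⟨c.den, C c.num, by exact_mod_cast c.den_ne_zero, ?_⟩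
    rw [map_C, ← C_mul]
    congr 1
    rw [mul_comm]
    push_cast
    exact Rat.mul_den_eq_num c
  | add p q hp hq =>
    obtain ⟨s, a', hs, h⟩ := hp
    obtain ⟨s', a'', hs', h'⟩ := hq
    refine ⟨s * s', C s' * a' + C s * a'', mul_ne_zero hs hs', ?_⟩
    rw [map_add, map_mul, map_mul, map_C, map_C, ← h, ← h', Int.cast_mul, C_mul,
      Int.coe_castRingHom]
    ring
  | mul_X p i hp =>
    obtain ⟨s, a', hs, h⟩ := hp
    refine ⟨s, a' * X i, hs, ?_⟩
    rw [map_mul, ← h, map_X]
    ring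

end Clear

section Wrap

/-- a version of the specialization theorem without algebra structures on the rational function
fields -/
theorem specR {k K : Type u} [Field k] [Field K] [Algebra k K] {N n : ℕ} {x : Fin N → K}
    (hx : IntermediateField.adjoin k (Set.range x) = ⊤) (φ : K →+* Rt n K)
    (hφ : ∀ a : k, φ (algebraMap k K a) = algebraMap K (Rt n K) (algebraMap k K a))
    (J : Set (Fin N)) (hJ : AlgebraicIndependent K (fun i : J => φ (x i))) :
    ∃ g : MvPolynomial (Fin N) k, aeval x g ≠ 0 ∧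
      ∀ {E : Type u} [Field E] [Algebra k E] (c : Fin N → E),
        (∀ Q : MvPolynomial (Fin N) k, aeval x Q = 0 → aeval c Q = 0) → aeval c g ≠ 0 →
        ∃ yc : Fin N → Rt n E,
          (∀ w : MvPolynomial (Fin N ⊕ (Fin N ⊕ Fin n)) k,
            w.eval₂ ((algebraMap K (Rt n K)).comp (algebraMap k K)) (fam x (φ ∘ x)) = 0 →
            w.eval₂ ((algebraMap E (Rt n E)).comp (algebraMap k E)) (fam c yc) = 0) ∧
          AlgebraicIndependent E (fun i : J => yc i) := by
  obtain ⟨φ', hφ'⟩ : ∃ φ' : K →ₐ[k] Rt n K, ∀ z, φ' z = φ z := by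
    refine ⟨{ toRingHom := φ, commutes' := fun r => ?_ }, fun z => rfl⟩
    rw [IsScalarTower.algebraMap_apply k K (Rt n K)]
    exact hφ r
  have h1 : (⇑φ' ∘ x) = (⇑φ ∘ x) := by
    funext i
    exact hφ' (x i)
  obtain ⟨g, hg, h⟩ := specE hx φ' J (by
    have h2 : (fun i : J => φ' (x i)) = fun i : J => φ (x i) := by
      funext i
      exact hφ' _
    rw [h2]
    exact hJ)
  refine ⟨g, hg, fun {E} _ _ c hc hcg => ?_⟩
  obtain ⟨yc, h2, h3⟩ := h c hc hcg
  refine ⟨yc, fun w hw => ?_, h3⟩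
  have h4 := h2 w (by
    rw [h1, aeval_def, IsScalarTower.algebraMap_eq k K (Rt n K)]
    exact hw)
  rw [aeval_def, IsScalarTower.algebraMap_eq k E (Rt n E)] at h4
  exact h4

end Wrap

section Eval

variable {N : ℕ} {R : Type u} [CommRing R] {E : Finset (Fin N →₀ ℕ)}

theorem uR_eval {L : Type v} [Field L] {f : MvPolynomial (Fin N) L} (hf : f.support ⊆ E)
    (φ : MvPolynomial E R →+* L) (hφ : ∀ m : E, φ (X m) = coeff (m : Fin N →₀ ℕ) f)
    {Ω : Type w} [Field Ω] [Algebra L Ω] (x : Fin N → Ω) :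
    (uR R E).eval₂ ((algebraMap L Ω).comp φ) x = aeval x f := by
  classical
  have h1 : MvPolynomial.map φ (uR R E) = f := by
    unfold uR
    rw [map_sum]
    have h1 : ∀ m : E, MvPolynomial.map φ (monomial (m : Fin N →₀ ℕ) (X m)) =
        monomial (m : Fin N →₀ ℕ) (coeff (m : Fin N →₀ ℕ) f) := by
      intro m
      rw [map_monomial, hφ]
    rw [Finset.sum_congr rfl (fun m _ => h1 m), Finset.sum_coe_sort E (fun m => monomial m (coeff m f)),
      ← Finset.sum_subset hf]
    · exact f.support_sum_monomial_coeff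
    · intro m _ hm
      rw [notMem_support_iff.mp hm, monomial_zero]
  rw [aeval_def, ← h1, eval₂_map]

variable {T : ℕ} (e : E ⊕ Fin N ≃ Fin T)

/-- polynomials in all the coordinates -/
noncomputable def rho (R : Type u) [CommRing R] : MvPolynomial (Fin T) R →+*
    MvPolynomial (Fin N) (MvPolynomial E R) :=
  eval₂Hom ((C : MvPolynomial E R →+* MvPolynomial (Fin N) (MvPolynomial E R)).comp C)
    (fun t => Sum.elim (fun m => C (X m)) X (e.symm t))

theorem rho_eval {Ω : Type v} [CommRing Ω] (φ : MvPolynomial E R →+* Ω) (x : Fin N → Ω)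
    (Q : MvPolynomial (Fin T) R) : (rho e R Q).eval₂ φ x =
      Q.eval₂ (φ.comp C) (fun t => Sum.elim (fun m => φ (X m)) x (e.symm t)) := by
  have h1 : (eval₂Hom φ x).comp (rho e R) =
      eval₂Hom (φ.comp C) (fun t => Sum.elim (fun m => φ (X m)) x (e.symm t)) := by
    apply MvPolynomial.ringHom_ext
    · intro a
      unfold rho
      simp
    · intro t
      unfold rho
      rw [RingHom.comp_apply, coe_eval₂Hom, coe_eval₂Hom, coe_eval₂Hom, eval₂_X, eval₂_X]
      rcases e.symm t with m | i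
      · simp
      · simp
  exact congrArg (fun h : MvPolynomial (Fin T) R →+* Ω => h Q) h1

end Eval

section Main

variable {N : ℕ} {ι : Type} [DecidableEq ι] [Fintype ι] {β : Fin N → ι} {d : ι → ℕ}

theorem expo_zero_mem : (0 : Fin N →₀ ℕ) ∈ expo β d :=
  mem_expo'.mpr fun j => by rw [bd_zero]; exact Nat.zero_le _

/-- **Uniform version.** -/
theorem unif (hN : 2 ≤ N) (hβ : Function.Surjective β) (hd1 : ∀ j, 1 ≤ d j) (hd3 : ∀ j, d j ≤ 3)
    (hn : ∀ j, d j ≤ (Finset.univ.filter fun l => β l = j).card + 1)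
    (hn0 : ∃ j, d j ≤ (Finset.univ.filter fun l => β l = j).card) :
    ∃ g : MvPolynomial (Fin N) (MvPolynomial (expo β d) ℤ), th ℤ (expo β d) g ≠ 0 ∧
      ∀ {L : Type} [Field L] [CharZero L] (f : MvPolynomial (Fin N) L) (x : Fin N → L),
        f.support ⊆ expo β d → aeval x f = 0 →
        g.eval₂ (eval₂Hom (Int.castRingHom L) (fun m : expo β d => coeff (m : Fin N →₀ ℕ) f)) x ≠ 0 →
        ∃ (n : ℕ) (P : Fin N → Rt n L) (l : Fin N), aeval P f = 0 ∧
          AlgebraicIndependent L (fun i : {i : Fin N // i ≠ l} => P i) := by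
  classical
  obtain ⟨ku, hku, ψ₀, hψ₀, hfrac⟩ := exists_frac_field (MvPolynomial (expo β d) ℚ)
  obtain ⟨Fu, hFu⟩ : ∃ Fu, Fu = MvPolynomial.map ψ₀ (uR ℚ (expo β d)) := ⟨_, rfl⟩
  have hcoeff : ∀ m : expo β d, coeff (m : Fin N →₀ ℕ) Fu = ψ₀ (X m) := by
    intro m
    rw [hFu, coeff_map, coeff_uR]
  have hsupp : Fu.support ⊆ expo β d := by
    intro m hm
    by_contra hcon
    rw [mem_support_iff] at hm
    apply hm
    rw [hFu, coeff_map]
    unfold uR
    rw [coeff_sum]
    simp only [coeff_monomial]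
    rw [Finset.sum_eq_zero, map_zero]
    intro m' _
    rw [if_neg]
    rintro rfl
    exact hcon m'.2
  have hcku : CharZero ku := charZero_of_injective_ringHom (f := ψ₀.comp C)
    (hψ₀.comp (C_injective _ _))
  have hsp : sp (expo β d) Fu = ψ₀ := by
    refine MvPolynomial.ringHom_ext' (Subsingleton.elim _ _) fun m => ?_
    rw [← hcoeff]
    unfold sp
    simp
  obtain ⟨Φ₁, hΦ₁, hcore⟩ := core_rel.{0} (β := β) (d := d) hd1 hd3 hn hn0
  obtain ⟨Φ₂, hΦ₂, hirr⟩ := gen_irr.{0} (β := β) (d := d) hN hβ hd1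
  have hgeo : Irreducible (MvPolynomial.map (algebraMap ku (AlgebraicClosure ku)) Fu) := by
    have hcac : CharZero (AlgebraicClosure ku) :=
      charZero_of_injective_algebraMap (algebraMap ku (AlgebraicClosure ku)).injective
    refine hirr _ (fun m hm => hsupp ?_) ?_
    · rw [mem_support_iff] at hm ⊢
      intro h0
      rw [coeff_map, h0, map_zero] at hm
      exact hm rfl
    · have h1 : sp (expo β d) (MvPolynomial.map (algebraMap ku (AlgebraicClosure ku)) Fu) =
          (algebraMap ku (AlgebraicClosure ku)).comp ψ₀ := by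
        refine MvPolynomial.ringHom_ext' (Subsingleton.elim _ _) fun m => ?_
        rw [RingHom.comp_apply, ← hcoeff, ← coeff_map]
        unfold sp
        simp
      rw [h1, RingHom.comp_apply]
      exact (map_ne_zero _).mpr ((map_ne_zero_iff _ hψ₀).mpr hΦ₂)
  obtain ⟨K, _, _, ξ, hξ⟩ := exists_gp (irr_of_map hgeo)
  have hrel := hcore Fu ξ hsupp (by
    rw [hsp]
    exact (map_ne_zero_iff _ hψ₀).mpr hΦ₁) hξ
  have hmov := all_mov hξ hgeo hrel
  obtain ⟨n, φ, hφ⟩ := core (bound hξ.gen) hmov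
  obtain ⟨l₀⟩ : Nonempty (Fin N) := ⟨⟨0, by omega⟩⟩
  have hFu0 : Fu ≠ 0 := (irr_of_map hgeo).ne_zero
  have hl₀ : degreeOf l₀ Fu ≠ 0 := by
    intro h0
    have h1 : Finsupp.single l₀ 1 ∈ Fu.support := by
      rw [mem_support_iff, hcoeff ⟨_, single_mem (hd1 _)⟩]
      exact (map_ne_zero_iff _ hψ₀).mpr (X_ne_zero _)
    have h2 := monomial_le_degreeOf l₀ h1
    rw [h0, Finsupp.single_eq_same] at h2
    omega
  have hindK := indep_of_lin hφ (indep_of hFu0 hl₀ (fun P => (hξ.zero_iff P).mp))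
  have hcK : CharZero K := charZero_of_injective_algebraMap (algebraMap ku K).injective
  -- coordinates over `ℚ`
  obtain ⟨T, ⟨e⟩⟩ : ∃ T, Nonempty (expo β d ⊕ Fin N ≃ Fin T) := ⟨_, ⟨Fintype.equivFin _⟩⟩
  obtain ⟨ψ, hψdef⟩ : ∃ ψ : MvPolynomial (expo β d) ℚ →+* K, ψ = (algebraMap ku K).comp ψ₀ :=
    ⟨_, rfl⟩
  have hψa : ∀ a, ψ a = algebraMap ku K (ψ₀ a) := fun a => by rw [hψdef]; rfl
  obtain ⟨xh, hxhdef⟩ : ∃ xh : Fin T → K, xh = fun t => Sum.elim (fun m => ψ (X m)) ξ (e.symm t) :=
    ⟨_, rfl⟩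
  have hxhl : ∀ m, xh (e (Sum.inl m)) = ψ (X m) := by
    intro m
    rw [hxhdef]
    change Sum.elim _ _ (e.symm (e (Sum.inl m))) = _
    rw [e.symm_apply_apply]
    rfl
  have hxhr : ∀ i, xh (e (Sum.inr i)) = ξ i := by
    intro i
    rw [hxhdef]
    change Sum.elim _ _ (e.symm (e (Sum.inr i))) = _
    rw [e.symm_apply_apply]
    rfl
  have hxh : ∀ Q : MvPolynomial (Fin T) ℚ, aeval xh Q = (rho e ℚ Q).eval₂ ψ ξ := by
    intro Q
    rw [rho_eval, aeval_def, hxhdef]
    congr 1
    exact Subsingleton.elim _ _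
  have hxtop : IntermediateField.adjoin ℚ (Set.range xh) = ⊤ := by
    rw [eq_top_iff]
    intro z _
    have h1 : ∀ a : MvPolynomial (expo β d) ℚ, ψ a ∈ IntermediateField.adjoin ℚ (Set.range xh) := by
      intro a
      induction a using MvPolynomial.induction_on with
      | C a =>
        have h2 : ψ (C a) = algebraMap ℚ K a :=
          congrArg (fun h : ℚ →+* K => h a) (Subsingleton.elim (ψ.comp C) (algebraMap ℚ K))
        rw [h2]
        exact IntermediateField.algebraMap_mem _ _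
      | add p q hp hq => rw [map_add]; exact AddMemClass.add_mem hp hq
      | mul_X p m hp =>
        rw [map_mul]
        exact mul_mem hp (IntermediateField.subset_adjoin _ _ ⟨e (Sum.inl m), hxhl m⟩)
    have h2 : ∀ P : MvPolynomial (Fin N) ku, aeval ξ P ∈ IntermediateField.adjoin ℚ (Set.range xh) := by
      intro P
      induction P using MvPolynomial.induction_on with
      | C a =>
        obtain ⟨p, q, hq, hpq⟩ := hfrac a
        have hq' : ψ₀ q ≠ 0 := (map_ne_zero_iff _ hψ₀).mpr hq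
        have h3 : a = ψ₀ p / ψ₀ q := by
          rw [eq_div_iff hq', mul_comm, hpq]
        rw [aeval_C, h3, map_div₀, ← hψa, ← hψa]
        exact div_mem (h1 p) (h1 q)
      | add p q hp hq => rw [map_add]; exact AddMemClass.add_mem hp hq
      | mul_X p i hp =>
        rw [map_mul, aeval_X]
        exact mul_mem hp (IntermediateField.subset_adjoin _ _ ⟨e (Sum.inr i), hxhr i⟩)
    obtain ⟨P, Q, hQ, hPQ⟩ := exists_frac hξ.gen z
    have h3 : z = aeval ξ P / aeval ξ Q := by
      rw [eq_div_iff hQ, hPQ]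
    rw [h3]
    exact div_mem (h2 P) (h2 Q)
  obtain ⟨J, hJdef⟩ : ∃ J : Set (Fin T), J = {t | ∃ i, i ≠ l₀ ∧ e.symm t = Sum.inr i} := ⟨_, rfl⟩
  have hJi : ∀ t : J, ∃ i, i ≠ l₀ ∧ e.symm t = Sum.inr i := by
    rintro ⟨t, ht⟩
    rw [hJdef] at ht
    exact ht
  choose iJ hiJ hiJ' using hJi
  have hJ : AlgebraicIndependent K (fun t : J => (φ : K →+* Rt n K) (xh t)) := by
    have h1 := hindK.comp (fun t : J => (⟨iJ t, hiJ t⟩ : {i : Fin N // i ≠ l₀})) (fun a b hab => by
      have h2 : iJ a = iJ b := congrArg Subtype.val hab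
      apply Subtype.ext
      apply e.symm.injective
      rw [hiJ', hiJ', h2])
    have h2 : (fun t : J => (φ : K →+* Rt n K) (xh t)) = (⇑φ ∘ fun i : {i : Fin N // i ≠ l₀} => ξ i) ∘
        (fun t : J => (⟨iJ t, hiJ t⟩ : {i : Fin N // i ≠ l₀})) := by
      funext t
      rw [hxhdef]
      change φ (Sum.elim _ _ (e.symm t)) = φ (ξ (iJ t))
      rw [hiJ']
      rfl
    rw [h2]
    exact h1
  obtain ⟨g, hg, hspec⟩ := specR (k := ℚ) hxtop (φ : K →+* Rt n K) (fun a => by
    have h1 : ((φ : K →+* Rt n K).comp (algebraMap ℚ K)) =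
        ((algebraMap K (Rt n K)).comp (algebraMap ℚ K)) := Subsingleton.elim _ _
    exact congrArg (fun h : ℚ →+* Rt n K => h a) h1) J hJ
  obtain ⟨s, g', hs, hgg'⟩ := clear_int g
  have hs' : (s : ℚ) ≠ 0 := by exact_mod_cast hs
  refine ⟨rho e ℤ g', ?_, ?_⟩
  · intro h0
    obtain ⟨H, hH⟩ := dvd_of_th h0
    obtain ⟨ψZ, hψZ⟩ : ∃ ψZ : MvPolynomial (expo β d) ℤ →+* ku,
      ψZ = ψ₀.comp (MvPolynomial.map (Int.castRingHom ℚ)) := ⟨_, rfl⟩
    have h1 : (uR ℤ (expo β d)).eval₂ ((algebraMap ku K).comp ψZ) ξ = 0 := by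
      rw [uR_eval hsupp ψZ (fun m => by rw [hcoeff, hψZ, RingHom.comp_apply, map_X])]
      exact (hξ.zero_iff _).mpr dvd_rfl
    have h2 := congrArg (fun Q => eval₂ ((algebraMap ku K).comp ψZ) ξ Q) hH
    simp only [eval₂_mul] at h2
    rw [h1, zero_mul, rho_eval] at h2
    have h3 : (fun t => Sum.elim (fun m => ((algebraMap ku K).comp ψZ) (X m)) ξ (e.symm t)) = xh := by
      rw [hxhdef]
      funext t
      rcases e.symm t with m | i
      · change (algebraMap ku K) (ψZ (X m)) = ψ (X m)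
        rw [hψZ, RingHom.comp_apply, map_X, hψa]
      · rfl
    rw [h3] at h2
    have h4 : aeval xh (C (s : ℚ) * g) = 0 := by
      rw [hgg', aeval_def, eval₂_map, ← h2]
      congr 1
      exact Subsingleton.elim _ _
    rw [map_mul, aeval_C] at h4
    exact mul_ne_zero ((map_ne_zero _).mpr hs') hg h4
  · intro L _ _ f x hf hfx hgne
    obtain ⟨χ, hχ⟩ : ∃ χ : MvPolynomial (expo β d) ℚ →+* L,
      χ = eval₂Hom (algebraMap ℚ L) (fun m : expo β d => coeff (m : Fin N →₀ ℕ) f) := ⟨_, rfl⟩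
    have hχX : ∀ m : expo β d, χ (X m) = coeff (m : Fin N →₀ ℕ) f := by
      intro m
      rw [hχ, coe_eval₂Hom, eval₂_X]
    obtain ⟨c, hc⟩ : ∃ c : Fin T → L, c = fun t => Sum.elim
      (fun m : expo β d => coeff (m : Fin N →₀ ℕ) f) x (e.symm t) := ⟨_, rfl⟩
    have hcQ : ∀ Q : MvPolynomial (Fin T) ℚ, aeval c Q = (rho e ℚ Q).eval₂ χ x := by
      intro Q
      rw [rho_eval, aeval_def, hc]
      have h1 : (fun m : expo β d => χ (X m)) = fun m : expo β d => coeff (m : Fin N →₀ ℕ) f :=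
        funext hχX
      rw [h1]
      congr 1
      exact Subsingleton.elim _ _
    have hufx : (uR ℚ (expo β d)).eval₂ χ x = 0 := by
      have h1 := uR_eval hf χ hχX (Ω := L) x
      rw [hfx] at h1
      exact h1
    have hpt : ∀ Q : MvPolynomial (Fin T) ℚ, aeval xh Q = 0 → aeval c Q = 0 := by
      intro Q hQ
      rw [hxh] at hQ
      have h1 : Fu ∣ MvPolynomial.map ψ₀ (rho e ℚ Q) := by
        rw [← hξ.zero_iff, aeval_def, eval₂_map, ← hψdef]
        exact hQ
      obtain ⟨H, hH⟩ := h1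
      obtain ⟨s', H', hs', hH'⟩ := clear_frac ψ₀ hfrac H
      have h2 : C s' * rho e ℚ Q = uR ℚ (expo β d) * H' := by
        apply MvPolynomial.map_injective ψ₀ hψ₀
        rw [map_mul, map_mul, map_C, hH, ← hH', ← hFu]
        ring
      obtain ⟨H₂, hH₂⟩ := uR_dvd (expo_zero_mem (β := β) (d := d)) (single_mem (i := l₀) (hd1 _)) hs'
        ⟨H', h2⟩
      rw [hcQ, hH₂, eval₂_mul, hufx, zero_mul]
    have hgc : aeval c g ≠ 0 := by
      intro h0
      apply hgne
      have h1 : aeval c (C (s : ℚ) * g) = 0 := by rw [map_mul, h0, mul_zero]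
      rw [hgg', aeval_def, eval₂_map] at h1
      rw [rho_eval, ← h1, hc]
      have h2 : (fun m : expo β d => (eval₂Hom (Int.castRingHom L)
          (fun m : expo β d => coeff (m : Fin N →₀ ℕ) f)) (X m)) =
          fun m : expo β d => coeff (m : Fin N →₀ ℕ) f := by
        funext m
        rw [coe_eval₂Hom, eval₂_X]
      rw [h2]
      congr 1
      exact Subsingleton.elim _ _
    obtain ⟨yc, hyc, hind⟩ := hspec c hpt hgc
    have hcl : ∀ m, c (e (Sum.inl m)) = coeff (m : Fin N →₀ ℕ) f := by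
      intro m
      rw [hc]
      change Sum.elim _ _ (e.symm (e (Sum.inl m))) = _
      rw [e.symm_apply_apply]
      rfl
    have hycl : ∀ m : expo β d, yc (e (Sum.inl m)) =
        algebraMap L (Rt n L) (coeff (m : Fin N →₀ ℕ) f) := by
      intro m
      have h1 := hyc (X (Sum.inr (Sum.inl (e (Sum.inl m)))) - X (Sum.inl (e (Sum.inl m)))) (by
        rw [eval₂_sub, eval₂_X, eval₂_X]
        change φ (xh (e (Sum.inl m))) - algebraMap K (Rt n K) (xh (e (Sum.inl m))) = 0
        rw [hxhl, hψa, φ.commutes, ← IsScalarTower.algebraMap_apply, sub_self])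
      rw [eval₂_sub, eval₂_X, eval₂_X] at h1
      change yc (e (Sum.inl m)) - algebraMap L (Rt n L) (c (e (Sum.inl m))) = 0 at h1
      rw [hcl] at h1
      exact sub_eq_zero.mp h1
    -- the universal equation in the coordinates
    obtain ⟨W, hW⟩ : ∃ W : MvPolynomial (Fin T) ℚ, W = (uR ℚ (expo β d)).eval₂
      (eval₂Hom C (fun m => X (e (Sum.inl m))) : MvPolynomial (expo β d) ℚ →+* MvPolynomial (Fin T) ℚ)
      (fun i => X (e (Sum.inr i))) := ⟨_, rfl⟩
    have hWe : ∀ {Ω : Type} [Field Ω] (ι : ℚ →+* Ω) (z : Fin T → Ω), W.eval₂ ι z =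
        (uR ℚ (expo β d)).eval₂ (eval₂Hom ι (fun m => z (e (Sum.inl m)))) (fun i => z (e (Sum.inr i))) := by
      intro Ω _ ι z
      rw [hW]
      have h1 := MvPolynomial.hom_eval₂ (uR ℚ (expo β d))
        (eval₂Hom C (fun m => X (e (Sum.inl m))) : MvPolynomial (expo β d) ℚ →+* MvPolynomial (Fin T) ℚ)
        (eval₂Hom ι z) (fun i => X (e (Sum.inr i)))
      rw [coe_eval₂Hom] at h1
      rw [h1]
      congr 1
      · apply MvPolynomial.ringHom_ext
        · intro a
          simp
        · intro m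
          simp
      · funext i
        rw [eval₂_X]
    have hW0 : aeval (fun i => yc (e (Sum.inr i))) f = 0 := by
      have h1 := hyc (rename (Sum.inr ∘ Sum.inl) W) (by
        rw [eval₂_rename, hWe]
        have h2 : (eval₂Hom ((algebraMap K (Rt n K)).comp (algebraMap ℚ K))
            (fun m => (fam xh ((φ : K →+* Rt n K) ∘ xh) ∘ (Sum.inr ∘ Sum.inl)) (e (Sum.inl m)))) =
            (algebraMap ku (Rt n K)).comp ψ₀ := by
          apply MvPolynomial.ringHom_ext
          · intro a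
            rw [coe_eval₂Hom, eval₂_C]
            exact congrArg (fun h : ℚ →+* Rt n K => h a) (Subsingleton.elim _
              (((algebraMap ku (Rt n K)).comp ψ₀).comp C))
          · intro m
            rw [coe_eval₂Hom, eval₂_X, RingHom.comp_apply]
            change φ (xh (e (Sum.inl m))) = _
            rw [hxhl, hψa, φ.commutes]
        rw [h2, uR_eval hsupp ψ₀ (fun m => (hcoeff m).symm)]
        have h3 : (fun i => (fam xh ((φ : K →+* Rt n K) ∘ xh) ∘ (Sum.inr ∘ Sum.inl)) (e (Sum.inr i))) =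
            fun i => φ (ξ i) := by
          funext i
          change φ (xh (e (Sum.inr i))) = _
          rw [hxhr]
        rw [h3]
        have h4 : aeval (fun i => φ (ξ i)) Fu = φ (aeval ξ Fu) := by
          rw [MvPolynomial.comp_aeval_apply]
        rw [h4, (hξ.zero_iff Fu).mpr dvd_rfl, map_zero])
      rw [eval₂_rename, hWe] at h1
      have h2 : (eval₂Hom ((algebraMap L (Rt n L)).comp (algebraMap ℚ L))
          (fun m => (fam c yc ∘ (Sum.inr ∘ Sum.inl)) (e (Sum.inl m)))) =
          (algebraMap L (Rt n L)).comp χ := by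
        apply MvPolynomial.ringHom_ext
        · intro a
          rw [coe_eval₂Hom, eval₂_C]
          exact congrArg (fun h : ℚ →+* Rt n L => h a) (Subsingleton.elim _
            (((algebraMap L (Rt n L)).comp χ).comp C))
        · intro m
          rw [coe_eval₂Hom, eval₂_X, RingHom.comp_apply, hχX]
          exact hycl m
      rw [h2, uR_eval hf χ hχX] at h1
      exact h1
    refine ⟨n, fun i => yc (e (Sum.inr i)), l₀, hW0, ?_⟩
    have h1 := hind.comp (fun i : {i : Fin N // i ≠ l₀} => (⟨e (Sum.inr i), by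
      rw [hJdef]
      exact ⟨i, i.2, e.symm_apply_apply _⟩⟩ : J)) (fun a b hab => by
      have h2 : e (Sum.inr (a : Fin N)) = e (Sum.inr (b : Fin N)) := congrArg Subtype.val hab
      exact Subtype.ext (Sum.inr_injective (e.injective h2)))
    exact h1

end Main

end Pool.Agent.R867.H
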