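import Pool.Agent.R867.H.Univ

/-! The general hypersurface of low multidegree: all functions are movable. -/

set_option autoImplicit false

namespace Pool.Agent.R867.H

open MvPolynomial Pool.Agent.R867.Mov

universe u v w

section Gen

/-- a property which holds for all specializations outside of a proper closed subset -/
def Gen (A : Type) [CommRing A]
    (P : ∀ (k' : Type u) [Field k'] [IsAlgClosed k'], (A →+* k') → Prop) : Prop :=
  ∃ Φ : A, Φ ≠ 0 ∧ ∀ (k' : Type u) [Field k'] [IsAlgClosed k'] (φ : A →+* k'), φ Φ ≠ 0 → P k' φ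

variable {A : Type} [CommRing A] [IsDomain A]

theorem Gen.and {P Q : ∀ (k' : Type u) [Field k'] [IsAlgClosed k'], (A →+* k') → Prop}
    (hP : Gen A P) (hQ : Gen A Q) : Gen A (fun k' _ _ φ => P k' φ ∧ Q k' φ) := by
  obtain ⟨Φ, h1, h2⟩ := hP
  obtain ⟨Ψ, h3, h4⟩ := hQ
  refine ⟨Φ * Ψ, mul_ne_zero h1 h3, fun k' _ _ φ hφ => ?_⟩
  rw [map_mul] at hφ
  exact ⟨h2 k' φ (left_ne_zero_of_mul hφ), h4 k' φ (right_ne_zero_of_mul hφ)⟩

theorem Gen.all {κ : Type*} [Finite κ]
    {P : κ → ∀ (k' : Type u) [Field k'] [IsAlgClosed k'], (A →+* k') → Prop}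
    (h : ∀ q, Gen A (P q)) : Gen A (fun k' _ _ φ => ∀ q, P q k' φ) := by
  have := Fintype.ofFinite κ
  choose Φ h1 h2 using h
  refine ⟨∏ q, Φ q, Finset.prod_ne_zero_iff.mpr fun q _ => h1 q, fun k' _ _ φ hφ q => ?_⟩
  refine h2 q k' φ fun h0 => hφ ?_
  rw [map_prod]
  exact Finset.prod_eq_zero (Finset.mem_univ q) h0

theorem Gen.of {p : Prop} {P : ∀ (k' : Type u) [Field k'] [IsAlgClosed k'], (A →+* k') → Prop}
    (h : p → Gen A P) : Gen A (fun k' _ _ φ => p → P k' φ) := by
  by_cases hp : p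
  · obtain ⟨Φ, h1, h2⟩ := h hp
    exact ⟨Φ, h1, fun k' _ _ φ hφ _ => h2 k' φ hφ⟩
  · exact ⟨1, one_ne_zero, fun k' _ _ φ _ h => absurd h hp⟩

end Gen

section Blocks

variable {N : ℕ} {ι : Type} [DecidableEq ι] (β : Fin N → ι) (d : ι → ℕ)

theorem allowed_finite : {m : Fin N →₀ ℕ | ∀ j, ∑ l with β l = j, m l ≤ d j}.Finite := by
  refine (Set.finite_Iic (Finsupp.equivFunOnFinite.symm fun l => d (β l))).subset ?_
  intro m hm l
  refine le_trans ?_ (hm (β l))
  exact Finset.single_le_sum (f := fun l => m l) (fun _ _ => Nat.zero_le _)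
    (Finset.mem_filter.mpr ⟨Finset.mem_univ l, rfl⟩)

/-- the exponents of multidegree at most `d` in the blocks given by `β` -/
noncomputable def expo : Finset (Fin N →₀ ℕ) := (allowed_finite β d).toFinset

variable {β d}

theorem mem_expo {m : Fin N →₀ ℕ} : m ∈ expo β d ↔ ∀ j, ∑ l with β l = j, m l ≤ d j := by
  unfold expo
  rw [Set.Finite.mem_toFinset]
  rfl

theorem sum_single (i : Fin N) (a : ℕ) (j : ι) :
    ∑ l with β l = j, (Finsupp.single i a) l = if β i = j then a else 0 := by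
  rw [Finset.sum_filter]
  have h : ∀ l, (if β l = j then (Finsupp.single i a) l else 0) =
      if l = i then (if β i = j then a else 0) else 0 := by
    intro l
    by_cases hl : l = i
    · subst hl
      simp
    · rw [if_neg hl, Finsupp.single_apply, if_neg (Ne.symm hl), ite_self]
  rw [Finset.sum_congr rfl fun l _ => h l]
  simp

theorem single_mem {i : Fin N} {a : ℕ} (h : a ≤ d (β i)) : Finsupp.single i a ∈ expo β d := by
  rw [mem_expo]
  intro j
  rw [sum_single]
  split_ifs with hj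
  · rw [← hj]
    exact h
  · exact Nat.zero_le _

theorem add_mem {i u : Fin N} {a b : ℕ} (ha : a ≤ d (β i)) (hb : b ≤ d (β u))
    (h : β i = β u → a + b ≤ d (β i)) :
    Finsupp.single i a + Finsupp.single u b ∈ expo β d := by
  rw [mem_expo]
  intro j
  have h1 : ∑ l with β l = j, (Finsupp.single i a + Finsupp.single u b) l =
      (if β i = j then a else 0) + (if β u = j then b else 0) := by
    rw [← sum_single, ← sum_single, ← Finset.sum_add_distrib]
    rfl
  rw [h1]
  by_cases hi : β i = j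
  · by_cases hu : β u = j
    · rw [if_pos hi, if_pos hu, ← hi]
      exact h (hi.trans hu.symm)
    · rw [if_pos hi, if_neg hu, ← hi, add_zero]
      exact ha
  · by_cases hu : β u = j
    · rw [if_neg hi, if_pos hu, ← hu, zero_add]
      exact hb
    · rw [if_neg hi, if_neg hu]
      exact Nat.zero_le _

variable {k : Type u} [Field k] {f : MvPolynomial (Fin N) k}

theorem sum_le_of_subset (hf : f.support ⊆ expo β d) {m : Fin N →₀ ℕ} (hm : m ∈ f.support)
    (S : Finset (Fin N)) {j : ι} (hS : ∀ l ∈ S, β l = j) : ∑ l ∈ S, m l ≤ d j := by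
  refine le_trans ?_ (mem_expo.mp (hf hm) j)
  exact Finset.sum_le_sum_of_subset fun l hl => Finset.mem_filter.mpr ⟨Finset.mem_univ l, hS l hl⟩

theorem deg_le (hf : f.support ⊆ expo β d) (i : Fin N) : degreeOf i f ≤ d (β i) := by
  rw [degreeOf_le_iff]
  intro m hm
  have := sum_le_of_subset hf hm {i} (j := β i) (by simp)
  simpa using this

theorem two_le (hf : f.support ⊆ expo β d) {i j : Fin N} (hij : i ≠ j) (hβ : β i = β j) :
    ∀ m ∈ f.support, m i + m j ≤ d (β i) := by
  intro m hm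
  have := sum_le_of_subset hf hm {i, j} (j := β i) (by simp [hβ])
  rwa [Finset.sum_pair hij] at this

theorem three_le (hf : f.support ⊆ expo β d) {i j l : Fin N} (hij : i ≠ j) (hil : i ≠ l)
    (hjl : j ≠ l) (hβ : β j = β i) (hβ' : β l = β i) :
    ∀ m ∈ f.support, m i + m j + m l ≤ d (β i) := by
  intro m hm
  have := sum_le_of_subset hf hm {i, j, l} (j := β i) (by simp [hβ, hβ'])
  rw [Finset.sum_insert (by simp [hij, hil]), Finset.sum_pair hjl] at this
  omega

end Blocks

section Core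

variable {N : ℕ} {ι : Type} [DecidableEq ι] {β : Fin N → ι} {d : ι → ℕ}

/-- the conditions on the coefficients -/
theorem gen_cond (hd : ∀ j, 1 ≤ d j) :
    Gen.{u} (MvPolynomial (expo β d) ℚ) (fun k' _ _ φ =>
      (∀ i : Fin N, φ (X ⟨Finsupp.single i 1, single_mem (hd _)⟩) ≠ 0) ∧
      (∀ q : Fin N × Fin N × Fin N,
        (q.1 ≠ q.2.1 ∧ q.1 ≠ q.2.2 ∧ q.2.1 ≠ q.2.2 ∧ 2 ≤ d (β q.1)) →
        ∃ r : Fin N → k', (uF (expo β d)).eval₂ φ r = 0 ∧
          (rt q.1 q.2.1 q.2.2 (uF (expo β d))).eval₂ φ r ≠ 0) ∧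
      (∀ q : Fin N × Fin N × Fin N,
        (q.1 ≠ q.2.1 ∧ q.1 ≠ q.2.2 ∧ q.2.1 ≠ q.2.2 ∧ 3 ≤ d (β q.1) ∧ β q.2.1 = β q.1 ∧
          β q.2.2 = β q.1) →
        ∃ r : Fin N → k', (uF (expo β d)).eval₂ φ r = 0 ∧
          (ndP q.1 q.2.1 q.2.2 (uF (expo β d))).eval₂ φ r ≠ 0) ∧
      (∀ q : Fin N × Fin N × Fin N × Fin N,
        (q.1 ≠ q.2.1 ∧ q.2.2.1 ≠ q.2.2.2 ∧ q.2.2.1 ≠ q.1 ∧ q.2.2.1 ≠ q.2.1 ∧ q.2.2.2 ≠ q.1 ∧
          q.2.2.2 ≠ q.2.1 ∧ 3 ≤ d (β q.2.1)) →
        ∃ r : Fin N → k', (uF (expo β d)).eval₂ φ r = 0 ∧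
          (q2 q.1 q.2.1 (uF (expo β d))).eval₂ φ r = 0 ∧
          (c6 q.1 q.2.1 (uF (expo β d)) * (pderiv q.2.2.1 (uF (expo β d)) *
            pderiv q.2.2.2 (q2 q.1 q.2.1 (uF (expo β d))) - pderiv q.2.2.2 (uF (expo β d)) *
              pderiv q.2.2.1 (q2 q.1 q.2.1 (uF (expo β d))))).eval₂ φ r ≠ 0)) := by
  refine Gen.and ?_ (Gen.and ?_ (Gen.and ?_ ?_))
  · refine Gen.all fun i => ⟨X ⟨Finsupp.single i 1, single_mem (hd _)⟩, X_ne_zero _,
      fun k' _ _ φ hφ => hφ⟩
  · refine Gen.all fun q => Gen.of ?_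
    rintro ⟨h1, h2, h3, h4⟩
    obtain ⟨Φ, h5, h6⟩ := ex_line.{u} h3 (Ne.symm h1) (Ne.symm h2)
      (single_mem (β := β) (d := d) (hd _)) (single_mem h4)
      (add_mem (hd _) (by omega) (fun h => by rw [h]; omega))
    exact ⟨Φ, h5, fun k' _ _ φ hφ => h6 φ hφ⟩
  · refine Gen.all fun q => Gen.of ?_
    rintro ⟨h1, h2, h3, h4, h5, h6⟩
    obtain ⟨Φ, h7, h8⟩ := ex_cubic.{u} h1 h2 h3 (single_mem (β := β) (d := d) (hd _))
      (single_mem (by rw [h5]; omega)) (single_mem (by rw [h6]; omega))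
      (single_mem (by rw [h5]; omega))
    exact ⟨Φ, h7, fun k' _ _ φ hφ => h8 φ hφ⟩
  · refine Gen.all fun q => Gen.of ?_
    rintro ⟨h1, h2, h3, h4, h5, h6, h7⟩
    obtain ⟨Φ, h8, h9⟩ := ex_flex.{u} h1 h2 h3 h4 h5 h6 (single_mem (β := β) (d := d) (hd _))
      (single_mem (hd _)) (single_mem h7)
      (add_mem (hd _) (by omega) (fun h => by rw [h]; omega))
    exact ⟨Φ, h8, fun k' _ _ φ hφ => h9 φ hφ⟩

variable {k K : Type u} [Field k] [Field K] [Algebra k K] {f : MvPolynomial (Fin N) k}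
  {ξ : Fin N → K}

theorem eval_comp [CharZero k] {E : Finset (Fin N →₀ ℕ)} (hf : f.support ⊆ E) {Ω : Type v} [Field Ω]
    [Algebra k Ω] (r : Fin N → Ω) (P : MvPolynomial (Fin N) (MvPolynomial E ℚ)) :
    P.eval₂ ((algebraMap k Ω).comp (sp E f)) r = aeval r (MvPolynomial.map (sp E f) P) := by
  rw [aeval_def, eval₂_map]

theorem core_rel [Finite ι] (hd1 : ∀ j, 1 ≤ d j) (hd3 : ∀ j, d j ≤ 3)
    (hn : ∀ j, d j ≤ (Finset.univ.filter fun l => β l = j).card + 1)
    (hn0 : ∃ j, d j ≤ (Finset.univ.filter fun l => β l = j).card) :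
    ∃ Φ : MvPolynomial (expo β d) ℚ, Φ ≠ 0 ∧ ∀ {k K : Type u} [Field k] [CharZero k] [Field K]
      [Algebra k K] (f : MvPolynomial (Fin N) k) (ξ : Fin N → K), f.support ⊆ expo β d →
      sp (expo β d) f Φ ≠ 0 → GP f ξ → Rel k ξ Set.univ := by
  classical
  obtain ⟨Φ, hΦ, hgen⟩ := gen_cond.{u} (β := β) hd1
  refine ⟨Φ, hΦ, fun {k K} _ _ _ _ f ξ hsupp hsp hξ => ?_⟩
  obtain ⟨φ, hφ⟩ : ∃ φ, φ = (algebraMap k (AlgebraicClosure k)).comp (sp (expo β d) f) := ⟨_, rfl⟩
  have hφΦ : φ Φ ≠ 0 := by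
    rw [hφ, RingHom.comp_apply]
    exact (map_ne_zero _).mpr hsp
  obtain ⟨g1, g2, g3, g4⟩ := hgen (AlgebraicClosure k) φ hφΦ
  have hmap := map_uF hsupp
  have hev : ∀ (r : Fin N → AlgebraicClosure k) (P : MvPolynomial (Fin N) (MvPolynomial (expo β d) ℚ)),
      P.eval₂ φ r = aeval r (MvPolynomial.map (sp (expo β d) f) P) := by
    intro r P
    rw [hφ]
    exact eval_comp hsupp r P
  -- all variables occur
  have hc1 : ∀ i, coeff (Finsupp.single i 1) f ≠ 0 := by
    intro i h0
    apply g1 i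
    rw [hφ, RingHom.comp_apply]
    unfold sp
    simp [h0]
  have hne : ∀ i, degreeOf i f ≠ 0 := by
    intro i h0
    have h1 : Finsupp.single i 1 ∈ f.support := mem_support_iff.mpr (hc1 i)
    have h2 := monomial_le_degreeOf i h1
    rw [h0, Finsupp.single_eq_same] at h2
    omega
  obtain ⟨j₀, hj₀⟩ := hn0
  have hpos : 0 < (Finset.univ.filter fun l => β l = j₀).card := by
    have := hd1 j₀
    omega
  obtain ⟨i₀, hi₀⟩ := Finset.card_pos.mp hpos
  have hβi₀ : β i₀ = j₀ := (Finset.mem_filter.mp hi₀).2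
  have hf : f ≠ 0 := by
    rintro rfl
    exact hc1 i₀ (coeff_zero _)
  by_cases hlin : ∃ l, d (β l) = 1
  · -- a variable of degree one
    obtain ⟨l, hl⟩ := hlin
    refine rel_cover hξ hf (hne l) fun u _ => ?_
    by_cases hu : u = l
    · exact ⟨{l}, rfl, hu, rel_single hξ hf (hne l)⟩
    · exact ⟨{l, u}, Or.inl rfl, Or.inr rfl, rel_linear hξ hf hu (by
        have := deg_le hsupp l
        omega) (hne l)⟩
  · push Not at hlin
    have hdi₀ : d (β i₀) ≠ 1 := hlin i₀
    have hdj₀ : 2 ≤ d j₀ := by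
      have := hd1 j₀
      rw [hβi₀] at hdi₀
      omega
    -- the block `j₀`
    have hB : Rel k ξ {l | β l = j₀} := by
      refine rel_cover hξ hf (hne i₀) fun u hu => ?_
      have hβu : β u = j₀ := hu
      by_cases hui : u = i₀
      · exact ⟨{i₀}, rfl, hui, rel_single hξ hf (hne i₀)⟩
      · by_cases h2 : d j₀ = 2
        · refine ⟨{i₀, u}, Or.inl rfl, Or.inr rfl, rel_conic hξ hf (Ne.symm hui) ?_ (hne i₀)⟩
          intro m hm
          have := two_le hsupp (Ne.symm hui) (hβi₀.trans hβu.symm) m hm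
          rw [hβi₀, h2] at this
          exact this
        · have h3 : d j₀ = 3 := by
            have := hd3 j₀
            omega
          have h4 : 2 < (Finset.univ.filter fun l => β l = j₀).card := by omega
          obtain ⟨l, hl, hl'⟩ := Finset.exists_mem_notMem_of_card_lt_card
            (s := {i₀, u}) (t := Finset.univ.filter fun l => β l = j₀)
            (lt_of_le_of_lt Finset.card_le_two h4)
          have hβl : β l = j₀ := (Finset.mem_filter.mp hl).2
          have hil : i₀ ≠ l := by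
            rintro rfl
            exact hl' (by simp)
          have hul : u ≠ l := by
            rintro rfl
            exact hl' (by simp)
          obtain ⟨r, hr1, hr2⟩ := g3 (i₀, u, l) ⟨Ne.symm hui, hil, hul, by
            change 3 ≤ d (β i₀)
            rw [hβi₀]; omega, hβu.trans hβi₀.symm, hβl.trans hβi₀.symm⟩
          rw [hev, hmap] at hr1
          rw [hev, map_ndP, hmap] at hr2
          refine ⟨{i₀, u, l}, Or.inl rfl, Or.inr (Or.inl rfl), rel_cubic hξ hf (Ne.symm hui) hil hul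
            ?_ (hne i₀) hr1 hr2⟩
          intro m hm
          have := three_le hsupp (Ne.symm hui) hil hul (hβu.trans hβi₀.symm)
            (hβl.trans hβi₀.symm) m hm
          rw [hβi₀, h3] at this
          exact this
    -- a second variable in the block
    obtain ⟨j₁, hj₁, hj₁'⟩ := Finset.exists_mem_notMem_of_card_lt_card
      (s := {i₀}) (t := Finset.univ.filter fun l => β l = j₀)
      (by rw [Finset.card_singleton]; omega)
    have hβj₁ : β j₁ = j₀ := (Finset.mem_filter.mp hj₁).2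
    have hij : i₀ ≠ j₁ := fun h => hj₁' (by rw [← h]; exact Finset.mem_singleton_self _)
    refine rel_cover hξ hf (hne i₀) fun u _ => ?_
    by_cases hu : β u = j₀
    · exact ⟨_, hβi₀, hu, hB⟩
    · have hui : u ≠ i₀ := by
        rintro rfl
        exact hu hβi₀
      have huj : u ≠ j₁ := by
        rintro rfl
        exact hu hβj₁
      have h1 := hlin u
      have h2 := hd1 (β u)
      by_cases h3 : d (β u) = 2
      · obtain ⟨r, hr1, hr2⟩ := g2 (u, i₀, j₁) ⟨hui, huj, hij, by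
          change 2 ≤ d (β u)
          omega⟩
        rw [hev, hmap] at hr1
        rw [hev, map_rt, hmap] at hr2
        exact ⟨insert u {l | β l = j₀}, Or.inr hβi₀, Or.inl rfl, rel_line hξ hf hu (by
          have := deg_le hsupp u
          omega) hβi₀ hβj₁ hr1 hr2 hB⟩
      · have h4 : d (β u) = 3 := by
          have := hd3 (β u)
          omega
        obtain ⟨s, hs, hs'⟩ := Finset.exists_mem_notMem_of_card_lt_card
          (s := {u}) (t := Finset.univ.filter fun l => β l = β u)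
          (by
            rw [Finset.card_singleton]
            have := hn (β u)
            omega)
        have hβs : β s = β u := (Finset.mem_filter.mp hs).2
        have hus : u ≠ s := fun h => hs' (by rw [← h]; exact Finset.mem_singleton_self _)
        have hsB : β s ≠ j₀ := by
          rw [hβs]
          exact hu
        have his : i₀ ≠ s := fun h => hsB (h ▸ hβi₀)
        have hjs : j₁ ≠ s := fun h => hsB (h ▸ hβj₁)
        obtain ⟨r, hr1, hr2, hr3⟩ := g4 (u, s, i₀, j₁) ⟨hus, hij, Ne.symm hui, his, Ne.symm huj,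
          hjs, by
          change 3 ≤ d (β s)
          rw [hβs]; omega⟩
        have hP : MvPolynomial.map (sp (expo β d) f) (c6 u s (uF (expo β d)) *
            (pderiv i₀ (uF (expo β d)) * pderiv j₁ (q2 u s (uF (expo β d))) -
              pderiv j₁ (uF (expo β d)) * pderiv i₀ (q2 u s (uF (expo β d))))) =
            c6 u s f * (pderiv i₀ f * pderiv j₁ (q2 u s f) - pderiv j₁ f * pderiv i₀ (q2 u s f)) := by
          rw [map_mul, map_sub, map_mul, map_mul, map_c6, ← pderiv_map, ← pderiv_map,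
            ← pderiv_map, ← pderiv_map, map_q2, hmap]
        rw [hev, hmap] at hr1
        rw [hev, map_q2, hmap] at hr2
        rw [hev] at hr3
        change aeval r (MvPolynomial.map (sp (expo β d) f) (c6 u s (uF (expo β d)) *
            (pderiv i₀ (uF (expo β d)) * pderiv j₁ (q2 u s (uF (expo β d))) -
              pderiv j₁ (uF (expo β d)) * pderiv i₀ (q2 u s (uF (expo β d)))))) ≠ 0 at hr3
        rw [hP, map_mul] at hr3
        have hNU : NU f {l | β l = j₀} u s := NU_of_pt hβi₀ hβj₁ hr1 hr2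
          (left_ne_zero_of_mul hr3) (right_ne_zero_of_mul hr3)
        refine ⟨insert u (insert s {l | β l = j₀}), Or.inr (Or.inr hβi₀), Or.inl rfl,
          rel_flex hξ hf hus hu hsB ?_ (i₀ := i₀) hβi₀ (hne i₀) hNU hB⟩
        intro m hm
        have := two_le hsupp hus hβs.symm m hm
        omega

end Core

end Pool.Agent.R867.H
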