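import Pool.Agent.R867.H.Two

/-! Moving along conics in a coordinate plane. -/

set_option autoImplicit false

namespace Pool.Agent.R867.H

open MvPolynomial Pool.Agent.R867.Mov

universe u v w

section Lin

variable {k : Type u} [Field k] {N : ℕ} {Ω : Type v} [Field Ω] [Algebra k Ω]

theorem pderiv_comm (i j : Fin N) (g : MvPolynomial (Fin N) k) :
    pderiv i (pderiv j g) = pderiv j (pderiv i g) := by
  have h : ⁅(pderiv i : Derivation k (MvPolynomial (Fin N) k) (MvPolynomial (Fin N) k)),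
      (pderiv j : Derivation k (MvPolynomial (Fin N) k) (MvPolynomial (Fin N) k))⁆ = 0 := by
    apply MvPolynomial.derivation_ext
    intro l
    rw [Derivation.commutator_apply, pderiv_X, pderiv_X]
    simp only [Pi.single_apply]
    split_ifs <;> simp
  have h1 := congrArg (fun D : Derivation k (MvPolynomial (Fin N) k) (MvPolynomial (Fin N) k) => D g) h
  simp only [Derivation.commutator_apply, Derivation.zero_apply] at h1
  exact sub_eq_zero.mp h1

theorem lin_d1 {x v : Fin N → Ω} {i j : Fin N} (hij : i ≠ j)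
    (hv : ∀ l, l ≠ i → l ≠ j → v l = 0) (g : MvPolynomial (Fin N) k) :
    (Polynomial.derivative (lin x v g)).eval 0 = v i * aeval x (pderiv i g) +
      v j * aeval x (pderiv j g) := by
  rw [lin_der hij hv]
  simp only [Polynomial.eval_add, Polynomial.eval_mul, Polynomial.eval_C, lin_zero]

theorem lin_d2 {x v : Fin N → Ω} {i j : Fin N} (hij : i ≠ j)
    (hv : ∀ l, l ≠ i → l ≠ j → v l = 0) (g : MvPolynomial (Fin N) k) :
    (Polynomial.derivative (Polynomial.derivative (lin x v g))).eval 0 =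
      v i ^ 2 * aeval x (pderiv i (pderiv i g)) + 2 * (v i * v j) * aeval x (pderiv i (pderiv j g)) +
      v j ^ 2 * aeval x (pderiv j (pderiv j g)) := by
  rw [lin_der hij hv, map_add, Polynomial.derivative_mul, Polynomial.derivative_mul,
    Polynomial.derivative_C, Polynomial.derivative_C, zero_mul, zero_mul, zero_add, zero_add]
  simp only [Polynomial.eval_add, Polynomial.eval_mul, Polynomial.eval_C, lin_d1 hij hv,
    pderiv_comm j i]
  ring

theorem lin_d3 {x v : Fin N → Ω} {i j : Fin N} (hij : i ≠ j)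
    (hv : ∀ l, l ≠ i → l ≠ j → v l = 0) (g : MvPolynomial (Fin N) k) :
    (Polynomial.derivative (Polynomial.derivative (Polynomial.derivative (lin x v g)))).eval 0 =
      v i ^ 3 * aeval x (pderiv i (pderiv i (pderiv i g))) +
      3 * (v i ^ 2 * v j) * aeval x (pderiv i (pderiv i (pderiv j g))) +
      3 * (v i * v j ^ 2) * aeval x (pderiv i (pderiv j (pderiv j g))) +
      v j ^ 3 * aeval x (pderiv j (pderiv j (pderiv j g))) := by
  rw [lin_der hij hv, map_add, Polynomial.derivative_mul, Polynomial.derivative_mul,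
    Polynomial.derivative_C, Polynomial.derivative_C, zero_mul, zero_mul, zero_add, zero_add,
    map_add, Polynomial.derivative_mul, Polynomial.derivative_mul,
    Polynomial.derivative_C, Polynomial.derivative_C, zero_mul, zero_mul, zero_add, zero_add]
  simp only [Polynomial.eval_add, Polynomial.eval_mul, Polynomial.eval_C, lin_d2 hij hv,
    pderiv_comm j i]
  ring

end Lin

variable {k K : Type u} [Field k] [Field K] [Algebra k K] {N : ℕ} {f : MvPolynomial (Fin N) k}
  {ξ : Fin N → K}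

theorem tt_notMem : tt K ∉ Set.range (algebraMap K (Rt 1 K)) := by
  rintro ⟨y, hy⟩
  apply tt_not (K := K)
  rw [← hy]
  exact isAlgebraic_algebraMap _

/-- a point over `Rt 1 K` which differs from the generic point in two coordinates -/
theorem move_two (hξ : GP f ξ) (hf : f ≠ 0) {i j : Fin N} (hij : i ≠ j) (hi : degreeOf i f ≠ 0)
    {y : Fin N → Rt 1 K} (hy : aeval y f = 0)
    (hyl : ∀ l, l ≠ i → l ≠ j → y l = algebraMap K (Rt 1 K) (ξ l))
    (hyj : y j ∉ Set.range (algebraMap K (Rt 1 K))) :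
    ∃ σ : K →ₐ[k] Rt 1 K, ∀ l, σ (ξ l) = y l := by
  refine exists_hom hξ hy hi hf ?_
  refine indep_of_notMem hij ?_ ?_
  · have h1 : (fun l : {l : Fin N // l ≠ i ∧ l ≠ j} => y l) =
        algebraMap K (Rt 1 K) ∘ (fun l : {l : Fin N // l ≠ i ∧ l ≠ j} => ξ l) := by
      funext l
      exact hyl l l.2.1 l.2.2
    rw [h1]
    have h2 := indep_of hf hi (fun P => (hξ.zero_iff P).mp)
    have h3 := h2.comp (fun l : {l : Fin N // l ≠ i ∧ l ≠ j} => (⟨l, l.2.1⟩ : {l : Fin N // l ≠ i}))
      (fun a b hab => Subtype.ext (congrArg (fun z : {l : Fin N // l ≠ i} => (z : Fin N)) hab))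
    exact h3.map' (f := IsScalarTower.toAlgHom k K (Rt 1 K)) (algebraMap K (Rt 1 K)).injective
  · intro h
    apply hyj
    apply rt_cl (k := k)
    refine cl_mono ?_ h
    rintro _ ⟨l, hl, rfl⟩
    exact ⟨ξ l, (hyl l hl.1 hl.2).symm⟩

theorem update_two {Ω : Type v} {x v : Fin N → Ω} [Field Ω] {i j : Fin N}
    (hv : ∀ l, l ≠ i → l ≠ j → v l = 0) (t : Ω) {l : Fin N} (hi : l ≠ i) (hj : l ≠ j) :
    x l + t * v l = x l := by
  rw [hv l hi hj, mul_zero, add_zero]

/-- Either coordinate can be moved. -/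
theorem conic_two [CharZero k] (hξ : GP f ξ) {i j : Fin N} (hij : i ≠ j)
    (hd : ∀ m ∈ f.support, m i + m j ≤ 2) (hi : degreeOf i f ≠ 0) :
    ∃ y : Fin N → Rt 1 K, aeval y f = 0 ∧
      (∀ l, l ≠ i → l ≠ j → y l = algebraMap K (Rt 1 K) (ξ l)) ∧
      (y i ∉ Set.range (algebraMap K (Rt 1 K)) ∧ degreeOf j f ≠ 0 ∨
        y j ∉ Set.range (algebraMap K (Rt 1 K))) := by
  have hcK : CharZero K := charZero_of_injective_algebraMap (algebraMap k K).injective
  have hcR : CharZero (Rt 1 K) :=
    charZero_of_injective_algebraMap (algebraMap K (Rt 1 K)).injective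
  have hfi := GP.pderiv_ne (fun P => (hξ.zero_iff P).mp) hi
  obtain ⟨x, hx⟩ : ∃ x : Fin N → Rt 1 K, x = fun l => algebraMap K (Rt 1 K) (ξ l) := ⟨_, rfl⟩
  have hxv : ∀ g : MvPolynomial (Fin N) k, aeval x g = algebraMap K (Rt 1 K) (aeval ξ g) := by
    intro g
    rw [hx]
    exact MvPolynomial.aeval_algebraMap_apply _ _ _
  have hfx : aeval x f = 0 := by rw [hxv, (hξ.zero_iff f).mpr dvd_rfl, map_zero]
  have h3 : ∀ v : Fin N → Rt 1 K, (∀ l, l ≠ i → l ≠ j → v l = 0) →
      Polynomial.derivative (Polynomial.derivative (Polynomial.derivative (lin x v f))) = 0 := by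
    intro v hvl
    have hdeg := lin_natDegree (x := x) hvl hij hd
    have h4 : (Polynomial.derivative (Polynomial.derivative (lin x v f))).natDegree ≤ 0 := by
      have h5 := Polynomial.natDegree_derivative_le (Polynomial.derivative (lin x v f))
      have h6 := Polynomial.natDegree_derivative_le (lin x v f)
      omega
    exact Polynomial.derivative_of_natDegree_zero (Nat.le_zero.mp h4)
  have hT : ∀ v : Fin N → Rt 1 K, (∀ l, l ≠ i → l ≠ j → v l = 0) → ∀ t : Rt 1 K,
      6 * aeval (fun l => x l + t * v l) f =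
      6 * (v i * aeval x (pderiv i f) + v j * aeval x (pderiv j f)) * t +
      3 * (v i ^ 2 * aeval x (pderiv i (pderiv i f)) +
        2 * (v i * v j) * aeval x (pderiv i (pderiv j f)) +
        v j ^ 2 * aeval x (pderiv j (pderiv j f))) * t ^ 2 := by
    intro v hvl t
    have hdeg := lin_natDegree (x := x) hvl hij hd
    rw [← lin_eval, eval_cubic (hdeg.trans (by norm_num)), lin_d1 hij hvl, lin_d2 hij hvl,
      h3 v hvl, lin_zero, hfx]
    simp
  by_cases hj : degreeOf j f = 0
  · obtain ⟨w, hw⟩ : ∃ w : Fin N → Rt 1 K, w = fun l => if l = i then 0 else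
      if l = j then 1 else 0 := ⟨_, rfl⟩
    have hwi : w i = 0 := by rw [hw]; simp
    have hwj : w j = 1 := by rw [hw]; simp [Ne.symm hij]
    have hwl : ∀ l, l ≠ i → l ≠ j → w l = 0 := by
      intro l h1 h2
      rw [hw]
      simp [h1, h2]
    refine ⟨fun l => x l + tt K * w l, ?_, fun l hl1 hl2 => ?_, Or.inr ?_⟩
    · have h8 : (6 : Rt 1 K) * aeval (fun l => x l + tt K * w l) f = 0 := by
        rw [hT w hwl, hwi, hwj, pderiv_eq_zero_of_degreeOf hj]
        simp
      exact (mul_eq_zero.mp h8).resolve_left (by norm_num)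
    · change x l + tt K * w l = _
      rw [update_two hwl _ hl1 hl2, hx]
    · rintro ⟨b, hb⟩
      have hb : algebraMap K (Rt 1 K) b = x j + tt K * w j := hb
      rw [hwj, hx] at hb
      apply tt_notMem (K := K)
      refine ⟨b - ξ j, ?_⟩
      rw [map_sub, hb]
      ring
  obtain ⟨v, hv⟩ : ∃ v : Fin N → Rt 1 K, v = fun l => if l = i then 1 else if l = j then tt K
    else 0 := ⟨_, rfl⟩
  have hvi : v i = 1 := by rw [hv]; simp
  have hvj : v j = tt K := by rw [hv]; simp [Ne.symm hij]
  have hvl : ∀ l, l ≠ i → l ≠ j → v l = 0 := by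
    intro l h1 h2
    rw [hv]
    simp [h1, h2]
  obtain ⟨Q, hQ⟩ : ∃ Q : Rt 1 K,
    Q = v i ^ 2 * aeval x (pderiv i (pderiv i f)) +
        2 * (v i * v j) * aeval x (pderiv i (pderiv j f)) +
        v j ^ 2 * aeval x (pderiv j (pderiv j f)) := ⟨_, rfl⟩
  by_cases hQ0 : Q = 0
  · have hz : aeval ξ (pderiv i (pderiv i f)) = 0 ∧ aeval ξ (pderiv i (pderiv j f)) = 0 ∧
        aeval ξ (pderiv j (pderiv j f)) = 0 := by
      rw [hQ0, hvi, hvj, hxv, hxv, hxv] at hQ
      have h4 := poly_abs (K := K) (tt_not (K := K)) (aeval ξ (pderiv j (pderiv j f)))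
        (2 * aeval ξ (pderiv i (pderiv j f))) (aeval ξ (pderiv i (pderiv i f))) (by
          rw [map_mul, map_ofNat]
          linear_combination -hQ)
      have h5 := (mul_eq_zero.mp h4.2).resolve_left two_ne_zero
      rw [h4.1, h5, map_zero] at hQ
      refine ⟨?_, h5, h4.1⟩
      have h6 : algebraMap K (Rt 1 K) (aeval ξ (pderiv i (pderiv i f))) = 0 := by
        linear_combination -hQ
      rwa [map_eq_zero] at h6
    obtain ⟨w, hw⟩ : ∃ w : Fin N → Rt 1 K, w = fun l => if l = i then aeval x (pderiv j f) else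
      if l = j then - aeval x (pderiv i f) else 0 := ⟨_, rfl⟩
    have hwi : w i = aeval x (pderiv j f) := by rw [hw]; simp
    have hwj : w j = - aeval x (pderiv i f) := by rw [hw]; simp [Ne.symm hij]
    have hwl : ∀ l, l ≠ i → l ≠ j → w l = 0 := by
      intro l h1 h2
      rw [hw]
      simp [h1, h2]
    refine ⟨fun l => x l + tt K * w l, ?_, fun l hl1 hl2 => ?_, Or.inr ?_⟩
    · have h8 : (6 : Rt 1 K) * aeval (fun l => x l + tt K * w l) f = 0 := by
        rw [hT w hwl, hwi, hwj, hxv, hxv, hxv, hxv, hxv, hz.1, hz.2.1, hz.2.2, map_zero]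
        ring
      exact (mul_eq_zero.mp h8).resolve_left (by norm_num)
    · change x l + tt K * w l = _
      rw [update_two hwl _ hl1 hl2, hx]
    · rintro ⟨b, hb⟩
      have hb : algebraMap K (Rt 1 K) b = x j + tt K * w j := hb
      rw [hwj, hxv, hx] at hb
      apply tt_notMem (K := K)
      refine ⟨-(b - ξ j) / aeval ξ (pderiv i f), ?_⟩
      rw [map_div₀, map_neg, map_sub, hb, div_eq_iff (by rwa [Ne, map_eq_zero])]
      ring
  · obtain ⟨t, ht⟩ : ∃ t : Rt 1 K, t = -2 * (algebraMap K (Rt 1 K) (aeval ξ (pderiv i f))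
      + tt K * algebraMap K (Rt 1 K) (aeval ξ (pderiv j f))) / Q := ⟨_, rfl⟩
    have ht' : t * Q = -2 * (algebraMap K (Rt 1 K) (aeval ξ (pderiv i f))
      + tt K * algebraMap K (Rt 1 K) (aeval ξ (pderiv j f))) := by
      rw [ht]
      exact div_mul_cancel₀ _ hQ0
    have ht0 : t ≠ 0 := by
      rintro rfl
      rw [zero_mul] at ht'
      apply hfi
      have h7 : algebraMap K (Rt 1 K) (aeval ξ (pderiv i f))
          + tt K * algebraMap K (Rt 1 K) (aeval ξ (pderiv j f)) = 0 := by
        linear_combination (1 / 2 : Rt 1 K) * ht'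
      have h8 := poly_abs (K := K) (tt_not (K := K)) 0 (aeval ξ (pderiv j f)) (aeval ξ (pderiv i f)) (by
        rw [map_zero]
        linear_combination h7)
      rw [h8.2, map_zero, mul_zero, add_zero, map_eq_zero] at h7
      exact h7
    refine ⟨fun l => x l + t * v l, ?_, fun l hl1 hl2 => ?_, ?_⟩
    · have h8 : (6 : Rt 1 K) * aeval (fun l => x l + t * v l) f = 0 := by
        rw [hT v hvl, ← hQ, hvi, hvj, hxv, hxv]
        linear_combination 3 * t * ht'
      exact (mul_eq_zero.mp h8).resolve_left (by norm_num)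
    · change x l + t * v l = _
      rw [update_two hvl t hl1 hl2, hx]
    · by_contra hcon
      rw [not_or, not_and] at hcon
      obtain ⟨b, hb⟩ : x j + t * v j ∈ Set.range (algebraMap K (Rt 1 K)) := by
        by_contra h
        exact hcon.2 h
      obtain ⟨a, ha⟩ : x i + t * v i ∈ Set.range (algebraMap K (Rt 1 K)) := by
        by_contra h
        exact hcon.1 h hj
      have ha : algebraMap K (Rt 1 K) a = x i + t * v i := ha
      have hb : algebraMap K (Rt 1 K) b = x j + t * v j := hb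
      rw [hvi, hx, mul_one] at ha
      rw [hvj, hx] at hb
      have h7 : t = algebraMap K (Rt 1 K) (a - ξ i) := by
        rw [map_sub, ha]
        ring
      have h8 : t * tt K = algebraMap K (Rt 1 K) (b - ξ j) := by
        rw [map_sub, hb]
        ring
      apply tt_notMem (K := K)
      refine ⟨(b - ξ j) / (a - ξ i), ?_⟩
      rw [map_div₀, ← h7, ← h8, mul_div_cancel_left₀ _ ht0]

/-- everything is algebraic over the coordinates different from `i` -/
theorem mem_cl_ne (hξ : GP f ξ) (hf : f ≠ 0) {i : Fin N} (hi : degreeOf i f ≠ 0) (z : K) :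
    z ∈ cl k (ξ '' {l | l ≠ i}) := by
  have hfl : aeval ξ f = 0 := (hξ.zero_iff f).mpr dvd_rfl
  obtain ⟨R, hR⟩ := cl_closed (k := k) (ξ '' {l | l ≠ i})
  have hmem : ∀ l, l ≠ i → ξ l ∈ R := by
    intro l hl
    have : ξ l ∈ (R : Set K) := by
      rw [hR]
      exact subset_cl _ ⟨l, hl, rfl⟩
    exact this
  have hmi : ξ i ∈ R := by
    by_contra htr
    have h0 : ξ i ∉ cl k (ξ '' {l | l ≠ i}) := by
      rw [← hR]
      exact htr
    have h1 : AlgebraicIndepOn k ξ {j | j ≠ i} := indep_of hf hi (fun P => (hξ.zero_iff P).mp)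
    have h2 := h1.insert h0
    have h3 : insert i {j | j ≠ i} = (Set.univ : Set (Fin N)) := by
      ext j
      simp [em]
    rw [h3] at h2
    have h4 : AlgebraicIndependent k ξ := by
      have h5 : AlgebraicIndependent k (fun j : (Set.univ : Set (Fin N)) => ξ j) := h2
      have h6 := h5.comp (Equiv.Set.univ (Fin N)).symm (Equiv.injective _)
      exact h6
    apply hf
    apply h4
    rw [map_zero]
    exact hfl
  have h2 : IntermediateField.adjoin k (Set.range ξ) ≤ R := by
    rw [IntermediateField.adjoin_le_iff]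
    rintro y ⟨l, rfl⟩
    by_cases hl : l = i
    · rw [hl]; exact hmi
    · exact hmem l hl
  rw [hξ.gen] at h2
  have h3 : z ∈ (R : Set K) := h2 trivial
  rwa [hR] at h3

/-- the immovable functions are algebraic over the coordinates outside of a conic pair -/
theorem conic_out [CharZero k] (hξ : GP f ξ) (hf : f ≠ 0) {i j : Fin N} (hij : i ≠ j)
    (hd : ∀ m ∈ f.support, m i + m j ≤ 2) (hi : degreeOf i f ≠ 0) {a : K} (ha : Imm k a) :
    a ∈ cl k (ξ '' {l | l ≠ i ∧ l ≠ j}) := by
  -- `b` moved, `c` the other one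
  have key : ∀ b c : Fin N, b ≠ c → degreeOf c f ≠ 0 → ∀ y : Fin N → Rt 1 K, aeval y f = 0 →
      (∀ l, l ≠ c → l ≠ b → y l = algebraMap K (Rt 1 K) (ξ l)) →
      y b ∉ Set.range (algebraMap K (Rt 1 K)) → a ∈ cl k (ξ '' {l | l ≠ c ∧ l ≠ b}) := by
    intro b c hbc hc y hy hyl hyb
    obtain ⟨σ, hσ⟩ := move_two hξ hf (Ne.symm hbc) hc hy hyl hyb
    refine step_out σ (R := con 1 K) (b := ξ b) ?_ (subset_cl _ (ha 1 σ)) ?_ ?_
    · rintro _ ⟨l, hl, rfl⟩
      rw [hσ, hyl l hl.1 hl.2]
      exact subset_cl _ ⟨ξ l, rfl⟩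
    · rw [hσ]
      intro h
      exact hyb (mem_con_cl h)
    · refine cl_mono ?_ (mem_cl_ne hξ hf hc a)
      rintro _ ⟨l, hl, rfl⟩
      by_cases h : l = b
      · rw [h]; exact Set.mem_insert _ _
      · exact Set.mem_insert_of_mem _ ⟨l, ⟨hl, h⟩, rfl⟩
  obtain ⟨y, hy, hyl, hy'⟩ := conic_two hξ hij hd hi
  rcases hy' with ⟨hyi, hj⟩ | hyj
  · have h1 := key i j hij hj y hy (fun l h1 h2 => hyl l h2 h1) hyi
    refine cl_mono ?_ h1
    rintro _ ⟨l, hl, rfl⟩
    exact ⟨l, ⟨hl.2, hl.1⟩, rfl⟩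
  · exact key j i (Ne.symm hij) hi y hy hyl hyj

end Pool.Agent.R867.H
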