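import Pool.Agent.R867.H.Rand2

/-! From the affine equation to the multihomogeneous form. -/

set_option autoImplicit false

namespace Pool.Agent.R867.H

open MvPolynomial Pool.Agent.R867.Mov Pool.Agent.R867.D Pool.Agent.Y716.M

theorem cancel_pow {R : Type} [CommRing R] [IsDomain R] {f p G : R} (hp : Prime p) (hpf : ¬ p ∣ f)
    (k : ℕ) (h : f ∣ p ^ k * G) : f ∣ G := by
  induction k generalizing G with
  | zero => rwa [pow_zero, one_mul] at h
  | succ k ih =>
    apply ih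
    obtain ⟨K, hK⟩ := h
    have h1 : p ∣ f * K := by
      rw [← hK, pow_succ]
      exact ⟨p ^ k * G, by ring⟩
    rcases hp.dvd_or_dvd h1 with h2 | h2
    · exact absurd h2 hpf
    · obtain ⟨K', rfl⟩ := h2
      refine ⟨K', ?_⟩
      apply mul_left_cancel₀ hp.ne_zero
      rw [pow_succ] at hK
      linear_combination hK

theorem cancel_prod {R : Type} [CommRing R] [IsDomain R] {ι : Type} (S : Finset ι) {f G : R}
    {p : ι → R} (hp : ∀ i ∈ S, Prime (p i)) (hpf : ∀ i ∈ S, ¬ p i ∣ f) (k : ι → ℕ)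
    (h : f ∣ (∏ i ∈ S, p i ^ k i) * G) : f ∣ G := by
  classical
  induction S using Finset.induction_on generalizing G with
  | empty => rwa [Finset.prod_empty, one_mul] at h
  | insert i S hi ih =>
    rw [Finset.prod_insert hi, mul_assoc] at h
    exact ih (fun j hj => hp j (Finset.mem_insert_of_mem hj))
      (fun j hj => hpf j (Finset.mem_insert_of_mem hj))
      (cancel_pow (hp i (Finset.mem_insert_self i S)) (hpf i (Finset.mem_insert_self i S)) _ h)

section Cone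

variable {r : ℕ} {n d : Fin r → ℕ} {N : ℕ} (ε : (Σ i : Fin r, Fin (n i)) ≃ Fin N)
  (L : Type) [Field L]

/-- `x_{i,0} ↦ T_i`, `x_{i,j} ↦ T_i Y_{i,j}` -/
noncomputable def thh : MvPolynomial (Var n) L →ₐ[L] MvPolynomial (Fin r) (MvPolynomial (Fin N) L) :=
  aeval (fun a : Var n => X a.1 * C (hat ε (fun l => (X l : MvPolynomial (Fin N) L)) a))

variable {L}

theorem thh_X (a : Var n) : thh ε L (X a) =
    X a.1 * C (hat ε (fun l => (X l : MvPolynomial (Fin N) L)) a) := by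
  unfold thh
  rw [aeval_X]

theorem thh_X0 (i : Fin r) : thh ε L (X ⟨i, 0⟩) = X i := by
  rw [thh_X, hat_zero, C_1, mul_one]

theorem thh_form {f : MvPolynomial (Var n) ℤ} (hf : ∀ s ∈ f.support, ∀ i : Fin r,
    ∑ j : Fin (n i + 1), s ⟨i, j⟩ = d i) :
    thh ε L (MvPolynomial.map (Int.castRingHom L) f) = (∏ i, X i ^ d i) * C (af ε d f L) := by
  unfold thh
  rw [aeval_def, eval₂_map]
  have h2 := Pool.Agent.Y362.MH.aeval_block f hf
    (fun i => (X i : MvPolynomial (Fin r) (MvPolynomial (Fin N) L)))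
    (fun a => C (hat ε (fun l => (X l : MvPolynomial (Fin N) L)) a))
  rw [aeval_def] at h2
  refine (congrArg (fun φ : ℤ →+* MvPolynomial (Fin r) (MvPolynomial (Fin N) L) =>
    eval₂ φ (fun a : Var n => X a.1 * C (hat ε (fun l => (X l : MvPolynomial (Fin N) L)) a)) f)
    (RingHom.ext_int _ _)).trans (h2.trans ?_)
  congr 1
  have h3 := aeval_hat ε hf (L := L) (fun l => (X l : MvPolynomial (Fin N) L))
  rw [aeval_X_left_apply] at h3
  rw [← h3, aeval_def, aeval_def]
  refine Eq.trans ?_ (MvPolynomial.eval₂_comp_left (C : MvPolynomial (Fin N) L →+*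
    MvPolynomial (Fin r) (MvPolynomial (Fin N) L)) _ _ _).symm
  exact congrArg (fun φ : ℤ →+* MvPolynomial (Fin r) (MvPolynomial (Fin N) L) =>
    eval₂ φ (fun a : Var n => C (hat ε (fun l => (X l : MvPolynomial (Fin N) L)) a)) f)
    (RingHom.ext_int _ _)

theorem thh_inj : Function.Injective (thh ε L (n := n)) := by
  obtain ⟨ι, hι⟩ : ∃ ι, ι = algebraMap (MvPolynomial (Var n) L)
    (FractionRing (MvPolynomial (Var n) L)) := ⟨_, rfl⟩
  have hιi : Function.Injective ι := by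
    rw [hι]
    exact IsFractionRing.injective _ _
  obtain ⟨u, hu⟩ : ∃ u : (Σ i : Fin r, Fin (n i)) → FractionRing (MvPolynomial (Var n) L),
    ∀ s, u s = ι (X ⟨s.1, s.2.succ⟩) / ι (X ⟨s.1, 0⟩) := ⟨_, fun _ => rfl⟩
  obtain ⟨ψ, hψ⟩ : ∃ ψ : MvPolynomial (Fin r) (MvPolynomial (Fin N) L) →+*
      FractionRing (MvPolynomial (Var n) L),
    ψ = eval₂Hom (eval₂Hom (ι.comp C) (fun l => u (ε.symm l))) (fun i => ι (X ⟨i, 0⟩)) :=
    ⟨_, rfl⟩
  have h1 : ψ.comp (thh ε L (n := n)).toRingHom = ι := by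
    apply MvPolynomial.ringHom_ext
    · intro a
      rw [RingHom.comp_apply]
      change ψ (thh ε L (C a)) = ι (C a)
      have h2 : thh ε L (C a : MvPolynomial (Var n) L) = C (C a) := by
        unfold thh
        rw [aeval_C]
        rfl
      rw [h2, hψ, coe_eval₂Hom, eval₂_C, coe_eval₂Hom, eval₂_C]
      rfl
    · rintro ⟨i, j⟩
      rw [RingHom.comp_apply]
      change ψ (thh ε L (X ⟨i, j⟩)) = ι (X ⟨i, j⟩)
      refine Fin.cases ?_ (fun j => ?_) j
      · rw [thh_X0, hψ, coe_eval₂Hom, eval₂_X]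
      · rw [thh_X, hat_succ, map_mul, hψ, coe_eval₂Hom, eval₂_X, eval₂_C, coe_eval₂Hom, eval₂_X,
          ε.symm_apply_apply, hu]
        change ι (X ⟨i, 0⟩) * (ι (X ⟨i, j.succ⟩) / ι (X ⟨i, 0⟩)) = _
        rw [mul_div_cancel₀]
        exact (map_ne_zero_iff _ hιi).mpr (X_ne_zero _)
  intro G G' h
  apply hιi
  rw [← h1, RingHom.comp_apply, RingHom.comp_apply]
  exact congrArg ψ h

/-- the elements of the target are in the image up to powers of the `T_i` -/
theorem thh_surj (K : MvPolynomial (Fin r) (MvPolynomial (Fin N) L)) :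
    ∃ (M : ℕ) (K' : MvPolynomial (Var n) L), thh ε L K' = (∏ i, X i) ^ M * K := by
  classical
  have hP : (∏ i : Fin r, (X i : MvPolynomial (Fin r) (MvPolynomial (Fin N) L))) =
      thh ε L (∏ i : Fin r, X ⟨i, 0⟩) := by
    rw [map_prod]
    exact Finset.prod_congr rfl fun i _ => (thh_X0 ε i).symm
  have hadd : ∀ K₁ K₂ : MvPolynomial (Fin r) (MvPolynomial (Fin N) L),
      (∃ (M : ℕ) (K' : MvPolynomial (Var n) L), thh ε L K' = (∏ i, X i) ^ M * K₁) →
      (∃ (M : ℕ) (K' : MvPolynomial (Var n) L), thh ε L K' = (∏ i, X i) ^ M * K₂) →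
      ∃ (M : ℕ) (K' : MvPolynomial (Var n) L), thh ε L K' = (∏ i, X i) ^ M * (K₁ + K₂) := by
    rintro K₁ K₂ ⟨M₁, K₁', h₁⟩ ⟨M₂, K₂', h₂⟩
    refine ⟨M₁ + M₂, (∏ i : Fin r, X ⟨i, 0⟩) ^ M₂ * K₁' + (∏ i : Fin r, X ⟨i, 0⟩) ^ M₁ * K₂', ?_⟩
    rw [map_add, map_mul, map_mul, map_pow, map_pow, ← hP, h₁, h₂]
    ring
  induction K using MvPolynomial.induction_on with
  | C s =>
    induction s using MvPolynomial.induction_on with
    | C a =>
      refine ⟨0, C a, ?_⟩
      rw [pow_zero, one_mul]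
      unfold thh
      rw [aeval_C]
      rfl
    | add p q hp hq =>
      rw [map_add]
      exact hadd _ _ hp hq
    | mul_X p l hp =>
      obtain ⟨M, K', hK'⟩ := hp
      obtain ⟨⟨i, j⟩, rfl⟩ := ε.surjective l
      refine ⟨M + 1, K' * ((∏ i' ∈ Finset.univ.erase i, X ⟨i', 0⟩) * X ⟨i, j.succ⟩), ?_⟩
      rw [map_mul, hK', map_mul, map_prod, thh_X ε ⟨i, j.succ⟩, hat_succ, map_mul,
        Finset.prod_congr rfl fun i' _ => thh_X0 ε i', pow_succ,
        ← Finset.mul_prod_erase Finset.univ _ (Finset.mem_univ i)]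
      ring
  | add p q hp hq => exact hadd _ _ hp hq
  | mul_X p i hp =>
    obtain ⟨M, K', hK'⟩ := hp
    refine ⟨M, K' * X ⟨i, 0⟩, ?_⟩
    rw [map_mul, hK', thh_X0]
    ring

variable {f : MvPolynomial (Var n) ℤ}

theorem dvd_of_thh (hf : ∀ s ∈ f.support, ∀ i : Fin r,
    ∑ j : Fin (n i + 1), s ⟨i, j⟩ = d i)
    (hnd : ∀ i : Fin r, ¬ (X ⟨i, 0⟩ : MvPolynomial (Var n) L) ∣
      MvPolynomial.map (Int.castRingHom L) f)
    {G : MvPolynomial (Var n) L} (h : C (af ε d f L) ∣ thh ε L G) :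
    MvPolynomial.map (Int.castRingHom L) f ∣ G := by
  classical
  obtain ⟨K, hK⟩ := h
  obtain ⟨M, K', hK'⟩ := thh_surj (n := n) ε K
  have h1 : (∏ i : Fin r, (X ⟨i, 0⟩ : MvPolynomial (Var n) L) ^ (M + d i)) * G =
      MvPolynomial.map (Int.castRingHom L) f * K' := by
    apply thh_inj ε
    rw [map_mul, map_mul, map_prod, thh_form ε hf, hK', hK]
    have h2 : ∏ i : Fin r, thh ε L ((X ⟨i, 0⟩ : MvPolynomial (Var n) L) ^ (M + d i)) =
        (∏ i : Fin r, X i) ^ M * ∏ i : Fin r, X i ^ d i := by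
      rw [← Finset.prod_pow, ← Finset.prod_mul_distrib]
      refine Finset.prod_congr rfl fun i _ => ?_
      rw [map_pow, thh_X0, pow_add]
    rw [h2]
    ring
  exact cancel_prod Finset.univ (fun i _ => (X_prime : Prime (X (⟨i, 0⟩ : Var n))))
    (fun i _ => hnd i) _ ⟨K', h1⟩

theorem prime_form (hf : ∀ s ∈ f.support, ∀ i : Fin r, ∑ j : Fin (n i + 1), s ⟨i, j⟩ = d i)
    (hnd : ∀ i : Fin r, ¬ (X ⟨i, 0⟩ : MvPolynomial (Var n) L) ∣
      MvPolynomial.map (Int.castRingHom L) f)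
    (hirr : Irreducible (af ε d f L)) : Prime (MvPolynomial.map (Int.castRingHom L) f) := by
  have hF : Prime (C (af ε d f L) : MvPolynomial (Fin r) (MvPolynomial (Fin N) L)) :=
    (prime_C_iff (Fin r)).mpr hirr.prime
  have hform := thh_form (L := L) ε hf
  refine ⟨?_, ?_, ?_⟩
  · intro h0
    rw [h0, map_zero] at hform
    rcases mul_eq_zero.mp hform.symm with h1 | h1
    · exact (Finset.prod_ne_zero_iff.mpr fun i _ => pow_ne_zero _ (X_ne_zero i)) h1
    · exact hF.ne_zero h1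
  · intro hu
    have h1 := hu.map (thh ε L (n := n))
    rw [hform] at h1
    exact hF.not_unit (isUnit_of_mul_isUnit_right h1)
  · intro G H hGH
    have h1 : C (af ε d f L) ∣ thh ε L G * thh ε L H := by
      obtain ⟨K, hK⟩ := hGH
      refine ⟨(∏ i, X i ^ d i) * thh ε L K, ?_⟩
      rw [← map_mul, hK, map_mul, hform]
      ring
    rcases hF.dvd_or_dvd h1 with h2 | h2
    · exact Or.inl (dvd_of_thh ε hf hnd h2)
    · exact Or.inr (dvd_of_thh ε hf hnd h2)

end Cone

end Pool.Agent.R867.H
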