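import Pool.Agent.R867.H.Cone

/-! Unirationality of the multihomogeneous hypersurface. -/

set_option autoImplicit false

namespace Pool.Agent.R867.H

open MvPolynomial Pool.Agent.R867.Mov Pool.Agent.R867.D Pool.Agent.Y716.M

theorem e2 {σ S : Type} [CommRing S] (φ ψ : ℤ →+* S) (x : σ → S) (f : MvPolynomial σ ℤ) :
    eval₂ φ x f = eval₂ ψ x f := by rw [RingHom.ext_int φ ψ]

theorem block_e2 {K : Type} [CommRing K] {r : ℕ} {n d : Fin r → ℕ} (f : MvPolynomial (Var n) ℤ)
    (hf : ∀ s ∈ f.support, ∀ i : Fin r, ∑ j : Fin (n i + 1), s ⟨i, j⟩ = d i)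
    (c : Fin r → K) (x : Var n → K) : eval₂ (Int.castRingHom K) (fun a => c a.1 * x a) f =
      (∏ i, c i ^ d i) * eval₂ (Int.castRingHom K) x f := by
  have h := Pool.Agent.Y362.MH.aeval_block f hf c x
  rw [aeval_def, aeval_def] at h
  rw [e2 (Int.castRingHom K) (algebraMap ℤ K), e2 (Int.castRingHom K) (algebraMap ℤ K) x]
  exact h

theorem hat_e2 {r : ℕ} {n d : Fin r → ℕ} {N : ℕ} (ε : (Σ i : Fin r, Fin (n i)) ≃ Fin N)
    {f : MvPolynomial (Var n) ℤ} (hf : ∀ s ∈ f.support, ∀ i : Fin r,
    ∑ j : Fin (n i + 1), s ⟨i, j⟩ = d i) {L : Type} [CommRing L] {Ω : Type} [CommRing Ω]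
    [Algebra L Ω] (x : Fin N → Ω) :
    eval₂ (Int.castRingHom Ω) (hat ε x) f = aeval x (af ε d f L) := by
  rw [← aeval_hat ε hf, aeval_def]
  exact e2 _ _ _ _

section Cone

variable {r : ℕ} {n d : Fin r → ℕ} {N : ℕ} (ε : (Σ i : Fin r, Fin (n i)) ≃ Fin N)

/-- irreducible, unirational, and with a dense set of points -/
def UniH (L : Type) [Field L] (f : MvPolynomial (Var n) ℤ) : Prop :=
  Irreducible (MvPolynomial.map (Int.castRingHom L) f) ∧
  (∃ (m : ℕ) (P : Var n → MvPolynomial (Fin m) L), ∀ G : MvPolynomial (Var n) L,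
    aeval P G = 0 ↔ MvPolynomial.map (Int.castRingHom L) f ∣ G) ∧
  ∀ G : MvPolynomial (Var n) L, ¬ MvPolynomial.map (Int.castRingHom L) f ∣ G →
    ∃ x : Var n → L, (∀ i, bl x i ≠ 0) ∧ aeval x f = 0 ∧ aeval x G ≠ 0

variable {f : MvPolynomial (Var n) ℤ}

theorem uniH_of_uni (hf : ∀ s ∈ f.support, ∀ i : Fin r, ∑ j : Fin (n i + 1), s ⟨i, j⟩ = d i)
    {L : Type} [Field L] [CharZero L]
    (hnd : ∀ i : Fin r, ¬ (X ⟨i, 0⟩ : MvPolynomial (Var n) L) ∣
      MvPolynomial.map (Int.castRingHom L) f) (h : Uni (af ε d f L)) : UniH L f := by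
  classical
  obtain ⟨hirr, ⟨m, Q, hQ⟩, -⟩ := h
  have hprime := prime_form ε hf hnd hirr
  obtain ⟨A, D, hD, hA⟩ := common_den Q
  obtain ⟨ι, hι⟩ : ∃ ι, ι = algebraMap (MvPolynomial (Fin m) L) (Rt m L) := ⟨_, rfl⟩
  have hιi : Function.Injective ι := by
    rw [hι]
    exact rt_inj L m
  rw [← hι] at hA
  have hιD : ι D ≠ 0 := (map_ne_zero_iff _ hιi).mpr hD
  obtain ⟨Bv, hBv⟩ : ∃ Bv : Var n → MvPolynomial (Fin m) L,
    Bv = fun a => Fin.cases (motive := fun _ => MvPolynomial (Fin m) L) D
      (fun j => A (ε ⟨a.1, j⟩)) a.2 := ⟨_, rfl⟩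
  have hB : ∀ a, ι (Bv a) = ι D * hat ε Q a := by
    rintro ⟨i, j⟩
    refine Fin.cases ?_ (fun j => ?_) j
    · rw [hat_zero, mul_one, hBv]
      rfl
    · rw [hat_succ, mul_comm, hA, hBv]
      rfl
  -- the parametrization
  obtain ⟨P, hP⟩ : ∃ P : Var n → MvPolynomial (Fin r ⊕ Fin m) L,
    P = fun a => X (Sum.inl a.1) * rename Sum.inr (Bv a) := ⟨_, rfl⟩
  have hPf : aeval P (MvPolynomial.map (Int.castRingHom L) f) = 0 := by
    have h2 := Pool.Agent.Y362.MH.aeval_block f hf
      (fun i => (X (Sum.inl i) : MvPolynomial (Fin r ⊕ Fin m) L))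
      (fun a => rename Sum.inr (Bv a))
    rw [aeval_def, aeval_def] at h2
    rw [aeval_def, eval₂_map, hP, e2 _ _ _ f, h2]
    apply mul_eq_zero_of_right
    have h3 : eval₂ (Int.castRingHom _) Bv f = 0 := by
      apply hιi
      rw [map_zero, MvPolynomial.eval₂_comp_left]
      have h4 := block_e2 f hf (fun _ => ι D) (hat ε Q)
      have h5 := hat_e2 ε hf (L := L) Q
      rw [(hQ _).mpr dvd_rfl] at h5
      rw [h5, mul_zero] at h4
      have h6 : (ι ∘ Bv) = fun a => ι D * hat ε Q a := funext hB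
      rw [h6, e2 _ _ _ f]
      exact h4
    have h4 := MvPolynomial.eval₂_comp_left ((rename Sum.inr : MvPolynomial (Fin m) L →ₐ[L]
      MvPolynomial (Fin r ⊕ Fin m) L).toRingHom) (Int.castRingHom _) Bv f
    rw [h3, map_zero] at h4
    rw [e2 _ _ _ f]
    exact h4.symm
  have hPG : ∀ G : MvPolynomial (Var n) L, aeval P G = 0 ↔
      MvPolynomial.map (Int.castRingHom L) f ∣ G := by
    intro G
    constructor
    · intro hG
      apply dvd_of_thh ε hf hnd
      rw [C_dvd_iff_dvd_coeff]
      intro e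
      rw [← hQ]
      -- the comparison
      obtain ⟨σ, hσ⟩ : ∃ σ : MvPolynomial (Fin r ⊕ Fin m) L →+* MvPolynomial (Fin r) (Rt m L),
        σ = eval₂Hom ((C : Rt m L →+* MvPolynomial (Fin r) (Rt m L)).comp (ι.comp C))
          (Sum.elim (fun i => X i * C (ι D)⁻¹) (fun u => C (ι (X u)))) := ⟨_, rfl⟩
      have hσr : ∀ B : MvPolynomial (Fin m) L, σ (rename Sum.inr B) = C (ι B) := by
        intro B
        have h1 : σ.comp (rename Sum.inr : MvPolynomial (Fin m) L →ₐ[L]
            MvPolynomial (Fin r ⊕ Fin m) L).toRingHom =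
            (C : Rt m L →+* MvPolynomial (Fin r) (Rt m L)).comp ι := by
          apply MvPolynomial.ringHom_ext
          · intro a
            rw [RingHom.comp_apply]
            change σ (rename Sum.inr (C a)) = _
            rw [rename_C, hσ, coe_eval₂Hom, eval₂_C]
            rfl
          · intro u
            rw [RingHom.comp_apply]
            change σ (rename Sum.inr (X u)) = _
            rw [rename_X, hσ, coe_eval₂Hom, eval₂_X]
            rfl
        exact congrArg (fun g : MvPolynomial (Fin m) L →+* MvPolynomial (Fin r) (Rt m L) => g B) h1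
      have hσP : ∀ a, σ (P a) = X a.1 * C (hat ε Q a) := by
        intro a
        rw [hP]
        change σ (X (Sum.inl a.1) * rename Sum.inr (Bv a)) = _
        rw [map_mul, hσr, hB]
        have h1 : σ (X (Sum.inl a.1)) = X a.1 * C (ι D)⁻¹ := by
          rw [hσ, coe_eval₂Hom, eval₂_X]
          rfl
        rw [h1, mul_assoc, ← C_mul, ← mul_assoc, inv_mul_cancel₀ hιD, one_mul]
      obtain ⟨τ, hτ⟩ : ∃ τ : MvPolynomial (Fin r) (MvPolynomial (Fin N) L) →+*
        MvPolynomial (Fin r) (Rt m L),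
        τ = MvPolynomial.map (aeval Q : MvPolynomial (Fin N) L →ₐ[L] Rt m L).toRingHom := ⟨_, rfl⟩
      have h1 : σ.comp (aeval P : MvPolynomial (Var n) L →ₐ[L] _).toRingHom =
          τ.comp (thh ε L (n := n)).toRingHom := by
        apply MvPolynomial.ringHom_ext
        · intro a
          rw [RingHom.comp_apply, RingHom.comp_apply]
          change σ (aeval P (C a)) = τ (thh ε L (C a))
          have h2 : thh ε L (C a : MvPolynomial (Var n) L) = C (C a) := by
            unfold thh
            rw [aeval_C]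
            rfl
          have h3 : aeval P (C a : MvPolynomial (Var n) L) = C a := by
            rw [aeval_C]
            rfl
          rw [h2, h3, hτ, map_C, hσ, coe_eval₂Hom, eval₂_C]
          change C (ι (C a)) = C (aeval Q (C a))
          rw [aeval_C, hι]
          rfl
        · intro a
          rw [RingHom.comp_apply, RingHom.comp_apply]
          change σ (aeval P (X a)) = τ (thh ε L (X a))
          rw [aeval_X, hσP, thh_X, hτ, map_mul, map_X, map_C]
          congr 2
          obtain ⟨i, j⟩ := a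
          refine Fin.cases ?_ (fun j => ?_) j
          · rw [hat_zero, hat_zero]
            exact (map_one _).symm
          · rw [hat_succ, hat_succ]
            exact (aeval_X Q _).symm
      have h2 : σ (aeval P G) = τ (thh ε L G) :=
        congrArg (fun g : MvPolynomial (Var n) L →+* MvPolynomial (Fin r) (Rt m L) => g G) h1
      rw [hG, map_zero] at h2
      have h3 := congrArg (coeff e) h2.symm
      rw [hτ, coeff_map, coeff_zero] at h3
      exact h3
    · rintro ⟨K, rfl⟩
      rw [map_mul, hPf, zero_mul]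
  obtain ⟨P', hP'⟩ : ∃ P' : Var n → MvPolynomial (Fin (r + m)) L,
    P' = fun a => rename finSumFinEquiv (P a) := ⟨_, rfl⟩
  have hP'G : ∀ G : MvPolynomial (Var n) L, aeval P' G = rename finSumFinEquiv (aeval P G) := by
    intro G
    rw [hP', ← MvPolynomial.comp_aeval_apply]
  have hmain : ∀ G : MvPolynomial (Var n) L, aeval P' G = 0 ↔
      MvPolynomial.map (Int.castRingHom L) f ∣ G := by
    intro G
    rw [hP'G, ← hPG]
    constructor
    · intro h
      exact rename_injective _ finSumFinEquiv.injective (h.trans (map_zero _).symm)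
    · intro h
      rw [h, map_zero]
  refine ⟨hprime.irreducible, ⟨r + m, P', hmain⟩, ?_⟩
  intro G hG
  have h1 : ¬ MvPolynomial.map (Int.castRingHom L) f ∣ (∏ i : Fin r, X ⟨i, 0⟩) * G := by
    intro h2
    rcases hprime.dvd_or_dvd h2 with h3 | h3
    · obtain ⟨i, -, hi⟩ := (hprime.dvd_finsetProd_iff _).mp h3
      have h4 : Irreducible (X ⟨i, 0⟩ : MvPolynomial (Var n) L) := X_prime.irreducible
      exact hnd i ((hprime.irreducible.associated_of_dvd h4 hi).symm.dvd)
    · exact hG h3
  rw [← hmain] at h1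
  obtain ⟨t, ht⟩ : ∃ t : Fin (r + m) → L, eval t (aeval P' ((∏ i : Fin r, X ⟨i, 0⟩) * G)) ≠ 0 := by
    by_contra hcon
    push Not at hcon
    apply h1
    apply MvPolynomial.funext
    intro t
    rw [hcon t, map_zero]
  have hev : ∀ G : MvPolynomial (Var n) L, eval t (aeval P' G) =
      aeval (fun a => eval t (P' a)) G := by
    intro G
    have h2 := MvPolynomial.eval₂_comp_left (eval t) (algebraMap L (MvPolynomial (Fin (r + m)) L))
      P' G
    rw [aeval_def, aeval_def, h2]
    congr 1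
    apply RingHom.ext
    intro a
    rw [RingHom.comp_apply]
    change eval t (C a) = a
    rw [eval_C]
  refine ⟨fun a => eval t (P' a), fun i h0 => ?_, ?_, ?_⟩
  · apply ht
    have h2 : eval t (P' ⟨i, 0⟩) = 0 := congrFun h0 0
    rw [hev, map_mul, map_prod, Finset.prod_eq_zero (Finset.mem_univ i), zero_mul]
    rw [aeval_X]
    exact h2
  · have h2 := hev (MvPolynomial.map (Int.castRingHom L) f)
    rw [(hmain _).mpr dvd_rfl, map_zero, aeval_def, eval₂_map] at h2
    rw [aeval_def, h2]
    exact e2 _ _ _ f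
  · intro h0
    apply ht
    rw [hev, map_mul, h0, mul_zero]

end Cone

end Pool.Agent.R867.H
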