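import Pool.Agent.R867.H.LineVar

/-! Directional derivatives of orders two and three in the direction of a vector. -/

set_option autoImplicit false

namespace Pool.Agent.R867.H

open MvPolynomial Pool.Agent.R867.Mov Pool.Agent.R867.J

universe u v w

section Forms

variable {N : ℕ} {R : Type v} [CommRing R]

/-- bilinear forms -/
def B2 (F : Fin N → Fin N → R) (a b : Fin N → R) : R := ∑ m, ∑ m', a m * b m' * F m m'

/-- trilinear forms -/
def B3 (F : Fin N → Fin N → Fin N → R) (a b c : Fin N → R) : R :=
  ∑ m, ∑ m', ∑ m'', a m * b m' * c m'' * F m m' m''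

theorem B2_line (F : Fin N → Fin N → R) (a b : Fin N → R) (s : R) :
    B2 F (fun m => a m + s * b m) (fun m => a m + s * b m) =
      B2 F a a + (B2 F a b + B2 F b a) * s + B2 F b b * s ^ 2 := by
  unfold B2
  simp only [Finset.sum_mul, ← Finset.sum_add_distrib]
  refine Finset.sum_congr rfl fun m _ => Finset.sum_congr rfl fun m' _ => ?_
  ring

theorem B3_line (F : Fin N → Fin N → Fin N → R) (a b : Fin N → R) (s : R) :
    B3 F (fun m => a m + s * b m) (fun m => a m + s * b m) (fun m => a m + s * b m) =
      B3 F a a a + (B3 F a a b + B3 F a b a + B3 F b a a) * s +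
      (B3 F a b b + B3 F b a b + B3 F b b a) * s ^ 2 + B3 F b b b * s ^ 3 := by
  unfold B3
  simp only [Finset.sum_mul, ← Finset.sum_add_distrib]
  refine Finset.sum_congr rfl fun m _ => Finset.sum_congr rfl fun m' _ =>
    Finset.sum_congr rfl fun m'' _ => ?_
  ring

theorem B2_smul (F : Fin N → Fin N → R) {a b : Fin N → R} {g : R} (h : ∀ m, b m = g * a m) :
    B2 F b b = g ^ 2 * B2 F a a := by
  unfold B2
  simp only [Finset.mul_sum]
  refine Finset.sum_congr rfl fun m _ => Finset.sum_congr rfl fun m' _ => ?_
  rw [h, h]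
  ring

theorem B3_smul (F : Fin N → Fin N → Fin N → R) {a b : Fin N → R} {g : R}
    (h : ∀ m, b m = g * a m) : B3 F b b b = g ^ 3 * B3 F a a a := by
  unfold B3
  simp only [Finset.mul_sum]
  refine Finset.sum_congr rfl fun m _ => Finset.sum_congr rfl fun m' _ =>
    Finset.sum_congr rfl fun m'' _ => ?_
  rw [h, h, h]
  ring

theorem B2_map {S : Type w} [CommRing S] (φ : R →+* S) (F : Fin N → Fin N → R)
    (a b : Fin N → R) : φ (B2 F a b) = B2 (fun m m' => φ (F m m')) (φ ∘ a) (φ ∘ b) := by
  unfold B2
  simp only [map_sum, map_mul, Function.comp_apply]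

theorem B3_map {S : Type w} [CommRing S] (φ : R →+* S) (F : Fin N → Fin N → Fin N → R)
    (a b c : Fin N → R) :
    φ (B3 F a b c) = B3 (fun m m' m'' => φ (F m m' m'')) (φ ∘ a) (φ ∘ b) (φ ∘ c) := by
  unfold B3
  simp only [map_sum, map_mul, Function.comp_apply]

end Forms

section Lin

variable {k : Type u} [Field k] {N : ℕ} {Ω : Type v} [Field Ω] [Algebra k Ω]

theorem lin_der' {x v : Fin N → Ω} (g : MvPolynomial (Fin N) k) :
    Polynomial.derivative (lin x v g) =
      ∑ m, Polynomial.C (v m) * lin x v (pderiv m g) := by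
  induction g using MvPolynomial.induction_on with
  | C c =>
    rw [lin_C, Polynomial.derivative_C]
    symm
    apply Finset.sum_eq_zero
    intro m _
    rw [pderiv_C, map_zero, mul_zero]
  | add p q hp hq =>
    simp only [map_add, hp, hq, mul_add, Finset.sum_add_distrib]
  | mul_X p l hp =>
    rw [map_mul, Polynomial.derivative_mul, hp]
    have h1 : ∀ m, lin x v (pderiv m (p * (X l : MvPolynomial (Fin N) k))) =
        lin x v (pderiv m p) * lin x v (X l : MvPolynomial (Fin N) k) +
        (if m = l then lin x v p else 0) := by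
      intro m
      rw [pderiv_mul, map_add, map_mul]
      congr 1
      by_cases h : m = l
      · rw [h, pderiv_X_self, mul_one, if_pos rfl]
      · rw [if_neg h, pderiv_X_of_ne (Ne.symm h), mul_zero, map_zero]
    simp only [h1, mul_add, Finset.sum_add_distrib, mul_ite, mul_zero, Finset.sum_ite_eq',
      Finset.mem_univ, if_true]
    rw [Finset.sum_mul]
    congr 1
    · refine Finset.sum_congr rfl fun m _ => ?_
      ring
    · rw [lin_X]
      simp only [map_add, Polynomial.derivative_C, Polynomial.derivative_mul,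
        Polynomial.derivative_X]
      ring

theorem lin_e1 {x v : Fin N → Ω} (g : MvPolynomial (Fin N) k) :
    (Polynomial.derivative (lin x v g)).eval 0 = ∑ m, v m * aeval x (pderiv m g) := by
  rw [lin_der', Polynomial.eval_finsetSum]
  refine Finset.sum_congr rfl fun m _ => ?_
  rw [Polynomial.eval_mul, Polynomial.eval_C, lin_zero]

theorem lin_e2 {x v : Fin N → Ω} (g : MvPolynomial (Fin N) k) :
    (Polynomial.derivative (Polynomial.derivative (lin x v g))).eval 0 =
      B2 (fun m m' => aeval x (pderiv m' (pderiv m g))) v v := by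
  rw [lin_der', map_sum, Polynomial.eval_finsetSum]
  unfold B2
  refine Finset.sum_congr rfl fun m _ => ?_
  rw [Polynomial.derivative_mul, Polynomial.derivative_C, zero_mul, zero_add, Polynomial.eval_mul,
    Polynomial.eval_C, lin_e1, Finset.mul_sum]
  refine Finset.sum_congr rfl fun m' _ => ?_
  ring

theorem lin_e3 {x v : Fin N → Ω} (g : MvPolynomial (Fin N) k) :
    (Polynomial.derivative (Polynomial.derivative (Polynomial.derivative (lin x v g)))).eval 0 =
      B3 (fun m m' m'' => aeval x (pderiv m'' (pderiv m' (pderiv m g)))) v v v := by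
  rw [lin_der', map_sum, map_sum, Polynomial.eval_finsetSum]
  unfold B3
  refine Finset.sum_congr rfl fun m _ => ?_
  rw [Polynomial.derivative_mul, Polynomial.derivative_C, zero_mul, zero_add,
    Polynomial.derivative_mul, Polynomial.derivative_C, zero_mul, zero_add, Polynomial.eval_mul,
    Polynomial.eval_C, lin_e2]
  unfold B2
  rw [Finset.mul_sum]
  refine Finset.sum_congr rfl fun m' _ => ?_
  rw [Finset.mul_sum]
  refine Finset.sum_congr rfl fun m'' _ => ?_
  ring

theorem lin_natDegree3 {x v : Fin N → Ω} {i j l : Fin N} (hij : i ≠ j) (hil : i ≠ l) (hjl : j ≠ l)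
    (hv : ∀ m, m ≠ i → m ≠ j → m ≠ l → v m = 0) {d : ℕ} {g : MvPolynomial (Fin N) k}
    (hd : ∀ m ∈ g.support, m i + m j + m l ≤ d) : (lin x v g).natDegree ≤ d := by
  classical
  have h1 : lin x v g = ∑ m ∈ g.support, lin x v (monomial m (coeff m g)) := by
    conv_lhs => rw [g.as_sum]
    rw [map_sum]
  rw [h1]
  refine Polynomial.natDegree_sum_le_of_forall_le _ _ fun m hm => ?_
  refine le_trans ?_ (hd m hm)
  rw [monomial_eq, map_mul, lin_C]
  refine (Polynomial.natDegree_C_mul_le _ _).trans ?_
  rw [Finsupp.prod, map_prod]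
  refine (Polynomial.natDegree_prod_le _ _).trans ?_
  have h4 : ∀ q : Fin N, (lin x v (X q ^ m q : MvPolynomial (Fin N) k)).natDegree ≤ m q := by
    intro q
    rw [map_pow, lin_X]
    refine (Polynomial.natDegree_pow_le).trans ?_
    have h3 : (Polynomial.C (x q) + Polynomial.X * Polynomial.C (v q) :
        Polynomial Ω).natDegree ≤ 1 := by
      rw [add_comm, mul_comm]
      exact Polynomial.natDegree_linear_le
    calc _ ≤ m q * 1 := Nat.mul_le_mul_left _ h3
      _ = m q := mul_one _
  have h2 : ∀ q ∈ m.support, (lin x v (X q ^ m q : MvPolynomial (Fin N) k)).natDegree ≤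
      (if q = i then m i else 0) + (if q = j then m j else 0) + (if q = l then m l else 0) := by
    intro q _
    by_cases h : q = i
    · subst h
      rw [if_pos rfl, if_neg hij, if_neg hil]
      exact h4 q
    · by_cases h' : q = j
      · subst h'
        rw [if_neg h, if_pos rfl, if_neg hjl]
        simpa using h4 q
      · by_cases h'' : q = l
        · subst h''
          rw [if_neg h, if_neg h', if_pos rfl]
          simpa using h4 q
        · rw [map_pow, lin_X, hv q h h' h'', map_zero, mul_zero, add_zero, ← Polynomial.C_pow,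
            Polynomial.natDegree_C]
          exact Nat.zero_le _
  refine (Finset.sum_le_sum h2).trans ?_
  rw [Finset.sum_add_distrib, Finset.sum_add_distrib, Finset.sum_ite_eq', Finset.sum_ite_eq',
    Finset.sum_ite_eq']
  apply Nat.add_le_add
  · apply Nat.add_le_add
    · split_ifs
      · exact le_rfl
      · exact Nat.zero_le _
    · split_ifs
      · exact le_rfl
      · exact Nat.zero_le _
  · split_ifs
    · exact le_rfl
    · exact Nat.zero_le _

end Lin

/-- clearing denominators in a point with coordinates in the rational function field -/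
theorem clearP {k : Type u} {K : Type u} [Field k] [Field K] [Algebra k K] {N : ℕ}
    (A : Fin N → Polynomial K) (D : Polynomial K) (P : MvPolynomial (Fin N) k) :
    ∃ (G : Polynomial K) (e : ℕ), ∀ {R : Type u} [CommRing R] (κ : K →+* R) (s : R)
      (p : Fin N → R), (∀ m, p m * D.eval₂ κ s = (A m).eval₂ κ s) →
      P.eval₂ (κ.comp (algebraMap k K)) p * D.eval₂ κ s ^ e = G.eval₂ κ s := by
  induction P using MvPolynomial.induction_on with
  | C a =>
    refine ⟨Polynomial.C (algebraMap k K a), 0, fun κ s p _ => ?_⟩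
    rw [pow_zero, mul_one, Polynomial.eval₂_C, MvPolynomial.eval₂_C]
    rfl
  | add p q hp hq =>
    obtain ⟨G₁, e₁, h₁⟩ := hp
    obtain ⟨G₂, e₂, h₂⟩ := hq
    refine ⟨G₁ * D ^ e₂ + G₂ * D ^ e₁, e₁ + e₂, fun κ s c hc => ?_⟩
    rw [MvPolynomial.eval₂_add, Polynomial.eval₂_add, Polynomial.eval₂_mul, Polynomial.eval₂_mul,
      Polynomial.eval₂_pow, Polynomial.eval₂_pow, ← h₁ κ s c hc, ← h₂ κ s c hc]
    ring
  | mul_X p i hp =>
    obtain ⟨G, e, h⟩ := hp
    refine ⟨G * A i, e + 1, fun κ s c hc => ?_⟩
    rw [MvPolynomial.eval₂_mul, MvPolynomial.eval₂_X, Polynomial.eval₂_mul, ← h κ s c hc, ← hc]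
    ring

end Pool.Agent.R867.H
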