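import Pool.Agent.R867.H.Cub1
import Mathlib.Algebra.DualNumber

/-! Moving along the tangent plane sections of a cubic surface. -/

set_option autoImplicit false

namespace Pool.Agent.R867.H

open MvPolynomial Pool.Agent.R867.Mov Pool.Agent.R867.J

universe u v w

section Defs

variable {k : Type u} [CommRing k] {N : ℕ}

/-- the tangent vector field in the plane of two coordinates -/
noncomputable def vf (i j : Fin N) (f : MvPolynomial (Fin N) k) (m : Fin N) :
    MvPolynomial (Fin N) k :=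
  (if m = i then - pderiv j f else 0) + (if m = j then pderiv i f else 0)

/-- second derivatives -/
noncomputable def F2 (f : MvPolynomial (Fin N) k) (m m' : Fin N) : MvPolynomial (Fin N) k :=
  pderiv m' (pderiv m f)

/-- third derivatives -/
noncomputable def F3 (f : MvPolynomial (Fin N) k) (m m' m'' : Fin N) : MvPolynomial (Fin N) k :=
  pderiv m'' (pderiv m' (pderiv m f))

theorem sum_vf {Ω : Type v} [Field Ω] [Algebra k Ω] (x : Fin N → Ω) (i j : Fin N)
    (f : MvPolynomial (Fin N) k) (F : Fin N → Ω) : ∑ m, aeval x (vf i j f m) * F m =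
      - aeval x (pderiv j f) * F i + aeval x (pderiv i f) * F j := by
  have h1 : ∀ m, aeval x (vf i j f m) * F m = (if m = i then - aeval x (pderiv j f) * F m else 0) +
      (if m = j then aeval x (pderiv i f) * F m else 0) := by
    intro m
    unfold vf
    rw [map_add, add_mul]
    congr 1
    · split_ifs
      · rw [map_neg]
      · rw [map_zero, zero_mul]
    · split_ifs
      · rfl
      · rw [map_zero, zero_mul]
  simp only [h1, Finset.sum_add_distrib, Finset.sum_ite_eq', Finset.mem_univ, if_true]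

end Defs

/-- cancellation in the dual numbers -/
theorem dual_cancel {Ω : Type u} [Field Ω] {y z D : DualNumber Ω} (hD : D.fst ≠ 0)
    (h : y * D = z * D) : y = z := by
  have h1 : (y - z) * D = 0 := by rw [sub_mul, h, sub_self]
  have h2 : (y - z).fst = 0 := by
    have h3 := congrArg TrivSqZeroExt.fst h1
    rw [TrivSqZeroExt.fst_mul, TrivSqZeroExt.fst_zero] at h3
    exact (mul_eq_zero.mp h3).resolve_right hD
  have h3 : (y - z).snd = 0 := by
    have h4 := congrArg TrivSqZeroExt.snd h1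
    rw [DualNumber.snd_mul, TrivSqZeroExt.snd_zero, h2, zero_mul, zero_add] at h4
    exact (mul_eq_zero.mp h4).resolve_right hD
  apply sub_eq_zero.mp
  exact TrivSqZeroExt.ext h2 h3

variable {k K : Type u} [Field k] [Field K] [Algebra k K] {N : ℕ} {f : MvPolynomial (Fin N) k}
  {ξ : Fin N → K}

/-- the data of a family of tangent lines -/
structure TFam (f : MvPolynomial (Fin N) k) (ξ : Fin N → K) (i j l : Fin N) (α b γ c₀ c₁ c₂ c₃ : K) :
    Prop where
  hij : i ≠ j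
  hil : i ≠ l
  hjl : j ≠ l
  deg : ∀ m ∈ f.support, m i + m j + m l ≤ 3
  hi : aeval ξ (pderiv i f) ≠ 0
  hH : ∀ {R : Type u} [Field R] (κ : K →+* R) (s : R),
    B2 (fun m m' => κ (aeval ξ (F2 f m m')))
      (fun m => κ (aeval ξ (vf i j f m)) + s * κ (aeval ξ (vf i l f m)))
      (fun m => κ (aeval ξ (vf i j f m)) + s * κ (aeval ξ (vf i l f m))) =
      κ α + κ b * s + κ γ * s ^ 2
  hC : ∀ {R : Type u} [Field R] (κ : K →+* R) (s : R),
    B3 (fun m m' m'' => κ (aeval ξ (F3 f m m' m'')))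
      (fun m => κ (aeval ξ (vf i j f m)) + s * κ (aeval ξ (vf i l f m)))
      (fun m => κ (aeval ξ (vf i j f m)) + s * κ (aeval ξ (vf i l f m)))
      (fun m => κ (aeval ξ (vf i j f m)) + s * κ (aeval ξ (vf i l f m))) =
      κ c₀ + κ c₁ * s + κ c₂ * s ^ 2 + κ c₃ * s ^ 3

variable {i j l : Fin N} {α b γ c₀ c₁ c₂ c₃ : K}

theorem TFam.kill [CharZero k] (h : TFam f ξ i j l α b γ c₀ c₁ c₂ c₃) (hξ : GP f ξ)
    {D2 D3 : Derivation k K K} (hD2 : ∀ m, D2 (ξ m) = aeval ξ (vf i j f m))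
    (hD3 : ∀ m, D3 (ξ m) = aeval ξ (vf i l f m)) {Ω : Type u} [Field Ω] (κ : K →+* Ω) {s₀ : Ω}
    (hH0 : κ α + κ b * s₀ + κ γ * s₀ ^ 2 = 0) (hH1 : κ b + 2 * κ γ * s₀ ≠ 0)
    (hC0 : κ c₀ + κ c₁ * s₀ + κ c₂ * s₀ ^ 2 + κ c₃ * s₀ ^ 3 ≠ 0) {a : K} (ha : Imm k a) :
    κ (D2 a) + s₀ * κ (D3 a) = 0 := by
  have hcK : CharZero K := charZero_of_injective_algebraMap (algebraMap k K).injective
  have hcR : CharZero (Rt 1 K) :=
    charZero_of_injective_algebraMap (algebraMap K (Rt 1 K)).injective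
  have hcΩ : CharZero Ω := charZero_of_injective_ringHom κ.injective
  have hfx : aeval ξ f = 0 := (hξ.zero_iff f).mpr dvd_rfl
  -- the polynomials
  obtain ⟨HH, hHH⟩ : ∃ HH : Polynomial K, HH = Polynomial.C α + Polynomial.C b * Polynomial.X +
    Polynomial.C γ * Polynomial.X ^ 2 := ⟨_, rfl⟩
  obtain ⟨CC, hCC⟩ : ∃ CC : Polynomial K, CC = Polynomial.C c₀ + Polynomial.C c₁ * Polynomial.X +
    Polynomial.C c₂ * Polynomial.X ^ 2 + Polynomial.C c₃ * Polynomial.X ^ 3 := ⟨_, rfl⟩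
  obtain ⟨A, hA⟩ : ∃ A : Fin N → Polynomial K, A = fun m => Polynomial.C (ξ m) * CC -
    Polynomial.C 3 * HH * (Polynomial.C (aeval ξ (vf i j f m)) +
      Polynomial.X * Polynomial.C (aeval ξ (vf i l f m))) := ⟨_, rfl⟩
  have hHe : ∀ {R : Type u} [CommRing R] (κ : K →+* R) (s : R), HH.eval₂ κ s =
      κ α + κ b * s + κ γ * s ^ 2 := by
    intro R _ κ s
    rw [hHH]
    simp [Polynomial.eval₂_add, Polynomial.eval₂_mul]
  have hCe : ∀ {R : Type u} [CommRing R] (κ : K →+* R) (s : R), CC.eval₂ κ s =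
      κ c₀ + κ c₁ * s + κ c₂ * s ^ 2 + κ c₃ * s ^ 3 := by
    intro R _ κ s
    rw [hCC]
    simp [Polynomial.eval₂_add, Polynomial.eval₂_mul]
  have hAe : ∀ {R : Type u} [CommRing R] (κ : K →+* R) (s : R) (m : Fin N), (A m).eval₂ κ s =
      κ (ξ m) * CC.eval₂ κ s - κ 3 * HH.eval₂ κ s * (κ (aeval ξ (vf i j f m)) +
        s * κ (aeval ξ (vf i l f m))) := by
    intro R _ κ s m
    rw [hA]
    simp only [Polynomial.eval₂_sub, Polynomial.eval₂_mul, Polynomial.eval₂_add,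
      Polynomial.eval₂_C, Polynomial.eval₂_X]
  have hCC0 : CC ≠ 0 := by
    intro h0
    apply hC0
    rw [← hCe κ s₀, h0, Polynomial.eval₂_zero]
  have htt : ∀ G : Polynomial K, G.eval₂ (algebraMap K (Rt 1 K)) (tt K) = 0 → G = 0 := by
    intro G hG
    by_contra hG0
    exact tt_not (K := K) ⟨G, hG0, hG⟩
  obtain ⟨Cs, hCs⟩ : ∃ Cs, Cs = CC.eval₂ (algebraMap K (Rt 1 K)) (tt K) := ⟨_, rfl⟩
  obtain ⟨Hs, hHs⟩ : ∃ Hs, Hs = HH.eval₂ (algebraMap K (Rt 1 K)) (tt K) := ⟨_, rfl⟩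
  have hCs0 : Cs ≠ 0 := fun h0 => hCC0 (htt _ (by rw [← hCs, h0]))
  obtain ⟨t, ht⟩ : ∃ t, t * Cs = -3 * Hs := ⟨-3 * Hs / Cs, div_mul_cancel₀ _ hCs0⟩
  obtain ⟨x, hx⟩ : ∃ x : Fin N → Rt 1 K, x = fun m => algebraMap K (Rt 1 K) (ξ m) := ⟨_, rfl⟩
  obtain ⟨v, hv⟩ : ∃ v : Fin N → Rt 1 K, v = fun m =>
    algebraMap K (Rt 1 K) (aeval ξ (vf i j f m)) +
      tt K * algebraMap K (Rt 1 K) (aeval ξ (vf i l f m)) := ⟨_, rfl⟩
  have hxv : ∀ g : MvPolynomial (Fin N) k, aeval x g = algebraMap K (Rt 1 K) (aeval ξ g) := by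
    intro g
    rw [hx]
    exact MvPolynomial.aeval_algebraMap_apply _ _ _
  obtain ⟨y, hy⟩ : ∃ y : Fin N → Rt 1 K, y = fun m => x m + t * v m := ⟨_, rfl⟩
  have hvl : ∀ m, m ≠ i → m ≠ j → m ≠ l → v m = 0 := by
    intro m h1 h2 h3
    rw [hv]
    simp [vf, h1, h2, h3]
  have hnd := lin_natDegree3 (x := x) h.hij h.hil h.hjl hvl h.deg
  have d1 : (Polynomial.derivative (lin x v f)).eval 0 = 0 := by
    rw [lin_e1, hv]
    have h1 : ∀ m, (algebraMap K (Rt 1 K) (aeval ξ (vf i j f m)) +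
        tt K * algebraMap K (Rt 1 K) (aeval ξ (vf i l f m))) * aeval x (pderiv m f) =
        algebraMap K (Rt 1 K) (aeval ξ (vf i j f m) * aeval ξ (pderiv m f)) +
        tt K * algebraMap K (Rt 1 K) (aeval ξ (vf i l f m) * aeval ξ (pderiv m f)) := by
      intro m
      rw [hxv, map_mul, map_mul]
      ring
    simp only [h1, Finset.sum_add_distrib, ← Finset.mul_sum, ← map_sum]
    rw [sum_vf ξ i j f (fun m => aeval ξ (pderiv m f)), sum_vf ξ i l f (fun m => aeval ξ (pderiv m f))]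
    have h2 : -(aeval ξ) ((pderiv j) f) * (aeval ξ) ((pderiv i) f) +
      (aeval ξ) ((pderiv i) f) * (aeval ξ) ((pderiv j) f) = 0 := by ring
    have h3 : -(aeval ξ) ((pderiv l) f) * (aeval ξ) ((pderiv i) f) +
      (aeval ξ) ((pderiv i) f) * (aeval ξ) ((pderiv l) f) = 0 := by ring
    rw [h2, h3, map_zero, mul_zero, add_zero]
  have d2 : (Polynomial.derivative (Polynomial.derivative (lin x v f))).eval 0 = Hs := by
    rw [lin_e2, hHs, hHe, ← h.hH (algebraMap K (Rt 1 K)) (tt K), hv]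
    congr 1
    funext m m'
    exact hxv _
  have d3 : (Polynomial.derivative (Polynomial.derivative (Polynomial.derivative
      (lin x v f)))).eval 0 = Cs := by
    rw [lin_e3, hCs, hCe, ← h.hC (algebraMap K (Rt 1 K)) (tt K), hv]
    congr 1
    funext m m' m''
    exact hxv _
  have hyf : aeval y f = 0 := by
    have h1 := eval_cubic hnd t
    rw [lin_eval, lin_zero, hxv, hfx, d1, d2, d3, ← hy] at h1
    have h2 : (6 : Rt 1 K) * aeval y f = 0 := by
      rw [h1, map_zero]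
      linear_combination t ^ 2 * ht
    exact (mul_eq_zero.mp h2).resolve_left (by norm_num)
  have hyA : ∀ m, y m * CC.eval₂ (algebraMap K (Rt 1 K)) (tt K) =
      (A m).eval₂ (algebraMap K (Rt 1 K)) (tt K) := by
    intro m
    rw [hAe, ← hCs, ← hHs, hy, hx, hv, map_ofNat]
    dsimp only
    linear_combination (algebraMap K (Rt 1 K) (aeval ξ (vf i j f m)) +
      tt K * algebraMap K (Rt 1 K) (aeval ξ (vf i l f m))) * ht
  have hyP : ∀ P : MvPolynomial (Fin N) k, P.eval₂ ((algebraMap K (Rt 1 K)).comp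
      (algebraMap k K)) y = aeval y P := fun P => rfl
  -- the dual numbers
  obtain ⟨H1, hH1'⟩ : ∃ H1, H1 = κ b + 2 * κ γ * s₀ := ⟨_, rfl⟩
  obtain ⟨C0, hC0'⟩ : ∃ C0, C0 = κ c₀ + κ c₁ * s₀ + κ c₂ * s₀ ^ 2 + κ c₃ * s₀ ^ 3 := ⟨_, rfl⟩
  rw [← hH1'] at hH1
  rw [← hC0'] at hC0
  obtain ⟨τ, hτ⟩ : ∃ τ, τ * C0 = -3 * H1 := ⟨-3 * H1 / C0, div_mul_cancel₀ _ hC0⟩
  have hτ0 : τ ≠ 0 := by
    rintro rfl
    rw [zero_mul] at hτ
    apply hH1
    linear_combination (1 / 3 : Ω) * hτ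
  obtain ⟨κ', hκ'⟩ : ∃ κ' : K →+* DualNumber Ω, κ' = (TrivSqZeroExt.inlHom Ω Ω).comp κ := ⟨_, rfl⟩
  have hκf : ∀ z, (κ' z).fst = κ z := fun z => by rw [hκ']; rfl
  have hκs : ∀ z, (κ' z).snd = 0 := fun z => by rw [hκ']; rfl
  obtain ⟨s', hs'⟩ : ∃ s' : DualNumber Ω, s'.fst = s₀ ∧ s'.snd = 1 :=
    ⟨TrivSqZeroExt.inl s₀ + TrivSqZeroExt.inr 1, by simp, by simp⟩
  have hHf : (HH.eval₂ κ' s').fst = 0 := by
    rw [hHe]
    simp only [TrivSqZeroExt.fst_add, TrivSqZeroExt.fst_mul, TrivSqZeroExt.fst_pow, hκf, hs'.1]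
    exact hH0
  have hHsn : (HH.eval₂ κ' s').snd = H1 := by
    rw [hHe, pow_two]
    simp only [TrivSqZeroExt.snd_add, DualNumber.snd_mul, TrivSqZeroExt.fst_mul, hκf, hκs, hs'.1,
      hs'.2, hH1']
    ring
  have hCf : (CC.eval₂ κ' s').fst = C0 := by
    rw [hCe]
    simp only [TrivSqZeroExt.fst_add, TrivSqZeroExt.fst_mul, TrivSqZeroExt.fst_pow, hκf, hs'.1,
      hC0']
  obtain ⟨p, hpf, hps⟩ : ∃ p : Fin N → DualNumber Ω, (∀ m, (p m).fst = κ (ξ m)) ∧
      ∀ m, (p m).snd = τ * (κ (aeval ξ (vf i j f m)) + s₀ * κ (aeval ξ (vf i l f m))) :=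
    ⟨fun m => TrivSqZeroExt.inl (κ (ξ m)) + TrivSqZeroExt.inr
      (τ * (κ (aeval ξ (vf i j f m)) + s₀ * κ (aeval ξ (vf i l f m)))), fun m => by simp,
      fun m => by simp⟩
  have hpA : ∀ m, p m * CC.eval₂ κ' s' = (A m).eval₂ κ' s' := by
    intro m
    rw [hAe]
    apply TrivSqZeroExt.ext
    · simp only [TrivSqZeroExt.fst_mul, TrivSqZeroExt.fst_sub, TrivSqZeroExt.fst_add, hpf, hκf,
        hHf, mul_zero, zero_mul, sub_zero]
    · simp only [DualNumber.snd_mul, TrivSqZeroExt.snd_sub, TrivSqZeroExt.fst_mul, TrivSqZeroExt.fst_add,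
        hpf, hps, hκf, hκs, hHf, hHsn, hCf, hs'.1, mul_zero, zero_mul, sub_zero,
        zero_add, add_zero]
      rw [map_ofNat]
      linear_combination (κ (aeval ξ (vf i j f m)) + s₀ * κ (aeval ξ (vf i l f m))) * hτ
  have hpP : ∀ P : MvPolynomial (Fin N) k, (P.eval₂ (κ'.comp (algebraMap k K)) p).fst =
      κ (aeval ξ P) ∧ (P.eval₂ (κ'.comp (algebraMap k K)) p).snd =
        τ * (κ (D2 (aeval ξ P)) + s₀ * κ (D3 (aeval ξ P))) := by
    intro P
    induction P using MvPolynomial.induction_on with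
    | C c =>
      rw [MvPolynomial.eval₂_C, RingHom.comp_apply, hκf, hκs, aeval_C, D2.map_algebraMap,
        D3.map_algebraMap]
      simp
    | add P Q hP hQ =>
      rw [MvPolynomial.eval₂_add, TrivSqZeroExt.fst_add, TrivSqZeroExt.snd_add, hP.1, hP.2, hQ.1,
        hQ.2, map_add, map_add, map_add, map_add, map_add, map_add]
      refine ⟨rfl, by ring⟩
    | mul_X P m hP =>
      rw [MvPolynomial.eval₂_mul, MvPolynomial.eval₂_X, TrivSqZeroExt.fst_mul, DualNumber.snd_mul,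
        hP.1, hP.2, hpf, hps, map_mul, aeval_X, map_mul, Derivation.leibniz, Derivation.leibniz,
        hD2, hD3]
      refine ⟨rfl, ?_⟩
      simp only [smul_eq_mul, map_add, map_mul]
      ring
  -- the points over the function field
  obtain ⟨σ, hσ⟩ := embedG (aeval ξ : MvPolynomial (Fin N) k →ₐ[k] K)
    (aeval y : MvPolynomial (Fin N) k →ₐ[k] Rt 1 K) (fun P => by
      constructor
      · intro h0
        obtain ⟨g, rfl⟩ := (hξ.zero_iff P).mp h0
        rw [map_mul, hyf, zero_mul]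
      · intro h0
        obtain ⟨G, e, hG⟩ := clearP (k := k) A CC P
        have h1 := hG (algebraMap K (Rt 1 K)) (tt K) y hyA
        rw [hyP, h0, zero_mul] at h1
        have h2 := htt G h1.symm
        have h3 := hG κ' s' p hpA
        rw [h2, Polynomial.eval₂_zero] at h3
        have h4 := congrArg TrivSqZeroExt.fst h3
        rw [TrivSqZeroExt.fst_mul, TrivSqZeroExt.fst_pow, (hpP P).1, hCf,
          TrivSqZeroExt.fst_zero] at h4
        have h5 := (mul_eq_zero.mp h4).resolve_right (pow_ne_zero _ hC0)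
        exact (map_eq_zero κ).mp h5) (fun z => by
      obtain ⟨P, Q, h1, h2⟩ := exists_frac hξ.gen z
      exact ⟨P, Q, h1, h2⟩)
  obtain ⟨c, hc⟩ := ha 1 σ
  obtain ⟨P, Q, hQ0, hPQ⟩ := exists_frac hξ.gen a
  have hyPQ : algebraMap K (Rt 1 K) c * aeval y Q = aeval y P := by
    rw [hc, ← hσ, ← hσ, ← hPQ, map_mul]
  obtain ⟨GP', eP, hGP⟩ := clearP (k := k) A CC P
  obtain ⟨GQ, eQ, hGQ⟩ := clearP (k := k) A CC Q
  have hid : Polynomial.C c * GQ * CC ^ eP = GP' * CC ^ eQ := by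
    rw [← sub_eq_zero]
    apply htt
    rw [Polynomial.eval₂_sub, Polynomial.eval₂_mul, Polynomial.eval₂_mul, Polynomial.eval₂_mul,
      Polynomial.eval₂_pow, Polynomial.eval₂_pow, Polynomial.eval₂_C,
      ← hGP (algebraMap K (Rt 1 K)) (tt K) y hyA, ← hGQ (algebraMap K (Rt 1 K)) (tt K) y hyA,
      hyP, hyP, ← hyPQ]
    ring
  have hid' : κ' c * Q.eval₂ (κ'.comp (algebraMap k K)) p =
      P.eval₂ (κ'.comp (algebraMap k K)) p := by
    have h1 := congrArg (Polynomial.eval₂ κ' s') hid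
    rw [Polynomial.eval₂_mul, Polynomial.eval₂_mul, Polynomial.eval₂_mul,
      Polynomial.eval₂_pow, Polynomial.eval₂_pow, Polynomial.eval₂_C, ← hGP κ' s' p hpA,
      ← hGQ κ' s' p hpA] at h1
    refine dual_cancel (D := CC.eval₂ κ' s' ^ (eP + eQ)) ?_ ?_
    · rw [TrivSqZeroExt.fst_pow, hCf]
      exact pow_ne_zero _ hC0
    · rw [pow_add]
      linear_combination h1
  have hf1 := congrArg TrivSqZeroExt.fst hid'
  have hs1 := congrArg TrivSqZeroExt.snd hid'
  rw [TrivSqZeroExt.fst_mul, (hpP P).1, (hpP Q).1, hκf, ← map_mul] at hf1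
  have hca : c = a := by
    have h1 := κ.injective hf1
    rw [← hPQ] at h1
    exact mul_right_cancel₀ hQ0 h1
  rw [DualNumber.snd_mul, (hpP P).2, (hpP Q).2, (hpP Q).1, hκf, hκs, zero_mul, add_zero, hca,
    ← hPQ, Derivation.leibniz, Derivation.leibniz] at hs1
  simp only [smul_eq_mul, map_add, map_mul] at hs1
  have h9 : τ * κ (aeval ξ Q) * (κ (D2 a) + s₀ * κ (D3 a)) = 0 := by
    linear_combination -hs1
  exact (mul_eq_zero.mp h9).resolve_left (mul_ne_zero hτ0 ((map_ne_zero κ).mpr hQ0))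

end Pool.Agent.R867.H
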