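import Pool.Agent.R867.H.Cub2

/-! The rule for triples of variables of degree three. -/

set_option autoImplicit false

namespace Pool.Agent.R867.H

open MvPolynomial Pool.Agent.R867.Mov Pool.Agent.R867.J

universe u v w

/-- the resultant of a quadratic and a cubic polynomial -/
def res {R : Type v} [CommRing R] (α b γ c₀ c₁ c₂ c₃ : R) : R :=
  γ ^ 3 * c₀ ^ 2 - γ ^ 2 * b * c₀ * c₁ + c₀ * c₂ * (γ * b ^ 2 - 2 * α * γ ^ 2) +
    c₀ * c₃ * (3 * α * b * γ - b ^ 3) + γ ^ 2 * α * c₁ ^ 2 - γ * α * b * c₁ * c₂ +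
    c₁ * c₃ * (α * b ^ 2 - 2 * α ^ 2 * γ) + γ * α ^ 2 * c₂ ^ 2 - α ^ 2 * b * c₂ * c₃ +
    α ^ 3 * c₃ ^ 2

theorem res_eq {R : Type v} [CommRing R] {α b γ c₀ c₁ c₂ c₃ s₁ s₂ : R}
    (hb : b = - γ * (s₁ + s₂)) (hα : α = γ * (s₁ * s₂)) : res α b γ c₀ c₁ c₂ c₃ =
      γ ^ 3 * ((c₀ + c₁ * s₁ + c₂ * s₁ ^ 2 + c₃ * s₁ ^ 3) *
        (c₀ + c₁ * s₂ + c₂ * s₂ ^ 2 + c₃ * s₂ ^ 3)) := by
  rw [hb, hα]
  unfold res
  ring

theorem res_map {R : Type v} {S : Type w} [CommRing R] [CommRing S] (φ : R →+* S)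
    (α b γ c₀ c₁ c₂ c₃ : R) : φ (res α b γ c₀ c₁ c₂ c₃) =
      res (φ α) (φ b) (φ γ) (φ c₀) (φ c₁) (φ c₂) (φ c₃) := by
  unfold res
  simp only [map_add, map_sub, map_mul, map_pow, map_ofNat]

section Polys

variable {k : Type u} [CommRing k] {N : ℕ}

/-- coefficients of the second fundamental form -/
noncomputable def aP (i j l : Fin N) (f : MvPolynomial (Fin N) k) : MvPolynomial (Fin N) k :=
  B2 (F2 f) (vf i j f) (vf i j f)

noncomputable def bP (i j l : Fin N) (f : MvPolynomial (Fin N) k) : MvPolynomial (Fin N) k :=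
  B2 (F2 f) (vf i j f) (vf i l f) + B2 (F2 f) (vf i l f) (vf i j f)

noncomputable def gP (i j l : Fin N) (f : MvPolynomial (Fin N) k) : MvPolynomial (Fin N) k :=
  B2 (F2 f) (vf i l f) (vf i l f)

noncomputable def c0P (i j l : Fin N) (f : MvPolynomial (Fin N) k) : MvPolynomial (Fin N) k :=
  B3 (F3 f) (vf i j f) (vf i j f) (vf i j f)

noncomputable def c1P (i j l : Fin N) (f : MvPolynomial (Fin N) k) : MvPolynomial (Fin N) k :=
  B3 (F3 f) (vf i j f) (vf i j f) (vf i l f) + B3 (F3 f) (vf i j f) (vf i l f) (vf i j f) +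
    B3 (F3 f) (vf i l f) (vf i j f) (vf i j f)

noncomputable def c2P (i j l : Fin N) (f : MvPolynomial (Fin N) k) : MvPolynomial (Fin N) k :=
  B3 (F3 f) (vf i j f) (vf i l f) (vf i l f) + B3 (F3 f) (vf i l f) (vf i j f) (vf i l f) +
    B3 (F3 f) (vf i l f) (vf i l f) (vf i j f)

noncomputable def c3P (i j l : Fin N) (f : MvPolynomial (Fin N) k) : MvPolynomial (Fin N) k :=
  B3 (F3 f) (vf i l f) (vf i l f) (vf i l f)

theorem H_eval {Ω : Type v} [Field Ω] [Algebra k Ω] (i j l : Fin N) (f : MvPolynomial (Fin N) k)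
    {R : Type w} [CommRing R] (κ : Ω →+* R) (x : Fin N → Ω) (s : R) :
    B2 (fun m m' => κ (aeval x (F2 f m m')))
      (fun m => κ (aeval x (vf i j f m)) + s * κ (aeval x (vf i l f m)))
      (fun m => κ (aeval x (vf i j f m)) + s * κ (aeval x (vf i l f m))) =
      κ (aeval x (aP i j l f)) + κ (aeval x (bP i j l f)) * s + κ (aeval x (gP i j l f)) * s ^ 2 := by
  rw [B2_line]
  have h : ∀ a b : Fin N → MvPolynomial (Fin N) k, κ (aeval x (B2 (F2 f) a b)) =
      B2 (fun m m' => κ (aeval x (F2 f m m'))) (fun m => κ (aeval x (a m)))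
        (fun m => κ (aeval x (b m))) := by
    intro a b
    exact B2_map (κ.comp (aeval x : MvPolynomial (Fin N) k →ₐ[k] Ω).toRingHom) (F2 f) a b
  unfold aP bP gP
  rw [map_add, map_add, h, h, h, h]

theorem C_eval {Ω : Type v} [Field Ω] [Algebra k Ω] (i j l : Fin N) (f : MvPolynomial (Fin N) k)
    {R : Type w} [CommRing R] (κ : Ω →+* R) (x : Fin N → Ω) (s : R) :
    B3 (fun m m' m'' => κ (aeval x (F3 f m m' m'')))
      (fun m => κ (aeval x (vf i j f m)) + s * κ (aeval x (vf i l f m)))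
      (fun m => κ (aeval x (vf i j f m)) + s * κ (aeval x (vf i l f m)))
      (fun m => κ (aeval x (vf i j f m)) + s * κ (aeval x (vf i l f m))) =
      κ (aeval x (c0P i j l f)) + κ (aeval x (c1P i j l f)) * s +
        κ (aeval x (c2P i j l f)) * s ^ 2 + κ (aeval x (c3P i j l f)) * s ^ 3 := by
  rw [B3_line]
  have h : ∀ a b c : Fin N → MvPolynomial (Fin N) k, κ (aeval x (B3 (F3 f) a b c)) =
      B3 (fun m m' m'' => κ (aeval x (F3 f m m' m''))) (fun m => κ (aeval x (a m)))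
        (fun m => κ (aeval x (b m))) (fun m => κ (aeval x (c m))) := by
    intro a b c
    exact B3_map (κ.comp (aeval x : MvPolynomial (Fin N) k →ₐ[k] Ω).toRingHom) (F3 f) a b c
  unfold c0P c1P c2P c3P
  simp only [map_add, h]

/-- the discriminant of the second fundamental form, and the resultant with the cubic form -/
noncomputable def ndP (i j l : Fin N) (f : MvPolynomial (Fin N) k) : MvPolynomial (Fin N) k :=
  gP i j l f * (bP i j l f ^ 2 - 4 * aP i j l f * gP i j l f) *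
    res (aP i j l f) (bP i j l f) (gP i j l f) (c0P i j l f) (c1P i j l f) (c2P i j l f)
      (c3P i j l f)

end Polys

section Node

variable {k : Type u} [Field k] {N : ℕ} {Ω : Type v} [Field Ω] [Algebra k Ω]

/-- a line through `r` in the direction of `v` which meets `f = 0` at `r` to the order three,
and is contained in the plane section of the coordinates `i, j, l` -/
structure Asy (f : MvPolynomial (Fin N) k) (i j l : Fin N) (r v : Fin N → Ω) : Prop where
  supp : ∀ m, m ≠ i → m ≠ j → m ≠ l → v m = 0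
  one : v j = 1
  tri : ∃ c : Ω, c ≠ 0 ∧ lin r v f = Polynomial.C c * Polynomial.X ^ 3

variable {f : MvPolynomial (Fin N) k} {i j l : Fin N} {r v w : Fin N → Ω}

theorem tri_eval [CharZero Ω] {p : Polynomial Ω} {c : Ω} (hc : c ≠ 0)
    (hp : p = Polynomial.C c * Polynomial.X ^ 3) : (Polynomial.derivative p).eval 0 = 0 ∧
      (Polynomial.derivative (Polynomial.derivative p)).eval 0 = 0 ∧
      (Polynomial.derivative (Polynomial.derivative (Polynomial.derivative p))).eval 0 ≠ 0 := by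
  rw [hp]
  refine ⟨?_, ?_, ?_⟩
  · simp
  · simp
  · have h6 : (6 : Ω) ≠ 0 := by norm_num
    simp only [Polynomial.derivative_C_mul, Polynomial.derivative_X_pow, Polynomial.eval_mul,
      Polynomial.eval_C, Polynomial.derivative_X]
    norm_num
    exact hc

theorem coeff_two_eval {p : Polynomial Ω} :
    (Polynomial.derivative (Polynomial.derivative p)).eval 0 = 2 * p.coeff 2 := by
  rw [← Polynomial.coeff_zero_eq_eval_zero, Polynomial.coeff_derivative,
    Polynomial.coeff_derivative]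
  push_cast
  ring

theorem Asy.scale (h : Asy f i j l r v) (hij : i ≠ j) (hil : i ≠ l) (hjl : j ≠ l)
    (h1 : (Polynomial.derivative (lin r v f)).eval 0 = 0) (m : Fin N) :
    aeval r (vf i j f m) + v l * aeval r (vf i l f m) = aeval r (pderiv i f) * v m := by
  have h2 : v i * aeval r (pderiv i f) + aeval r (pderiv j f) + v l * aeval r (pderiv l f) = 0 := by
    rw [lin_e1] at h1
    rw [← h1]
    have h3 : ∀ m, v m * aeval r (pderiv m f) = (if m = i then v i * aeval r (pderiv i f) else 0) +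
        (if m = j then aeval r (pderiv j f) else 0) +
        (if m = l then v l * aeval r (pderiv l f) else 0) := by
      intro m
      by_cases e1 : m = i
      · subst e1
        rw [if_pos rfl, if_neg hij, if_neg hil, add_zero, add_zero]
      · by_cases e2 : m = j
        · subst e2
          rw [if_neg e1, if_pos rfl, if_neg hjl, h.one, one_mul, zero_add, add_zero]
        · by_cases e3 : m = l
          · subst e3
            rw [if_neg e1, if_neg e2, if_pos rfl, zero_add, zero_add]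
          · rw [if_neg e1, if_neg e2, if_neg e3, h.supp m e1 e2 e3, zero_mul]
            ring
    rw [Finset.sum_congr rfl (fun m _ => h3 m)]
    simp only [Finset.sum_add_distrib, Finset.sum_ite_eq', Finset.mem_univ, if_true]
  unfold vf
  by_cases e1 : m = i
  · subst e1
    rw [if_pos rfl, if_pos rfl, if_neg hij, if_neg hil, add_zero, add_zero, map_neg, map_neg]
    linear_combination -h2
  · by_cases e2 : m = j
    · subst e2
      rw [if_neg e1, if_neg e1, if_pos rfl, if_neg hjl, h.one, zero_add, zero_add, map_zero]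
      ring
    · by_cases e3 : m = l
      · subst e3
        rw [if_neg e1, if_neg e1, if_neg e2, if_pos rfl, zero_add, zero_add, map_zero]
        ring
      · rw [if_neg e1, if_neg e1, if_neg e2, if_neg e3, h.supp m e1 e2 e3, zero_add, map_zero]
        ring

/-- the nodal condition at one point -/
theorem node_ne [CharZero Ω] (hij : i ≠ j) (hil : i ≠ l) (hjl : j ≠ l)
    (hi : aeval r (pderiv i f) ≠ 0) (hv : Asy f i j l r v) (hw : Asy f i j l r w)
    (hvw : (lin r (fun m => v m + w m) f).coeff 2 ≠ 0) : aeval r (ndP i j l f) ≠ 0 := by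
  obtain ⟨c, hc, hvc⟩ := hv.tri
  obtain ⟨c', hc', hwc⟩ := hw.tri
  obtain ⟨v1, v2, v3⟩ := tri_eval hc hvc
  obtain ⟨w1, w2, w3⟩ := tri_eval hc' hwc
  have hH := H_eval i j l f (RingHom.id Ω) r
  have hC := C_eval i j l f (RingHom.id Ω) r
  simp only [RingHom.id_apply] at hH hC
  obtain ⟨α, hα⟩ : ∃ α, α = aeval r (aP i j l f) := ⟨_, rfl⟩
  obtain ⟨b, hb⟩ : ∃ b, b = aeval r (bP i j l f) := ⟨_, rfl⟩
  obtain ⟨γ, hγ⟩ : ∃ γ, γ = aeval r (gP i j l f) := ⟨_, rfl⟩
  obtain ⟨c₀, hc₀⟩ : ∃ c, c = aeval r (c0P i j l f) := ⟨_, rfl⟩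
  obtain ⟨c₁, hc₁⟩ : ∃ c, c = aeval r (c1P i j l f) := ⟨_, rfl⟩
  obtain ⟨c₂, hc₂⟩ : ∃ c, c = aeval r (c2P i j l f) := ⟨_, rfl⟩
  obtain ⟨c₃, hc₃⟩ : ∃ c, c = aeval r (c3P i j l f) := ⟨_, rfl⟩
  rw [← hα, ← hb, ← hγ] at hH
  rw [← hc₀, ← hc₁, ← hc₂, ← hc₃] at hC
  have e2 : ∀ u : Fin N → Ω, B2 (fun m m' => aeval r (F2 f m m')) u u =
      (Polynomial.derivative (Polynomial.derivative (lin r u f))).eval 0 := fun u =>
    (lin_e2 (x := r) (v := u) f).symm
  have e3 : ∀ u : Fin N → Ω, B3 (fun m m' m'' => aeval r (F3 f m m' m'')) u u u =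
      (Polynomial.derivative (Polynomial.derivative (Polynomial.derivative
        (lin r u f)))).eval 0 := fun u =>
    (lin_e3 (x := r) (v := u) f).symm
  have Hv : α + b * v l + γ * v l ^ 2 = 0 := by
    rw [← hH, B2_smul _ (hv.scale hij hil hjl v1), e2, v2, mul_zero]
  have Hw : α + b * w l + γ * w l ^ 2 = 0 := by
    rw [← hH, B2_smul _ (hw.scale hij hil hjl w1), e2, w2, mul_zero]
  have Cv : c₀ + c₁ * v l + c₂ * v l ^ 2 + c₃ * v l ^ 3 ≠ 0 := by
    rw [← hC, B3_smul _ (hv.scale hij hil hjl v1), e3]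
    exact mul_ne_zero (pow_ne_zero _ hi) v3
  have Cw : c₀ + c₁ * w l + c₂ * w l ^ 2 + c₃ * w l ^ 3 ≠ 0 := by
    rw [← hC, B3_smul _ (hw.scale hij hil hjl w1), e3]
    exact mul_ne_zero (pow_ne_zero _ hi) w3
  have Hm : α + b * ((v l + w l) / 2) + γ * ((v l + w l) / 2) ^ 2 ≠ 0 := by
    rw [← hH, B2_smul (a := fun m => v m + w m) (g := aeval r (pderiv i f) / 2) _ (fun m => by
      have h1 := hv.scale hij hil hjl v1 m
      have h2 := hw.scale hij hil hjl w1 m
      linear_combination (1 / 2 : Ω) * h1 + (1 / 2 : Ω) * h2), e2, coeff_two_eval]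
    refine mul_ne_zero (pow_ne_zero _ (div_ne_zero hi two_ne_zero)) (mul_ne_zero two_ne_zero hvw)
  have hne : v l - w l ≠ 0 := by
    intro h0
    apply Hm
    rw [← Hv]
    have h1 : w l = v l := (sub_eq_zero.mp h0).symm
    rw [h1]
    ring
  have hb' : b = - γ * (v l + w l) := by
    have h1 : (v l - w l) * (b - (- γ * (v l + w l))) = 0 := by
      linear_combination Hv - Hw
    exact sub_eq_zero.mp ((mul_eq_zero.mp h1).resolve_left hne)
  have hα' : α = γ * (v l * w l) := by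
    linear_combination Hv - v l * hb'
  have hγ0 : γ ≠ 0 := by
    rintro h0
    apply Hm
    rw [hα', hb', h0]
    ring
  unfold ndP
  rw [map_mul, map_mul, map_sub, map_pow, map_mul, map_mul, map_ofNat]
  have h1 := res_map (aeval r : MvPolynomial (Fin N) k →ₐ[k] Ω).toRingHom (aP i j l f) (bP i j l f)
    (gP i j l f) (c0P i j l f) (c1P i j l f) (c2P i j l f) (c3P i j l f)
  change aeval r (res _ _ _ _ _ _ _) = res (aeval r _) (aeval r _) (aeval r _) (aeval r _)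
    (aeval r _) (aeval r _) (aeval r _) at h1
  rw [h1, ← hα, ← hb, ← hγ, ← hc₀, ← hc₁, ← hc₂, ← hc₃, res_eq hb' hα']
  refine mul_ne_zero (mul_ne_zero hγ0 ?_) (mul_ne_zero (pow_ne_zero _ hγ0) (mul_ne_zero Cv Cw))
  have h2 : b ^ 2 - 4 * α * γ = γ ^ 2 * (v l - w l) ^ 2 := by
    rw [hb', hα']
    ring
  rw [h2]
  exact mul_ne_zero (pow_ne_zero _ hγ0) (pow_ne_zero _ hne)

end Node

section Out

variable {k K : Type u} [Field k] [Field K] [Algebra k K] {N : ℕ} {f : MvPolynomial (Fin N) k}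
  {ξ : Fin N → K} {i j l : Fin N}

theorem cubic_out [CharZero k] (hξ : GP f ξ) (hf : f ≠ 0) (hij : i ≠ j) (hil : i ≠ l)
    (hjl : j ≠ l) (hd : ∀ m ∈ f.support, m i + m j + m l ≤ 3) (hi : degreeOf i f ≠ 0)
    (hnd : aeval ξ (ndP i j l f) ≠ 0) {a : K} (ha : Imm k a) :
    a ∈ cl k (ξ '' {m | m ≠ i ∧ m ≠ j ∧ m ≠ l}) := by
  have hcK : CharZero K := charZero_of_injective_algebraMap (algebraMap k K).injective
  have hfi := GP.pderiv_ne (fun P => (hξ.zero_iff P).mp) hi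
  obtain ⟨d2, hd2l, hd2i, hd2j⟩ := exists_tder hξ hf hij hi
  obtain ⟨d3, hd3l, hd3i, hd3j⟩ := exists_tder hξ hf hil hi
  have hD : ∀ (q : Fin N) (d : Derivation k K K), i ≠ q → (∀ m, m ≠ i → m ≠ q → d (ξ m) = 0) →
      d (ξ i) = aeval ξ (pderiv q f) → d (ξ q) = - aeval ξ (pderiv i f) →
      ∀ m, (-d) (ξ m) = aeval ξ (vf i q f m) := by
    intro q d hiq h1 h2 h3 m
    rw [Derivation.neg_apply]
    unfold vf
    by_cases e1 : m = i
    · subst e1
      rw [h2, if_pos rfl, if_neg hiq, add_zero, map_neg]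
    · by_cases e2 : m = q
      · subst e2
        rw [h3, if_neg e1, if_pos rfl, zero_add, neg_neg]
      · rw [h1 m e1 e2, if_neg e1, if_neg e2, add_zero, map_zero, neg_zero]
  have hD2 := hD j d2 hij hd2l hd2i hd2j
  have hD3 := hD l d3 hil hd3l hd3i hd3j
  obtain ⟨α, hα⟩ : ∃ α, α = aeval ξ (aP i j l f) := ⟨_, rfl⟩
  obtain ⟨b, hb⟩ : ∃ b, b = aeval ξ (bP i j l f) := ⟨_, rfl⟩
  obtain ⟨γ, hγ⟩ : ∃ γ, γ = aeval ξ (gP i j l f) := ⟨_, rfl⟩
  obtain ⟨c₀, hc₀⟩ : ∃ c, c = aeval ξ (c0P i j l f) := ⟨_, rfl⟩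
  obtain ⟨c₁, hc₁⟩ : ∃ c, c = aeval ξ (c1P i j l f) := ⟨_, rfl⟩
  obtain ⟨c₂, hc₂⟩ : ∃ c, c = aeval ξ (c2P i j l f) := ⟨_, rfl⟩
  obtain ⟨c₃, hc₃⟩ : ∃ c, c = aeval ξ (c3P i j l f) := ⟨_, rfl⟩
  have hfam : TFam f ξ i j l α b γ c₀ c₁ c₂ c₃ :=
    { hij := hij
      hil := hil
      hjl := hjl
      deg := hd
      hi := hfi
      hH := by
        intro R _ κ s
        rw [H_eval i j l f κ ξ s, hα, hb, hγ]
      hC := by
        intro R _ κ s
        rw [C_eval i j l f κ ξ s, hc₀, hc₁, hc₂, hc₃] }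
  unfold ndP at hnd
  have h1 := res_map (aeval ξ : MvPolynomial (Fin N) k →ₐ[k] K).toRingHom (aP i j l f) (bP i j l f)
    (gP i j l f) (c0P i j l f) (c1P i j l f) (c2P i j l f) (c3P i j l f)
  change aeval ξ (res _ _ _ _ _ _ _) = res (aeval ξ _) (aeval ξ _) (aeval ξ _) (aeval ξ _)
    (aeval ξ _) (aeval ξ _) (aeval ξ _) at h1
  rw [map_mul, map_mul, map_sub, map_pow, map_mul, map_mul, map_ofNat, h1, ← hα, ← hb, ← hγ,
    ← hc₀, ← hc₁, ← hc₂, ← hc₃] at hnd
  have hγ0 : γ ≠ 0 := left_ne_zero_of_mul (left_ne_zero_of_mul hnd)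
  have hdisc : b ^ 2 - 4 * α * γ ≠ 0 := right_ne_zero_of_mul (left_ne_zero_of_mul hnd)
  have hres : res α b γ c₀ c₁ c₂ c₃ ≠ 0 := right_ne_zero_of_mul hnd
  -- the roots
  let Ω := AlgebraicClosure K
  obtain ⟨κ, hκ⟩ : ∃ κ : K →+* Ω, κ = algebraMap K Ω := ⟨_, rfl⟩
  have hκγ : κ γ ≠ 0 := (map_ne_zero κ).mpr hγ0
  have hcΩ : CharZero Ω := charZero_of_injective_ringHom κ.injective
  obtain ⟨s₁, hs₁⟩ : ∃ s : Ω, κ α + κ b * s + κ γ * s ^ 2 = 0 := by
    obtain ⟨s, hs⟩ := IsAlgClosed.exists_root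
      (Polynomial.C (κ γ) * Polynomial.X ^ 2 + Polynomial.C (κ b) * Polynomial.X +
        Polynomial.C (κ α)) (by
        rw [Polynomial.degree_quadratic hκγ]
        norm_num)
    refine ⟨s, ?_⟩
    rw [Polynomial.IsRoot, Polynomial.eval_add, Polynomial.eval_add, Polynomial.eval_mul,
      Polynomial.eval_mul, Polynomial.eval_C, Polynomial.eval_C, Polynomial.eval_C,
      Polynomial.eval_pow, Polynomial.eval_X] at hs
    linear_combination hs
  obtain ⟨s₂, hs₂⟩ : ∃ s₂ : Ω, κ γ * s₂ = - κ b - κ γ * s₁ :=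
    ⟨(- κ b - κ γ * s₁) / κ γ, mul_div_cancel₀ _ hκγ⟩
  have eb : κ b = - κ γ * (s₁ + s₂) := by linear_combination hs₂
  have eα : κ α = κ γ * (s₁ * s₂) := by linear_combination hs₁ - s₁ * eb
  have hs₂' : κ α + κ b * s₂ + κ γ * s₂ ^ 2 = 0 := by rw [eα, eb]; ring
  have hne : s₁ - s₂ ≠ 0 := by
    intro h0
    apply (map_ne_zero κ).mpr hdisc
    rw [map_sub, map_pow, map_mul, map_mul, map_ofNat, eb, eα]
    have : s₁ = s₂ := sub_eq_zero.mp h0
    rw [this]
    ring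
  have hres' : res (κ α) (κ b) (κ γ) (κ c₀) (κ c₁) (κ c₂) (κ c₃) ≠ 0 := by
    rw [← res_map]
    exact (map_ne_zero κ).mpr hres
  rw [res_eq eb eα] at hres'
  have hC1 := left_ne_zero_of_mul (right_ne_zero_of_mul hres')
  have hC2 := right_ne_zero_of_mul (right_ne_zero_of_mul hres')
  have k1 := hfam.kill hξ hD2 hD3 κ hs₁ (by
    rw [eb]
    have h2 : - κ γ * (s₁ + s₂) + 2 * κ γ * s₁ = κ γ * (s₁ - s₂) := by ring
    rw [h2]
    exact mul_ne_zero hκγ hne) hC1 ha
  have k2 := hfam.kill hξ hD2 hD3 κ hs₂' (by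
    rw [eb]
    have h2 : - κ γ * (s₁ + s₂) + 2 * κ γ * s₂ = - (κ γ * (s₁ - s₂)) := by ring
    rw [h2]
    exact neg_ne_zero.mpr (mul_ne_zero hκγ hne)) hC2 ha
  have h3 : (-d3) a = 0 := by
    have h4 : (s₁ - s₂) * κ ((-d3) a) = 0 := by linear_combination k1 - k2
    exact (map_eq_zero κ).mp ((mul_eq_zero.mp h4).resolve_left hne)
  have h2 : (-d2) a = 0 := by
    rw [h3, map_zero, mul_zero, add_zero] at k1
    exact (map_eq_zero κ).mp k1
  rw [Derivation.neg_apply, neg_eq_zero] at h2 h3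
  -- the conclusion
  by_contra hcon
  have hset : ξ '' {m | m ≠ i} ⊆ insert (ξ j) (insert (ξ l)
      (ξ '' {m | m ≠ i ∧ m ≠ j ∧ m ≠ l})) := by
    rintro _ ⟨m, hm, rfl⟩
    by_cases e1 : m = j
    · rw [e1]; exact Set.mem_insert _ _
    · by_cases e2 : m = l
      · rw [e2]; exact Set.mem_insert_of_mem _ (Set.mem_insert _ _)
      · exact Set.mem_insert_of_mem _ (Set.mem_insert_of_mem _ ⟨m, ⟨hm, e1, e2⟩, rfl⟩)
  have h4 := cl_mono hset (mem_cl_ne hξ hf hi a)
  have h5 : a ∈ cl k (insert (ξ l) (ξ '' {m | m ≠ i ∧ m ≠ j ∧ m ≠ l})) := by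
    by_contra h5
    have h6 := der_cl d2 (S := insert a (insert (ξ l) (ξ '' {m | m ≠ i ∧ m ≠ j ∧ m ≠ l}))) (by
      rintro y (rfl | rfl | ⟨m, hm, rfl⟩)
      · exact h2
      · exact hd2l l (Ne.symm hil) (Ne.symm hjl)
      · exact hd2l m hm.1 hm.2.1) (cl_exch h4 h5)
    rw [hd2j] at h6
    exact hfi (neg_eq_zero.mp h6)
  have h6 := der_cl d3 (S := insert a (ξ '' {m | m ≠ i ∧ m ≠ j ∧ m ≠ l})) (by
    rintro y (rfl | ⟨m, hm, rfl⟩)
    · exact h3
    · exact hd3l m hm.1 hm.2.2) (cl_exch h5 hcon)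
  rw [hd3j] at h6
  exact hfi (neg_eq_zero.mp h6)

end Out

end Pool.Agent.R867.H
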