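import Pool.Agent.R867.H.Rng

/-! The use of the flexes. -/

set_option autoImplicit false

namespace Pool.Agent.R867.H

open MvPolynomial Pool.Agent.R867.Mov Pool.Agent.R867.J

universe u v w

variable {k K : Type u} [Field k] [Field K] [Algebra k K] {N : ℕ} {f : MvPolynomial (Fin N) k}
  {ξ : Fin N → K} {p s : Fin N} {T : K →ₐ[k] K} {d : Derivation k K K} {B : Set (Fin N)}

theorem TMap.T_p' (h : TMap f ξ p s T d) (hc : aeval ξ (c6 p s f) ≠ 0) :
    T (ξ p) = ξ p + aeval ξ (q2 p s f) *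
      (-3 * aeval ξ (pderiv s f) * (aeval ξ (c6 p s f))⁻¹) := by
  apply mul_right_cancel₀ hc
  rw [h.T_p]
  field_simp
  ring

theorem TMap.T_s' (h : TMap f ξ p s T d) (hc : aeval ξ (c6 p s f) ≠ 0) :
    T (ξ s) = ξ s + aeval ξ (q2 p s f) *
      (3 * aeval ξ (pderiv p f) * (aeval ξ (c6 p s f))⁻¹) := by
  apply mul_right_cancel₀ hc
  rw [h.T_s]
  field_simp

/-- the tangent map is the identity modulo the flex polynomial -/
theorem TMap.cong (h : TMap f ξ p s T d) (hc : aeval ξ (c6 p s f) ≠ 0)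
    (r : Algebra.adjoin k (ξ '' Bᶜ)) : (r : K) ∈ Rng ξ B (c6 p s f) ∧
      ∃ r' ∈ Rng ξ B (c6 p s f), T r = r + aeval ξ (q2 p s f) * r' := by
  obtain ⟨r, hr⟩ := r
  change r ∈ Rng ξ B (c6 p s f) ∧ ∃ r' ∈ Rng ξ B (c6 p s f), T r = r + aeval ξ (q2 p s f) * r'
  have hinv : (aeval ξ (c6 p s f))⁻¹ ∈ Rng ξ B (c6 p s f) := inv_mem_Rng hc
  induction hr using Algebra.adjoin_induction with
  | mem z hz =>
    obtain ⟨l, hl, rfl⟩ := hz
    refine ⟨?_, ?_⟩
    · have := aeval_mem_Rng (ξ := ξ) (B := B) (c := c6 p s f) (X l)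
      rwa [aeval_X] at this
    · by_cases h1 : l = p
      · subst h1
        refine ⟨_, ?_, h.T_p' hc⟩
        refine mul_mem (mul_mem ?_ (aeval_mem_Rng _)) hinv
        exact neg_mem (ofNat_mem _ 3)
      · by_cases h2 : l = s
        · subst h2
          refine ⟨_, ?_, h.T_s' hc⟩
          exact mul_mem (mul_mem (ofNat_mem _ 3) (aeval_mem_Rng _)) hinv
        · exact ⟨0, zero_mem _, by rw [h.T_l l h1 h2, mul_zero, add_zero]⟩
  | algebraMap a =>
    exact ⟨Subalgebra.algebraMap_mem _ a, 0, zero_mem _, by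
      rw [T.commutes, mul_zero, add_zero]⟩
  | add y z _ _ hy hz =>
    obtain ⟨hy, y', hy', hy''⟩ := hy
    obtain ⟨hz, z', hz', hz''⟩ := hz
    exact ⟨add_mem hy hz, y' + z', add_mem hy' hz', by rw [map_add, hy'', hz'']; ring⟩
  | mul y z _ _ hy hz =>
    obtain ⟨hy, y', hy', hy''⟩ := hy
    obtain ⟨hz, z', hz', hz''⟩ := hz
    refine ⟨mul_mem hy hz, y' * z + y * z' + aeval ξ (q2 p s f) * y' * z',
      add_mem (add_mem (mul_mem hy' hz) (mul_mem hy hz')) (mul_mem (mul_mem (aeval_mem_Rng _) hy')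
        hz'), by rw [map_mul, hy'', hz'']; ring⟩

/-- the flex condition in its algebraic form -/
def NU (f : MvPolynomial (Fin N) k) (B : Set (Fin N)) (p s : Fin N) : Prop :=
  ∀ G : MvPolynomial (Fin N) k, G ≠ 0 → Free B G → ∀ n : ℕ, ∀ P R,
    G * c6 p s f ^ n ≠ q2 p s f * P + f * R

theorem NU.c6_ne (h : NU f B p s) (hξ : GP f ξ) : aeval ξ (c6 p s f) ≠ 0 := by
  intro h0
  obtain ⟨R, hR⟩ := (hξ.zero_iff _).mp h0
  refine h 1 one_ne_zero (Free.one B) 1 0 R ?_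
  rw [one_mul, pow_one, mul_zero, zero_add]
  exact hR

/-- the flex trick -/
theorem TMap.root (h : TMap f ξ p s T d) (hξ : GP f ξ) {i₀ : Fin N} (hi₀ : i₀ ∈ B)
    (hdeg : degreeOf i₀ f ≠ 0) (hNU : NU f B p s) (hq : aeval ξ (q2 p s f) ≠ 0)
    {μ : Polynomial (Algebra.adjoin k (ξ '' Bᶜ))} {b : K} (hb : Polynomial.aeval b μ = 0)
    (hTb : T b ∈ cl k (ξ '' Bᶜ)) : Polynomial.aeval (T b) μ = 0 := by
  have hc := hNU.c6_ne hξ
  have hni := not_int (B := B) hξ hq hNU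
  by_contra he
  apply hni
  obtain ⟨Λ, hΛ⟩ := cl_closed (k := k) (ξ '' Bᶜ)
  have hΛi : ∀ z ∈ Λ, IsIntegral (Rng ξ B (c6 p s f)) z := by
    intro z hz
    have h1 : z ∈ (Λ : Set K) := hz
    rw [hΛ] at h1
    exact int_of_cl hξ hi₀ hdeg h1
  have hTΛ : T b ∈ Λ := by
    have h1 : T b ∈ (Λ : Set K) := by rw [hΛ]; exact hTb
    exact h1
  have hAΛ : ∀ r : Algebra.adjoin k (ξ '' Bᶜ), (r : K) ∈ Λ := by
    intro r
    have h1 : Algebra.adjoin k (ξ '' Bᶜ) ≤ Λ.toSubalgebra := by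
      rw [Algebra.adjoin_le_iff]
      intro z hz
      have h2 : z ∈ (Λ : Set K) := by
        rw [hΛ]
        exact subset_cl _ hz
      exact h2
    exact h1 r.2
  have heΛ : Polynomial.aeval (T b) μ ∈ Λ := by
    rw [Polynomial.aeval_eq_sum_range]
    refine sum_mem fun i _ => ?_
    rw [Algebra.smul_def]
    exact mul_mem (hAΛ _) (pow_mem hTΛ i)
  choose g hgR hg using fun r : Algebra.adjoin k (ξ '' Bᶜ) => (h.cong (B := B) hc r).2
  have h1 : Polynomial.aeval (T b) μ = aeval ξ (q2 p s f) *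
      (- ∑ i ∈ Finset.range (μ.natDegree + 1), g (μ.coeff i) * T b ^ i) := by
    have h2 := congrArg T hb
    rw [Polynomial.aeval_eq_sum_range, map_sum, map_zero] at h2
    rw [Polynomial.aeval_eq_sum_range]
    have h3 : ∑ i ∈ Finset.range (μ.natDegree + 1), T (μ.coeff i • b ^ i) =
        ∑ i ∈ Finset.range (μ.natDegree + 1), μ.coeff i • T b ^ i +
        aeval ξ (q2 p s f) * ∑ i ∈ Finset.range (μ.natDegree + 1), g (μ.coeff i) * T b ^ i := by
      rw [Finset.mul_sum, ← Finset.sum_add_distrib]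
      refine Finset.sum_congr rfl fun i _ => ?_
      rw [Algebra.smul_def, Algebra.smul_def, map_mul, map_pow]
      change T ((μ.coeff i : Algebra.adjoin k (ξ '' Bᶜ)) : K) * _ =
        ((μ.coeff i : Algebra.adjoin k (ξ '' Bᶜ)) : K) * _ + _
      rw [hg]
      ring
    rw [h3] at h2
    linear_combination h2
  have h2 : (aeval ξ (q2 p s f))⁻¹ = (Polynomial.aeval (T b) μ)⁻¹ *
      (- ∑ i ∈ Finset.range (μ.natDegree + 1), g (μ.coeff i) * T b ^ i) := by
    rw [inv_mul_eq_div, eq_div_iff he, h1, inv_mul_cancel_left₀ hq]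
  rw [h2]
  refine IsIntegral.mul (hΛi _ (inv_mem heΛ)) (IsIntegral.neg ?_)
  refine IsIntegral.sum _ fun i _ => ?_
  exact IsIntegral.mul (int_mem (hgR _)) (IsIntegral.pow (hΛi _ hTΛ) i)

/-- an injective map with a finite orbit -/
theorem periodic_of_finite (T : K →ₐ[k] K) {a : K} {S : Set K} (hS : S.Finite)
    (h : ∀ n : ℕ, (T ^ n) a ∈ S) : ∃ m : ℕ, 1 ≤ m ∧ (T ^ m) a = a := by
  have h1 : ¬ Function.Injective (fun n : ℕ => (T ^ n) a) := by
    intro hinj
    have h2 : (Set.range (fun n : ℕ => (T ^ n) a)).Finite :=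
      hS.subset (by rintro _ ⟨n, rfl⟩; exact h n)
    exact Set.infinite_range_of_injective hinj h2
  rw [Function.Injective] at h1
  push Not at h1
  obtain ⟨m, n, hmn, hne⟩ := h1
  have key : ∀ m n : ℕ, m < n → (T ^ m) a = (T ^ n) a → ∃ m : ℕ, 1 ≤ m ∧ (T ^ m) a = a := by
    intro m n hlt heq
    refine ⟨n - m, by omega, ?_⟩
    apply (T ^ m).injective
    change (T ^ m) ((T ^ (n - m)) a) = (T ^ m) a
    rw [← AlgHom.mul_apply, ← pow_add, heq]
    congr 2
    omega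
  rcases lt_or_gt_of_ne hne with h2 | h2
  · exact key m n h2 hmn
  · exact key n m h2 hmn.symm

theorem imm_pow {a : K} (ha : Imm k a) (T : K →ₐ[k] K) (n : ℕ) : Imm k ((T ^ n) a) :=
  ha.map (T ^ n)

theorem flex_out [CharZero k] (h : TMap f ξ p s T d) (hξ : GP f ξ) (hf : f ≠ 0) (hps : p ≠ s)
    {i₀ : Fin N} (hi₀ : i₀ ∈ B) (hdeg : degreeOf i₀ f ≠ 0) (hNU : NU f B p s)
    (hq : aeval ξ (q2 p s f) ≠ 0) (hI : ∀ a : K, Imm k a → a ∈ cl k (ξ '' Bᶜ)) {a : K}
    (ha : Imm k a) : a ∈ cl k (ξ '' {l | l ≠ p ∧ l ≠ s}) := by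
  classical
  obtain ⟨μ, hμ0, hμ⟩ := hI a ha
  have hroot : ∀ n : ℕ, Polynomial.aeval ((T ^ n) a) μ = 0 := by
    intro n
    induction n with
    | zero => simpa using hμ
    | succ n ih =>
      rw [pow_succ', AlgHom.mul_apply]
      refine h.root hξ hi₀ hdeg hNU hq ih ?_
      rw [← AlgHom.mul_apply, ← pow_succ']
      exact hI _ (imm_pow ha T _)
  obtain ⟨m, hm, hma⟩ := periodic_of_finite T (a := a)
    (S := {z | Polynomial.aeval z μ = 0}) (by
      have h1 : (Polynomial.map (algebraMap (Algebra.adjoin k (ξ '' Bᶜ)) K) μ) ≠ 0 :=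
        (Polynomial.map_ne_zero_iff Subtype.val_injective).mpr hμ0
      refine Set.Finite.subset
        (Finset.finite_toSet (Polynomial.map (algebraMap (Algebra.adjoin k (ξ '' Bᶜ)) K)
          μ).roots.toFinset) ?_
      intro z hz
      rw [Finset.mem_coe, Multiset.mem_toFinset, Polynomial.mem_roots h1, Polynomial.IsRoot,
        Polynomial.eval_map_algebraMap]
      exact hz) hroot
  exact h.periodic hξ hf hps (deg_ne_of_q2 hq).1 hm hma

end Pool.Agent.R867.H
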