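import Pool.Agent.R867.H.Asm
import Pool.Agent.R867.D.MainRC
import Pool.Agent.R867.D.Dens

/-! Geometrically irreducible hypersurfaces. -/

set_option autoImplicit false

namespace Pool.Agent.R867.H

open MvPolynomial Pool.Agent.R867.Mov Pool.Agent.R867.D

universe u v w

section Functional

variable {k : Type u} {Ω : Type v} [Field k] [Field Ω] [Algebra k Ω] {ι : Type w}

/-- a linear functional applied to the coefficients -/
noncomputable def cw (lam : Ω →ₗ[k] k) (P : MvPolynomial ι Ω) : MvPolynomial ι k :=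
  ∑ m ∈ P.support, monomial m (lam (coeff m P))

theorem coeff_cw (lam : Ω →ₗ[k] k) (P : MvPolynomial ι Ω) (m : ι →₀ ℕ) :
    coeff m (cw lam P) = lam (coeff m P) := by
  classical
  unfold cw
  rw [coeff_sum]
  simp only [coeff_monomial]
  rw [Finset.sum_ite_eq' P.support m]
  split_ifs with h
  · rfl
  · rw [notMem_support_iff.mp h, map_zero]

theorem cw_mul (lam : Ω →ₗ[k] k) (f : MvPolynomial ι k) (h : MvPolynomial ι Ω) :
    cw lam (MvPolynomial.map (algebraMap k Ω) f * h) = f * cw lam h := by
  classical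
  ext m
  rw [coeff_cw, coeff_mul, coeff_mul, map_sum]
  refine Finset.sum_congr rfl fun p _ => ?_
  rw [coeff_map, coeff_cw, ← Algebra.smul_def, map_smul, smul_eq_mul]

theorem cw_sub (lam : Ω →ₗ[k] k) (P Q : MvPolynomial ι Ω) : cw lam (P - Q) = cw lam P - cw lam Q := by
  ext m
  rw [coeff_cw, coeff_sub, coeff_sub, coeff_cw, coeff_cw, map_sub]

theorem cw_C_mul_map (lam : Ω →ₗ[k] k) (a : Ω) (f : MvPolynomial ι k) :
    cw lam (C a * MvPolynomial.map (algebraMap k Ω) f) = C (lam a) * f := by
  ext m
  rw [coeff_cw, coeff_C_mul, coeff_C_mul, coeff_map, mul_comm, ← Algebra.smul_def, map_smul,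
    smul_eq_mul, mul_comm]

theorem dvd_of_map {f P : MvPolynomial ι k}
    (h : MvPolynomial.map (algebraMap k Ω) f ∣ MvPolynomial.map (algebraMap k Ω) P) : f ∣ P := by
  obtain ⟨lam, h1, -⟩ := Submodule.exists_le_ker_of_notMem (K := k) (V := Ω) (p := ⊥) (v := 1)
    (by simp)
  obtain ⟨g, hg⟩ := h
  have h2 := congrArg (cw lam) hg
  rw [cw_mul] at h2
  have h3 : cw lam (MvPolynomial.map (algebraMap k Ω) P) = C (lam 1) * P := by
    rw [← cw_C_mul_map, C_1, one_mul]
  rw [h3] at h2
  refine ⟨C (lam 1)⁻¹ * cw lam g, ?_⟩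
  have h4 : C (lam 1)⁻¹ * (C (lam 1) * P) = P := by
    rw [← mul_assoc, ← C_mul, inv_mul_cancel₀ h1, C_1, one_mul]
  rw [← h4, h2]
  ring

end Functional

section Closed

variable {k K : Type u} [Field k] [Field K] [Algebra k K] {N : ℕ} {f : MvPolynomial (Fin N) k}
  {ξ : Fin N → K}

theorem irr_of_map {Ω : Type v} [Field Ω] [Algebra k Ω]
    (hirr : Irreducible (MvPolynomial.map (algebraMap k Ω) f)) : Irreducible f := by
  constructor
  · intro hu
    exact hirr.not_isUnit (hu.map _)
  · intro a b hab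
    rw [hab, map_mul] at hirr
    have key : ∀ p : MvPolynomial (Fin N) k, IsUnit (MvPolynomial.map (algebraMap k Ω) p) →
        IsUnit p := by
      intro p hp
      rw [isUnit_iff_eq_C_of_isReduced] at hp ⊢
      obtain ⟨r, hr, hpr⟩ := hp
      refine ⟨coeff 0 p, ?_, ?_⟩
      · rw [isUnit_iff_ne_zero]
        intro h0
        have h1 := congrArg (coeff 0) hpr
        rw [coeff_map, h0, map_zero, coeff_C, if_pos rfl] at h1
        exact hr.ne_zero h1.symm
      · ext m
        rw [coeff_C]
        split_ifs with hm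
        · rw [← hm]
        · have h1 := congrArg (coeff m) hpr
          rw [coeff_map, coeff_C, if_neg hm] at h1
          exact (map_eq_zero _).mp h1
    rcases hirr.isUnit_or_isUnit rfl with h | h
    · exact Or.inl (key _ h)
    · exact Or.inr (key _ h)

/-- the constants are algebraically closed in the function field of a geometrically irreducible
hypersurface -/
theorem closed_of_geom (hξ : GP f ξ)
    (hirr : Irreducible (MvPolynomial.map (algebraMap k (AlgebraicClosure k)) f)) {a : K}
    (ha : IsAlgebraic k a) : a ∈ Set.range (algebraMap k K) := by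
  obtain ⟨K', _, _, ξ', hξ'⟩ := exists_gp hirr
  letI : Algebra k K' := ((algebraMap (AlgebraicClosure k) K').comp
    (algebraMap k (AlgebraicClosure k))).toAlgebra
  have hst : IsScalarTower k (AlgebraicClosure k) K' := IsScalarTower.of_algebraMap_eq fun _ => rfl
  have hev : ∀ P : MvPolynomial (Fin N) k,
      aeval ξ' P = aeval ξ' (MvPolynomial.map (algebraMap k (AlgebraicClosure k)) P) := by
    intro P
    rw [aeval_map_algebraMap]
  obtain ⟨σ, hσ⟩ := embedG (aeval ξ : MvPolynomial (Fin N) k →ₐ[k] K)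
    (aeval ξ' : MvPolynomial (Fin N) k →ₐ[k] K') (fun P => by
      rw [hξ.zero_iff, hev, hξ'.zero_iff]
      constructor
      · rintro ⟨g, rfl⟩
        rw [map_mul]
        exact dvd_mul_right _ _
      · exact dvd_of_map) (fun z => by
      obtain ⟨P, Q, h1, h2⟩ := exists_frac hξ.gen z
      exact ⟨P, Q, h1, h2⟩)
  obtain ⟨P, Q, hQ, hPQ⟩ := exists_frac hξ.gen a
  have hfac : ∀ P, σ (aeval ξ P) = aeval ξ' P := hσ
  have h1 : IsAlgebraic (AlgebraicClosure k) (σ a) :=
    ((isAlgebraic_algHom_iff σ σ.injective).mpr ha).tower_top (K := k) (AlgebraicClosure k)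
  obtain ⟨α, hα⟩ : ∃ α : AlgebraicClosure k, algebraMap _ K' α = σ a := by
    by_contra hcon
    exact trans_of_not_mem (k := AlgebraicClosure k) (K := K') (y := σ a) hcon h1
  have h2 : MvPolynomial.map (algebraMap k (AlgebraicClosure k)) f ∣
      C α * MvPolynomial.map (algebraMap k (AlgebraicClosure k)) Q -
        MvPolynomial.map (algebraMap k (AlgebraicClosure k)) P := by
    rw [← hξ'.zero_iff, map_sub, map_mul, aeval_C, ← hev, ← hev, ← hfac, ← hfac, hα, ← map_mul,
      hPQ, sub_self]
  by_cases hαk : α ∈ Set.range (algebraMap k (AlgebraicClosure k))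
  · obtain ⟨c, rfl⟩ := hαk
    refine ⟨c, σ.injective ?_⟩
    change σ (algebraMap k K c) = σ a
    rw [← hα, σ.commutes]
    rfl
  · exfalso
    obtain ⟨lam, h3, h4⟩ := Submodule.exists_le_ker_of_notMem (K := k) (V := AlgebraicClosure k)
      (p := Submodule.span k {1}) (v := α) (by
        rw [Submodule.mem_span_singleton]
        rintro ⟨c, hc⟩
        exact hαk ⟨c, by rw [← hc, Algebra.smul_def, mul_one]⟩)
    have h5 : lam 1 = 0 := LinearMap.mem_ker.mp (h4 (Submodule.mem_span_singleton_self _))
    obtain ⟨g, hg⟩ := h2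
    have h6 := congrArg (cw lam) hg
    have h7 : cw lam (MvPolynomial.map (algebraMap k (AlgebraicClosure k)) P) = C (lam 1) * P := by
      rw [← cw_C_mul_map, C_1, one_mul]
    rw [cw_mul, cw_sub, cw_C_mul_map, h7, h5, C_0, zero_mul, sub_zero] at h6
    have h8 := congrArg (aeval ξ) h6
    rw [map_mul, map_mul, (hξ.zero_iff f).mpr dvd_rfl, zero_mul, aeval_C] at h8
    rcases mul_eq_zero.mp h8 with h9 | h9
    · exact h3 ((map_eq_zero _).mp h9)
    · exact hQ h9

theorem not_unit_of_coeff {F : Type v} [Field F] {ι : Type w} {p : MvPolynomial ι F} {m : ι →₀ ℕ}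
    (hm : m ≠ 0) (h : coeff m p ≠ 0) : ¬ IsUnit p := by
  classical
  intro hu
  obtain ⟨r, -, hr⟩ := isUnit_iff_eq_C_of_isReduced.mp hu
  rw [hr, coeff_C, if_neg (Ne.symm hm)] at h
  exact h rfl

theorem exists_coeff {F : Type v} [Field F] {ι : Type w} {p : MvPolynomial ι F} (h0 : p ≠ 0)
    (h : ¬ IsUnit p) : ∃ m, m ≠ 0 ∧ coeff m p ≠ 0 := by
  classical
  by_contra hcon
  push Not at hcon
  apply h
  have h1 : p = C (coeff 0 p) := by
    ext m
    rw [coeff_C]
    split_ifs with hm
    · rw [← hm]
    · exact hcon m (Ne.symm hm)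
  rw [isUnit_iff_eq_C_of_isReduced]
  refine ⟨coeff 0 p, isUnit_iff_ne_zero.mpr fun h2 => h0 ?_, h1⟩
  rw [h1, h2, C_0]

/-- a geometrically irreducible polynomial is irreducible over all extensions -/
theorem irr_ext (hirr : Irreducible (MvPolynomial.map (algebraMap k (AlgebraicClosure k)) f))
    {E : Type u} [Field E] [Algebra k E] : Irreducible (MvPolynomial.map (algebraMap k E) f) := by
  classical
  have hf0 : f ≠ 0 := by
    rintro rfl
    exact hirr.ne_zero (map_zero _)
  have hfE : MvPolynomial.map (algebraMap k E) f ≠ 0 := by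
    intro h0
    exact hf0 (MvPolynomial.map_injective _ (algebraMap k E).injective (h0.trans (map_zero _).symm))
  constructor
  · intro hu
    obtain ⟨m, hm, hc⟩ := exists_coeff hirr.ne_zero hirr.not_isUnit
    refine not_unit_of_coeff hm (p := MvPolynomial.map (algebraMap k E) f) ?_ hu
    rw [coeff_map] at hc ⊢
    exact (map_ne_zero _).mpr ((map_ne_zero _).mp hc)
  · intro g h hgh
    by_contra hcon
    push Not at hcon
    have hg0 : g ≠ 0 := by
      rintro rfl
      rw [zero_mul] at hgh
      exact hfE hgh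
    have hh0 : h ≠ 0 := by
      rintro rfl
      rw [mul_zero] at hgh
      exact hfE hgh
    obtain ⟨m, hm, hgm⟩ := exists_coeff hg0 hcon.1
    obtain ⟨m', hm', hhm⟩ := exists_coeff hh0 hcon.2
    let κ : Type := g.support ⊕ h.support
    let x : κ → E := Sum.elim (fun m => coeff (m : Fin N →₀ ℕ) g) (fun m => coeff (m : Fin N →₀ ℕ) h)
    obtain ⟨M, ⟨e⟩⟩ : ∃ M, Nonempty (κ ≃ Fin M) := ⟨Fintype.card κ, ⟨Fintype.equivFin κ⟩⟩
    let y : Fin M → E := fun i => x (e.symm i)
    let Gt : MvPolynomial (Fin N) (MvPolynomial (Fin M) k) :=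
      ∑ m : g.support, monomial (m : Fin N →₀ ℕ) (X (e (Sum.inl m)))
    let Ht : MvPolynomial (Fin N) (MvPolynomial (Fin M) k) :=
      ∑ m : h.support, monomial (m : Fin N →₀ ℕ) (X (e (Sum.inr m)))
    have hmapG : ∀ {F : Type u} [Field F] [Algebra k F] (c : Fin M → F),
        MvPolynomial.map (aeval c : MvPolynomial (Fin M) k →ₐ[k] F).toRingHom Gt =
          ∑ m : g.support, monomial (m : Fin N →₀ ℕ) (c (e (Sum.inl m))) := by
      intro F _ _ c
      rw [map_sum]
      refine Finset.sum_congr rfl fun m _ => ?_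
      rw [map_monomial]
      simp
    have hmapH : ∀ {F : Type u} [Field F] [Algebra k F] (c : Fin M → F),
        MvPolynomial.map (aeval c : MvPolynomial (Fin M) k →ₐ[k] F).toRingHom Ht =
          ∑ m : h.support, monomial (m : Fin N →₀ ℕ) (c (e (Sum.inr m))) := by
      intro F _ _ c
      rw [map_sum]
      refine Finset.sum_congr rfl fun m _ => ?_
      rw [map_monomial]
      simp
    have hmapf : ∀ {F : Type u} [Field F] [Algebra k F] (c : Fin M → F),
        MvPolynomial.map (aeval c : MvPolynomial (Fin M) k →ₐ[k] F).toRingHom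
          (MvPolynomial.map C f) = MvPolynomial.map (algebraMap k F) f := by
      intro F _ _ c
      rw [map_map]
      have h1 : ((aeval c : MvPolynomial (Fin M) k →ₐ[k] F).toRingHom).comp C = algebraMap k F :=
        RingHom.ext fun a => by simp
      rw [h1]
    have hG : MvPolynomial.map (aeval y : MvPolynomial (Fin M) k →ₐ[k] E).toRingHom Gt = g := by
      rw [hmapG]
      have h1 : ∀ m : g.support, monomial (m : Fin N →₀ ℕ) (y (e (Sum.inl m))) =
          monomial (m : Fin N →₀ ℕ) (coeff (m : Fin N →₀ ℕ) g) := by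
        intro m
        change monomial (m : Fin N →₀ ℕ) (x (e.symm (e (Sum.inl m)))) = _
        rw [e.symm_apply_apply]
        rfl
      rw [Finset.sum_congr rfl fun m _ => h1 m,
        Finset.sum_coe_sort g.support (fun m => monomial m (coeff m g))]
      exact g.support_sum_monomial_coeff
    have hH : MvPolynomial.map (aeval y : MvPolynomial (Fin M) k →ₐ[k] E).toRingHom Ht = h := by
      rw [hmapH]
      have h1 : ∀ m : h.support, monomial (m : Fin N →₀ ℕ) (y (e (Sum.inr m))) =
          monomial (m : Fin N →₀ ℕ) (coeff (m : Fin N →₀ ℕ) h) := by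
        intro m
        change monomial (m : Fin N →₀ ℕ) (x (e.symm (e (Sum.inr m)))) = _
        rw [e.symm_apply_apply]
        rfl
      rw [Finset.sum_congr rfl fun m _ => h1 m,
        Finset.sum_coe_sort h.support (fun m => monomial m (coeff m h))]
      exact h.support_sum_monomial_coeff
    obtain ⟨c, hc, hcg⟩ := exists_pt_closure (k := k) y
      (g := X (e (Sum.inl ⟨m, mem_support_iff.mpr hgm⟩)) * X (e (Sum.inr ⟨m', mem_support_iff.mpr hhm⟩)))
      (by
        rw [map_mul, aeval_X, aeval_X]
        change x (e.symm (e _)) * x (e.symm (e _)) ≠ 0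
        rw [e.symm_apply_apply, e.symm_apply_apply]
        exact mul_ne_zero hgm hhm)
    rw [map_mul, aeval_X, aeval_X] at hcg
    have hprod : MvPolynomial.map (algebraMap k (AlgebraicClosure k)) f =
        MvPolynomial.map (aeval c : MvPolynomial (Fin M) k →ₐ[k] AlgebraicClosure k).toRingHom Gt *
        MvPolynomial.map (aeval c : MvPolynomial (Fin M) k →ₐ[k] AlgebraicClosure k).toRingHom Ht := by
      rw [← map_mul, ← sub_eq_zero, ← hmapf c, ← map_sub]
      ext n
      rw [coeff_map, coeff_zero]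
      apply hc
      have h1 : MvPolynomial.map (aeval y : MvPolynomial (Fin M) k →ₐ[k] E).toRingHom
          (MvPolynomial.map C f - Gt * Ht) = 0 := by
        rw [map_sub, map_mul, hG, hH, hmapf, hgh, sub_self]
      have h2 := congrArg (coeff n) h1
      rw [coeff_map, coeff_zero] at h2
      exact h2
    have hnu : ∀ {S : Finset (Fin N →₀ ℕ)} (z : S → AlgebraicClosure k) (m : S),
        (m : Fin N →₀ ℕ) ≠ 0 → z m ≠ 0 →
        ¬ IsUnit (∑ m : S, monomial (m : Fin N →₀ ℕ) (z m) : MvPolynomial (Fin N) (AlgebraicClosure k)) := by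
      intro S z m hm hz
      refine not_unit_of_coeff hm ?_
      rw [coeff_sum]
      simp only [coeff_monomial]
      have h1 : ∀ m' : S, (if (m' : Fin N →₀ ℕ) = m then z m' else 0) =
          if m' = m then z m' else 0 := by
        intro m'
        by_cases h : m' = m
        · rw [if_pos h, if_pos (congrArg Subtype.val h)]
        · rw [if_neg h, if_neg (fun h' => h (Subtype.ext h'))]
      rw [Finset.sum_congr rfl fun m' _ => h1 m', Finset.sum_ite_eq' Finset.univ m,
        if_pos (Finset.mem_univ m)]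
      exact hz
    rcases hirr.isUnit_or_isUnit hprod with h1 | h1
    · rw [hmapG] at h1
      exact hnu _ ⟨m, mem_support_iff.mpr hgm⟩ hm (left_ne_zero_of_mul hcg) h1
    · rw [hmapH] at h1
      exact hnu _ ⟨m', mem_support_iff.mpr hhm⟩ hm' (right_ne_zero_of_mul hcg) h1

/-- the dimension -/
theorem trdeg_eq (hξ : GP f ξ) (hf : f ≠ 0) {l : Fin N} (hl : degreeOf l f ≠ 0) :
    Algebra.trdeg k K = ((N - 1 : ℕ) : Cardinal) := by
  classical
  have h1 := indep_of hf hl (fun P => (hξ.zero_iff P).mp)
  have hb : IsTranscendenceBasis k (fun i : {i : Fin N // i ≠ l} => ξ i) := by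
    refine h1.isTranscendenceBasis_iff_isAlgebraic.mpr ?_
    have h2 : ξ '' {i | i ≠ l} = Set.range (fun i : {i : Fin N // i ≠ l} => ξ i) := by
      ext; simp
    rw [← h2]
    exact ⟨fun z => mem_cl_ne hξ hf hl z⟩
  have h3 := hb.lift_cardinalMk_eq_trdeg
  have h4 : Fintype.card {i : Fin N // i ≠ l} = N - 1 := by
    rw [Fintype.card_subtype_compl]
    simp
  rw [Cardinal.mk_fintype, h4] at h3
  simpa using h3.symm

end Closed

end Pool.Agent.R867.H
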