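import Pool.Agent.R867.D.Emb
import Pool.Agent.R867.Mov.DC

/-! Generic points of hypersurfaces. -/

set_option autoImplicit false

namespace Pool.Agent.R867.H

open MvPolynomial IntermediateField Pool.Agent.R867.Mov Pool.Agent.R867.D

universe u v w

variable {k : Type u} [Field k] {N : ℕ} {f : MvPolynomial (Fin N) k}

/-- the generic point of the hypersurface `f = 0` -/
structure GP {K : Type u} [Field K] [Algebra k K] (f : MvPolynomial (Fin N) k) (ξ : Fin N → K) :
    Prop where
  zero_iff : ∀ P : MvPolynomial (Fin N) k, aeval ξ P = 0 ↔ f ∣ P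
  gen : adjoin k (Set.range ξ) = ⊤

theorem exists_gp (hf : Irreducible f) :
    ∃ (K : Type u) (_ : Field K) (_ : Algebra k K) (ξ : Fin N → K), GP f ξ := by
  have hp : (Ideal.span {f}).IsPrime := (Ideal.span_singleton_prime hf.ne_zero).mpr hf.prime
  let A := MvPolynomial (Fin N) k ⧸ Ideal.span {f}
  let K := FractionRing A
  let ξ : Fin N → K := fun i => algebraMap A K (Ideal.Quotient.mk _ (X i))
  have hval : ∀ P : MvPolynomial (Fin N) k, aeval ξ P = algebraMap A K (Ideal.Quotient.mk _ P) := by
    intro P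
    have h : (aeval ξ : MvPolynomial (Fin N) k →ₐ[k] K) =
        (IsScalarTower.toAlgHom k A K).comp (Ideal.Quotient.mkₐ k (Ideal.span {f})) := by
      apply MvPolynomial.algHom_ext
      intro i
      rw [aeval_X]
      rfl
    rw [h]
    rfl
  refine ⟨K, inferInstance, inferInstance, ξ, fun P => ?_, ?_⟩
  · rw [hval, map_eq_zero_iff _ (IsFractionRing.injective A K), Ideal.Quotient.eq_zero_iff_mem,
      Ideal.mem_span_singleton]
  · rw [eq_top_iff]
    intro z _
    rw [mem_adjoin_range_iff]
    obtain ⟨a, b, hb, rfl⟩ := IsFractionRing.div_surjective (A := A) z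
    obtain ⟨P, rfl⟩ := Ideal.Quotient.mk_surjective a
    obtain ⟨Q, rfl⟩ := Ideal.Quotient.mk_surjective b
    exact ⟨P, Q, by rw [hval, hval]⟩

theorem indep_of (hf : f ≠ 0) {l : Fin N} (hl : degreeOf l f ≠ 0) {K : Type u} [Field K]
    [Algebra k K] {ξ : Fin N → K} (h : ∀ P : MvPolynomial (Fin N) k, aeval ξ P = 0 → f ∣ P) :
    AlgebraicIndependent k (fun i : {i : Fin N // i ≠ l} => ξ i) := by
  unfold AlgebraicIndependent
  rw [injective_iff_map_eq_zero]
  intro p hp
  have h1 : aeval ξ (rename Subtype.val p) = 0 := by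
    rw [aeval_rename]
    exact hp
  obtain ⟨g, hg⟩ := h _ h1
  by_contra hp0
  have h2 : rename Subtype.val p ≠ (0 : MvPolynomial (Fin N) k) := by
    intro h0
    apply hp0
    apply rename_injective _ Subtype.val_injective
    rw [h0, map_zero]
  have h3 : degreeOf l (rename Subtype.val p : MvPolynomial (Fin N) k) = 0 :=
    degreeOf_rename_zero (S := {i | i ≠ l}) p (fun h => h rfl)
  have hg0 : g ≠ 0 := by
    rintro rfl
    exact h2 (by rw [hg, mul_zero])
  rw [hg, degreeOf_mul_eq hf hg0] at h3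
  omega

/-- a point of the hypersurface with sufficiently many independent coordinates is generic -/
theorem generic_iff {K : Type u} [Field K] [Algebra k K] {ξ : Fin N → K} (hξ : GP f ξ)
    {Ω : Type u} [Field Ω] [Algebra k Ω] {y : Fin N → Ω} (hy : aeval y f = 0) {l : Fin N}
    (hl : degreeOf l f ≠ 0) (hf : f ≠ 0)
    (hind : AlgebraicIndependent k (fun i : {i : Fin N // i ≠ l} => y i))
    (P : MvPolynomial (Fin N) k) : aeval y P = 0 ↔ f ∣ P := by
  constructor
  · intro hP
    rw [← hξ.zero_iff]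
    have hξi := indep_of hf hl (fun P => (hξ.zero_iff P).mp)
    have hfl : aeval ξ f = 0 := (hξ.zero_iff f).mpr dvd_rfl
    -- `ξ l` is algebraic over the others
    have hKa : Algebra.IsAlgebraic (Algebra.adjoin k (ξ '' {i | i ≠ l})) K := by
      refine isAlg_of_adjoin _ ξ hξ.gen fun i => ?_
      by_cases hi : i = l
      · subst hi
        by_contra htr
        have h1 : AlgebraicIndepOn k ξ {j | j ≠ i} := hξi
        have h2 := h1.insert htr
        have h3 : insert i {j | j ≠ i} = (Set.univ : Set (Fin N)) := by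
          ext j
          simp [em]
        rw [h3] at h2
        have h4 : AlgebraicIndependent k ξ := by
          have h5 : AlgebraicIndependent k (fun j : (Set.univ : Set (Fin N)) => ξ j) := h2
          have h6 := h5.comp (Equiv.Set.univ (Fin N)).symm (Equiv.injective _)
          exact h6
        apply hf
        apply h4
        rw [map_zero]
        exact hfl
      · exact isAlgebraic_algebraMap (⟨ξ i, Algebra.subset_adjoin ⟨i, hi, rfl⟩⟩ :
          Algebra.adjoin k (ξ '' {i | i ≠ l}))
    refine inj_of_indep hKa (c := y) (fun Q hQ => ?_) hind P hP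
    obtain ⟨g, rfl⟩ := (hξ.zero_iff Q).mp hQ
    rw [map_mul, hy, zero_mul]
  · rintro ⟨g, rfl⟩
    rw [map_mul, hy, zero_mul]

theorem exists_hom {K : Type u} [Field K] [Algebra k K] {ξ : Fin N → K} (hξ : GP f ξ)
    {Ω : Type u} [Field Ω] [Algebra k Ω] {y : Fin N → Ω} (hy : aeval y f = 0) {l : Fin N}
    (hl : degreeOf l f ≠ 0) (hf : f ≠ 0)
    (hind : AlgebraicIndependent k (fun i : {i : Fin N // i ≠ l} => y i)) :
    ∃ σ : K →ₐ[k] Ω, ∀ i, σ (ξ i) = y i := by
  obtain ⟨σ, hσ⟩ := embedG (aeval ξ : MvPolynomial (Fin N) k →ₐ[k] K)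
    (aeval y : MvPolynomial (Fin N) k →ₐ[k] Ω) (fun P => by
      rw [hξ.zero_iff]
      exact (generic_iff hξ hy hl hf hind P).symm) (fun z => by
      obtain ⟨P, Q, h1, h2⟩ := exists_frac hξ.gen z
      exact ⟨P, Q, h1, h2⟩)
  refine ⟨σ, fun i => ?_⟩
  have h := hσ (X i)
  rwa [aeval_X, aeval_X] at h

end Pool.Agent.R867.H
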