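import Pool.Agent.R867.H.Cub3

/-! A Jacobian criterion for the dominance of a projection. -/

set_option autoImplicit false

namespace Pool.Agent.R867.H

open MvPolynomial Pool.Agent.R867.Mov

universe u v w

variable {k : Type u} [Field k] {ι : Type v}

/-- membership in the ideal generated by two polynomials -/
def In2 (g₁ g₂ P : MvPolynomial ι k) : Prop := ∃ A B, P = A * g₁ + B * g₂

theorem In2.add {g₁ g₂ P Q : MvPolynomial ι k} (h : In2 g₁ g₂ P) (h' : In2 g₁ g₂ Q) :
    In2 g₁ g₂ (P + Q) := by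
  obtain ⟨A, B, rfl⟩ := h
  obtain ⟨A', B', rfl⟩ := h'
  exact ⟨A + A', B + B', by ring⟩

theorem In2.sub {g₁ g₂ P Q : MvPolynomial ι k} (h : In2 g₁ g₂ P) (h' : In2 g₁ g₂ Q) :
    In2 g₁ g₂ (P - Q) := by
  obtain ⟨A, B, rfl⟩ := h
  obtain ⟨A', B', rfl⟩ := h'
  exact ⟨A - A', B - B', by ring⟩

theorem In2.mul {g₁ g₂ P : MvPolynomial ι k} (h : In2 g₁ g₂ P) (Q : MvPolynomial ι k) :
    In2 g₁ g₂ (Q * P) := by
  obtain ⟨A, B, rfl⟩ := h
  exact ⟨Q * A, Q * B, by ring⟩

variable {g₁ g₂ h : MvPolynomial ι k} {i j : ι}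

theorem step_der (l : ι) {G Δ : MvPolynomial ι k}
    (hΔ : Δ = pderiv i g₁ * pderiv j g₂ - pderiv j g₁ * pderiv i g₂)
    (hGi : pderiv i G = 0) (hGj : pderiv j G = 0) {n : ℕ} (hn : In2 g₁ g₂ ((Δ * h) ^ n * G)) :
    ∃ n, In2 g₁ g₂ ((Δ * h) ^ n * pderiv l G) := by
  obtain ⟨α, hα⟩ : ∃ α, α = -(pderiv l g₁ * pderiv j g₂ - pderiv j g₁ * pderiv l g₂) := ⟨_, rfl⟩
  obtain ⟨β, hβ⟩ : ∃ β, β = -(pderiv i g₁ * pderiv l g₂ - pderiv l g₁ * pderiv i g₂) := ⟨_, rfl⟩
  obtain ⟨D, hD⟩ : ∃ D : Derivation k (MvPolynomial ι k) (MvPolynomial ι k),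
    D = Δ • (pderiv l : Derivation k (MvPolynomial ι k) (MvPolynomial ι k)) +
      α • (pderiv i : Derivation k (MvPolynomial ι k) (MvPolynomial ι k)) +
      β • (pderiv j : Derivation k (MvPolynomial ι k) (MvPolynomial ι k)) := ⟨_, rfl⟩
  have hDa : ∀ P, D P = Δ * pderiv l P + α * pderiv i P + β * pderiv j P := by
    intro P
    rw [hD]
    simp only [Derivation.add_apply, Derivation.smul_apply, smul_eq_mul]
  have h1 : D g₁ = 0 := by
    rw [hDa, hΔ, hα, hβ]
    ring
  have h2 : D g₂ = 0 := by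
    rw [hDa, hΔ, hα, hβ]
    ring
  have hDJ : ∀ P, In2 g₁ g₂ P → In2 g₁ g₂ (D P) := by
    rintro P ⟨A, B, rfl⟩
    refine ⟨D A, D B, ?_⟩
    rw [map_add, Derivation.leibniz, Derivation.leibniz, h1, h2]
    simp only [smul_eq_mul]
    ring
  have hDG : D G = Δ * pderiv l G := by
    rw [hDa, hGi, hGj]
    ring
  obtain ⟨E, hE⟩ : ∃ E, E = (Δ * h) ^ n := ⟨_, rfl⟩
  rw [← hE] at hn
  have h3 := hDJ _ hn
  rw [Derivation.leibniz, hDG, smul_eq_mul, smul_eq_mul] at h3
  refine ⟨2 * n + 1, ?_⟩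
  have h4 : (Δ * h) ^ (2 * n + 1) * pderiv l G =
      (E * h) * (E * (Δ * pderiv l G) + G * D E) - (D E * h) * (E * G) := by
    rw [hE]
    ring
  rw [h4]
  exact (h3.mul _).sub (hn.mul _)

theorem totalDegree_pderiv_lt [CharZero k] {G : MvPolynomial ι k} {l : ι}
    (hl : pderiv l G ≠ 0) : (pderiv l G).totalDegree < G.totalDegree := by
  classical
  obtain ⟨m, hm, hmd⟩ := Finset.exists_mem_eq_sup (pderiv l G).support
    (support_nonempty.mpr hl) (fun s => s.sum fun _ e => e)
  have h1 : (pderiv l G).totalDegree = m.sum fun _ e => e := hmd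
  rw [mem_support_iff, coeff_pderiv] at hm
  have h2 : m + Finsupp.single l 1 ∈ G.support := by
    rw [mem_support_iff]
    exact left_ne_zero_of_mul hm
  have h3 := le_totalDegree h2
  rw [h1]
  have h4 : (m + Finsupp.single l 1).sum (fun _ e => e) = (m.sum fun _ e => e) + 1 := by
    rw [Finsupp.sum_add_index' (fun _ => rfl) (fun _ _ _ => rfl), Finsupp.sum_single_index rfl]
  omega

theorem eq_C_of_pderiv [CharZero k] {G : MvPolynomial ι k} (hG : ∀ l, pderiv l G = 0) :
    ∃ a, G = C a := by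
  classical
  refine ⟨coeff 0 G, ?_⟩
  ext m
  rw [coeff_C]
  by_cases h0 : 0 = m
  · rw [if_pos h0, h0]
  · rw [if_neg h0]
    obtain ⟨l, hl⟩ : ∃ l, m l ≠ 0 := by
      by_contra hcon
      push Not at hcon
      exact h0 (Finsupp.ext fun l => (hcon l).symm)
    have h1 := congrArg (coeff (m - Finsupp.single l 1)) (hG l)
    have h3 : m - Finsupp.single l 1 + Finsupp.single l 1 = m := by
      ext q
      by_cases hq : q = l
      · subst hq
        simp
        omega
      · simp [Finsupp.single_apply, Ne.symm hq]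
    rw [coeff_pderiv, coeff_zero, h3] at h1
    rcases mul_eq_zero.mp h1 with h2 | h2
    · exact h2
    · exfalso
      norm_cast at h2

/-- **Jacobian criterion**: no multiple of a power of `h` by a nonzero polynomial in the variables
different from `i`, `j` lies in the ideal `(g₁, g₂)`, if there is a point of `g₁ = g₂ = 0` at which
`h` and the Jacobian with respect to `i`, `j` do not vanish. -/
theorem jac [CharZero k] {Ω : Type w} [Field Ω] [Algebra k Ω] {r : ι → Ω}
    (h1 : aeval r g₁ = 0) (h2 : aeval r g₂ = 0) (h3 : aeval r h ≠ 0)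
    (h4 : aeval r (pderiv i g₁ * pderiv j g₂ - pderiv j g₁ * pderiv i g₂) ≠ 0)
    (G : MvPolynomial ι k) (hG : G ≠ 0) (hGi : pderiv i G = 0) (hGj : pderiv j G = 0) (n : ℕ) :
    ¬ In2 g₁ g₂ (h ^ n * G) := by
  obtain ⟨Δ, hΔ⟩ : ∃ Δ, Δ = pderiv i g₁ * pderiv j g₂ - pderiv j g₁ * pderiv i g₂ := ⟨_, rfl⟩
  rw [← hΔ] at h4
  have key : ∀ (d : ℕ) (G : MvPolynomial ι k), G.totalDegree ≤ d → G ≠ 0 → pderiv i G = 0 →
      pderiv j G = 0 → ∀ n, ¬ In2 g₁ g₂ ((Δ * h) ^ n * G) := by
    intro d
    induction d with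
    | zero =>
      intro G hd hG _ _ n hn
      have h5 : G = C (coeff 0 G) := totalDegree_eq_zero_iff_eq_C.mp (Nat.le_zero.mp hd)
      obtain ⟨A, B, hAB⟩ := hn
      have h6 := congrArg (aeval r) hAB
      rw [map_add, map_mul, map_mul, map_mul, h1, h2, mul_zero, mul_zero, add_zero, map_pow,
        map_mul, h5, aeval_C] at h6
      have h7 : coeff 0 G ≠ 0 := by
        intro h0
        rw [h0, C_0] at h5
        exact hG h5
      exact mul_ne_zero (pow_ne_zero _ (mul_ne_zero h4 h3))
        ((map_ne_zero (algebraMap k Ω)).mpr h7) h6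
    | succ d ih =>
      intro G hd hG hGi hGj n hn
      by_cases hall : ∀ l, pderiv l G = 0
      · obtain ⟨a, rfl⟩ := eq_C_of_pderiv hall
        obtain ⟨A, B, hAB⟩ := hn
        have h6 := congrArg (aeval r) hAB
        rw [map_add, map_mul, map_mul, map_mul, h1, h2, mul_zero, mul_zero, add_zero, map_pow,
          map_mul, aeval_C] at h6
        have h7 : a ≠ 0 := by
          rintro rfl
          exact hG C_0
        exact mul_ne_zero (pow_ne_zero _ (mul_ne_zero h4 h3))
          ((map_ne_zero (algebraMap k Ω)).mpr h7) h6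
      · push Not at hall
        obtain ⟨l, hl⟩ := hall
        obtain ⟨n', hn'⟩ := step_der l hΔ hGi hGj hn
        have h5 := totalDegree_pderiv_lt hl
        have comm : ∀ a b : ι, pderiv a (pderiv b G) = pderiv b (pderiv a G) := by
          intro a b
          have h : ⁅(pderiv a : Derivation k (MvPolynomial ι k) (MvPolynomial ι k)),
              (pderiv b : Derivation k (MvPolynomial ι k) (MvPolynomial ι k))⁆ = 0 := by
            classical
            apply MvPolynomial.derivation_ext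
            intro l
            rw [Derivation.commutator_apply, pderiv_X, pderiv_X]
            simp only [Pi.single_apply]
            split_ifs <;> simp
          have h1 := congrArg (fun D : Derivation k (MvPolynomial ι k) (MvPolynomial ι k) => D G) h
          simp only [Derivation.commutator_apply, Derivation.zero_apply] at h1
          exact sub_eq_zero.mp h1
        refine ih (pderiv l G) (by omega) hl ?_ ?_ n' hn'
        · rw [comm, hGi, map_zero]
        · rw [comm, hGj, map_zero]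
  intro hcon
  refine key _ G le_rfl hG hGi hGj n ?_
  rw [mul_pow, mul_assoc]
  exact hcon.mul _

end Pool.Agent.R867.H
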