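import Pool.Agent.R867.H.Step

/-! Variables of degree two: the involution which exchanges the two roots. -/

set_option autoImplicit false

namespace Pool.Agent.R867.H

open MvPolynomial Pool.Agent.R867.Mov Pool.Agent.R867.J

universe u v w

section Lin

variable {k : Type u} [Field k] {N : ℕ} {Ω : Type v} [Field Ω] [Algebra k Ω]

theorem lin_natDegree1 {x v : Fin N → Ω} {i : Fin N} (hv : ∀ l, l ≠ i → v l = 0) {d : ℕ}
    {g : MvPolynomial (Fin N) k} (hd : degreeOf i g ≤ d) : (lin x v g).natDegree ≤ d := by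
  classical
  have h1 : lin x v g = ∑ m ∈ g.support, lin x v (monomial m (coeff m g)) := by
    conv_lhs => rw [g.as_sum]
    rw [map_sum]
  rw [h1]
  refine Polynomial.natDegree_sum_le_of_forall_le _ _ fun m hm => ?_
  refine le_trans ?_ ((monomial_le_degreeOf i hm).trans hd)
  rw [monomial_eq, map_mul, lin_C]
  refine (Polynomial.natDegree_C_mul_le _ _).trans ?_
  rw [Finsupp.prod, map_prod]
  refine (Polynomial.natDegree_prod_le _ _).trans ?_
  have h2 : ∀ l ∈ m.support, (lin x v (X l ^ m l : MvPolynomial (Fin N) k)).natDegree ≤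
      if l = i then m i else 0 := by
    intro l _
    rw [map_pow, lin_X]
    by_cases h : l = i
    · subst h
      rw [if_pos rfl]
      refine (Polynomial.natDegree_pow_le).trans ?_
      have h3 : (Polynomial.C (x l) + Polynomial.X * Polynomial.C (v l) :
          Polynomial Ω).natDegree ≤ 1 := by
        rw [add_comm, mul_comm]
        exact Polynomial.natDegree_linear_le
      calc _ ≤ m l * 1 := Nat.mul_le_mul_left _ h3
        _ = m l := mul_one _
    · rw [hv l h, map_zero, mul_zero, add_zero, ← Polynomial.C_pow, Polynomial.natDegree_C]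
      exact Nat.zero_le _
  refine (Finset.sum_le_sum h2).trans ?_
  rw [Finset.sum_ite_eq']
  split_ifs
  · exact le_rfl
  · exact Nat.zero_le _

end Lin

/-- the derivative of the other root along the fibre -/
noncomputable def rt {k : Type u} [CommRing k] {N : ℕ} (u i j : Fin N)
    (f : MvPolynomial (Fin N) k) : MvPolynomial (Fin N) k :=
  pderiv u (pderiv u f) * (pderiv i (pderiv u f) * pderiv j f - pderiv j (pderiv u f) * pderiv i f) -
    pderiv u f * (pderiv i (pderiv u (pderiv u f)) * pderiv j f -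
      pderiv j (pderiv u (pderiv u f)) * pderiv i f)

variable {k K : Type u} [Field k] [Field K] [Algebra k K] {N : ℕ} {f : MvPolynomial (Fin N) k}
  {ξ : Fin N → K} {B : Set (Fin N)}

theorem line_step [CharZero k] (hξ : GP f ξ) (hf : f ≠ 0) {u : Fin N} (huB : u ∉ B)
    (hdu : degreeOf u f ≤ 2) {i j : Fin N} (hi : i ∈ B) (hj : j ∈ B)
    (hr : aeval ξ (rt u i j f) ≠ 0) (hI : ∀ a : K, Imm k a → a ∈ cl k (ξ '' Bᶜ)) {a : K}
    (ha : Imm k a) : a ∈ cl k (ξ '' (insert u B)ᶜ) := by
  classical
  have hcK : CharZero K := charZero_of_injective_algebraMap (algebraMap k K).injective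
  have hfx : aeval ξ f = 0 := (hξ.zero_iff f).mpr dvd_rfl
  have hui : u ≠ i := fun h => huB (h ▸ hi)
  have huj : u ≠ j := fun h => huB (h ▸ hj)
  have hij : i ≠ j := by
    rintro rfl
    apply hr
    unfold rt
    rw [sub_self, sub_self, mul_zero, mul_zero, sub_zero, map_zero]
  obtain ⟨c, hc⟩ : ∃ c, c = aeval ξ (pderiv u (pderiv u f)) := ⟨_, rfl⟩
  obtain ⟨b, hb⟩ : ∃ b, b = aeval ξ (pderiv u f) := ⟨_, rfl⟩
  have hc0' : pderiv u (pderiv u f) ≠ 0 := by
    intro h0
    apply hr
    unfold rt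
    rw [h0]
    simp
  have hdeg : degreeOf u f ≠ 0 := by
    intro h0
    apply hc0'
    rw [pderiv_eq_zero_of_degreeOf h0, map_zero]
  have hdc : degreeOf u (pderiv u (pderiv u f)) = 0 := by
    have h1 := degreeOf_pderiv u (pderiv u f)
    have h2 := degreeOf_pderiv u f
    omega
  have hc0 : c ≠ 0 := by
    rw [hc]
    intro h0
    exact not_dvd_of_deg (f := f) (j := u) hc0' (by omega) ((hξ.zero_iff _).mp h0)
  obtain ⟨t, ht⟩ : ∃ t, t * c = -2 * b := ⟨-2 * b / c, div_mul_cancel₀ _ hc0⟩
  obtain ⟨v, hv⟩ : ∃ v : Fin N → K, v = fun l => if l = u then 1 else 0 := ⟨_, rfl⟩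
  have hvu : v u = 1 := by rw [hv]; simp
  have hv1 : ∀ l, l ≠ u → v l = 0 := by
    intro l h1
    rw [hv]
    simp [h1]
  have hvi : v i = 0 := hv1 i (Ne.symm hui)
  have hvl : ∀ l, l ≠ u → l ≠ i → v l = 0 := fun l h1 _ => hv1 l h1
  have hnd := lin_natDegree1 (x := ξ) hv1 hdu
  have h3 : Polynomial.derivative (Polynomial.derivative (Polynomial.derivative (lin ξ v f))) = 0 := by
    have h4 : (Polynomial.derivative (Polynomial.derivative (lin ξ v f))).natDegree ≤ 0 := by
      have h5 := Polynomial.natDegree_derivative_le (Polynomial.derivative (lin ξ v f))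
      have h6 := Polynomial.natDegree_derivative_le (lin ξ v f)
      omega
    exact Polynomial.derivative_of_natDegree_zero (Nat.le_zero.mp h4)
  obtain ⟨y, hy⟩ : ∃ y : Fin N → K, y = fun l => ξ l + t * v l := ⟨_, rfl⟩
  have hyl : ∀ l, l ≠ u → y l = ξ l := by
    intro l hl
    rw [hy]
    change ξ l + t * v l = ξ l
    rw [hv1 l hl, mul_zero, add_zero]
  have hyu : y u = ξ u + t := by
    rw [hy]
    change ξ u + t * v u = _
    rw [hvu, mul_one]
  have hyf : aeval y f = 0 := by
    have h1 := eval_cubic (hnd.trans (by norm_num)) t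
    rw [lin_eval, lin_zero, hfx, lin_d1 hui hvl, lin_d2 hui hvl, h3, hvu, hvi, ← hb, ← hc,
      ← hy] at h1
    have h8 : (6 : K) * aeval y f = 0 := by
      rw [h1, Polynomial.eval_zero]
      linear_combination 3 * t * ht
    exact (mul_eq_zero.mp h8).resolve_left (by norm_num)
  obtain ⟨σ, hσ⟩ := exists_hom hξ hyf hdeg hf (by
    have h1 := indep_of hf hdeg (fun P => (hξ.zero_iff P).mp)
    have h2 : (fun l : {l : Fin N // l ≠ u} => y l) = fun l : {l : Fin N // l ≠ u} => ξ l := by
      funext l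
      exact hyl l l.2
    rw [h2]
    exact h1)
  -- a derivation along the fibre
  obtain ⟨D, hDl, hDi, hDj⟩ : ∃ D : Derivation k K K, (∀ l, l ≠ i → l ≠ j → D (ξ l) = 0) ∧
      D (ξ i) = aeval ξ (pderiv j f) ∧ D (ξ j) = - aeval ξ (pderiv i f) := by
    by_cases h1 : degreeOf i f = 0
    · have h2 : degreeOf j f ≠ 0 := by
        intro h2
        apply hr
        unfold rt
        rw [pderiv_eq_zero_of_degreeOf h1, pderiv_eq_zero_of_degreeOf h2]
        simp
      obtain ⟨D, hD1, hD2, hD3⟩ := exists_tder hξ hf (Ne.symm hij) h2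
      refine ⟨-D, fun l h3 h4 => ?_, ?_, ?_⟩
      · rw [Derivation.neg_apply, hD1 l h4 h3, neg_zero]
      · rw [Derivation.neg_apply, hD3, neg_neg]
      · rw [Derivation.neg_apply, hD2]
    · exact exists_tder hξ hf hij h1
  have hDΛ : ∀ z ∈ cl k (ξ '' Bᶜ), D z = 0 := by
    intro z hz
    refine der_cl D ?_ hz
    rintro _ ⟨l, hl, rfl⟩
    exact hDl l (fun h => hl (h ▸ hi)) (fun h => hl (h ▸ hj))
  have hDu : D (ξ u) = 0 := hDl u hui huj
  have hnot : σ (ξ u) ∉ cl k (ξ '' Bᶜ) := by
    intro hmem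
    have h1 := hDΛ _ hmem
    rw [hσ, hyu, map_add, hDu, zero_add] at h1
    have h2 := congrArg D ht
    rw [Derivation.leibniz, h1, smul_zero, add_zero, Derivation.leibniz, smul_eq_mul, smul_eq_mul,
      smul_eq_mul] at h2
    have h4 : D (-2 : K) = 0 := by
      have := D.map_intCast (-2)
      exact_mod_cast this
    rw [h4, mul_zero, add_zero, hb, hc, der_aeval D hij hDl, der_aeval D hij hDl, hDi, hDj] at h2
    apply hr
    unfold rt
    simp only [map_sub, map_mul]
    rw [← hb, ← hc]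
    have h5 : (2 : K) * (c * (aeval ξ (pderiv i (pderiv u f)) * aeval ξ (pderiv j f) -
        aeval ξ (pderiv j (pderiv u f)) * aeval ξ (pderiv i f)) -
        b * (aeval ξ (pderiv i (pderiv u (pderiv u f))) * aeval ξ (pderiv j f) -
        aeval ξ (pderiv j (pderiv u (pderiv u f))) * aeval ξ (pderiv i f))) = 0 := by
      linear_combination c * h2 - (aeval ξ (pderiv i (pderiv u (pderiv u f))) * aeval ξ (pderiv j f) -
        aeval ξ (pderiv j (pderiv u (pderiv u f))) * aeval ξ (pderiv i f)) * ht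
    exact (mul_eq_zero.mp h5).resolve_left two_ne_zero
  refine step_out σ (R := ξ '' Bᶜ) (b := ξ u) ?_ (hI _ (ha.map σ)) hnot ?_
  · rintro _ ⟨l, hl, rfl⟩
    rw [hσ, hyl l (fun h => hl (h ▸ Set.mem_insert _ _))]
    exact subset_cl _ ⟨l, fun h => hl (Set.mem_insert_of_mem _ h), rfl⟩
  · refine cl_mono ?_ (hI a ha)
    rintro _ ⟨l, hl, rfl⟩
    by_cases h : l = u
    · rw [h]; exact Set.mem_insert _ _
    · refine Set.mem_insert_of_mem _ ⟨l, ?_, rfl⟩
      rintro (h1 | h1)
      · exact h h1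
      · exact hl h1

end Pool.Agent.R867.H
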