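import Pool.Agent.R867.H.Homog
import Pool.Agent.Y716.M.WADefs
import Pool.Agent.Y362.MH.Norm

/-! Rational points which are not on a given subvariety, from weak approximation. -/

set_option autoImplicit false

namespace Pool.Agent.R867.H

open MvPolynomial Pool.Agent.Y716.M

section Hensel

variable {N : ℕ}

/-- the restriction of a polynomial to a line parallel to a coordinate axis -/
noncomputable def axis {R : Type} [CommRing R] (a : Fin N → R) (l : Fin N)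
    (P : MvPolynomial (Fin N) ℤ) : Polynomial R :=
  aeval (fun i => Polynomial.C (a i) + if i = l then Polynomial.X else 0) P

theorem axis_eval {R : Type} [CommRing R] (a : Fin N → R) (l : Fin N)
    (P : MvPolynomial (Fin N) ℤ) (t : R) :
    (axis a l P).eval t = aeval (fun i => a i + if i = l then t else 0) P := by
  induction P using MvPolynomial.induction_on with
  | C c =>
    unfold axis
    rw [aeval_C, aeval_C]
    simp
  | add P Q hP hQ =>
    unfold axis at hP hQ ⊢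
    rw [map_add, Polynomial.eval_add, hP, hQ, map_add]
  | mul_X P i hP =>
    unfold axis at hP ⊢
    rw [map_mul, map_mul, aeval_X, aeval_X, Polynomial.eval_mul, hP, Polynomial.eval_add,
      Polynomial.eval_C]
    congr 2
    split_ifs
    · rw [Polynomial.eval_X]
    · rw [Polynomial.eval_zero]

theorem axis_der {R : Type} [CommRing R] (a : Fin N → R) (l : Fin N)
    (P : MvPolynomial (Fin N) ℤ) :
    (Polynomial.derivative (axis a l P)).eval 0 = aeval a (pderiv l P) := by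
  classical
  have h0 : ∀ P, (axis a l P).eval 0 = aeval a P := by
    intro P
    rw [axis_eval]
    congr 1
    congr 1
    funext i
    split_ifs <;> simp
  induction P using MvPolynomial.induction_on with
  | C c =>
    unfold axis
    rw [aeval_C, pderiv_C, map_zero]
    simp
  | add P Q hP hQ =>
    have h1 : axis a l (P + Q) = axis a l P + axis a l Q := by
      unfold axis
      rw [map_add]
    rw [h1, Polynomial.derivative_add, Polynomial.eval_add, hP, hQ, map_add, map_add]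
  | mul_X P i hP =>
    have h1 : axis a l (P * X i) = axis a l P *
        (Polynomial.C (a i) + if i = l then Polynomial.X else 0) := by
      unfold axis
      rw [map_mul, aeval_X]
    rw [h1, Polynomial.derivative_mul, Polynomial.eval_add, Polynomial.eval_mul,
      Polynomial.eval_mul, hP, h0, pderiv_mul,
      map_add (aeval a) (pderiv l P * X i) (P * pderiv l (X i)),
      map_mul (aeval a) (pderiv l P) (X i), map_mul (aeval a) P (pderiv l (X i)), pderiv_X,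
      aeval_X]
    by_cases hi : i = l
    · subst hi
      simp
    · simp [hi]

theorem exists_padic {p : ℕ} [hp : Fact p.Prime] (P : MvPolynomial (Fin N) ℤ) (a : Fin N → ℤ)
    (l : Fin N) (h1 : (p : ℤ) ∣ eval a P) (h2 : ¬ (p : ℤ) ∣ eval a (pderiv l P)) :
    ∃ z : Fin N → ℤ_[p], aeval z P = 0 ∧ ∀ i, ‖z i - (a i : ℤ_[p])‖ < 1 := by
  have hcast : ∀ Q : MvPolynomial (Fin N) ℤ,
      aeval (fun i => ((a i : ℤ) : ℤ_[p])) Q = ((eval a Q : ℤ) : ℤ_[p]) := by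
    intro Q
    have h := MvPolynomial.eval₂_comp_left (Int.castRingHom ℤ_[p]) (RingHom.id ℤ) a Q
    rw [RingHom.comp_id] at h
    rw [aeval_def]
    exact h.symm
  obtain ⟨F, hF⟩ : ∃ F, F = axis (fun i => ((a i : ℤ) : ℤ_[p])) l P := ⟨_, rfl⟩
  have hF0 : F.eval 0 = ((eval a P : ℤ) : ℤ_[p]) := by
    rw [hF, axis_eval, ← hcast]
    congr 1
    congr 1
    funext i
    split_ifs <;> simp
  have hF1 : (Polynomial.derivative F).eval 0 = ((eval a (pderiv l P) : ℤ) : ℤ_[p]) := by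
    rw [hF, axis_der, hcast]
  have hn1 : ‖(Polynomial.derivative F).aeval (0 : ℤ_[p])‖ = 1 := by
    rw [Polynomial.coe_aeval_eq_eval, hF1]
    have h3 := PadicInt.norm_le_one ((eval a (pderiv l P) : ℤ) : ℤ_[p])
    rcases h3.lt_or_eq with h4 | h4
    · exact absurd ((PadicInt.norm_int_lt_one_iff_dvd _).mp h4) h2
    · exact h4
  have hn0 : ‖F.aeval (0 : ℤ_[p])‖ < 1 := by
    rw [Polynomial.coe_aeval_eq_eval, hF0]
    exact (PadicInt.norm_int_lt_one_iff_dvd _).mpr h1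
  obtain ⟨t, ht0, ht1, -⟩ := hensels_lemma (F := F) (a := (0 : ℤ_[p])) (by
    rw [hn1, one_pow]
    exact hn0)
  rw [hn1, sub_zero] at ht1
  rw [Polynomial.coe_aeval_eq_eval, hF, axis_eval] at ht0
  refine ⟨_, ht0, fun i => ?_⟩
  split_ifs
  · rw [add_sub_cancel_left]
    exact ht1
  · rw [add_zero, sub_self, norm_zero]
    exact one_pos

end Hensel

section Cong

variable {N : ℕ} {p : ℕ} [hp : Fact p.Prime]

/-- polynomials with integral coefficients at congruent points -/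
theorem norm_aeval_sub (P : MvPolynomial (Fin N) ℤ) (x y : Fin N → ℚ_[p])
    (hx : ∀ i, ‖x i‖ ≤ 1) (hy : ∀ i, ‖y i‖ ≤ 1) (hxy : ∀ i, ‖x i - y i‖ < 1) :
    ‖aeval x P‖ ≤ 1 ∧ ‖aeval y P‖ ≤ 1 ∧ ‖aeval x P - aeval y P‖ < 1 := by
  induction P using MvPolynomial.induction_on with
  | C c =>
    rw [aeval_C, aeval_C, sub_self, norm_zero]
    have h1 : ‖algebraMap ℤ ℚ_[p] c‖ ≤ 1 := by
      rw [eq_intCast]
      exact Padic.norm_int_le_one c
    exact ⟨h1, h1, one_pos⟩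
  | add P Q hP hQ =>
    obtain ⟨a1, a2, a3⟩ := hP
    obtain ⟨b1, b2, b3⟩ := hQ
    rw [map_add, map_add]
    refine ⟨(Padic.nonarchimedean _ _).trans (max_le a1 b1),
      (Padic.nonarchimedean _ _).trans (max_le a2 b2), ?_⟩
    have h1 : aeval x P + aeval x Q - (aeval y P + aeval y Q) =
        (aeval x P - aeval y P) + (aeval x Q - aeval y Q) := by ring
    rw [h1]
    exact lt_of_le_of_lt (Padic.nonarchimedean _ _) (max_lt a3 b3)
  | mul_X P i hP =>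
    obtain ⟨a1, a2, a3⟩ := hP
    rw [map_mul, map_mul, aeval_X, aeval_X, norm_mul, norm_mul]
    refine ⟨mul_le_one₀ a1 (norm_nonneg _) (hx i), mul_le_one₀ a2 (norm_nonneg _) (hy i), ?_⟩
    have h1 : aeval x P * x i - aeval y P * y i =
        (aeval x P - aeval y P) * x i + aeval y P * (x i - y i) := by ring
    rw [h1]
    refine lt_of_le_of_lt (Padic.nonarchimedean _ _) (max_lt ?_ ?_)
    · rw [norm_mul]
      calc _ ≤ ‖aeval x P - aeval y P‖ * 1 := by gcongr; exact hx i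
        _ < 1 := by rw [mul_one]; exact a3
    · rw [norm_mul]
      calc _ ≤ 1 * ‖x i - y i‖ := by gcongr
        _ < 1 := by rw [one_mul]; exact hxy i

end Cong

section Rational

variable {r : ℕ} {n d : Fin r → ℕ} {N : ℕ} (ε : (Σ i : Fin r, Fin (n i)) ≃ Fin N)

theorem good_point {f : MvPolynomial (Var n) ℤ} (hf : ∀ s ∈ f.support, ∀ i : Fin r,
    ∑ j : Fin (n i + 1), s ⟨i, j⟩ = d i)
    {p : ℕ} [hp : Fact p.Prime] {a : Fin N → ℤ} {l : Fin N}
    (h1 : (p : ℤ) ∣ eval a (af ε d f ℤ)) (h2 : ¬ (p : ℤ) ∣ eval a (pderiv l (af ε d f ℤ))) :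
    ∃ zq : Fin N → ℚ_[p], (∀ i, ‖zq i‖ ≤ 1) ∧ (∀ i, ‖zq i - (a i : ℚ_[p])‖ < 1) ∧
      aeval (hat ε zq) f = 0 := by
  classical
  obtain ⟨z, hz0, hz1⟩ := exists_padic (p := p) _ a l h1 h2
  refine ⟨fun i => ((z i : ℤ_[p]) : ℚ_[p]), fun i => PadicInt.norm_le_one (z i), fun i => ?_, ?_⟩
  · have h4 : ((z i : ℤ_[p]) : ℚ_[p]) - (a i : ℚ_[p]) =
        ((z i - (a i : ℤ_[p]) : ℤ_[p]) : ℚ_[p]) := by
      push_cast
      rfl
    rw [h4]
    exact hz1 i
  · rw [aeval_hat ε hf (L := ℤ)]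
    have h4 : aeval (fun i => ((z i : ℤ_[p]) : ℚ_[p])) (af ε d f ℤ) =
        ((aeval z (af ε d f ℤ) : ℤ_[p]) : ℚ_[p]) := by
      have h5 := MvPolynomial.eval₂_comp_left (algebraMap ℤ_[p] ℚ_[p]) (algebraMap ℤ ℤ_[p]) z
        (af ε d f ℤ)
      rw [aeval_def, aeval_def]
      have h6 : (algebraMap ℤ_[p] ℚ_[p]).comp (algebraMap ℤ ℤ_[p]) = algebraMap ℤ ℚ_[p] :=
        RingHom.ext_int _ _
      rw [h6] at h5
      exact h5.symm
    rw [h4, hz0]
    rfl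

theorem hat_bl_ne {F : Type} [Field F] (zq : Fin N → F) (i : Fin r) :
    bl (hat ε zq) i ≠ 0 := by
  intro h0
  have := congrFun h0 0
  change hat ε zq (⟨i, 0⟩ : Var n) = 0 at this
  rw [hat_zero] at this
  exact one_ne_zero this

theorem rat_point {f : MvPolynomial (Var n) ℤ} (hf : ∀ s ∈ f.support, ∀ i : Fin r,
    ∑ j : Fin (n i + 1), s ⟨i, j⟩ = d i) (hels : ElsB f) {m : ℕ} (hwa : WeakApproxM m f)
    {p : ℕ} [hp : Fact p.Prime] (hpm : p ≤ m) {a : Fin N → ℤ} {l : Fin N}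
    (h1 : (p : ℤ) ∣ eval a (af ε d f ℤ)) (h2 : ¬ (p : ℤ) ∣ eval a (pderiv l (af ε d f ℤ)))
    {g : MvPolynomial (Fin N) ℤ} (h3 : ¬ (p : ℤ) ∣ eval a g) :
    ∃ x : Fin N → ℚ, aeval x (af ε d f ℚ) = 0 ∧ aeval x g ≠ 0 := by
  classical
  have hm2 : 2 ≤ m := hp.out.two_le.trans hpm
  -- the adelic point
  obtain ⟨⟨y, hy1, hy2⟩, hpad⟩ := hels
  have hall : ∀ (q : ℕ) [Fact q.Prime], ∃ w : Var n → ℚ_[q],
      ((∀ i : Fin r, bl w i ≠ 0) ∧ aeval w f = 0) ∧ (q = p → ∃ zq : Fin N → ℚ_[q],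
        w = hat ε zq ∧ (∀ i, ‖zq i‖ ≤ 1) ∧ ∀ i, ‖zq i - (a i : ℚ_[q])‖ < 1) := by
    intro q hq
    by_cases h : q = p
    · subst h
      obtain ⟨zq, hz1, hz2, hz3⟩ := good_point (p := q) ε hf h1 h2
      exact ⟨hat ε zq, ⟨hat_bl_ne ε zq, hz3⟩, fun _ => ⟨zq, rfl, hz1, hz2⟩⟩
    · obtain ⟨w, hw1, hw2⟩ := hpad q
      exact ⟨w, ⟨hw1, hw2⟩, fun h' => absurd h' h⟩
  choose w hw1 hw2 using hall
  obtain ⟨x, hx1, hx2, hx3, -⟩ := hwa w y (fun q _ => hw1 q) hy1 hy2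
  obtain ⟨zq, hwp, hzq1, hzqa⟩ := hw2 p rfl
  have hx3' := fun i => hx3 p hpm i
  rw [hwp] at hx3'
  choose c hc0 hc using hx3'
  have hnbl : ∀ i : Fin r, ‖bl (hat ε zq) i‖ ≤ 1 := by
    intro i
    rw [pi_norm_le_iff_of_nonneg zero_le_one]
    intro j
    refine Fin.cases ?_ (fun j => ?_) j
    · change ‖hat ε zq (⟨i, 0⟩ : Var n)‖ ≤ 1
      rw [hat_zero, norm_one]
    · change ‖hat ε zq (⟨i, j.succ⟩ : Var n)‖ ≤ 1
      rw [hat_succ]
      exact hzq1 _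
  have hlt : ∀ i : Fin r, ‖bl (hat ε zq) i‖ / (m : ℝ) < 1 := by
    intro i
    have hm0 : (0 : ℝ) < m := by exact_mod_cast (by omega : 0 < m)
    rw [div_lt_one hm0]
    refine lt_of_le_of_lt (hnbl i) ?_
    exact_mod_cast (by omega : 1 < m)
  have hc' : ∀ i j, ‖hat ε zq (⟨i, j⟩ : Var n) - c i * (x ⟨i, j⟩ : ℚ_[p])‖ < 1 :=
    fun i j => lt_of_le_of_lt (hc i j) (hlt i)
  -- the coordinates with the index zero
  have hx0n : ∀ i, ‖c i * (x ⟨i, 0⟩ : ℚ_[p])‖ = 1 := by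
    intro i
    have h4 := hc' i 0
    rw [hat_zero] at h4
    by_contra h5
    have h6 : ‖(1 : ℚ_[p])‖ ≠ ‖c i * (x ⟨i, 0⟩ : ℚ_[p])‖ := by
      rw [norm_one]
      exact Ne.symm h5
    have h7 := Padic.add_eq_max_of_ne (q := (1 : ℚ_[p])) (r := -(c i * (x ⟨i, 0⟩ : ℚ_[p])))
      (by rw [norm_neg]; exact h6)
    rw [← sub_eq_add_neg, norm_one] at h7
    rw [h7] at h4
    exact absurd (le_max_left _ _) (not_le.mpr h4)
  have hx0 : ∀ i, x ⟨i, 0⟩ ≠ 0 := by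
    intro i h0
    have := hx0n i
    rw [h0, Rat.cast_zero, mul_zero, norm_zero] at this
    exact zero_ne_one this
  obtain ⟨u, hu⟩ : ∃ u : (Σ i : Fin r, Fin (n i)) → ℚ, ∀ s, u s = (x ⟨s.1, 0⟩)⁻¹ *
    x ⟨s.1, s.2.succ⟩ := ⟨_, fun _ => rfl⟩
  obtain ⟨xa, hxa⟩ : ∃ xa : Fin N → ℚ, ∀ l, xa l = u (ε.symm l) := ⟨_, fun _ => rfl⟩
  have hxaε : ∀ i j, xa (ε ⟨i, j⟩) = (x ⟨i, 0⟩)⁻¹ * x ⟨i, j.succ⟩ := by
    intro i j
    rw [hxa, ε.symm_apply_apply, hu]
  have hhat : hat ε xa = fun a : Var n => (x ⟨a.1, 0⟩)⁻¹ * x a := by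
    funext a
    obtain ⟨i, j⟩ := a
    refine Fin.cases ?_ (fun j => ?_) j
    · rw [hat_zero, inv_mul_cancel₀ (hx0 i)]
    · rw [hat_succ, hxaε]
  have hfx : aeval xa (af ε d f ℚ) = 0 := by
    rw [← aeval_hat ε hf, hhat]
    have h4 := Pool.Agent.Y362.MH.aeval_block f hf (fun i => (x ⟨i, 0⟩)⁻¹) x
    rw [hx2, mul_zero] at h4
    exact h4
  refine ⟨xa, hfx, fun h0 => h3 ?_⟩
  have hxz : ∀ l, ‖(xa l : ℚ_[p]) - zq l‖ < 1 := by
    intro l
    obtain ⟨⟨i, j⟩, rfl⟩ := ε.surjective l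
    rw [hxaε]
    have h4 := hc' i 0
    have h5 := hc' i j.succ
    rw [hat_zero] at h4
    rw [hat_succ] at h5
    have hn := hx0n i
    have hne : c i * (x ⟨i, 0⟩ : ℚ_[p]) ≠ 0 := by
      intro h
      rw [h, norm_zero] at hn
      exact zero_ne_one hn
    have hxq : (x ⟨i, 0⟩ : ℚ_[p]) ≠ 0 := right_ne_zero_of_mul hne
    have h6 : ((((x ⟨i, 0⟩)⁻¹ * x ⟨i, j.succ⟩ : ℚ)) : ℚ_[p]) - zq (ε ⟨i, j⟩) =
        (-(zq (ε ⟨i, j⟩) - c i * (x ⟨i, j.succ⟩ : ℚ_[p])) +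
          zq (ε ⟨i, j⟩) * (1 - c i * (x ⟨i, 0⟩ : ℚ_[p]))) / (c i * (x ⟨i, 0⟩ : ℚ_[p])) := by
      push_cast
      have := hc0 i
      field_simp
      ring
    rw [h6, norm_div, hn, div_one]
    refine lt_of_le_of_lt (Padic.nonarchimedean _ _) (max_lt ?_ ?_)
    · rw [norm_neg]
      exact h5
    · rw [norm_mul]
      calc _ ≤ 1 * ‖1 - c i * (x ⟨i, 0⟩ : ℚ_[p])‖ := by gcongr; exact hzq1 _
        _ < 1 := by rw [one_mul]; exact h4
  have hxa1 : ∀ l, ‖(xa l : ℚ_[p])‖ ≤ 1 := by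
    intro l
    have h4 : (xa l : ℚ_[p]) = ((xa l : ℚ_[p]) - zq l) + zq l := by ring
    rw [h4]
    exact (Padic.nonarchimedean _ _).trans (max_le (hxz l).le (hzq1 l))
  have hxaa : ∀ l, ‖(xa l : ℚ_[p]) - (a l : ℚ_[p])‖ < 1 := by
    intro l
    have h4 : (xa l : ℚ_[p]) - (a l : ℚ_[p]) = ((xa l : ℚ_[p]) - zq l) + (zq l - (a l : ℚ_[p])) := by
      ring
    rw [h4]
    exact lt_of_le_of_lt (Padic.nonarchimedean _ _) (max_lt (hxz l) (hzqa l))
  have h4 := (norm_aeval_sub g (fun l => (xa l : ℚ_[p])) (fun l => ((a l : ℤ) : ℚ_[p])) hxa1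
    (fun l => Padic.norm_int_le_one _) hxaa).2.2
  have h5 : aeval (fun l => (xa l : ℚ_[p])) g = 0 := by
    have h6 := MvPolynomial.eval₂_comp_left (algebraMap ℚ ℚ_[p]) (algebraMap ℤ ℚ) xa g
    have h7 : (algebraMap ℚ ℚ_[p]).comp (algebraMap ℤ ℚ) = algebraMap ℤ ℚ_[p] :=
      RingHom.ext_int _ _
    rw [h7] at h6
    rw [aeval_def] at h0
    rw [h0, map_zero] at h6
    rw [aeval_def]
    exact h6.symm
  have h6 : aeval (fun l => ((a l : ℤ) : ℚ_[p])) g = ((eval a g : ℤ) : ℚ_[p]) := by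
    have h := MvPolynomial.eval₂_comp_left (Int.castRingHom ℚ_[p]) (RingHom.id ℤ) a g
    rw [RingHom.comp_id] at h
    rw [aeval_def]
    exact h.symm
  rw [h5, h6, zero_sub, norm_neg] at h4
  exact Padic.norm_intCast_lt_one_iff.mp h4

end Rational

end Pool.Agent.R867.H
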