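import Pool.Agent.R867.H.Rand1
import Pool.Agent.R867.H.Unif
import Pool.Agent.R867.H.Local
import Pool.Agent.R867.H.Geo
import Pool.Agent.R867.D.Dens

/-! A good rational point gives unirationality and density over all fields. -/

set_option autoImplicit false

namespace Pool.Agent.R867.H

open MvPolynomial Pool.Agent.R867.Mov Pool.Agent.R867.D Pool.Agent.Y716.M

section Uni

variable {N : ℕ}

/-- irreducible, unirational, and with a dense set of points -/
def Uni {L : Type} [Field L] (f : MvPolynomial (Fin N) L) : Prop :=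
  Irreducible f ∧ (∃ (n : ℕ) (P : Fin N → Rt n L), ∀ G : MvPolynomial (Fin N) L,
    aeval P G = 0 ↔ f ∣ G) ∧
    ∀ G : MvPolynomial (Fin N) L, ¬ f ∣ G → ∃ e : Fin N → L, aeval e f = 0 ∧ aeval e G ≠ 0

theorem uni_of_ind {L : Type} [Field L] [CharZero L] {f : MvPolynomial (Fin N) L}
    (hirr : Irreducible f) {n : ℕ} {P : Fin N → Rt n L} {l : Fin N} (hPf : aeval P f = 0)
    (hind : AlgebraicIndependent L (fun i : {i : Fin N // i ≠ l} => P i)) : Uni f := by
  have hlf : degreeOf l f ≠ 0 := by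
    intro h0
    have h3 : ∀ m ∈ f.vars, m ≠ l := by
      rintro m hm rfl
      obtain ⟨e, he, hme⟩ := (mem_vars m).mp hm
      have h4 := monomial_le_degreeOf m he
      have h5 := Finsupp.mem_support_iff.mp hme
      omega
    obtain ⟨q, hq⟩ := exists_rename_eq_of_vars_subset_range f
      (Subtype.val : {m : Fin N // m ≠ l} → Fin N) Subtype.val_injective
      (fun m hm => ⟨⟨m, h3 m hm⟩, rfl⟩)
    rw [← hq, aeval_rename] at hPf
    have h4 : q = 0 := by
      apply hind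
      rw [map_zero]
      exact hPf
    rw [h4, map_zero] at hq
    exact hirr.ne_zero hq.symm
  obtain ⟨KE, _, _, ξE, hξE⟩ := exists_gp hirr
  have hgen : ∀ G : MvPolynomial (Fin N) L, aeval P G = 0 ↔ f ∣ G :=
    fun G => generic_iff hξE hPf hlf hirr.ne_zero hind G
  refine ⟨hirr, ⟨n, P, hgen⟩, fun G hG => ?_⟩
  obtain ⟨e, he, heG⟩ := dense_of_rt (k := L) (x := ξE) (fun Q hQ =>
    (hgen Q).mpr ((hξE.zero_iff Q).mp hQ)) (G := G) (fun h => hG ((hgen G).mp h))
  exact ⟨e, he f ((hξE.zero_iff f).mpr dvd_rfl), heG⟩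

theorem eval₂_rat {L : Type} [Field L] [CharZero L] (P : MvPolynomial (Fin N) ℤ)
    (x : Fin N → ℚ) : P.eval₂ (Int.castRingHom L) (fun i => (x i : L)) =
      ((aeval x P : ℚ) : L) := by
  have h := MvPolynomial.eval₂_comp_left (Rat.castHom L) (algebraMap ℤ ℚ) x P
  rw [aeval_def]
  have h2 : (Rat.castHom L).comp (algebraMap ℤ ℚ) = Int.castRingHom L := RingHom.ext_int _ _
  rw [h2] at h
  exact h.symm

variable {E : Finset (Fin N →₀ ℕ)}

theorem det {g : MvPolynomial (Fin N) (MvPolynomial E ℤ)} {Φ : MvPolynomial E ℤ}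
    (hg : ∀ {L : Type} [Field L] [CharZero L] (f : MvPolynomial (Fin N) L) (x : Fin N → L),
        f.support ⊆ E → aeval x f = 0 →
        g.eval₂ (eval₂Hom (Int.castRingHom L) (fun m : E => coeff (m : Fin N →₀ ℕ) f)) x ≠ 0 →
        ∃ (n : ℕ) (P : Fin N → Rt n L) (l : Fin N), aeval P f = 0 ∧
          AlgebraicIndependent L (fun i : {i : Fin N // i ≠ l} => P i))
    (hΦ : ∀ {L : Type} [Field L] [CharZero L] (f : MvPolynomial (Fin N) L), f.support ⊆ E →
      Φ.eval₂ (Int.castRingHom L) (fun m : E => coeff (m : Fin N →₀ ℕ) f) ≠ 0 → Irreducible f)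
    {c : E → ℤ} (hc : eval c Φ ≠ 0) {x : Fin N → ℚ} (hx : aeval x (gc (uR ℤ E) c) = 0)
    (hgx : aeval x (gc g c) ≠ 0) (L : Type) [Field L] [CharZero L] :
    Uni (MvPolynomial.map (Int.castRingHom L) (gc (uR ℤ E) c)) := by
  obtain ⟨F, hF⟩ : ∃ F, F = MvPolynomial.map (Int.castRingHom L) (gc (uR ℤ E) c) := ⟨_, rfl⟩
  rw [← hF]
  have hco : (fun m : E => coeff (m : Fin N →₀ ℕ) F) = fun m => ((c m : ℤ) : L) := by
    funext m
    rw [hF, coeff_map, coeff_gc_uR]
    rfl
  have hsupp : F.support ⊆ E := by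
    rw [hF]
    exact (support_map_subset _ _).trans (supp_gc_uR c)
  have hev : ∀ Q : MvPolynomial E ℤ, Q.eval₂ (Int.castRingHom L) (fun m => ((c m : ℤ) : L)) =
      ((eval c Q : ℤ) : L) := by
    intro Q
    have h := MvPolynomial.eval₂_comp_left (Int.castRingHom L) (RingHom.id ℤ) c Q
    rw [RingHom.comp_id] at h
    exact h.symm
  have hirr : Irreducible F := by
    apply hΦ F hsupp
    rw [hco, hev]
    exact_mod_cast hc
  obtain ⟨n, P, l, hP1, hP2⟩ := hg F (fun i => (x i : L)) hsupp (by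
    rw [hF, aeval_def, eval₂_map]
    have h1 := eval₂_rat (L := L) (gc (uR ℤ E) c) x
    rw [hx, Rat.cast_zero] at h1
    rw [← h1]
    congr 1) (by
    have h1 : eval₂Hom (Int.castRingHom L) (fun m : E => coeff (m : Fin N →₀ ℕ) F) =
        (Int.castRingHom L).comp (eval c) := by
      rw [hco]
      apply RingHom.ext
      intro Q
      rw [coe_eval₂Hom, hev]
      rfl
    rw [h1, ← eval₂_map]
    have h2 := eval₂_rat (L := L) (gc g c) x
    unfold gc at h2
    rw [h2]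
    have h3 : aeval x (MvPolynomial.map (eval c) g) ≠ 0 := hgx
    exact_mod_cast h3)
  exact uni_of_ind hirr hP1 hP2

end Uni

section Af

variable {r : ℕ} {n d : Fin r → ℕ} {N : ℕ} (ε : (Σ i : Fin r, Fin (n i)) ≃ Fin N)

/-- the coefficient vector -/
noncomputable def cv (d : Fin r → ℕ) (f : MvPolynomial (Var n) ℤ) (m : expo (bet ε) d) : ℤ :=
  coeff (hm ε d m) f

theorem af_eq (f : MvPolynomial (Var n) ℤ) (L : Type) [CommRing L] [Nontrivial L] :
    af ε d f L = MvPolynomial.map (Int.castRingHom L)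
      (gc (uR ℤ (expo (bet ε) d)) (cv ε d f)) := by
  ext m
  by_cases hm' : m ∈ expo (bet ε) d
  · rw [coeff_af ε f L hm', coeff_map]
    have := coeff_gc_uR (cv ε d f) ⟨m, hm'⟩
    rw [this]
    rfl
  · rw [coeff_map, notMem_support_iff.mp (fun h => hm' (af_support ε f L h)),
      notMem_support_iff.mp (fun h => hm' (supp_gc_uR _ h)), map_zero]

theorem af_eq_int (f : MvPolynomial (Var n) ℤ) :
    af ε d f ℤ = gc (uR ℤ (expo (bet ε) d)) (cv ε d f) := by
  rw [af_eq]
  have h : Int.castRingHom ℤ = RingHom.id ℤ := RingHom.ext_int _ _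
  rw [h, MvPolynomial.map_id]

theorem uni_af {g : MvPolynomial (Fin N) (MvPolynomial (expo (bet ε) d) ℤ)}
    {Φ : MvPolynomial (expo (bet ε) d) ℤ}
    (hg : ∀ {L : Type} [Field L] [CharZero L] (f : MvPolynomial (Fin N) L) (x : Fin N → L),
        f.support ⊆ expo (bet ε) d → aeval x f = 0 →
        g.eval₂ (eval₂Hom (Int.castRingHom L)
          (fun m : expo (bet ε) d => coeff (m : Fin N →₀ ℕ) f)) x ≠ 0 →
        ∃ (n : ℕ) (P : Fin N → Rt n L) (l : Fin N), aeval P f = 0 ∧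
          AlgebraicIndependent L (fun i : {i : Fin N // i ≠ l} => P i))
    (hΦ : ∀ {L : Type} [Field L] [CharZero L] (f : MvPolynomial (Fin N) L),
      f.support ⊆ expo (bet ε) d →
      Φ.eval₂ (Int.castRingHom L) (fun m : expo (bet ε) d => coeff (m : Fin N →₀ ℕ) f) ≠ 0 →
      Irreducible f)
    {f : MvPolynomial (Var n) ℤ} (hf : ∀ s ∈ f.support, ∀ i : Fin r,
      ∑ j : Fin (n i + 1), s ⟨i, j⟩ = d i) (hels : ElsB f) {M : ℕ} (hwa : WeakApproxM M f)
    (hc : eval (cv ε d f) Φ ≠ 0) {p : ℕ} (hp : p.Prime) (hpM : p ≤ M) {a : Fin N → ℤ} {l : Fin N}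
    (h1 : (p : ℤ) ∣ ∑ m : expo (bet ε) d, mval a m * cv ε d f m)
    (h2 : ¬ (p : ℤ) ∣ eval (cv ε d f) (W1 a g * W2 (expo (bet ε) d) a l))
    (L : Type) [Field L] [CharZero L] : Uni (af ε d f L) := by
  haveI : Fact p.Prime := ⟨hp⟩
  have h3 : ¬ (p : ℤ) ∣ eval (cv ε d f) (W1 a g) := fun h => h2 (by
    rw [map_mul]
    exact h.mul_right _)
  have h4 : ¬ (p : ℤ) ∣ eval (cv ε d f) (W2 (expo (bet ε) d) a l) := fun h => h2 (by
    rw [map_mul]
    exact h.mul_left _)
  obtain ⟨x, hx1, hx2⟩ := rat_point ε hf hels hwa hpM (a := a) (l := l)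
    (g := gc g (cv ε d f)) (by
      rw [af_eq_int, eval_gc_uR]
      exact h1) (by
      rw [af_eq_int, eval_gc_pd]
      exact h4) (not_dvd_gc h1 h3)
  rw [af_eq]
  refine det hg hΦ hc (x := x) ?_ hx2 L
  rw [af_eq, aeval_def, eval₂_map] at hx1
  rw [aeval_def]
  have h5 : (algebraMap ℚ ℚ).comp (Int.castRingHom ℚ) = algebraMap ℤ ℚ := RingHom.ext_int _ _
  rw [h5] at hx1
  exact hx1

end Af

end Pool.Agent.R867.H
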