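import Mathlib

/-! A sieve for integral vectors in boxes. -/

set_option autoImplicit false

namespace Pool.Agent.R867.H

open MvPolynomial Finset

section SZ

variable {D : Type} [Fintype D] [DecidableEq D] {R : Type} [CommRing R] [IsDomain R]
  [DecidableEq R]

theorem sz {P : MvPolynomial D R} (hP : P ≠ 0) (S : Finset R) (hS : S.Nonempty) :
    ((Fintype.piFinset fun _ : D => S).filter fun x => eval x P = 0).card * S.card ≤
      P.totalDegree * S.card ^ Fintype.card D := by
  classical
  let e := Fintype.equivFin D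
  have hQ : rename e P ≠ 0 := fun h => hP (rename_injective _ e.injective (h.trans (map_zero _).symm))
  have h1 := schwartz_zippel_totalDegree hQ S
  have hS0 : (0 : ℚ≥0) < S.card := by exact_mod_cast hS.card_pos
  rw [div_le_div_iff₀ (by positivity) hS0] at h1
  have h2 : (rename e P).totalDegree ≤ P.totalDegree := totalDegree_rename_le _ _
  have h3 : ((Fintype.piFinset fun _ : D => S).filter fun x => eval x P = 0).card ≤
      ((Fintype.piFinset fun _ : Fin (Fintype.card D) => S).filter
        fun x => eval x (rename e P) = 0).card := by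
    refine Finset.card_le_card_of_injOn (fun x => x ∘ e.symm) ?_ ?_
    · intro x hx
      have hx' := Finset.mem_filter.mp (Finset.mem_coe.mp hx)
      refine Finset.mem_coe.mpr (Finset.mem_filter.mpr ⟨?_, ?_⟩)
      · rw [Fintype.mem_piFinset] at hx' ⊢
        intro i
        exact hx'.1 _
      · rw [eval_rename]
        have : (x ∘ e.symm) ∘ e = x := by
          funext i
          simp
        rw [this]
        exact hx'.2
    · intro x _ y _ hxy
      funext i
      have := congrFun hxy (e i)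
      simpa using this
  have h4 : (((Fintype.piFinset fun _ : Fin (Fintype.card D) => S).filter
        fun x => eval x (rename e P) = 0).card * S.card : ℕ) ≤
      (rename e P).totalDegree * S.card ^ Fintype.card D := by exact_mod_cast h1
  calc _ ≤ _ := Nat.mul_le_mul_right _ h3
    _ ≤ _ := h4
    _ ≤ _ := Nat.mul_le_mul_right _ h2

end SZ

section CRT

variable {D : Type} [Fintype D] [DecidableEq D]

/-- representatives of the residue classes -/
noncomputable def Rep (D : Type) [Fintype D] [DecidableEq D] (M : ℕ) : Finset (D → ℤ) :=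
  Fintype.piFinset fun _ : D => Finset.Ico (0 : ℤ) M

/-- the predicate depends only on the residues -/
def Per (M : ℕ) (P : (D → ℤ) → Prop) : Prop :=
  ∀ c c' : D → ℤ, (∀ m, (M : ℤ) ∣ c m - c' m) → P c → P c'

theorem card_Rep (M : ℕ) : (Rep D M).card = M ^ Fintype.card D := by
  unfold Rep
  rw [Fintype.card_piFinset]
  simp

open Classical in
theorem crt_count (P : ℕ → (D → ℤ) → Prop) (S : Finset ℕ) (hS : ∀ p ∈ S, p.Prime)
    (hP : ∀ p ∈ S, Per p (P p)) :
    ((Rep D (∏ p ∈ S, p)).filter fun c => ∀ p ∈ S, P p c).card ≤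
      ∏ p ∈ S, ((Rep D p).filter fun c => P p c).card := by
  induction S using Finset.induction_on with
  | empty =>
    rw [Finset.prod_empty, Finset.prod_empty]
    refine (Finset.card_filter_le _ _).trans ?_
    rw [card_Rep, one_pow]
  | insert q S hq ih =>
    have ih' := ih (fun p hp => hS p (Finset.mem_insert_of_mem hp))
      (fun p hp => hP p (Finset.mem_insert_of_mem hp))
    have hqp := hS q (Finset.mem_insert_self _ _)
    obtain ⟨M, hM⟩ : ∃ M, M = ∏ p ∈ S, p := ⟨_, rfl⟩
    have hcop : Nat.Coprime q M := by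
      rw [hM, Nat.coprime_prod_right_iff]
      intro p hp
      rw [Nat.coprime_primes hqp (hS p (Finset.mem_insert_of_mem hp))]
      rintro rfl
      exact hq hp
    have hM0 : 0 < M := by
      rw [hM]
      exact Finset.prod_pos fun p hp => (hS p (Finset.mem_insert_of_mem hp)).pos
    have hq0 : 0 < q := hqp.pos
    rw [Finset.prod_insert hq, Finset.prod_insert hq, ← hM]
    rw [← hM] at ih'
    refine le_trans ?_ (Nat.mul_le_mul_left _ ih')
    rw [← Finset.card_product]
    refine Finset.card_le_card_of_injOn (fun c => (fun m => c m % (q : ℤ), fun m => c m % (M : ℤ)))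
      ?_ ?_
    · intro c hc
      have hc' := Finset.mem_filter.mp (Finset.mem_coe.mp hc)
      refine Finset.mem_coe.mpr (Finset.mem_product.mpr ⟨Finset.mem_filter.mpr ⟨?_, ?_⟩,
        Finset.mem_filter.mpr ⟨?_, ?_⟩⟩)
      · unfold Rep
        rw [Fintype.mem_piFinset]
        intro m
        rw [Finset.mem_Ico]
        exact ⟨Int.emod_nonneg _ (by exact_mod_cast hq0.ne'), Int.emod_lt_of_pos _ (by exact_mod_cast hq0)⟩
      · refine hP q (Finset.mem_insert_self _ _) c _ (fun m => ?_)
          (hc'.2 q (Finset.mem_insert_self _ _))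
        exact Int.dvd_self_sub_emod
      · unfold Rep
        rw [Fintype.mem_piFinset]
        intro m
        rw [Finset.mem_Ico]
        exact ⟨Int.emod_nonneg _ (by exact_mod_cast hM0.ne'), Int.emod_lt_of_pos _ (by exact_mod_cast hM0)⟩
      · intro p hp
        refine hP p (Finset.mem_insert_of_mem hp) c _ (fun m => ?_)
          (hc'.2 p (Finset.mem_insert_of_mem hp))
        have h1 : (p : ℤ) ∣ (M : ℤ) := by
          rw [hM]
          exact_mod_cast Finset.dvd_prod_of_mem _ hp
        exact h1.trans Int.dvd_self_sub_emod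
    · intro c hc c' hc' hcc
      have h1 := Finset.mem_filter.mp (Finset.mem_coe.mp hc)
      have h2 := Finset.mem_filter.mp (Finset.mem_coe.mp hc')
      unfold Rep at h1 h2
      rw [Fintype.mem_piFinset] at h1 h2
      funext m
      have h3 := congrFun (congrArg Prod.fst hcc) m
      have h4 := congrFun (congrArg Prod.snd hcc) m
      simp only at h3 h4
      have h5 : (q : ℤ) ∣ c m - c' m := Int.ModEq.dvd (a := c' m) (b := c m) h3.symm
      have h6 : (M : ℤ) ∣ c m - c' m := Int.ModEq.dvd (a := c' m) (b := c m) h4.symm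
      have h7 : ((q * M : ℕ) : ℤ) ∣ c m - c' m := by
        push_cast
        exact IsCoprime.mul_dvd (Nat.isCoprime_iff_coprime.mpr hcop) h5 h6
      have h8 := Finset.mem_Ico.mp (h1.1 m)
      have h9 := Finset.mem_Ico.mp (h2.1 m)
      have h10 := Int.eq_zero_of_abs_lt_dvd h7 (by rw [abs_lt]; constructor <;> linarith)
      linarith

open Classical in
theorem box_count (P : (D → ℤ) → Prop) {M : ℕ} (hM : 0 < M) (hP : Per M P) (H : ℕ) :
    (((Fintype.piFinset fun _ : D => Finset.Icc (-(H : ℤ)) H).filter P).card : ℝ) ≤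
      ((2 * H : ℝ) / M + 2) ^ Fintype.card D * (((Rep D M).filter P).card : ℝ) := by
  have hM' : (0 : ℤ) < M := by exact_mod_cast hM
  have h1 : ((Fintype.piFinset fun _ : D => Finset.Icc (-(H : ℤ)) H).filter P).card ≤
      ((Fintype.piFinset fun _ : D => Finset.Icc (-(H : ℤ) / M) ((H : ℤ) / M)) ×ˢ
        ((Rep D M).filter P)).card := by
    refine Finset.card_le_card_of_injOn (fun c => (fun m => c m / (M : ℤ), fun m => c m % (M : ℤ)))
      ?_ ?_
    · intro c hc
      have hc' := Finset.mem_filter.mp (Finset.mem_coe.mp hc)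
      rw [Fintype.mem_piFinset] at hc'
      refine Finset.mem_coe.mpr (Finset.mem_product.mpr ⟨?_, Finset.mem_filter.mpr ⟨?_, ?_⟩⟩)
      · rw [Fintype.mem_piFinset]
        intro m
        have h2 := Finset.mem_Icc.mp (hc'.1 m)
        rw [Finset.mem_Icc]
        exact ⟨Int.ediv_le_ediv hM' h2.1, Int.ediv_le_ediv hM' h2.2⟩
      · unfold Rep
        rw [Fintype.mem_piFinset]
        intro m
        rw [Finset.mem_Ico]
        exact ⟨Int.emod_nonneg _ hM'.ne', Int.emod_lt_of_pos _ hM'⟩
      · exact hP c _ (fun m => Int.dvd_self_sub_emod) hc'.2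
    · intro c _ c' _ hcc
      funext m
      have h3 := congrFun (congrArg Prod.fst hcc) m
      have h4 := congrFun (congrArg Prod.snd hcc) m
      simp only at h3 h4
      rw [← Int.emod_add_mul_ediv (c m) M, ← Int.emod_add_mul_ediv (c' m) M, h3, h4]
  rw [Finset.card_product, Fintype.card_piFinset, Finset.prod_const, Finset.card_univ] at h1
  have h2 : ((Finset.Icc (-(H : ℤ) / M) ((H : ℤ) / M)).card : ℝ) ≤ (2 * H : ℝ) / M + 2 := by
    rw [Int.card_Icc]
    have hMr : (0 : ℝ) < M := by exact_mod_cast hM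
    have h3 : (((H : ℤ) / M : ℤ) : ℝ) ≤ (H : ℝ) / M := by
      rw [le_div_iff₀ hMr]
      have := Int.ediv_mul_le (H : ℤ) hM'.ne'
      exact_mod_cast this
    have h4 : (-(H : ℝ)) / M - 1 ≤ ((-(H : ℤ) / M : ℤ) : ℝ) := by
      rw [sub_le_iff_le_add, div_le_iff₀ hMr]
      have h5 := Int.lt_ediv_add_one_mul_self (-(H : ℤ)) hM'
      have h6 : (-(H : ℤ) : ℤ) ≤ (-(H : ℤ) / M + 1) * M := h5.le
      exact_mod_cast h6
    have h5 : (((((H : ℤ) / M + 1 - -(H : ℤ) / M).toNat : ℕ) : ℤ) : ℝ) ≤ (2 * H : ℝ) / M + 2 := by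
      rw [Int.toNat_eq_max]
      push_cast
      rw [max_le_iff]
      constructor
      · have : (2 * H : ℝ) / M = (H : ℝ) / M - (-(H : ℝ)) / M := by ring
        rw [this]
        linarith
      · positivity
    exact_mod_cast h5
  have h3 : (((Fintype.piFinset fun _ : D => Finset.Icc (-(H : ℤ)) H).filter P).card : ℝ) ≤
      ((Finset.Icc (-(H : ℤ) / M) ((H : ℤ) / M)).card : ℝ) ^ Fintype.card D *
        (((Rep D M).filter P).card : ℝ) := by exact_mod_cast h1
  refine h3.trans ?_
  gcongr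

end CRT

section Good

variable {D : Type} [Fintype D] [DecidableEq D]

/-- the residue of `c` modulo `p` is not good: not both `p ∣ ℓ(c)` and `p ∤ W(c)` -/
def NG (A : D → ℤ) (W : MvPolynomial D ℤ) (p : ℕ) (c : D → ℤ) : Prop :=
  ¬ ((p : ℤ) ∣ ∑ m, A m * c m ∧ ¬ (p : ℤ) ∣ eval c W)

theorem eval_cast (W : MvPolynomial D ℤ) (p : ℕ) (c : D → ℤ) :
    ((eval c W : ℤ) : ZMod p) = W.eval₂ (Int.castRingHom (ZMod p)) (fun m => (c m : ZMod p)) := by
  have h := MvPolynomial.eval₂_comp_left (Int.castRingHom (ZMod p)) (RingHom.id ℤ) c W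
  rw [RingHom.comp_id] at h
  exact h

theorem NG_per (A : D → ℤ) (W : MvPolynomial D ℤ) (p : ℕ) : Per p (NG A W p) := by
  intro c c' h hc hc'
  apply hc
  have h1 : ∀ m, ((c m : ℤ) : ZMod p) = ((c' m : ℤ) : ZMod p) := by
    intro m
    have := h m
    rw [← ZMod.intCast_zmod_eq_zero_iff_dvd] at this
    push_cast at this
    exact sub_eq_zero.mp this
  have h2 : ((∑ m, A m * c m : ℤ) : ZMod p) = ((∑ m, A m * c' m : ℤ) : ZMod p) := by
    push_cast
    exact Finset.sum_congr rfl fun m _ => by rw [h1 m]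
  have h3 : ((eval c W : ℤ) : ZMod p) = ((eval c' W : ℤ) : ZMod p) := by
    rw [eval_cast, eval_cast]
    congr 1
    funext m
    exact h1 m
  rw [← ZMod.intCast_zmod_eq_zero_iff_dvd, ← ZMod.intCast_zmod_eq_zero_iff_dvd] at hc' ⊢
  rw [h2, h3]
  exact hc'

open Classical in
theorem good_count {A : D → ℤ} {m₀ : D} (hA : A m₀ = 1) {W : MvPolynomial D ℤ} {p : ℕ}
    [hp : Fact p.Prime] {s : D →₀ ℕ} (hs : ¬ (p : ℤ) ∣ coeff s W)
    (hind : ∀ c c' : D → ZMod p, (∀ m, m ≠ m₀ → c m = c' m) →
      W.eval₂ (Int.castRingHom (ZMod p)) c = W.eval₂ (Int.castRingHom (ZMod p)) c') :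
    (((Rep D p).filter (NG A W p)).card : ℝ) ≤
      (p : ℝ) ^ Fintype.card D * (1 - 1 / p + W.totalDegree / (p : ℝ) ^ 2) := by
  have hp0 : (0 : ℝ) < p := by exact_mod_cast hp.out.pos
  obtain ⟨Wp, hWp⟩ : ∃ Wp, Wp = MvPolynomial.map (Int.castRingHom (ZMod p)) W := ⟨_, rfl⟩
  have hWp0 : Wp ≠ 0 := by
    intro h0
    apply hs
    rw [← ZMod.intCast_zmod_eq_zero_iff_dvd]
    have h1 := congrArg (coeff s) h0
    rw [hWp, coeff_map, coeff_zero] at h1
    exact h1
  have hWe : ∀ x : D → ZMod p, eval x Wp = W.eval₂ (Int.castRingHom (ZMod p)) x := by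
    intro x
    rw [hWp, eval_map]
  have hdeg : Wp.totalDegree ≤ W.totalDegree := by
    rw [hWp]
    refine Finset.sup_mono (support_map_subset _ _)
  have hsz := sz hWp0 (Finset.univ : Finset (ZMod p)) Finset.univ_nonempty
  rw [Finset.card_univ, ZMod.card] at hsz
  have hpi : (Fintype.piFinset fun _ : D => (Finset.univ : Finset (ZMod p))) = Finset.univ := by
    ext x
    simp
  rw [hpi] at hsz
  obtain ⟨Z, hZ⟩ : ∃ Z, Z = (Finset.univ : Finset (D → ZMod p)).filter fun x => eval x Wp = 0 := ⟨_, rfl⟩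
  obtain ⟨V, hV⟩ : ∃ V, V = (Finset.univ : Finset (D → ZMod p)).filter fun x => ¬ eval x Wp = 0 := ⟨_, rfl⟩
  obtain ⟨G, hG⟩ : ∃ G, G = (Finset.univ : Finset (D → ZMod p)).filter
    fun x => ∑ m, (A m : ZMod p) * x m = 0 ∧ ¬ eval x Wp = 0 := ⟨_, rfl⟩
  rw [← hZ] at hsz
  have hZV : Z.card + V.card = p ^ Fintype.card D := by
    rw [hZ, hV, Finset.card_filter_add_card_filter_not, Finset.card_univ, Fintype.card_fun,
      ZMod.card]
  have hVG : V.card ≤ G.card * p := by
    have h1 : V.card ≤ (G ×ˢ (Finset.univ : Finset (ZMod p))).card := by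
      refine Finset.card_le_card_of_injOn (fun x => (Function.update x m₀
        (x m₀ - ∑ m, (A m : ZMod p) * x m), ∑ m, (A m : ZMod p) * x m)) ?_ ?_
      · intro x hx
        rw [Finset.mem_coe, hV, Finset.mem_filter] at hx
        refine Finset.mem_coe.mpr (Finset.mem_product.mpr ⟨?_, Finset.mem_univ _⟩)
        rw [hG, Finset.mem_filter]
        refine ⟨Finset.mem_univ _, ?_, ?_⟩
        · have h2 : ∀ m, (A m : ZMod p) * Function.update x m₀
              (x m₀ - ∑ m, (A m : ZMod p) * x m) m = (A m : ZMod p) * x m -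
              if m = m₀ then ∑ m, (A m : ZMod p) * x m else 0 := by
            intro m
            by_cases hm : m = m₀
            · subst hm
              rw [Function.update_self, if_pos rfl, hA]
              push_cast
              ring
            · rw [Function.update_of_ne hm, if_neg hm, sub_zero]
          rw [Finset.sum_congr rfl fun m _ => h2 m, Finset.sum_sub_distrib, Finset.sum_ite_eq']
          simp
        · rw [hWe, hind _ x (fun m hm => Function.update_of_ne hm _ _), ← hWe]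
          exact hx.2
      · intro x _ y _ hxy
        have h2 := congrArg Prod.fst hxy
        have h3 := congrArg Prod.snd hxy
        simp only at h2 h3
        rw [h3] at h2
        funext m
        have h4 := congrFun h2 m
        by_cases hm : m = m₀
        · subst hm
          rw [Function.update_self, Function.update_self] at h4
          exact sub_left_injective h4
        · rwa [Function.update_of_ne hm, Function.update_of_ne hm] at h4
    rwa [Finset.card_product, Finset.card_univ, ZMod.card] at h1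
  have hGR : G.card ≤ ((Rep D p).filter fun c => ¬ NG A W p c).card := by
    refine Finset.card_le_card_of_injOn (fun x => fun m => ((x m).val : ℤ)) ?_ ?_
    · intro x hx
      rw [Finset.mem_coe, hG, Finset.mem_filter] at hx
      have hcast : ∀ m, ((((x m).val : ℤ) : ℤ) : ZMod p) = x m := by
        intro m
        push_cast
        exact ZMod.natCast_zmod_val (x m)
      refine Finset.mem_coe.mpr (Finset.mem_filter.mpr ⟨?_, ?_⟩)
      · unfold Rep
        rw [Fintype.mem_piFinset]
        intro m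
        rw [Finset.mem_Ico]
        have h1 : ((x m).val : ℤ) < p := by exact_mod_cast ZMod.val_lt (x m)
        exact ⟨Int.natCast_nonneg _, h1⟩
      · unfold NG
        rw [not_not, ← ZMod.intCast_zmod_eq_zero_iff_dvd, ← ZMod.intCast_zmod_eq_zero_iff_dvd,
          eval_cast]
        have h1 : (fun m => (((x m).val : ℤ) : ZMod p)) = x := funext hcast
        rw [h1, ← hWe]
        refine ⟨?_, hx.2.2⟩
        push_cast
        rw [← hx.2.1]
        exact Finset.sum_congr rfl fun m _ => by rw [ZMod.natCast_zmod_val]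
    · intro x _ y _ hxy
      funext m
      have h1 := congrFun hxy m
      simp only at h1
      exact ZMod.val_injective p (by exact_mod_cast h1)
  have hsum : ((Rep D p).filter (NG A W p)).card + ((Rep D p).filter fun c => ¬ NG A W p c).card =
      p ^ Fintype.card D := by
    rw [Finset.card_filter_add_card_filter_not, card_Rep]
  -- real numbers
  have e1 : (Z.card : ℝ) * p ≤ W.totalDegree * (p : ℝ) ^ Fintype.card D := by
    have h1 : Z.card * p ≤ W.totalDegree * p ^ Fintype.card D :=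
      hsz.trans (Nat.mul_le_mul_right _ hdeg)
    exact_mod_cast h1
  have e2 : (Z.card : ℝ) + V.card = (p : ℝ) ^ Fintype.card D := by exact_mod_cast hZV
  have e3 : (V.card : ℝ) ≤ G.card * p := by exact_mod_cast hVG
  have e4 : (G.card : ℝ) ≤ (((Rep D p).filter fun c => ¬ NG A W p c).card : ℝ) := by
    exact_mod_cast hGR
  have e5 : (((Rep D p).filter (NG A W p)).card : ℝ) +
      (((Rep D p).filter fun c => ¬ NG A W p c).card : ℝ) = (p : ℝ) ^ Fintype.card D := by
    exact_mod_cast hsum
  have e6 : (Z.card : ℝ) ≤ W.totalDegree * (p : ℝ) ^ Fintype.card D / p := by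
    rw [le_div_iff₀ hp0]
    exact e1
  have e7 : (V.card : ℝ) / p ≤ G.card := by
    rw [div_le_iff₀ hp0]
    exact e3
  have e8 : (p : ℝ) ^ Fintype.card D * (1 - 1 / p + W.totalDegree / (p : ℝ) ^ 2) =
      (p : ℝ) ^ Fintype.card D - ((p : ℝ) ^ Fintype.card D -
        W.totalDegree * (p : ℝ) ^ Fintype.card D / p) / p := by
    field_simp
    ring
  have e9 : ((p : ℝ) ^ Fintype.card D - W.totalDegree * (p : ℝ) ^ Fintype.card D / p) / p ≤
      (V.card : ℝ) / p := by
    gcongr
    linarith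
  rw [e8]
  linarith

end Good

section Sum

theorem primes_sum (p₀ r : ℕ) : ∃ S : Finset ℕ, (∀ p ∈ S, p.Prime ∧ p₀ ≤ p) ∧
    (r : ℝ) / 2 ≤ ∑ p ∈ S, 1 / (p : ℝ) := by
  classical
  induction r with
  | zero => exact ⟨∅, by simp, by simp⟩
  | succ r ih =>
    obtain ⟨S, h1, h2⟩ := ih
    obtain ⟨k, hk⟩ : ∃ k, k = max p₀ (S.sup id + 1) := ⟨_, rfl⟩
    obtain ⟨S', hS'⟩ : ∃ S', S' = Nat.primesBelow ((4 ^ (k.primesBelow.card + 1)).succ) \
      Nat.primesBelow k := ⟨_, rfl⟩
    have h3 := one_half_le_sum_primes_ge_one_div k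
    rw [← hS'] at h3
    have hmem : ∀ p ∈ S', p.Prime ∧ k ≤ p := by
      intro p hp
      rw [hS', Finset.mem_sdiff] at hp
      have hpp := Nat.prime_of_mem_primesBelow hp.1
      refine ⟨hpp, ?_⟩
      by_contra hcon
      push Not at hcon
      exact hp.2 (Nat.mem_primesBelow.mpr ⟨hcon, hpp⟩)
    have hdisj : Disjoint S S' := by
      rw [Finset.disjoint_left]
      intro p hp hp'
      have h4 := (hmem p hp').2
      have h5 : p ≤ S.sup id := Finset.le_sup (f := id) hp
      have h6 : S.sup id + 1 ≤ k := by rw [hk]; exact le_max_right _ _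
      omega
    refine ⟨S ∪ S', ?_, ?_⟩
    · intro p hp
      rw [Finset.mem_union] at hp
      rcases hp with hp | hp
      · exact h1 p hp
      · refine ⟨(hmem p hp).1, le_trans ?_ (hmem p hp).2⟩
        rw [hk]
        exact le_max_left _ _
    · rw [Finset.sum_union hdisj]
      push_cast
      have h4 : (1 : ℝ) / 2 ≤ ∑ p ∈ S', 1 / (p : ℝ) := by exact_mod_cast h3
      linarith

open Classical in
/-- **Sieve.** -/
theorem sieve {D : Type} [Fintype D] [DecidableEq D] {A : D → ℤ} {m₀ : D} (hA : A m₀ = 1)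
    {W : MvPolynomial D ℤ} (hW : W ≠ 0)
    (hind : ∀ (p : ℕ) (c c' : D → ZMod p), (∀ m, m ≠ m₀ → c m = c' m) →
      W.eval₂ (Int.castRingHom (ZMod p)) c = W.eval₂ (Int.castRingHom (ZMod p)) c')
    {ε : ℝ} (hε : 0 < ε) : ∃ M₀ H₀ : ℕ, ∀ H : ℕ, H₀ ≤ H →
      (((Fintype.piFinset fun _ : D => Finset.Icc (-(H : ℤ)) H).filter
        fun c => ∀ p : ℕ, p.Prime → p ≤ M₀ → NG A W p c).card : ℝ) ≤
        ε * (2 * (H : ℝ) + 1) ^ Fintype.card D := by
  obtain ⟨s, hs⟩ := exists_coeff_ne_zero hW
  obtain ⟨p₀, hp₀⟩ : ∃ p₀, p₀ = max ((coeff s W).natAbs + 1) (2 * W.totalDegree + 1) := ⟨_, rfl⟩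
  obtain ⟨r, hr⟩ : ∃ r : ℕ, Real.exp (-(r : ℝ) / 4) ≤ ε / 2 := by
    have h1 := (Real.tendsto_exp_neg_atTop_nhds_zero.comp
      (tendsto_natCast_atTop_atTop (R := ℝ) |>.atTop_div_const (by norm_num : (0 : ℝ) < 4)))
    have h2 := (h1.eventually (ge_mem_nhds (by positivity : (0 : ℝ) < ε / 2))).exists
    obtain ⟨r, hr⟩ := h2
    refine ⟨r, ?_⟩
    rw [Function.comp_apply] at hr
    rw [neg_div]
    exact hr
  obtain ⟨S, hS, hSr⟩ := primes_sum p₀ r
  obtain ⟨M, hM⟩ : ∃ M, M = ∏ p ∈ S, p := ⟨_, rfl⟩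
  have hM0 : 0 < M := by
    rw [hM]
    exact Finset.prod_pos fun p hp => (hS p hp).1.pos
  have hMr : (0 : ℝ) < M := by exact_mod_cast hM0
  have hprod : ((∏ p ∈ S, ((Rep D p).filter fun c => NG A W p c).card : ℕ) : ℝ) ≤
      (M : ℝ) ^ Fintype.card D * (ε / 2) := by
    have h1 : ∀ p ∈ S, (((Rep D p).filter fun c => NG A W p c).card : ℝ) ≤
        (p : ℝ) ^ Fintype.card D * Real.exp (-(1 / (p : ℝ)) / 2) := by
      intro p hp
      have hpp := (hS p hp).1
      haveI : Fact p.Prime := ⟨hpp⟩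
      have hp1 : (0 : ℝ) < p := by exact_mod_cast hpp.pos
      have h2 := good_count (D := D) hA (W := W) (p := p) (s := s) (by
        intro hdvd
        have h3 := Int.natAbs_dvd_natAbs.mpr hdvd
        rw [Int.natAbs_natCast] at h3
        have h4 := Nat.le_of_dvd (Int.natAbs_pos.mpr hs) h3
        have h5 := (hS p hp).2
        rw [hp₀] at h5
        have h6 := (le_max_left _ _).trans h5
        omega) (hind p)
      refine h2.trans ?_
      gcongr
      have h3 : (2 * W.totalDegree : ℝ) ≤ p := by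
        have h5 := (hS p hp).2
        rw [hp₀] at h5
        have h6 := (le_max_right _ _).trans h5
        have h7 : 2 * W.totalDegree ≤ p := by omega
        exact_mod_cast h7
      have h4 : (W.totalDegree : ℝ) / (p : ℝ) ^ 2 ≤ 1 / (2 * p) := by
        rw [div_le_div_iff₀ (by positivity) (by positivity)]
        nlinarith
      have h5 := Real.add_one_le_exp (-(1 / (p : ℝ)) / 2)
      have h6 : (1 : ℝ) / (2 * p) = (1 / p) / 2 := by
        field_simp
      rw [h6] at h4
      linarith
    push_cast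
    calc _ ≤ ∏ p ∈ S, ((p : ℝ) ^ Fintype.card D * Real.exp (-(1 / (p : ℝ)) / 2)) :=
          Finset.prod_le_prod (fun _ _ => Nat.cast_nonneg _) h1
      _ = (M : ℝ) ^ Fintype.card D * Real.exp (∑ p ∈ S, -(1 / (p : ℝ)) / 2) := by
          rw [Finset.prod_mul_distrib, Finset.prod_pow, Real.exp_sum, hM]
          push_cast
          rfl
      _ ≤ (M : ℝ) ^ Fintype.card D * (ε / 2) := by
          gcongr
          refine le_trans (Real.exp_le_exp.mpr ?_) hr
          rw [← Finset.sum_div, Finset.sum_neg_distrib]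
          linarith
  refine ⟨M, 4 * (Fintype.card D + 1) * M, fun H hH => ?_⟩
  have hsub : ((Fintype.piFinset fun _ : D => Finset.Icc (-(H : ℤ)) H).filter
      fun c => ∀ p : ℕ, p.Prime → p ≤ M → NG A W p c) ⊆
      ((Fintype.piFinset fun _ : D => Finset.Icc (-(H : ℤ)) H).filter
        fun c => ∀ p ∈ S, NG A W p c) := by
    intro c hc
    rw [Finset.mem_filter] at hc ⊢
    refine ⟨hc.1, fun p hp => hc.2 p (hS p hp).1 ?_⟩
    rw [hM]
    exact Nat.le_of_dvd (hM ▸ hM0) (Finset.dvd_prod_of_mem _ hp)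
  have hper : Per M (fun c : D → ℤ => ∀ p ∈ S, NG A W p c) := by
    intro c c' h hc p hp
    refine NG_per A W p c c' (fun m => ?_) (hc p hp)
    refine dvd_trans ?_ (h m)
    rw [hM]
    exact_mod_cast Finset.dvd_prod_of_mem _ hp
  have h1 := box_count (fun c : D → ℤ => ∀ p ∈ S, NG A W p c) hM0 hper H
  have h2 : (((Rep D M).filter fun c => ∀ p ∈ S, NG A W p c).card : ℝ) ≤
      (M : ℝ) ^ Fintype.card D * (ε / 2) := by
    refine le_trans ?_ hprod
    have h3 := crt_count (D := D) (fun p => NG A W p) S (fun p hp => (hS p hp).1)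
      (fun p _ => NG_per A W p)
    rw [← hM] at h3
    exact_mod_cast h3
  have h3 : ((2 * H : ℝ) / M + 2) ^ Fintype.card D * (M : ℝ) ^ Fintype.card D ≤
      2 * (2 * (H : ℝ) + 1) ^ Fintype.card D := by
    rw [← mul_pow]
    have h4 : ((2 * H : ℝ) / M + 2) * M = (2 * H + 1) * (1 + (2 * M - 1) / (2 * H + 1)) := by
      have : (2 * (H : ℝ) + 1) ≠ 0 := by positivity
      field_simp
      ring
    have h5 : (1 : ℝ) + (2 * M - 1) / (2 * H + 1) ≤ Real.exp ((2 * M - 1) / (2 * H + 1)) := by
      rw [add_comm]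
      exact Real.add_one_le_exp _
    have hM1 : (1 : ℝ) ≤ M := by exact_mod_cast hM0
    have h6 : (0 : ℝ) ≤ 1 + (2 * M - 1) / (2 * H + 1) := by
      have : (0 : ℝ) ≤ (2 * M - 1) / (2 * H + 1) := div_nonneg (by linarith) (by positivity)
      linarith
    have h7 : (Fintype.card D : ℝ) * ((2 * M - 1) / (2 * H + 1)) ≤ 1 / 2 := by
      rw [← mul_div_assoc, div_le_div_iff₀ (by positivity) (by norm_num)]
      have h8 : (4 * (Fintype.card D + 1) * M : ℝ) ≤ H := by exact_mod_cast hH
      have h9 : (0 : ℝ) ≤ Fintype.card D := Nat.cast_nonneg _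
      nlinarith
    have h10 : ((1 : ℝ) + (2 * M - 1) / (2 * H + 1)) ^ Fintype.card D ≤ 2 := by
      refine (pow_le_pow_left₀ h6 h5 _).trans ?_
      rw [← Real.exp_nat_mul]
      refine (Real.exp_le_exp.mpr (h7.trans ?_)).trans (Real.exp_log (by norm_num : (0 : ℝ) < 2)).le
      have := Real.log_two_gt_d9
      linarith
    rw [h4, mul_pow]
    have h11 := mul_le_mul_of_nonneg_left h10
      (by positivity : (0 : ℝ) ≤ (2 * (H : ℝ) + 1) ^ Fintype.card D)
    linarith
  calc _ ≤ (((Fintype.piFinset fun _ : D => Finset.Icc (-(H : ℤ)) H).filter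
        fun c => ∀ p ∈ S, NG A W p c).card : ℝ) := by exact_mod_cast Finset.card_le_card hsub
    _ ≤ ((2 * H : ℝ) / M + 2) ^ Fintype.card D *
          (((Rep D M).filter fun c => ∀ p ∈ S, NG A W p c).card : ℝ) := by convert h1
    _ ≤ ((2 * H : ℝ) / M + 2) ^ Fintype.card D * ((M : ℝ) ^ Fintype.card D * (ε / 2)) := by
        gcongr
    _ = (((2 * H : ℝ) / M + 2) ^ Fintype.card D * (M : ℝ) ^ Fintype.card D) * (ε / 2) := by ring
    _ ≤ (2 * (2 * (H : ℝ) + 1) ^ Fintype.card D) * (ε / 2) := by gcongr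
    _ = _ := by ring

open Classical in
/-- zeros of a polynomial in boxes -/
theorem box_zeros {D : Type} [Fintype D] [DecidableEq D] {Φ : MvPolynomial D ℤ} (hΦ : Φ ≠ 0)
    {ε : ℝ} (hε : 0 < ε) : ∃ H₀ : ℕ, ∀ H : ℕ, H₀ ≤ H →
      (((Fintype.piFinset fun _ : D => Finset.Icc (-(H : ℤ)) H).filter
        fun c => eval c Φ = 0).card : ℝ) ≤ ε * (2 * (H : ℝ) + 1) ^ Fintype.card D := by
  obtain ⟨H₀, hH₀⟩ := exists_nat_gt ((Φ.totalDegree : ℝ) / ε)
  refine ⟨H₀, fun H hH => ?_⟩
  have hcard : (Finset.Icc (-(H : ℤ)) H).card = 2 * H + 1 := by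
    rw [Int.card_Icc]
    omega
  have h1 := sz hΦ (Finset.Icc (-(H : ℤ)) H) ⟨0, by simp⟩
  rw [hcard] at h1
  have h2 : ((((Fintype.piFinset fun _ : D => Finset.Icc (-(H : ℤ)) H).filter
        fun c => eval c Φ = 0).card : ℝ)) * (2 * H + 1) ≤
      Φ.totalDegree * (2 * (H : ℝ) + 1) ^ Fintype.card D := by exact_mod_cast h1
  have h3 : (Φ.totalDegree : ℝ) ≤ ε * (2 * H + 1) := by
    rw [div_lt_iff₀ hε] at hH₀
    have h4 : (H₀ : ℝ) ≤ H := by exact_mod_cast hH
    nlinarith
  have h4 : (0 : ℝ) < 2 * H + 1 := by positivity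
  have h5 : ((((Fintype.piFinset fun _ : D => Finset.Icc (-(H : ℤ)) H).filter
        fun c => eval c Φ = 0).card : ℝ)) * (2 * H + 1) ≤
      (ε * (2 * (H : ℝ) + 1) ^ Fintype.card D) * (2 * H + 1) := by
    refine h2.trans ?_
    calc _ ≤ (ε * (2 * H + 1)) * (2 * (H : ℝ) + 1) ^ Fintype.card D := by gcongr
      _ = _ := by ring
  exact le_of_mul_le_mul_right h5 h4

end Sum

end Pool.Agent.R867.H
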