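import Pool.Agent.R867.H.Rand2
import Pool.Agent.R867.H.Sieve
import Pool.Agent.Y716.M.WAMain

/-! Unirationality of almost all everywhere locally soluble hypersurfaces. -/

set_option autoImplicit false

namespace Pool.Agent.R867.H

open MvPolynomial Pool.Agent.R867.Mov Pool.Agent.R867.D Pool.Agent.Y716.M

section Count

variable {r : ℕ} {n d : Fin r → ℕ} {N : ℕ} (ε : (Σ i : Fin r, Fin (n i)) ≃ Fin N)

theorem cv_inj {f f' : MvPolynomial (Var n) ℤ} (hf : ∀ s ∈ f.support, ∀ i : Fin r,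
      ∑ j : Fin (n i + 1), s ⟨i, j⟩ = d i) (hf' : ∀ s ∈ f'.support, ∀ i : Fin r,
      ∑ j : Fin (n i + 1), s ⟨i, j⟩ = d i) (h : cv ε d f = cv ε d f') : f = f' := by
  ext s
  by_cases hs : s ∈ monsM n d
  · have h1 := congrFun h ⟨dm ε s, dm_mem ε hs⟩
    unfold cv at h1
    rwa [hm_dm ε hs] at h1
  · rw [notMem_support_iff.mp (fun h => hs (mem_monsM.mpr (hf s h))),
      notMem_support_iff.mp (fun h => hs (mem_monsM.mpr (hf' s h)))]

open Classical in
theorem box_le (P : (expo (bet ε) d → ℤ) → Prop) (H : ℕ) :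
    ((formsM n d (H : ℝ)).filter (fun f => P (cv ε d f))).card ≤
      ((Fintype.piFinset fun _ : expo (bet ε) d => Finset.Icc (-(H : ℤ)) H).filter P).card := by
  refine Finset.card_le_card_of_injOn (cv ε d) ?_ ?_
  · intro f hf
    have hf' := Finset.mem_filter.mp (Finset.mem_coe.mp hf)
    have h1 := Pool.Agent.Y77.M9.isM_iff_int.mp (mem_formsM.mp hf'.1)
    refine Finset.mem_coe.mpr (Finset.mem_filter.mpr ⟨?_, hf'.2⟩)
    rw [Fintype.mem_piFinset]
    intro m
    rw [Finset.mem_Icc]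
    exact abs_le.mp (h1.2 _)
  · intro f hf f' hf' h
    have h1 := (mem_formsM.mp (Finset.mem_filter.mp (Finset.mem_coe.mp hf)).1).1
    have h2 := (mem_formsM.mp (Finset.mem_filter.mp (Finset.mem_coe.mp hf')).1).1
    exact cv_inj ε h1 h2 h

theorem card_monsM_eq : (monsM n d).card = Fintype.card (expo (bet ε) d) := by
  rw [Fintype.card_coe]
  exact Finset.card_bij' (fun s _ => dm ε s) (fun m _ => hm ε d m) (fun s hs => dm_mem ε hs)
    (fun m hm' => hm_mem ε hm') (fun s hs => hm_dm ε hs) (fun m _ => dm_hm ε m)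

theorem card_forms_eq (H : ℕ) : ((formsM n d (H : ℝ)).card : ℝ) =
    (2 * (H : ℝ) + 1) ^ Fintype.card (expo (bet ε) d) := by
  rw [card_formsM d (Nat.cast_nonneg H), card_monsM_eq ε, Nat.floor_natCast]
  push_cast
  rfl

open Classical in
theorem rand_main (hr : 2 ≤ r) (hn : ∀ i, 1 ≤ n i) (hd : ∀ i, 2 ≤ d i) (hd3 : ∀ i, d i ≤ 3)
    (hle : ∀ i, d i ≤ n i + 1) (hrc : ∃ i, d i ≤ n i) {δ : ℝ} (hδ : 0 < δ) :
    ∃ H₀ : ℕ, ∀ H : ℕ, H₀ ≤ H →
      (((formsM n d (H : ℝ)).filter (fun f => ElsB f ∧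
        ¬ ∀ (L : Type) [Field L] [CharZero L], Uni (af ε d f L))).card : ℝ) ≤
        δ * (formsM n d (H : ℝ)).card := by
  obtain ⟨b, hb⟩ := hrc
  have hcl : ClassStmtM n d := class_theoremM n d b hr hd hn ((hd b).trans hb) hb
  have hexc := Pool.Agent.Y448.M11.exc_target n d (by omega) hd hcl
  -- numbers
  have hN : 2 ≤ N := by
    have h1 : Fintype.card (Σ i : Fin r, Fin (n i)) = N := by
      rw [Fintype.card_congr ε, Fintype.card_fin]
    rw [Fintype.card_sigma] at h1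
    simp only [Fintype.card_fin] at h1
    have h2 : ∑ i : Fin r, 1 ≤ ∑ i, n i := Finset.sum_le_sum fun i _ => hn i
    simp at h2
    omega
  have hβ : Function.Surjective (bet ε) := fun i => ⟨ε ⟨i, ⟨0, hn i⟩⟩, bet_apply ε _⟩
  obtain ⟨g, hg0, hg⟩ := unif (N := N) (β := bet ε) (d := d) hN hβ
    (fun i => by have := hd i; omega) hd3 (fun i => by rw [card_bet]; exact hle i)
    ⟨b, by rw [card_bet]; exact hb⟩
  obtain ⟨Φq, hΦq0, hΦq⟩ := gen_irr.{0} (N := N) (β := bet ε) (d := d) hN hβ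
    (fun i => by have := hd i; omega)
  obtain ⟨s, Φ, hs, hsΦ⟩ := clear_int Φq
  have hs' : (s : ℚ) ≠ 0 := by exact_mod_cast hs
  have hΦ0 : Φ ≠ 0 := by
    rintro rfl
    rw [map_zero] at hsΦ
    rcases mul_eq_zero.mp hsΦ with h | h
    · exact hs' (C_injective _ _ (h.trans C_0.symm))
    · exact hΦq0 h
  have hΦ : ∀ {L : Type} [Field L] [CharZero L] (f : MvPolynomial (Fin N) L),
      f.support ⊆ expo (bet ε) d →
      Φ.eval₂ (Int.castRingHom L) (fun m : expo (bet ε) d => coeff (m : Fin N →₀ ℕ) f) ≠ 0 →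
      Irreducible f := by
    intro L _ _ f hf hne
    apply hΦq f hf
    intro h0
    apply hne
    have h1 : sp (expo (bet ε) d) f (C (s : ℚ) * Φq) = 0 := by
      rw [map_mul, h0, mul_zero]
    rw [hsΦ] at h1
    unfold sp at h1
    change aeval (fun m : expo (bet ε) d => coeff (m : Fin N →₀ ℕ) f)
      (MvPolynomial.map (Int.castRingHom ℚ) Φ) = 0 at h1
    rw [aeval_def, eval₂_map] at h1
    have h2 : (algebraMap ℚ L).comp (Int.castRingHom ℚ) = Int.castRingHom L := RingHom.ext_int _ _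
    rwa [h2] at h1
  obtain ⟨a, ha⟩ := exists_int_pt hg0
  obtain ⟨l, hl⟩ : ∃ l : Fin N, l = ⟨0, by omega⟩ := ⟨_, rfl⟩
  have hle1 : Finsupp.single l 1 ∈ expo (bet ε) d := single_mem (by have := hd (bet ε l); omega)
  obtain ⟨W, hW⟩ : ∃ W, W = W1 a g * W2 (expo (bet ε) d) a l := ⟨_, rfl⟩
  have hW0 : W ≠ 0 := by
    rw [hW]
    exact mul_ne_zero ha (W2_ne a hle1)
  have h0 : (0 : Fin N →₀ ℕ) ∈ expo (bet ε) d := expo_zero_mem
  obtain ⟨M₀, H₁, h1⟩ := sieve (A := fun m : expo (bet ε) d => mval a m) (m₀ := ⟨0, h0⟩)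
    (mval_zero a) hW0 (fun p c c' h => by
      rw [hW, eval₂_mul, eval₂_mul, W1_indep h0 a g c c' h, W2_indep h0 a l c c' h])
    (ε := δ / 4) (by positivity)
  obtain ⟨H₂, h2⟩ := box_zeros hΦ0 (ε := δ / 4) (by positivity)
  obtain ⟨M, hM⟩ : ∃ M, M = max M₀ 1 := ⟨_, rfl⟩
  obtain ⟨H₃, h3⟩ := Pool.Agent.Y455.WAM.wa_excM n d hexc (m := M)
    (by rw [hM]; exact le_max_right _ _) (ε := δ / 4) (by positivity)
  refine ⟨max H₁ (max H₂ ⌈H₃⌉₊), fun H hH => ?_⟩
  have hH1 : H₁ ≤ H := (le_max_left _ _).trans hH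
  have hH2 : H₂ ≤ H := ((le_max_left _ _).trans (le_max_right _ _)).trans hH
  have hH3 : H₃ ≤ (H : ℝ) := (Nat.le_ceil H₃).trans
    (by exact_mod_cast ((le_max_right _ _).trans (le_max_right _ _)).trans hH)
  have k1 := h1 H hH1
  have k2 := h2 H hH2
  have k3 := h3 H hH3
  rw [← card_forms_eq ε] at k1 k2
  have hsub : (formsM n d (H : ℝ)).filter (fun f => ElsB f ∧
        ¬ ∀ (L : Type) [Field L] [CharZero L], Uni (af ε d f L)) ⊆
      ((formsM n d (H : ℝ)).filter (fun f => ¬ WeakApproxM M f)) ∪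
      (((formsM n d (H : ℝ)).filter (fun f => eval (cv ε d f) Φ = 0)) ∪
      ((formsM n d (H : ℝ)).filter (fun f => ∀ p : ℕ, p.Prime → p ≤ M₀ →
        NG (fun m : expo (bet ε) d => mval a m) W p (cv ε d f)))) := by
    intro f hf
    rw [Finset.mem_filter] at hf
    obtain ⟨hf1, hels, hno⟩ := hf
    rw [Finset.mem_union, Finset.mem_union, Finset.mem_filter, Finset.mem_filter,
      Finset.mem_filter]
    by_contra hcon
    push Not at hcon
    obtain ⟨c1, c2, c3⟩ := hcon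
    have c1' := c1 hf1
    have c2' := c2 hf1
    obtain ⟨p, hp, hpM, hNG⟩ := c3 hf1
    unfold NG at hNG
    rw [not_not, hW] at hNG
    apply hno
    intro L _ _
    exact uni_af ε hg hΦ (mem_formsM.mp hf1).1 hels c1' c2' hp
      (hpM.trans (by rw [hM]; exact le_max_left _ _)) hNG.1 hNG.2 L
  have e1 := box_le ε (d := d) (fun c => eval c Φ = 0) H
  have e2 := box_le ε (d := d) (fun c => ∀ p : ℕ, p.Prime → p ≤ M₀ →
        NG (fun m : expo (bet ε) d => mval a m) W p c) H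
  have e1' : (((formsM n d (H : ℝ)).filter (fun f => eval (cv ε d f) Φ = 0)).card : ℝ) ≤
      δ / 4 * (formsM n d (H : ℝ)).card := by
    refine le_trans (b := (((Fintype.piFinset fun _ : expo (bet ε) d =>
      Finset.Icc (-(H : ℤ)) H).filter (fun c => eval c Φ = 0)).card : ℝ)) ?_ ?_
    · exact_mod_cast e1
    · convert k2
  have e2' : (((formsM n d (H : ℝ)).filter (fun f => ∀ p : ℕ, p.Prime → p ≤ M₀ →
        NG (fun m : expo (bet ε) d => mval a m) W p (cv ε d f))).card : ℝ) ≤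
      δ / 4 * (formsM n d (H : ℝ)).card := by
    refine le_trans (b := (((Fintype.piFinset fun _ : expo (bet ε) d =>
      Finset.Icc (-(H : ℤ)) H).filter (fun c => ∀ p : ℕ, p.Prime → p ≤ M₀ →
        NG (fun m : expo (bet ε) d => mval a m) W p c)).card : ℝ)) ?_ ?_
    · exact_mod_cast e2
    · convert k1
  have hc := (Finset.card_le_card hsub).trans ((Finset.card_union_le _ _).trans
    (Nat.add_le_add_left (Finset.card_union_le _ _) _))
  have hc' := (Nat.cast_le (α := ℝ)).mpr hc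
  push_cast at hc'
  have hpos : (0 : ℝ) ≤ (formsM n d (H : ℝ)).card := Nat.cast_nonneg _
  have k3' : (((formsM n d (H : ℝ)).filter (fun f => ¬ WeakApproxM M f)).card : ℝ) ≤
      δ / 4 * (formsM n d (H : ℝ)).card := by
    convert k3
  have := mul_nonneg hδ.le hpos
  linarith

end Count

end Pool.Agent.R867.H
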