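import Pool.Agent.R867.H.Rand3

/-! The proportion tends to one. -/

set_option autoImplicit false

namespace Pool.Agent.R867.H

open MvPolynomial Pool.Agent.Y716.M

section Tend

variable {r : ℕ} {n d : Fin r → ℕ}

open Classical in
theorem tendsto_of_bound (hr : 1 ≤ r) (hn : ∀ i, 1 ≤ n i) (hd : ∀ i, 2 ≤ d i)
    (hcl : ClassStmtM n d) (Good : MvPolynomial (Var n) ℤ → Prop)
    (h : ∀ δ : ℝ, 0 < δ → ∃ H₀ : ℕ, ∀ H : ℕ, H₀ ≤ H →
      (((formsM n d (H : ℝ)).filter (fun f => ElsB f ∧ ¬ Good f)).card : ℝ) ≤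
        δ * (formsM n d (H : ℝ)).card) :
    Filter.Tendsto (fun H : ℕ =>
      (({f : MvPolynomial (Var n) ℤ | ((∀ s ∈ f.support, ∀ i : Fin r,
          ∑ j : Fin (n i + 1), s ⟨i, j⟩ = d i) ∧ ∀ s, |f.coeff s| ≤ (H : ℤ)) ∧ ElsB f ∧
          Good f} : Set _).ncard : ℝ) /
      (({f : MvPolynomial (Var n) ℤ | ((∀ s ∈ f.support, ∀ i : Fin r,
          ∑ j : Fin (n i + 1), s ⟨i, j⟩ = d i) ∧ ∀ s, |f.coeff s| ≤ (H : ℤ)) ∧ ElsB f} :
          Set _).ncard : ℝ)) Filter.atTop (nhds 1) := by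
  obtain ⟨c, hc0, H₁, hH₁⟩ := Pool.Agent.Y77.M9.solM_positive hr hd hn hcl
  rw [Metric.tendsto_atTop]
  intro δ hδ
  obtain ⟨H₂, hH₂⟩ := h (c * (δ / 2)) (by positivity)
  refine ⟨max ⌈H₁⌉₊ H₂, fun H hH => ?_⟩
  have hH1 : H₁ ≤ (H : ℝ) := (Nat.le_ceil H₁).trans
    (by exact_mod_cast (le_max_left _ _).trans hH)
  have h6 := hH₁ H hH1
  have h7 := hH₂ H ((le_max_right _ _).trans hH)
  have hset1 : ({f : MvPolynomial (Var n) ℤ | ((∀ s ∈ f.support, ∀ i : Fin r,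
          ∑ j : Fin (n i + 1), s ⟨i, j⟩ = d i) ∧ ∀ s, |f.coeff s| ≤ (H : ℤ)) ∧ ElsB f ∧
          Good f} : Set _).ncard =
      ((formsM n d (H : ℝ)).filter (fun f => ElsB f ∧ Good f)).card := by
    rw [← Pool.Agent.Y455.WAM.ncard_eq_filter'']
    congr 1
    ext f
    simp only [Set.mem_ofPred_eq, Pool.Agent.Y77.M9.isM_iff_int]
  have hset2 : ({f : MvPolynomial (Var n) ℤ | ((∀ s ∈ f.support, ∀ i : Fin r,
          ∑ j : Fin (n i + 1), s ⟨i, j⟩ = d i) ∧ ∀ s, |f.coeff s| ≤ (H : ℤ)) ∧ ElsB f} :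
          Set _).ncard =
      ((formsM n d (H : ℝ)).filter (fun f => ElsB f)).card := by
    rw [← Pool.Agent.Y455.WAM.ncard_eq_filter'']
    congr 1
    ext f
    simp only [Set.mem_ofPred_eq, Pool.Agent.Y77.M9.isM_iff_int]
  rw [hset1, hset2]
  obtain ⟨Fo, hFo⟩ : ∃ Fo, Fo = formsM n d (H : ℝ) := ⟨_, rfl⟩
  have hmem : ∀ f ∈ Fo, IsM d (H : ℝ) f := by
    intro f hf
    rw [hFo] at hf
    exact mem_formsM.mp hf
  have hFo0 : (0:ℝ) < Fo.card := by
    rw [hFo]; exact_mod_cast card_formsM_pos (n := n) d (Nat.cast_nonneg H)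
  rw [← hFo] at h6 h7 ⊢
  obtain ⟨a, ha⟩ : ∃ a : ℝ, a = ((Fo.filter (fun f => ElsB f ∧ Good f)).card : ℝ) := ⟨_, rfl⟩
  obtain ⟨b, hb⟩ : ∃ b : ℝ, b = ((Fo.filter (fun f => ElsB f)).card : ℝ) := ⟨_, rfl⟩
  have hab' : a ≤ b := by
    rw [ha, hb]
    have : (Fo.filter (fun f => ElsB f ∧ Good f)) ⊆ (Fo.filter (fun f => ElsB f)) := by
      intro f hf
      rw [Finset.mem_filter] at hf ⊢
      exact ⟨hf.1, hf.2.1⟩
    exact_mod_cast Finset.card_le_card this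
  have hcb : c * Fo.card ≤ b := by
    refine h6.trans ?_
    rw [hb]
    have : (Fo.filter (fun f => Pool.Agent.Y77.M9.SolM f)) ⊆ (Fo.filter (fun f => ElsB f)) := by
      intro f hf
      rw [Finset.mem_filter] at hf ⊢
      exact ⟨hf.1, Pool.Agent.Y455.WAM.elsB_of_solM (hmem f hf.1) hf.2⟩
    exact_mod_cast Finset.card_le_card this
  have hba : b ≤ a + c * (δ / 2) * Fo.card := by
    have h10 : (Fo.filter (fun f => ElsB f)) ⊆
        (Fo.filter (fun f => ElsB f ∧ Good f)) ∪ (Fo.filter (fun f => ElsB f ∧ ¬ Good f)) := by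
      intro f hf
      rw [Finset.mem_filter] at hf
      rw [Finset.mem_union, Finset.mem_filter, Finset.mem_filter]
      by_cases hw : Good f
      · left; exact ⟨hf.1, hf.2, hw⟩
      · right; exact ⟨hf.1, hf.2, hw⟩
    have h11 := (Finset.card_le_card h10).trans (Finset.card_union_le _ _)
    have h12 : b ≤ a + ((Fo.filter (fun f => ElsB f ∧ ¬ Good f)).card : ℝ) := by
      rw [ha, hb]; exact_mod_cast h11
    linarith
  have hb0 : 0 < b := lt_of_lt_of_le (by positivity) hcb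
  rw [← ha, ← hb, Real.dist_eq]
  have h13 : a / b - 1 = -((b - a) / b) := by field_simp; ring
  rw [h13, abs_neg, abs_of_nonneg (div_nonneg (by linarith) hb0.le), div_lt_iff₀ hb0]
  have h14 : c * (δ / 2) * Fo.card ≤ (δ / 2) * b := by
    have := mul_le_mul_of_nonneg_left hcb (by positivity : 0 ≤ δ / 2)
    refine le_trans (le_of_eq ?_) this
    ring
  have h15 : 0 < δ * b := by positivity
  linarith

end Tend

end Pool.Agent.R867.H
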