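import Pool.Agent.R867.H.Rand4
import Pool.Agent.R867.H.Cone2

/-! Unirationality of almost all everywhere locally soluble hypersurfaces, homogeneous form. -/

set_option autoImplicit false

namespace Pool.Agent.R867.H

open MvPolynomial Pool.Agent.R867.Mov Pool.Agent.R867.D Pool.Agent.Y716.M

section Fin5

variable {r : ℕ} {n d : Fin r → ℕ} {N : ℕ} (ε : (Σ i : Fin r, Fin (n i)) ≃ Fin N)

theorem single_mem' (i : Fin r) (j : Fin (n i)) :
    Finsupp.single (ε ⟨i, j⟩) (d i) ∈ expo (bet ε) d :=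
  single_mem (by rw [bet_apply])

theorem not_dvd_of_coeff {f : MvPolynomial (Var n) ℤ} {i : Fin r} (j : Fin (n i))
    (hc : cv ε d f ⟨_, single_mem' ε i j⟩ ≠ 0) (L : Type) [Field L] [CharZero L] :
    ¬ (X ⟨i, 0⟩ : MvPolynomial (Var n) L) ∣ MvPolynomial.map (Int.castRingHom L) f := by
  classical
  rintro ⟨K, hK⟩
  apply hc
  have h1 := congrArg (coeff (hm ε d (Finsupp.single (ε ⟨i, j⟩) (d i)))) hK
  rw [coeff_map, mul_comm, coeff_mul_X', if_neg] at h1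
  · change ((coeff (hm ε d (Finsupp.single (ε ⟨i, j⟩) (d i))) f : ℤ) : L) = 0 at h1
    unfold cv
    exact_mod_cast h1
  · rw [Finsupp.notMem_support_iff, hm_zero, bd_single, if_pos (bet_apply ε ⟨i, j⟩), Nat.sub_self]

open Classical in
theorem rand_hom (hr : 2 ≤ r) (hn : ∀ i, 1 ≤ n i) (hd : ∀ i, 2 ≤ d i) (hd3 : ∀ i, d i ≤ 3)
    (hle : ∀ i, d i ≤ n i + 1) (hrc : ∃ i, d i ≤ n i) {δ : ℝ} (hδ : 0 < δ) :
    ∃ H₀ : ℕ, ∀ H : ℕ, H₀ ≤ H →
      (((formsM n d (H : ℝ)).filter (fun f => ElsB f ∧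
        ¬ ∀ (L : Type) [Field L] [CharZero L], UniH L f)).card : ℝ) ≤
        δ * (formsM n d (H : ℝ)).card := by
  obtain ⟨N, ⟨ε⟩⟩ : ∃ N, Nonempty ((Σ i : Fin r, Fin (n i)) ≃ Fin N) :=
    ⟨_, ⟨Fintype.equivFin _⟩⟩
  obtain ⟨H₁, h1⟩ := rand_main ε hr hn hd hd3 hle hrc (half_pos hδ)
  obtain ⟨Φ, hΦ⟩ : ∃ Φ : MvPolynomial (expo (bet ε) d) ℤ,
    Φ = ∏ i : Fin r, X ⟨_, single_mem' ε i ⟨0, hn i⟩⟩ := ⟨_, rfl⟩
  have hΦ0 : Φ ≠ 0 := by
    rw [hΦ]
    exact Finset.prod_ne_zero_iff.mpr fun i _ => X_ne_zero _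
  obtain ⟨H₂, h2⟩ := box_zeros hΦ0 (ε := δ / 2) (half_pos hδ)
  refine ⟨max H₁ H₂, fun H hH => ?_⟩
  have k1 := h1 H ((le_max_left _ _).trans hH)
  have k2 := h2 H ((le_max_right _ _).trans hH)
  rw [← card_forms_eq ε] at k2
  have hsub : (formsM n d (H : ℝ)).filter (fun f => ElsB f ∧
        ¬ ∀ (L : Type) [Field L] [CharZero L], UniH L f) ⊆
      ((formsM n d (H : ℝ)).filter (fun f => ElsB f ∧
        ¬ ∀ (L : Type) [Field L] [CharZero L], Uni (af ε d f L))) ∪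
      ((formsM n d (H : ℝ)).filter (fun f => eval (cv ε d f) Φ = 0)) := by
    intro f hf
    rw [Finset.mem_filter] at hf
    obtain ⟨hf1, hels, hno⟩ := hf
    rw [Finset.mem_union, Finset.mem_filter, Finset.mem_filter]
    by_contra hcon
    push Not at hcon
    obtain ⟨c1, c2⟩ := hcon
    have c1' := c1 hf1 hels
    have c2' := c2 hf1
    apply hno
    intro L _ _
    refine uniH_of_uni ε (mem_formsM.mp hf1).1 (fun i => ?_) (c1' L)
    apply not_dvd_of_coeff ε ⟨0, hn i⟩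
    intro h0
    apply c2'
    rw [hΦ, map_prod]
    apply Finset.prod_eq_zero (Finset.mem_univ i)
    rw [eval_X]
    exact h0
  have e1 := box_le ε (d := d) (fun c => eval c Φ = 0) H
  have e1' : (((formsM n d (H : ℝ)).filter (fun f => eval (cv ε d f) Φ = 0)).card : ℝ) ≤
      δ / 2 * (formsM n d (H : ℝ)).card := by
    refine le_trans (b := (((Fintype.piFinset fun _ : expo (bet ε) d =>
      Finset.Icc (-(H : ℤ)) H).filter (fun c => eval c Φ = 0)).card : ℝ)) ?_ ?_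
    · exact_mod_cast e1
    · convert k2
  have hc := (Finset.card_le_card hsub).trans (Finset.card_union_le _ _)
  have hc' := (Nat.cast_le (α := ℝ)).mpr hc
  push_cast at hc'
  linarith

/-- 100% of the everywhere locally soluble hypersurfaces are unirational -/
theorem rand_tendsto (hr : 2 ≤ r) (hn : ∀ i, 1 ≤ n i) (hd : ∀ i, 2 ≤ d i) (hd3 : ∀ i, d i ≤ 3)
    (hle : ∀ i, d i ≤ n i + 1) (hrc : ∃ i, d i ≤ n i) :
    Filter.Tendsto (fun H : ℕ =>
      (({f : MvPolynomial (Var n) ℤ | ((∀ s ∈ f.support, ∀ i : Fin r,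
          ∑ j : Fin (n i + 1), s ⟨i, j⟩ = d i) ∧ ∀ s, |f.coeff s| ≤ (H : ℤ)) ∧ ElsB f ∧
          ∀ (L : Type) [Field L] [CharZero L], UniH L f} : Set _).ncard : ℝ) /
      (({f : MvPolynomial (Var n) ℤ | ((∀ s ∈ f.support, ∀ i : Fin r,
          ∑ j : Fin (n i + 1), s ⟨i, j⟩ = d i) ∧ ∀ s, |f.coeff s| ≤ (H : ℤ)) ∧ ElsB f} :
          Set _).ncard : ℝ)) Filter.atTop (nhds 1) := by
  obtain ⟨b, hb⟩ := hrc
  exact tendsto_of_bound (by omega) hn hd (class_theoremM n d b hr hd hn ((hd b).trans hb) hb)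
    (fun f => ∀ (L : Type) [Field L] [CharZero L], UniH L f)
    (fun δ hδ => rand_hom hr hn hd hd3 hle ⟨b, hb⟩ hδ)

end Fin5

end Pool.Agent.R867.H
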