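import Pool.Agent.R867.H.Spread

/-! The rules. -/

set_option autoImplicit false

namespace Pool.Agent.R867.H

open MvPolynomial Pool.Agent.R867.Mov

universe u v w

variable {k K : Type u} [Field k] [Field K] [Algebra k K] {N : ℕ} {f : MvPolynomial (Fin N) k}
  {ξ : Fin N → K}

/-- the immovable functions are algebraic over the coordinates outside of `B` -/
def Rel (k : Type u) {K : Type u} [Field k] [Field K] [Algebra k K] {N : ℕ} (ξ : Fin N → K)
    (B : Set (Fin N)) : Prop :=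
  ∀ a : K, Imm k a → a ∈ cl k (ξ '' Bᶜ)

theorem Rel.union (hξ : GP f ξ) (hf : f ≠ 0) {i₀ : Fin N} (hi : degreeOf i₀ f ≠ 0)
    {B B' : Set (Fin N)} (h₀ : i₀ ∈ B) (h₀' : i₀ ∈ B') (h : Rel k ξ B) (h' : Rel k ξ B') :
    Rel k ξ (B ∪ B') := by
  intro a ha
  have h1 := h a ha
  have h2 := h' a ha
  have hind := indep_of hf hi (fun P => (hξ.zero_iff P).mp)
  have hinj : Function.Injective (fun l : {l : Fin N // l ≠ i₀} => ξ l) := hind.injective
  have hr : (AlgebraicIndependent.matroid k K).Indep (Set.range fun l : {l : Fin N // l ≠ i₀} => ξ l) := by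
    rw [AlgebraicIndependent.matroid_indep_iff]
    exact hind.coe_range
  have hsub : ∀ C : Set (Fin N), i₀ ∈ C → ξ '' Cᶜ ⊆ Set.range fun l : {l : Fin N // l ≠ i₀} => ξ l := by
    rintro C hC _ ⟨l, hl, rfl⟩
    exact ⟨⟨l, fun h => hl (h ▸ hC)⟩, rfl⟩
  have h3 : (AlgebraicIndependent.matroid k K).Indep (ξ '' Bᶜ ∪ ξ '' B'ᶜ) :=
    hr.subset (Set.union_subset (hsub B h₀) (hsub B' h₀'))
  have h4 := h3.closure_inter_eq_inter_closure
  rw [← cl_eq] at h1 h2
  have h5 : a ∈ (AlgebraicIndependent.matroid k K).closure (ξ '' Bᶜ ∩ ξ '' B'ᶜ) := by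
    rw [h4]
    exact ⟨h1, h2⟩
  rw [cl_eq] at h5
  refine cl_mono ?_ h5
  rintro _ ⟨⟨l, hl, rfl⟩, ⟨l', hl', hll⟩⟩
  have h6 : (⟨l', fun h => hl' (h ▸ h₀')⟩ : {l : Fin N // l ≠ i₀}) =
      ⟨l, fun h => hl (h ▸ h₀)⟩ := hinj hll
  have h7 : l' = l := congrArg Subtype.val h6
  refine ⟨l, ?_, rfl⟩
  rintro (h8 | h8)
  · exact hl h8
  · exact hl' (h7 ▸ h8)

theorem Rel.mono {B B' : Set (Fin N)} (h : Rel k ξ B) (hB : B' ⊆ B) : Rel k ξ B' := by
  intro a ha
  refine cl_mono ?_ (h a ha)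
  rintro _ ⟨l, hl, rfl⟩
  exact ⟨l, fun h => hl (hB h), rfl⟩

theorem rel_single (hξ : GP f ξ) (hf : f ≠ 0) {i : Fin N} (hi : degreeOf i f ≠ 0) :
    Rel k ξ {i} := by
  intro a _
  refine cl_mono ?_ (mem_cl_ne hξ hf hi a)
  rintro _ ⟨l, hl, rfl⟩
  exact ⟨l, hl, rfl⟩

theorem rel_conic [CharZero k] (hξ : GP f ξ) (hf : f ≠ 0) {i j : Fin N} (hij : i ≠ j)
    (hd : ∀ m ∈ f.support, m i + m j ≤ 2) (hi : degreeOf i f ≠ 0) : Rel k ξ {i, j} := by
  intro a ha
  refine cl_mono ?_ (conic_out hξ hf hij hd hi ha)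
  rintro _ ⟨l, hl, rfl⟩
  refine ⟨l, ?_, rfl⟩
  rintro (h | h)
  · exact hl.1 h
  · exact hl.2 h

theorem rel_cubic [CharZero k] (hξ : GP f ξ) (hf : f ≠ 0) {i j l : Fin N} (hij : i ≠ j)
    (hil : i ≠ l) (hjl : j ≠ l) (hd : ∀ m ∈ f.support, m i + m j + m l ≤ 3)
    (hi : degreeOf i f ≠ 0) {Ω : Type v} [Field Ω] [Algebra k Ω] {r : Fin N → Ω}
    (hr : aeval r f = 0) (hnd : aeval r (ndP i j l f) ≠ 0) : Rel k ξ {i, j, l} := by
  have h1 : aeval ξ (ndP i j l f) ≠ 0 := by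
    intro h0
    obtain ⟨g, hg⟩ := (hξ.zero_iff _).mp h0
    apply hnd
    rw [hg, map_mul, hr, zero_mul]
  intro a ha
  refine cl_mono ?_ (cubic_out hξ hf hij hil hjl hd hi h1 ha)
  rintro _ ⟨m, hm, rfl⟩
  refine ⟨m, ?_, rfl⟩
  rintro (h | h | h)
  · exact hm.1 h
  · exact hm.2.1 h
  · exact hm.2.2 h

theorem rel_line [CharZero k] (hξ : GP f ξ) (hf : f ≠ 0) {B : Set (Fin N)} {u : Fin N}
    (huB : u ∉ B) (hdu : degreeOf u f ≤ 2) {i j : Fin N} (hi : i ∈ B) (hj : j ∈ B)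
    {Ω : Type v} [Field Ω] [Algebra k Ω] {r : Fin N → Ω}
    (hr : aeval r f = 0) (hrt : aeval r (rt u i j f) ≠ 0) (h : Rel k ξ B) :
    Rel k ξ (insert u B) := by
  have h1 : aeval ξ (rt u i j f) ≠ 0 := by
    intro h0
    obtain ⟨g, hg⟩ := (hξ.zero_iff _).mp h0
    apply hrt
    rw [hg, map_mul, hr, zero_mul]
  intro a ha
  exact line_step hξ hf huB hdu hi hj h1 h ha

theorem NU_of_pt [CharZero k] {B : Set (Fin N)} {p s i j : Fin N} (hi : i ∈ B) (hj : j ∈ B)
    {Ω : Type v} [Field Ω] [Algebra k Ω] {r : Fin N → Ω} (hr : aeval r f = 0)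
    (hq : aeval r (q2 p s f) = 0) (hc : aeval r (c6 p s f) ≠ 0)
    (hJ : aeval r (pderiv i f * pderiv j (q2 p s f) - pderiv j f * pderiv i (q2 p s f)) ≠ 0) :
    NU f B p s := by
  intro G hG hB n P R heq
  refine jac hr hq hc hJ G hG (pderiv_eq_zero_of_degreeOf (hB i hi))
    (pderiv_eq_zero_of_degreeOf (hB j hj)) n ⟨R, P, ?_⟩
  rw [mul_comm, heq]
  ring

theorem rel_flex [CharZero k] (hξ : GP f ξ) (hf : f ≠ 0) {B : Set (Fin N)} {p s : Fin N}
    (hps : p ≠ s) (hpB : p ∉ B) (hsB : s ∉ B) (hd : ∀ m ∈ f.support, m p + m s ≤ 3)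
    {i₀ : Fin N} (hi₀ : i₀ ∈ B) (hdeg : degreeOf i₀ f ≠ 0) (hNU : NU f B p s)
    (h : Rel k ξ B) : Rel k ξ (insert p (insert s B)) := by
  have hc := hNU.c6_ne hξ
  have hp : degreeOf p f ≠ 0 := by
    intro h0
    apply hc
    unfold c6
    rw [pderiv_eq_zero_of_degreeOf h0]
    simp
  have hq : aeval ξ (q2 p s f) ≠ 0 := by
    intro h0
    obtain ⟨d, hdl, hdp, hds⟩ := exists_tder hξ hf hps hp
    apply hc
    rw [← d_q2' hps hdl hdp hds, h0, map_zero]
  obtain ⟨T, d, hT⟩ := exists_tmap hξ hf hps hd hq hc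
  intro a ha
  exact flex_step hT hξ hf hps hpB hsB hi₀ hdeg hNU hq h ha

/-- a variable of degree one -/
theorem rel_linear [CharZero k] (hξ : GP f ξ) (hf : f ≠ 0) {l u : Fin N} (hul : u ≠ l)
    (hd : degreeOf l f ≤ 1) (hl : degreeOf l f ≠ 0) : Rel k ξ {l, u} := by
  have hcK : CharZero K := charZero_of_injective_algebraMap (algebraMap k K).injective
  have hcR : CharZero (Rt 1 K) :=
    charZero_of_injective_algebraMap (algebraMap K (Rt 1 K)).injective
  -- the point before the correction of the coordinate `l`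
  obtain ⟨x, hx⟩ : ∃ x : Fin N → Rt 1 K, x = fun m => if m = u then
    algebraMap K (Rt 1 K) (ξ m) + tt K else algebraMap K (Rt 1 K) (ξ m) := ⟨_, rfl⟩
  have hxm : ∀ m, m ≠ u → x m = algebraMap K (Rt 1 K) (ξ m) := by
    intro m hm
    rw [hx]
    simp [hm]
  have hxu : x u ∉ Set.range (algebraMap K (Rt 1 K)) := by
    rintro ⟨y, hy⟩
    rw [hx] at hy
    simp only [if_true] at hy
    apply tt_notMem (K := K)
    exact ⟨y - ξ u, by rw [map_sub, hy]; ring⟩
  obtain ⟨v, hv⟩ : ∃ v : Fin N → Rt 1 K, v = fun m => if m = l then 1 else 0 := ⟨_, rfl⟩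
  have hvl : v l = 1 := by rw [hv]; simp
  have hv1 : ∀ m, m ≠ l → v m = 0 := by
    intro m h1
    rw [hv]
    simp [h1]
  have hvu : v u = 0 := hv1 u hul
  have hnd := lin_natDegree1 (x := x) hv1 hd
  -- independence
  have hind : ∀ y : Fin N → Rt 1 K, (∀ m, m ≠ l → y m = x m) →
      AlgebraicIndependent k (fun m : {m : Fin N // m ≠ l} => y m) := by
    intro y hy
    refine indep_of_notMem (Ne.symm hul) ?_ ?_
    · have h1 : (fun m : {m : Fin N // m ≠ l ∧ m ≠ u} => y m) =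
          algebraMap K (Rt 1 K) ∘ (fun m : {m : Fin N // m ≠ l ∧ m ≠ u} => ξ m) := by
        funext m
        change y m = _
        rw [hy m m.2.1, hxm m m.2.2]
        rfl
      rw [h1]
      have h2 := indep_of hf hl (fun P => (hξ.zero_iff P).mp)
      have h3 := h2.comp (fun m : {m : Fin N // m ≠ l ∧ m ≠ u} => (⟨m, m.2.1⟩ : {m : Fin N // m ≠ l}))
        (fun a b hab => Subtype.ext (congrArg (fun z : {m : Fin N // m ≠ l} => (z : Fin N)) hab))
      exact h3.map' (f := IsScalarTower.toAlgHom k K (Rt 1 K)) (algebraMap K (Rt 1 K)).injective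
    · intro h
      apply hxu
      rw [← hy u hul]
      apply rt_cl (k := k)
      refine cl_mono ?_ h
      rintro _ ⟨m, hm, rfl⟩
      exact ⟨ξ m, by rw [hy m hm.1, hxm m hm.2]⟩
  have hfl : aeval x (pderiv l f) ≠ 0 := by
    intro h0
    have h1 : degreeOf l (pderiv l f) = 0 := by
      have := degreeOf_pderiv l f
      omega
    have h2 : (pderiv l f) ≠ 0 := pderiv_ne_zero (Nat.one_le_iff_ne_zero.mpr hl)
    have h3 : ∀ m ∈ (pderiv l f).vars, m ≠ l := by
      rintro m hm rfl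
      obtain ⟨e, he, hme⟩ := (mem_vars m).mp hm
      have h4 := monomial_le_degreeOf m he
      have h5 := Finsupp.mem_support_iff.mp hme
      omega
    obtain ⟨q, hq⟩ := exists_rename_eq_of_vars_subset_range (pderiv l f)
      (Subtype.val : {m : Fin N // m ≠ l} → Fin N) Subtype.val_injective
      (fun m hm => ⟨⟨m, h3 m hm⟩, rfl⟩)
    rw [← hq, aeval_rename] at h0
    have h4 : q = 0 := by
      apply hind x (fun m _ => rfl)
      rw [map_zero]
      exact h0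
    rw [h4, map_zero] at hq
    exact h2 hq.symm
  obtain ⟨t, ht⟩ : ∃ t, t * aeval x (pderiv l f) = - aeval x f :=
    ⟨- aeval x f / aeval x (pderiv l f), div_mul_cancel₀ _ hfl⟩
  obtain ⟨y, hy⟩ : ∃ y : Fin N → Rt 1 K, y = fun m => x m + t * v m := ⟨_, rfl⟩
  have hyx : ∀ m, m ≠ l → y m = x m := by
    intro m hm
    rw [hy]
    change x m + t * v m = x m
    rw [hv1 m hm, mul_zero, add_zero]
  have hyf : aeval y f = 0 := by
    have h3 : Polynomial.derivative (Polynomial.derivative (lin x v f)) = 0 := by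
      have h4 : (Polynomial.derivative (lin x v f)).natDegree ≤ 0 := by
        have h6 := Polynomial.natDegree_derivative_le (lin x v f)
        omega
      exact Polynomial.derivative_of_natDegree_zero (Nat.le_zero.mp h4)
    have h1 := eval_cubic (hnd.trans (by norm_num)) t
    rw [lin_eval, lin_zero, lin_d1 (Ne.symm hul) (fun m h1 _ => hv1 m h1), h3, hvl, hvu,
      map_zero, Polynomial.eval_zero, ← hy] at h1
    have h8 : (6 : Rt 1 K) * aeval y f = 0 := by
      rw [h1]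
      linear_combination 6 * ht
    exact (mul_eq_zero.mp h8).resolve_left (by norm_num)
  obtain ⟨σ, hσ⟩ := exists_hom hξ hyf hl hf (hind y hyx)
  intro a ha
  have h1 : a ∈ cl k (ξ '' {m | m ≠ l ∧ m ≠ u}) := by
    refine step_out σ (R := con 1 K) (b := ξ u) ?_ (subset_cl _ (ha 1 σ)) ?_ ?_
    · rintro _ ⟨m, hm, rfl⟩
      rw [hσ, hyx m hm.1, hxm m hm.2]
      exact subset_cl _ ⟨ξ m, rfl⟩
    · rw [hσ, hyx u hul]
      intro h
      exact hxu (mem_con_cl h)
    · refine cl_mono ?_ (mem_cl_ne hξ hf hl a)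
      rintro _ ⟨m, hm, rfl⟩
      by_cases h : m = u
      · rw [h]; exact Set.mem_insert _ _
      · exact Set.mem_insert_of_mem _ ⟨m, ⟨hm, h⟩, rfl⟩
  refine cl_mono ?_ h1
  rintro _ ⟨m, hm, rfl⟩
  refine ⟨m, ?_, rfl⟩
  rintro (h | h)
  · exact hm.1 h
  · exact hm.2 h

/-- covering by sets of variables which contain a common variable -/
theorem rel_cover (hξ : GP f ξ) (hf : f ≠ 0) {i₀ : Fin N} (hi : degreeOf i₀ f ≠ 0)
    {B : Set (Fin N)} (h : ∀ u ∈ B, ∃ C : Set (Fin N), i₀ ∈ C ∧ u ∈ C ∧ Rel k ξ C) :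
    Rel k ξ B := by
  classical
  have key : ∀ S : Finset (Fin N), (∀ u ∈ S, u ∈ B) → ∃ C : Set (Fin N), i₀ ∈ C ∧ (S : Set (Fin N)) ⊆ C ∧
      Rel k ξ C := by
    intro S
    induction S using Finset.induction_on with
    | empty =>
      intro _
      exact ⟨{i₀}, rfl, by simp, rel_single hξ hf hi⟩
    | insert u S hu ih =>
      intro hS
      obtain ⟨C, h1, h2, h3⟩ := ih (fun v hv => hS v (Finset.mem_insert_of_mem hv))
      obtain ⟨C', h1', h2', h3'⟩ := h u (hS u (Finset.mem_insert_self _ _))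
      refine ⟨C ∪ C', Or.inl h1, ?_, Rel.union hξ hf hi h1 h1' h3 h3'⟩
      intro v hv
      rw [Finset.coe_insert] at hv
      rcases hv with rfl | hv
      · exact Or.inr h2'
      · exact Or.inl (h2 hv)
  obtain ⟨C, -, h2, h3⟩ := key (Finset.univ.filter (· ∈ B)) (fun u hu => (Finset.mem_filter.mp hu).2)
  exact h3.mono (fun u hu => h2 (by simpa using hu))

end Pool.Agent.R867.H
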