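import Pool.Agent.R867.H.Tan

/-! A subring of the function field in which the flex polynomial is not a unit. -/

set_option autoImplicit false

namespace Pool.Agent.R867.H

open MvPolynomial Pool.Agent.R867.Mov Pool.Agent.R867.J

universe u v w

variable {k K : Type u} [Field k] [Field K] [Algebra k K] {N : ℕ}

/-- polynomials which do not involve the variables in `B` -/
def Free (B : Set (Fin N)) (G : MvPolynomial (Fin N) k) : Prop := ∀ l ∈ B, degreeOf l G = 0

theorem Free.mul {B : Set (Fin N)} {G H : MvPolynomial (Fin N) k} (hG : Free B G)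
    (hH : Free B H) : Free B (G * H) := by
  intro l hl
  have h1 := degreeOf_mul_le l G H
  rw [hG l hl, hH l hl] at h1
  omega

theorem Free.one (B : Set (Fin N)) : Free B (1 : MvPolynomial (Fin N) k) := by
  intro l _
  rw [degreeOf_one]

/-- the fractions with denominators which do not involve `B`, up to powers of `c` -/
def Rng (ξ : Fin N → K) (B : Set (Fin N)) (c : MvPolynomial (Fin N) k) : Subalgebra k K where
  carrier := {z | ∃ (P G : MvPolynomial (Fin N) k) (n : ℕ), G ≠ 0 ∧ Free B G ∧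
    z * aeval ξ G * aeval ξ c ^ n = aeval ξ P}
  mul_mem' := by
    rintro y z ⟨P, G, n, hG, hB, h⟩ ⟨P', G', n', hG', hB', h'⟩
    refine ⟨P * P', G * G', n + n', mul_ne_zero hG hG', hB.mul hB', ?_⟩
    rw [map_mul, map_mul, ← h, ← h']
    ring
  add_mem' := by
    rintro y z ⟨P, G, n, hG, hB, h⟩ ⟨P', G', n', hG', hB', h'⟩
    refine ⟨P * G' * c ^ n' + P' * G * c ^ n, G * G', n + n', mul_ne_zero hG hG', hB.mul hB', ?_⟩
    simp only [map_add, map_mul, map_pow]
    rw [← h, ← h']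
    ring
  algebraMap_mem' := by
    intro r
    refine ⟨C r, 1, 0, one_ne_zero, Free.one B, ?_⟩
    rw [map_one, pow_zero, mul_one, mul_one, aeval_C]

variable {f : MvPolynomial (Fin N) k} {ξ : Fin N → K} {B : Set (Fin N)}
  {c : MvPolynomial (Fin N) k}

theorem aeval_mem_Rng (P : MvPolynomial (Fin N) k) : aeval ξ P ∈ Rng ξ B c :=
  ⟨P, 1, 0, one_ne_zero, Free.one B, by rw [map_one, pow_zero, mul_one, mul_one]⟩

theorem inv_mem_Rng (hc : aeval ξ c ≠ 0) : (aeval ξ c)⁻¹ ∈ Rng ξ B c :=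
  ⟨1, 1, 1, one_ne_zero, Free.one B, by
    rw [map_one, pow_one, mul_one, inv_mul_cancel₀ hc]⟩

theorem inv_free_mem_Rng {G : MvPolynomial (Fin N) k} (hG : G ≠ 0) (hB : Free B G)
    (hc : aeval ξ G ≠ 0) : (aeval ξ G)⁻¹ ∈ Rng ξ B c :=
  ⟨1, G, 0, hG, hB, by
    rw [map_one, pow_zero, mul_one, inv_mul_cancel₀ hc]⟩

/-- the coordinates in the complement of `B` are independent -/
theorem free_ne (hξ : GP f ξ) {i₀ : Fin N} (hi₀ : i₀ ∈ B) (h : degreeOf i₀ f ≠ 0)
    {G : MvPolynomial (Fin N) k} (hG : G ≠ 0) (hB : Free B G) : aeval ξ G ≠ 0 := by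
  intro h0
  have h1 := degreeOf_le_of_dvd ((hξ.zero_iff G).mp h0) hG i₀
  rw [hB i₀ hi₀] at h1
  omega

theorem int_mem {z : K} (hz : z ∈ Rng ξ B c) : IsIntegral (Rng ξ B c) z :=
  isIntegral_algebraMap (R := Rng ξ B c) (A := K) (x := ⟨z, hz⟩)

/-- the algebraic functions of the coordinates outside `B` are integral -/
theorem int_of_cl (hξ : GP f ξ) {i₀ : Fin N} (hi₀ : i₀ ∈ B) (h : degreeOf i₀ f ≠ 0) {z : K}
    (hz : z ∈ cl k (ξ '' Bᶜ)) : IsIntegral (Rng ξ B c) z := by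
  rw [mem_cl_iff] at hz
  obtain ⟨p, hp, hpz⟩ := hz.isIntegral
  have hle : ∀ y : IntermediateField.adjoin k (ξ '' Bᶜ), (y : K) ∈ Rng ξ B c := by
    intro y
    obtain ⟨α, β, hα, hβ, hβ0, hy⟩ := exists_frac_of_mem y.2
    have hβ' : β ≠ 0 := by
      rintro rfl
      exact hβ0 (map_zero _)
    have h1 : (y : K) = aeval ξ α * (aeval ξ β)⁻¹ := by
      rw [← hy, mul_assoc, mul_inv_cancel₀ hβ0, mul_one]
    rw [h1]
    exact mul_mem (aeval_mem_Rng α) (inv_free_mem_Rng hβ' (fun l hl => hβ l (fun h2 => h2 hl)) hβ0)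
  let ρ : IntermediateField.adjoin k (ξ '' Bᶜ) →+* Rng ξ B c :=
    (algebraMap (IntermediateField.adjoin k (ξ '' Bᶜ)) K).codRestrict (Rng ξ B c) hle
  refine ⟨p.map ρ, hp.map ρ, ?_⟩
  rw [Polynomial.eval₂_map]
  exact hpz

/-- the flex polynomial is not a unit -/
theorem not_int (hξ : GP f ξ) {q : MvPolynomial (Fin N) k} (hq : aeval ξ q ≠ 0)
    (hNU : ∀ G : MvPolynomial (Fin N) k, G ≠ 0 → Free B G → ∀ n : ℕ, ∀ P R, G * c ^ n ≠ q * P + f * R) :
    ¬ IsIntegral (Rng ξ B c) (aeval ξ q)⁻¹ := by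
  intro hint
  have h1 : (aeval ξ q)⁻¹⁻¹ ∈ Rng ξ B c := by
    rw [inv_inv]
    exact aeval_mem_Rng q
  -- the element lies in the ring
  have h2 : (aeval ξ q)⁻¹ ∈ Rng ξ B c := by
    let S := integralClosure (Rng ξ B c) K
    let r : Rng ξ B c := ⟨aeval ξ q, aeval_mem_Rng q⟩
    have hu : IsUnit (algebraMap (Rng ξ B c) S r) := by
      refine IsUnit.of_mul_eq_one (⟨(aeval ξ q)⁻¹, hint⟩ : S) ?_
      apply Subtype.ext
      change aeval ξ q * (aeval ξ q)⁻¹ = 1
      exact mul_inv_cancel₀ hq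
    have hu' : IsUnit r := by
      have h3 : Algebra.IsIntegral (Rng ξ B c) S := inferInstance
      have h4 : IsLocalHom (algebraMap (Rng ξ B c) S) := inferInstance
      exact (isUnit_map_iff (algebraMap (Rng ξ B c) S) r).mp hu
    obtain ⟨w, hw⟩ := hu'.exists_right_inv
    have h5 : aeval ξ q * (w : K) = 1 := congrArg Subtype.val hw
    rw [← eq_inv_of_mul_eq_one_right h5]
    exact w.2
  obtain ⟨P, G, n, hG, hB, h3⟩ := h2
  have h4 : aeval ξ (G * c ^ n - q * P) = 0 := by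
    rw [map_sub, map_mul, map_mul, map_pow, ← h3]
    field_simp
    ring
  obtain ⟨R, hR⟩ := (hξ.zero_iff _).mp h4
  exact hNU G hG hB n P R (by rw [← hR]; ring)

end Pool.Agent.R867.H
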