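import Pool.Agent.R867.H.Jac
import Mathlib.RingTheory.Ideal.GoingUp
import Mathlib.RingTheory.MvPolynomial.Localization
import Mathlib.RingTheory.Nullstellensatz

/-! Points of the members of a family of varieties. -/

set_option autoImplicit false

namespace Pool.Agent.R867.H

open MvPolynomial

universe u v w

/-- extension of homomorphisms along integral extensions of domains -/
theorem exists_lift_int {A C : Type u} [CommRing A] [CommRing C] [IsDomain C] [Algebra A C]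
    (hinj : Function.Injective (algebraMap A C)) [Algebra.IsIntegral A C] {k' : Type v} [Field k']
    [IsAlgClosed k'] (φ : A →+* k') : ∃ ψ : C →+* k', ψ.comp (algebraMap A C) = φ := by
  have hp : (RingHom.ker φ).IsPrime := RingHom.ker_isPrime φ
  obtain ⟨Q, -, hQ, hQc⟩ := Ideal.exists_ideal_over_prime_of_isIntegral (RingHom.ker φ)
    (⊥ : Ideal C) (by
      intro a ha
      rw [Ideal.mem_comap, Ideal.mem_bot] at ha
      rw [RingHom.mem_ker, hinj (ha.trans (map_zero _).symm), map_zero])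
  let p := RingHom.ker φ
  have hlies : Q.LiesOver p := ⟨hQc.symm⟩
  let φ' : A ⧸ p →+* k' := Ideal.Quotient.lift p φ (fun a ha => ha)
  have hφ' : Function.Injective φ' := by
    rw [injective_iff_map_eq_zero]
    intro z hz
    obtain ⟨a, rfl⟩ := Ideal.Quotient.mk_surjective z
    rw [Ideal.Quotient.lift_mk] at hz
    exact Ideal.Quotient.eq_zero_iff_mem.mpr hz
  letI : Algebra (A ⧸ p) k' := φ'.toAlgebra
  have hd1 : IsDomain (A ⧸ p) := Ideal.Quotient.isDomain p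
  have hd2 : IsDomain (C ⧸ Q) := Ideal.Quotient.isDomain Q
  have hi : Algebra.IsIntegral (A ⧸ p) (C ⧸ Q) := by
    refine ⟨fun z => ?_⟩
    obtain ⟨c, rfl⟩ := Ideal.Quotient.mk_surjective z
    obtain ⟨P, hP, hPc⟩ := Algebra.IsIntegral.isIntegral (R := A) c
    refine ⟨P.map (Ideal.Quotient.mk p), hP.map _, ?_⟩
    rw [Polynomial.eval₂_map]
    have h1 : (algebraMap (A ⧸ p) (C ⧸ Q)).comp (Ideal.Quotient.mk p) =
        (Ideal.Quotient.mk Q).comp (algebraMap A C) := by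
      ext a
      rfl
    rw [h1, ← Polynomial.hom_eval₂, hPc, map_zero]
  have ha : Algebra.IsAlgebraic (A ⧸ p) (C ⧸ Q) := inferInstance
  have ht1 : Module.IsTorsionFree (A ⧸ p) k' := by
    have : FaithfulSMul (A ⧸ p) k' := (faithfulSMul_iff_algebraMap_injective _ _).mpr hφ'
    infer_instance
  have hinj2 : Function.Injective (algebraMap (A ⧸ p) (C ⧸ Q)) := by
    rw [injective_iff_map_eq_zero]
    intro z hz
    obtain ⟨a, rfl⟩ := Ideal.Quotient.mk_surjective z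
    rw [Ideal.Quotient.algebraMap_mk_of_liesOver, Ideal.Quotient.eq_zero_iff_mem] at hz
    rw [Ideal.Quotient.eq_zero_iff_mem]
    have h1 : a ∈ Q.comap (algebraMap A C) := hz
    rw [hQc] at h1
    exact h1
  have ht2 : Module.IsTorsionFree (A ⧸ p) (C ⧸ Q) := by
    have : FaithfulSMul (A ⧸ p) (C ⧸ Q) := (faithfulSMul_iff_algebraMap_injective _ _).mpr hinj2
    infer_instance
  let ψ' : (C ⧸ Q) →ₐ[A ⧸ p] k' := IsAlgClosed.lift
  refine ⟨(ψ' : (C ⧸ Q) →+* k').comp (Ideal.Quotient.mk Q), ?_⟩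
  ext a
  change ψ' (Ideal.Quotient.mk Q (algebraMap A C a)) = φ a
  have h1 : Ideal.Quotient.mk Q (algebraMap A C a) =
      algebraMap (A ⧸ p) (C ⧸ Q) (Ideal.Quotient.mk p a) := rfl
  rw [h1, ψ'.commutes]
  rfl

section

variable {A : Type} [CommRing A] [IsDomain A] {τ : Type} [Fintype τ] [DecidableEq τ]

/-- clearing denominators, simultaneously for two points -/
theorem clearQ (y : τ → A) (P : MvPolynomial τ A) {R₁ : Type v} [CommRing R₁] {R₂ : Type w}
    [CommRing R₂] (φ₁ : A →+* R₁) (s₁ t₁ : τ → R₁) (h₁ : ∀ m, s₁ m * φ₁ (y m) = t₁ m)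
    (φ₂ : A →+* R₂) (s₂ t₂ : τ → R₂) (h₂ : ∀ m, s₂ m * φ₂ (y m) = t₂ m) :
    ∃ (P' : MvPolynomial τ A) (e : ℕ), P.eval₂ φ₁ s₁ * φ₁ (∏ m, y m) ^ e = P'.eval₂ φ₁ t₁ ∧
      P.eval₂ φ₂ s₂ * φ₂ (∏ m, y m) ^ e = P'.eval₂ φ₂ t₂ := by
  have key : ∀ {R : Type v} [CommRing R] (φ : A →+* R) (s t : τ → R)
      (_ : ∀ m, s m * φ (y m) = t m) (G₁ G₂ p q : MvPolynomial τ A) (e₁ e₂ : ℕ),
      p.eval₂ φ s * φ (∏ m, y m) ^ e₁ = G₁.eval₂ φ t →
      q.eval₂ φ s * φ (∏ m, y m) ^ e₂ = G₂.eval₂ φ t →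
      (p + q).eval₂ φ s * φ (∏ m, y m) ^ (e₁ + e₂) =
        (G₁ * C (∏ m, y m) ^ e₂ + G₂ * C (∏ m, y m) ^ e₁).eval₂ φ t := by
    intro R _ φ s t _ G₁ G₂ p q e₁ e₂ h1 h2
    simp only [MvPolynomial.eval₂_add, MvPolynomial.eval₂_mul, MvPolynomial.eval₂_pow,
      MvPolynomial.eval₂_C, ← h1, ← h2]
    ring
  have key' : ∀ {R : Type w} [CommRing R] (φ : A →+* R) (s t : τ → R)
      (_ : ∀ m, s m * φ (y m) = t m) (G₁ G₂ p q : MvPolynomial τ A) (e₁ e₂ : ℕ),
      p.eval₂ φ s * φ (∏ m, y m) ^ e₁ = G₁.eval₂ φ t →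
      q.eval₂ φ s * φ (∏ m, y m) ^ e₂ = G₂.eval₂ φ t →
      (p + q).eval₂ φ s * φ (∏ m, y m) ^ (e₁ + e₂) =
        (G₁ * C (∏ m, y m) ^ e₂ + G₂ * C (∏ m, y m) ^ e₁).eval₂ φ t := by
    intro R _ φ s t _ G₁ G₂ p q e₁ e₂ h1 h2
    simp only [MvPolynomial.eval₂_add, MvPolynomial.eval₂_mul, MvPolynomial.eval₂_pow,
      MvPolynomial.eval₂_C, ← h1, ← h2]
    ring
  induction P using MvPolynomial.induction_on with
  | C a =>
    refine ⟨C a, 0, ?_, ?_⟩
    · rw [pow_zero, mul_one, MvPolynomial.eval₂_C, MvPolynomial.eval₂_C]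
    · rw [pow_zero, mul_one, MvPolynomial.eval₂_C, MvPolynomial.eval₂_C]
  | add p q hp hq =>
    obtain ⟨G₁, e₁, a₁, b₁⟩ := hp
    obtain ⟨G₂, e₂, a₂, b₂⟩ := hq
    exact ⟨G₁ * C (∏ m, y m) ^ e₂ + G₂ * C (∏ m, y m) ^ e₁, e₁ + e₂,
      key φ₁ s₁ t₁ h₁ G₁ G₂ p q e₁ e₂ a₁ a₂, key' φ₂ s₂ t₂ h₂ G₁ G₂ p q e₁ e₂ b₁ b₂⟩
  | mul_X p i hp =>
    obtain ⟨G, e, a, b⟩ := hp
    refine ⟨G * X i * C (∏ m ∈ Finset.univ.erase i, y m), e + 1, ?_, ?_⟩
    · rw [MvPolynomial.eval₂_mul, MvPolynomial.eval₂_X, MvPolynomial.eval₂_mul,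
        MvPolynomial.eval₂_mul, MvPolynomial.eval₂_X, MvPolynomial.eval₂_C, ← a, ← h₁, pow_succ]
      have h5 : φ₁ (∏ m, y m) = φ₁ (y i) * φ₁ (∏ m ∈ Finset.univ.erase i, y m) := by
        rw [← map_mul, Finset.mul_prod_erase Finset.univ y (Finset.mem_univ i)]
      conv_lhs => enter [2, 2]; rw [h5]
      ring
    · rw [MvPolynomial.eval₂_mul, MvPolynomial.eval₂_X, MvPolynomial.eval₂_mul,
        MvPolynomial.eval₂_mul, MvPolynomial.eval₂_X, MvPolynomial.eval₂_C, ← b, ← h₂, pow_succ]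
      have h5 : φ₂ (∏ m, y m) = φ₂ (y i) * φ₂ (∏ m ∈ Finset.univ.erase i, y m) := by
        rw [← map_mul, Finset.mul_prod_erase Finset.univ y (Finset.mem_univ i)]
      conv_lhs => enter [2, 2]; rw [h5]
      ring

/-- spreading out a point over the algebraic closure of the fraction field -/
theorem spread_pt (r : τ → AlgebraicClosure (FractionRing A)) : ∃ Φ : A, Φ ≠ 0 ∧
    ∀ {k' : Type u} [Field k'] [IsAlgClosed k'] (φ : A →+* k'), φ Φ ≠ 0 → ∃ r' : τ → k',
      ∀ P : MvPolynomial τ A, aeval r P = 0 → P.eval₂ φ r' = 0 := by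
  let Ω := AlgebraicClosure (FractionRing A)
  have hAΩ : Function.Injective (algebraMap A Ω) := by
    rw [IsScalarTower.algebraMap_eq A (FractionRing A) Ω]
    exact (algebraMap (FractionRing A) Ω).injective.comp (IsFractionRing.injective A _)
  have halg : ∀ z : Ω, IsAlgebraic A z := by
    intro z
    have h1 : IsAlgebraic (FractionRing A) z := Algebra.IsAlgebraic.isAlgebraic z
    exact (IsFractionRing.isAlgebraic_iff A (FractionRing A) Ω).mpr h1
  have h1 : ∀ m, ∃ y : A, y ≠ 0 ∧ IsIntegral A (y • r m) :=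
    fun m => (halg (r m)).exists_integral_multiple
  choose y hy0 hy using h1
  refine ⟨∏ m, y m, Finset.prod_ne_zero_iff.mpr fun m _ => hy0 m, ?_⟩
  intro k' _ _ φ hφ
  let C' := integralClosure A Ω
  have hAC : Function.Injective (algebraMap A C') := by
    intro a b hab
    exact hAΩ (congrArg Subtype.val hab)
  obtain ⟨ψ, hψ⟩ := exists_lift_int hAC φ
  let t : τ → C' := fun m => ⟨y m • r m, hy m⟩
  have hφy : ∀ m, φ (y m) ≠ 0 := by
    intro m h0
    apply hφ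
    rw [← Finset.mul_prod_erase Finset.univ y (Finset.mem_univ m), map_mul, h0, zero_mul]
  refine ⟨fun m => ψ (t m) / φ (y m), fun P hP => ?_⟩
  obtain ⟨P', e, h1, h2⟩ := clearQ y P (algebraMap A Ω) r (fun m => y m • r m) (fun m => by
    rw [Algebra.smul_def, mul_comm]) φ (fun m => ψ (t m) / φ (y m)) (fun m => ψ (t m))
    (fun m => div_mul_cancel₀ _ (hφy m))
  have h3 : P.eval₂ (algebraMap A Ω) r = 0 := hP
  rw [h3, zero_mul] at h1
  have h4 : P'.eval₂ (algebraMap A C') t = 0 := by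
    apply Subtype.val_injective
    have h5 := MvPolynomial.eval₂_comp_left (C'.subtype : C' →+* Ω) (algebraMap A C') t P'
    change ((P'.eval₂ (algebraMap A C') t : C') : Ω) = 0
    have h6 : ((C'.subtype : C' →+* Ω)) (P'.eval₂ (algebraMap A C') t) =
        P'.eval₂ (algebraMap A Ω) (fun m => y m • r m) := h5
    rw [← h1] at h6
    exact h6
  have h5 : P'.eval₂ φ (fun m => ψ (t m)) = 0 := by
    have h6 := MvPolynomial.eval₂_comp_left ψ (algebraMap A C') t P'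
    rw [h4, map_zero, hψ] at h6
    exact h6.symm
  rw [h5] at h2
  exact (mul_eq_zero.mp h2).resolve_right (pow_ne_zero _ hφ)

/-- the generic member has a point, if no nonzero constant is in the ideal -/
theorem gen_pt {n : ℕ} (g₁ g₂ h : MvPolynomial (Fin n) A)
    (hNU : ∀ G : A, G ≠ 0 → ∀ m : ℕ, ¬ ∃ a b, h ^ m * C G = a * g₁ + b * g₂) :
    ∃ r : Fin n → AlgebraicClosure (FractionRing A), aeval r g₁ = 0 ∧ aeval r g₂ = 0 ∧
      aeval r h ≠ 0 := by
  let L := FractionRing A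
  let Ω := AlgebraicClosure L
  obtain ⟨θ, hθ⟩ : ∃ θ : MvPolynomial (Fin n) A →+* MvPolynomial (Fin n) L,
    θ = MvPolynomial.map (algebraMap A L) := ⟨_, rfl⟩
  have hθi : Function.Injective θ := by
    rw [hθ]
    exact MvPolynomial.map_injective _ (IsFractionRing.injective A L)
  have hθe : ∀ (r : Fin n → Ω) (P : MvPolynomial (Fin n) A), aeval r (θ P) = aeval r P := by
    intro r P
    rw [hθ]
    exact MvPolynomial.aeval_map_algebraMap L r P
  by_contra hcon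
  push Not at hcon
  have h1 : θ h ∈ vanishingIdeal L (zeroLocus Ω (Ideal.span {θ g₁, θ g₂})) := by
    rw [mem_vanishingIdeal_iff]
    intro r hr
    rw [mem_zeroLocus_iff] at hr
    have h2 := hr (θ g₁) (Ideal.subset_span (Set.mem_insert _ _))
    have h3 := hr (θ g₂) (Ideal.subset_span (Set.mem_insert_of_mem _ rfl))
    rw [hθe] at h2 h3 ⊢
    exact hcon r h2 h3
  rw [vanishingIdeal_zeroLocus_eq_radical] at h1
  obtain ⟨m, hm⟩ := h1
  obtain ⟨a, b, hab⟩ := Ideal.mem_span_pair.mp hm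
  have hden : ∀ a : MvPolynomial (Fin n) L, ∃ (G : A) (a' : MvPolynomial (Fin n) A), G ≠ 0 ∧
      a * θ (C G) = θ a' := by
    intro a
    induction a using MvPolynomial.induction_on with
    | C c =>
      obtain ⟨p, q, hq, hpq⟩ := IsFractionRing.div_surjective (A := A) c
      have hq0 : q ≠ 0 := nonZeroDivisors.ne_zero hq
      refine ⟨q, C p, hq0, ?_⟩
      rw [hθ, map_C, map_C, ← C_mul, ← hpq, div_mul_cancel₀]
      rw [Ne, map_eq_zero_iff _ (IsFractionRing.injective A L)]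
      exact hq0
    | add p q hp hq =>
      obtain ⟨G, a', hG, h⟩ := hp
      obtain ⟨G', a'', hG', h'⟩ := hq
      refine ⟨G * G', a' * C G' + a'' * C G, mul_ne_zero hG hG', ?_⟩
      rw [C_mul, map_mul, map_add, map_mul, map_mul, ← h, ← h']
      ring
    | mul_X p i hp =>
      obtain ⟨G, a', hG, h⟩ := hp
      refine ⟨G, a' * X i, hG, ?_⟩
      rw [map_mul, ← h, hθ, map_X]
      ring
  obtain ⟨G, a', hG, ha⟩ := hden a
  obtain ⟨G', b', hG', hb⟩ := hden b
  refine hNU (G * G') (mul_ne_zero hG hG') m ⟨a' * C G', b' * C G, ?_⟩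
  apply hθi
  rw [map_mul, map_pow, ← hab, C_mul, map_mul, map_add, map_mul, map_mul, map_mul, map_mul, ← ha,
    ← hb]
  ring

end

/-- **Spreading out**: for all parameters outside of a proper closed subset there is a point. -/
theorem spread {A : Type} [CommRing A] [IsDomain A] {n : ℕ} (g₁ g₂ h : MvPolynomial (Fin n) A)
    (hNU : ∀ G : A, G ≠ 0 → ∀ m : ℕ, ¬ ∃ a b, h ^ m * C G = a * g₁ + b * g₂) :
    ∃ Φ : A, Φ ≠ 0 ∧ ∀ {k' : Type u} [Field k'] [IsAlgClosed k'] (φ : A →+* k'), φ Φ ≠ 0 →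
      ∃ r : Fin n → k', g₁.eval₂ φ r = 0 ∧ g₂.eval₂ φ r = 0 ∧ h.eval₂ φ r ≠ 0 := by
  obtain ⟨r, h1, h2, h3⟩ := gen_pt g₁ g₂ h hNU
  obtain ⟨Φ, hΦ, hsp⟩ := spread_pt (τ := Option (Fin n))
    (fun o => o.elim (aeval r h)⁻¹ r)
  refine ⟨Φ, hΦ, fun {k'} _ _ φ hφ => ?_⟩
  obtain ⟨r', hr'⟩ := hsp φ hφ
  have key : ∀ P : MvPolynomial (Fin n) A,
      aeval (fun o : Option (Fin n) => o.elim (aeval r h)⁻¹ r) (rename some P) = aeval r P := by
    intro P
    rw [aeval_rename]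
    rfl
  have key' : ∀ P : MvPolynomial (Fin n) A, (rename some P).eval₂ φ r' =
      P.eval₂ φ (fun i => r' (some i)) := by
    intro P
    rw [eval₂_rename]
    rfl
  refine ⟨fun i => r' (some i), ?_, ?_, ?_⟩
  · rw [← key']
    exact hr' _ (by rw [key, h1])
  · rw [← key']
    exact hr' _ (by rw [key, h2])
  · rw [← key']
    have h4 := hr' (X none * rename some h - 1) (by
      rw [map_sub, map_mul, key, aeval_X, map_one]
      change (aeval r h)⁻¹ * aeval r h - 1 = 0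
      rw [inv_mul_cancel₀ h3, sub_self])
    rw [eval₂_sub, eval₂_mul, eval₂_X, eval₂_one] at h4
    intro h0
    rw [h0, mul_zero, zero_sub] at h4
    exact one_ne_zero (neg_eq_zero.mp h4)

end Pool.Agent.R867.H
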