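import Pool.Agent.R867.H.Flex

/-! The inductive step for a pair of variables of degree three. -/

set_option autoImplicit false

namespace Pool.Agent.R867.H

open MvPolynomial Pool.Agent.R867.Mov Pool.Agent.R867.J

universe u v w

variable {k K : Type u} [Field k] [Field K] [Algebra k K] {N : ℕ} {f : MvPolynomial (Fin N) k}
  {ξ : Fin N → K} {p s : Fin N} {T : K →ₐ[k] K} {d : Derivation k K K} {B : Set (Fin N)}

theorem der_pres [CharZero K] (D : Derivation k K K) {S : Set K} {Λ : IntermediateField k K}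
    (hΛ : (Λ : Set K) = cl k S) (hD : ∀ z ∈ S, D z ∈ Λ) : ∀ z ∈ Λ, D z ∈ Λ := by
  intro z hz
  have hS : ∀ y ∈ S, y ∈ Λ := by
    intro y hy
    have h1 : y ∈ (Λ : Set K) := by
      rw [hΛ]
      exact subset_cl _ hy
    exact h1
  have hle : IntermediateField.adjoin k S ≤ Λ := by
    rw [IntermediateField.adjoin_le_iff]
    exact hS
  refine der_mem D hle ?_ hz ?_
  · intro y hy
    induction hy using IntermediateField.adjoin_induction with
    | mem y hy => exact hD y hy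
    | algebraMap c => rw [D.map_algebraMap]; exact zero_mem _
    | add u v hu' hv' hu hv => rw [map_add]; exact add_mem hu hv
    | inv u hu' hu =>
      rw [Derivation.leibniz_inv, smul_eq_mul]
      exact mul_mem (neg_mem (pow_mem (inv_mem (hle hu')) 2)) hu
    | mul u v hu' hv' hu hv =>
      rw [Derivation.leibniz, smul_eq_mul, smul_eq_mul]
      exact add_mem (mul_mem (hle hu') hv) (mul_mem (hle hv') hu)
  · have h1 : z ∈ (Λ : Set K) := hz
    rw [hΛ] at h1
    exact mem_cl_iff.mp h1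

/-- the derivative of the second derivative in the tangent direction -/
theorem d_q2' (hps : p ≠ s) (hdl : ∀ l, l ≠ p → l ≠ s → d (ξ l) = 0)
    (hdp : d (ξ p) = aeval ξ (pderiv s f)) (hds : d (ξ s) = - aeval ξ (pderiv p f)) :
    d (aeval ξ (q2 p s f)) = aeval ξ (c6 p s f) := by
  have e0 : ∀ g : MvPolynomial (Fin N) k, d (aeval ξ g) =
      aeval ξ (pderiv p g) * aeval ξ (pderiv s f) - aeval ξ (pderiv s g) * aeval ξ (pderiv p f) := by
    intro g
    rw [der_aeval d hps hdl, hdp, hds]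
    ring
  have h2 : aeval ξ (q2 p s f) = aeval ξ (pderiv s f) * aeval ξ (pderiv s f) *
      aeval ξ (pderiv p (pderiv p f)) -
      (aeval ξ (pderiv p f) * aeval ξ (pderiv s f) * aeval ξ (pderiv p (pderiv s f)) +
      aeval ξ (pderiv p f) * aeval ξ (pderiv s f) * aeval ξ (pderiv p (pderiv s f))) +
      aeval ξ (pderiv p f) * aeval ξ (pderiv p f) * aeval ξ (pderiv s (pderiv s f)) := by
    unfold q2
    simp only [map_add, map_sub, map_mul, map_pow, map_ofNat]
    ring
  rw [h2]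
  simp only [map_add, map_sub, Derivation.leibniz, e0, smul_eq_mul]
  unfold c6
  rw [pderiv_comm s p f, pderiv_comm s p (pderiv p f), pderiv_comm s p f,
    pderiv_comm s p (pderiv s f)]
  simp only [map_add, map_sub, map_mul, map_pow, map_ofNat]
  ring

theorem TMap.d_q2 (h : TMap f ξ p s T d) (hps : p ≠ s) :
    d (aeval ξ (q2 p s f)) = aeval ξ (c6 p s f) := d_q2' hps h.d_l h.d_p h.d_s

theorem flex_step [CharZero k] (h : TMap f ξ p s T d) (hξ : GP f ξ) (hf : f ≠ 0) (hps : p ≠ s)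
    (hpB : p ∉ B) (hsB : s ∉ B)
    {i₀ : Fin N} (hi₀ : i₀ ∈ B) (hdeg : degreeOf i₀ f ≠ 0) (hNU : NU f B p s)
    (hq : aeval ξ (q2 p s f) ≠ 0) (hI : ∀ a : K, Imm k a → a ∈ cl k (ξ '' Bᶜ)) {a : K}
    (ha : Imm k a) : a ∈ cl k (ξ '' (insert p (insert s B))ᶜ) := by
  classical
  have hcK : CharZero K := charZero_of_injective_algebraMap (algebraMap k K).injective
  have hpi : p ≠ i₀ := fun h => hpB (h ▸ hi₀)
  have hsi : s ≠ i₀ := fun h => hsB (h ▸ hi₀)
  have hc := hNU.c6_ne hξ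
  have hni := not_int (B := B) hξ hq hNU
  obtain ⟨hp, hs⟩ := deg_ne_of_q2 hq
  have hind := indep_of hf hdeg (fun P => (hξ.zero_iff P).mp)
  obtain ⟨Dp, hDp⟩ := Pool.Agent.H135R2.VS.exists_der hind
    (fun l => if (l : Fin N) = p then 1 else 0)
  obtain ⟨Ds, hDs⟩ := Pool.Agent.H135R2.VS.exists_der hind
    (fun l => if (l : Fin N) = s then 1 else 0)
  have hDp' : ∀ l, l ≠ i₀ → Dp (ξ l) = if l = p then 1 else 0 := fun l hl => hDp ⟨l, hl⟩
  have hDs' : ∀ l, l ≠ i₀ → Ds (ξ l) = if l = s then 1 else 0 := fun l hl => hDs ⟨l, hl⟩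
  obtain ⟨Λ, hΛ⟩ := cl_closed (k := k) (ξ '' Bᶜ)
  have hBi : ∀ l, l ∈ Bᶜ → l ≠ i₀ := fun l hl h => hl (h ▸ hi₀)
  have hDpΛ : ∀ z ∈ Λ, Dp z ∈ Λ := by
    apply der_pres Dp hΛ
    rintro _ ⟨l, hl, rfl⟩
    rw [hDp' l (hBi l hl)]
    split_ifs
    · exact one_mem _
    · exact zero_mem _
  have hDsΛ : ∀ z ∈ Λ, Ds z ∈ Λ := by
    apply der_pres Ds hΛ
    rintro _ ⟨l, hl, rfl⟩
    rw [hDs' l (hBi l hl)]
    split_ifs
    · exact one_mem _
    · exact zero_mem _
  obtain ⟨b, hb⟩ : ∃ b, b = aeval ξ (pderiv s f) := ⟨_, rfl⟩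
  obtain ⟨e, he⟩ : ∃ e, e = aeval ξ (pderiv p f) := ⟨_, rfl⟩
  have hb0 : b ≠ 0 := by rw [hb]; exact GP.pderiv_ne (fun P => (hξ.zero_iff P).mp) hs
  have hdΛ : ∀ z ∈ Λ, d z = b * Dp z - e * Ds z := by
    intro z hz
    have hz' : z ∈ cl k (ξ '' Bᶜ) := by
      rw [← hΛ]
      exact hz
    have h1 := der_cl (d - (b • Dp - e • Ds)) (S := ξ '' Bᶜ) (by
      rintro _ ⟨l, hl, rfl⟩
      rw [Derivation.sub_apply, Derivation.sub_apply, Derivation.smul_apply,
        Derivation.smul_apply, hDp' l (hBi l hl), hDs' l (hBi l hl)]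
      by_cases h1 : l = p
      · subst h1
        rw [if_pos rfl, if_neg hps, h.d_p, ← hb, smul_eq_mul, smul_eq_mul]
        ring
      · by_cases h2 : l = s
        · subst h2
          rw [if_pos rfl, if_neg (Ne.symm hps), h.d_s, ← he, smul_eq_mul, smul_eq_mul]
          ring
        · rw [if_neg h1, if_neg h2, h.d_l l h1 h2, smul_zero, smul_zero, sub_zero, sub_zero]) hz'
    rw [Derivation.sub_apply, Derivation.sub_apply, Derivation.smul_apply,
        Derivation.smul_apply, smul_eq_mul, smul_eq_mul] at h1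
    exact sub_eq_zero.mp h1
  have haΛ : a ∈ Λ := by
    have h1 : a ∈ (Λ : Set K) := by
      rw [hΛ]
      exact hI a ha
    exact h1
  have hda : d a = 0 := by
    refine der_cl d ?_ (flex_out h hξ hf hps hi₀ hdeg hNU hq hI ha)
    rintro _ ⟨l, hl, rfl⟩
    exact h.d_l l hl.1 hl.2
  have hrel := hdΛ a haΛ
  rw [hda] at hrel
  by_cases has : Ds a = 0
  · have hap : Dp a = 0 := by
      rw [has, mul_zero, sub_zero] at hrel
      exact (mul_eq_zero.mp hrel.symm).resolve_left hb0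
    by_contra hcon
    -- the set of the remaining coordinates
    have hset : ξ '' Bᶜ ⊆ insert (ξ s) (insert (ξ p) (ξ '' (insert p (insert s B))ᶜ)) := by
      rintro _ ⟨l, hl, rfl⟩
      by_cases h1 : l = s
      · rw [h1]; exact Set.mem_insert _ _
      · by_cases h2 : l = p
        · rw [h2]; exact Set.mem_insert_of_mem _ (Set.mem_insert _ _)
        · refine Set.mem_insert_of_mem _ (Set.mem_insert_of_mem _ ⟨l, ?_, rfl⟩)
          rintro (h3 | h3 | h3)
          · exact h2 h3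
          · exact h1 h3
          · exact hl h3
    have hl' : ∀ l, l ∈ (insert p (insert s B))ᶜ → l ≠ i₀ ∧ l ≠ p ∧ l ≠ s := by
      intro l hl
      refine ⟨?_, ?_, ?_⟩
      · rintro rfl
        exact hl (Set.mem_insert_of_mem _ (Set.mem_insert_of_mem _ hi₀))
      · rintro rfl
        exact hl (Set.mem_insert _ _)
      · rintro rfl
        exact hl (Set.mem_insert_of_mem _ (Set.mem_insert _ _))
    have h1 := cl_mono hset (hI a ha)
    have h2 : a ∈ cl k (insert (ξ p) (ξ '' (insert p (insert s B))ᶜ)) := by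
      by_contra h2
      have h3 := cl_exch h1 h2
      have h4 : Ds (ξ s) = 0 := by
        refine der_cl Ds ?_ h3
        rintro y (rfl | rfl | ⟨l, hl, rfl⟩)
        · exact has
        · rw [hDs' p hpi, if_neg hps]
        · rw [hDs' l (hl' l hl).1, if_neg (hl' l hl).2.2]
      rw [hDs' s hsi, if_pos rfl] at h4
      exact one_ne_zero h4
    have h3 := cl_exch h2 hcon
    have h4 : Dp (ξ p) = 0 := by
      refine der_cl Dp ?_ h3
      rintro y (rfl | ⟨l, hl, rfl⟩)
      · exact hap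
      · rw [hDp' l (hl' l hl).1, if_neg (hl' l hl).2.1]
    rw [hDp' p hpi, if_pos rfl] at h4
    exact one_ne_zero h4
  · exfalso
    obtain ⟨ρ, hρ⟩ : ∃ ρ, ρ = Dp a / Ds a := ⟨_, rfl⟩
    have hρΛ : ρ ∈ Λ := by rw [hρ]; exact div_mem (hDpΛ a haΛ) (hDsΛ a haΛ)
    have heρ : e = ρ * b := by
      rw [hρ, div_mul_eq_mul_div, eq_div_iff has]
      linear_combination hrel
    obtain ⟨θ, hθ⟩ : ∃ θ, θ = Dp ρ - ρ * Ds ρ := ⟨_, rfl⟩
    have hθΛ : θ ∈ Λ := by
      rw [hθ]
      exact sub_mem (hDpΛ ρ hρΛ) (mul_mem hρΛ (hDsΛ ρ hρΛ))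
    have hdρ : d ρ = b * θ := by
      rw [hdΛ ρ hρΛ, hθ, heρ]
      ring
    have e0 : ∀ g : MvPolynomial (Fin N) k, d (aeval ξ g) =
        aeval ξ (pderiv p g) * b - aeval ξ (pderiv s g) * e := by
      intro g
      rw [der_aeval d hps h.d_l, h.d_p, h.d_s, ← hb, ← he]
      ring
    have hde : d e = aeval ξ (pderiv p (pderiv p f)) * b -
        aeval ξ (pderiv p (pderiv s f)) * e := by
      conv_lhs => rw [he]
      rw [e0, pderiv_comm s p]
    have hdb : d b = aeval ξ (pderiv p (pderiv s f)) * b -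
        aeval ξ (pderiv s (pderiv s f)) * e := by
      conv_lhs => rw [hb]
      rw [e0]
    have h1 : d e = d ρ * b + ρ * d b := by
      rw [heρ, Derivation.leibniz, smul_eq_mul, smul_eq_mul]
      ring
    have h2 : b * (aeval ξ (pderiv p (pderiv p f)) - 2 * ρ * aeval ξ (pderiv p (pderiv s f)) +
        ρ ^ 2 * aeval ξ (pderiv s (pderiv s f)) - b * θ) = 0 := by
      rw [hde, hdρ, hdb, heρ] at h1
      linear_combination h1
    have h3 := sub_eq_zero.mp ((mul_eq_zero.mp h2).resolve_left hb0)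
    have hqθ : aeval ξ (q2 p s f) = b ^ 3 * θ := by
      unfold q2
      simp only [map_add, map_sub, map_mul, map_pow, map_ofNat]
      rw [← hb, ← he, heρ]
      linear_combination b ^ 2 * h3
    have hcθ : aeval ξ (c6 p s f) = b * (3 * b * d b * θ + b ^ 2 * d θ) := by
      rw [← h.d_q2 hps, hqθ, Derivation.leibniz, Derivation.leibniz_pow]
      simp only [smul_eq_mul, nsmul_eq_mul]
      push_cast
      ring
    have hΛi : ∀ z ∈ Λ, IsIntegral (Rng ξ B (c6 p s f)) z := by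
      intro z hz
      have h1 : z ∈ (Λ : Set K) := hz
      rw [hΛ] at h1
      exact int_of_cl hξ hi₀ hdeg h1
    have hbi : IsIntegral (Rng ξ B (c6 p s f)) b := by
      rw [hb]
      exact int_mem (aeval_mem_Rng _)
    have hei : IsIntegral (Rng ξ B (c6 p s f)) e := by
      rw [he]
      exact int_mem (aeval_mem_Rng _)
    have hdbi : IsIntegral (Rng ξ B (c6 p s f)) (d b) := by
      rw [hdb]
      exact ((int_mem (aeval_mem_Rng _)).mul hbi).sub ((int_mem (aeval_mem_Rng _)).mul hei)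
    have hdθi : IsIntegral (Rng ξ B (c6 p s f)) (d θ) := by
      rw [hdΛ θ hθΛ]
      exact (hbi.mul (hΛi _ (hDpΛ θ hθΛ))).sub (hei.mul (hΛi _ (hDsΛ θ hθΛ)))
    have h3i : IsIntegral (Rng ξ B (c6 p s f)) (3 : K) := int_mem (ofNat_mem _ 3)
    have hθ0 : θ ≠ 0 := by
      rintro rfl
      rw [mul_zero] at hqθ
      exact hq hqθ
    have hbinv : IsIntegral (Rng ξ B (c6 p s f)) b⁻¹ := by
      have h4 : b⁻¹ = (3 * b * d b * θ + b ^ 2 * d θ) * (aeval ξ (c6 p s f))⁻¹ := by
        rw [eq_mul_inv_iff_mul_eq₀ hc, hcθ, inv_mul_cancel_left₀ hb0]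
      rw [h4]
      refine IsIntegral.mul (IsIntegral.add ?_ ?_) (int_mem (inv_mem_Rng hc))
      · exact ((h3i.mul hbi).mul hdbi).mul (hΛi _ hθΛ)
      · exact (hbi.pow 2).mul hdθi
    apply hni
    rw [hqθ, mul_inv, ← inv_pow]
    exact (hbinv.pow 3).mul (hΛi _ (inv_mem hθΛ))

end Pool.Agent.R867.H
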