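import Pool.Agent.R867.H.CoMove

/-! The third intersection point with the tangent line of a plane cubic. -/

set_option autoImplicit false

namespace Pool.Agent.R867.H

open MvPolynomial Pool.Agent.R867.Mov Pool.Agent.R867.J

universe u v w

section Defs

variable {k : Type u} [CommRing k] {N : ℕ}

/-- the second derivative in the tangent direction -/
noncomputable def q2 (p s : Fin N) (f : MvPolynomial (Fin N) k) : MvPolynomial (Fin N) k :=
  pderiv s f ^ 2 * pderiv p (pderiv p f) - 2 * pderiv p f * pderiv s f * pderiv p (pderiv s f) +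
    pderiv p f ^ 2 * pderiv s (pderiv s f)

/-- the third derivative in the tangent direction -/
noncomputable def c6 (p s : Fin N) (f : MvPolynomial (Fin N) k) : MvPolynomial (Fin N) k :=
  pderiv s f ^ 3 * pderiv p (pderiv p (pderiv p f)) -
    3 * pderiv s f ^ 2 * pderiv p f * pderiv p (pderiv p (pderiv s f)) +
    3 * pderiv s f * pderiv p f ^ 2 * pderiv p (pderiv s (pderiv s f)) -
    pderiv p f ^ 3 * pderiv s (pderiv s (pderiv s f))

end Defs

variable {k K : Type u} [Field k] [Field K] [Algebra k K] {N : ℕ} {f : MvPolynomial (Fin N) k}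
  {ξ : Fin N → K} {p s : Fin N}

theorem deg_ne_of_q2 (h : aeval ξ (q2 p s f) ≠ 0) : degreeOf p f ≠ 0 ∧ degreeOf s f ≠ 0 := by
  constructor
  · intro h0
    apply h
    have h1 := pderiv_eq_zero_of_degreeOf h0
    unfold q2
    rw [h1]
    simp
  · intro h0
    apply h
    have h1 := pderiv_eq_zero_of_degreeOf h0
    unfold q2
    rw [h1]
    simp

/-- the tangential derivation -/
theorem exists_tder [CharZero k] (hξ : GP f ξ) (hf : f ≠ 0) (hps : p ≠ s)
    (hp : degreeOf p f ≠ 0) : ∃ d : Derivation k K K, (∀ l, l ≠ p → l ≠ s → d (ξ l) = 0) ∧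
      d (ξ p) = aeval ξ (pderiv s f) ∧ d (ξ s) = - aeval ξ (pderiv p f) := by
  classical
  have hcK : CharZero K := charZero_of_injective_algebraMap (algebraMap k K).injective
  have hA := GP.pderiv_ne (fun P => (hξ.zero_iff P).mp) hp
  obtain ⟨D, hD⟩ := Pool.Agent.H135R2.VS.exists_der
    (indep_of hf hp (fun P => (hξ.zero_iff P).mp)) (fun l => if (l : Fin N) = s then 1 else 0)
  have hDs : D (ξ s) = 1 := by
    have := hD ⟨s, Ne.symm hps⟩
    rw [if_pos rfl] at this
    exact this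
  have hDl : ∀ l, l ≠ p → l ≠ s → D (ξ l) = 0 := by
    intro l h1 h2
    have := hD ⟨l, h1⟩
    rw [if_neg h2] at this
    exact this
  have h1 := der_aeval D hps hDl f
  rw [(hξ.zero_iff f).mpr dvd_rfl, map_zero, hDs] at h1
  refine ⟨(- aeval ξ (pderiv p f)) • D, fun l h2 h3 => ?_, ?_, ?_⟩
  · rw [Derivation.smul_apply, hDl l h2 h3, smul_zero]
  · rw [Derivation.smul_apply, smul_eq_mul]
    linear_combination h1
  · rw [Derivation.smul_apply, smul_eq_mul, hDs, mul_one]

/-- the tangent map of a fibration in plane cubics -/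
structure TMap (f : MvPolynomial (Fin N) k) (ξ : Fin N → K) (p s : Fin N) (T : K →ₐ[k] K)
    (d : Derivation k K K) : Prop where
  T_l : ∀ l, l ≠ p → l ≠ s → T (ξ l) = ξ l
  T_p : T (ξ p) * aeval ξ (c6 p s f) = ξ p * aeval ξ (c6 p s f) -
    3 * aeval ξ (q2 p s f) * aeval ξ (pderiv s f)
  T_s : T (ξ s) * aeval ξ (c6 p s f) = ξ s * aeval ξ (c6 p s f) +
    3 * aeval ξ (q2 p s f) * aeval ξ (pderiv p f)
  d_l : ∀ l, l ≠ p → l ≠ s → d (ξ l) = 0
  d_p : d (ξ p) = aeval ξ (pderiv s f)
  d_s : d (ξ s) = - aeval ξ (pderiv p f)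
  eigen : ∀ z, d (T z) = -2 * T (d z)

theorem exists_tmap [CharZero k] (hξ : GP f ξ) (hf : f ≠ 0) (hps : p ≠ s)
    (hd : ∀ m ∈ f.support, m p + m s ≤ 3) (hq : aeval ξ (q2 p s f) ≠ 0)
    (hc : aeval ξ (c6 p s f) ≠ 0) : ∃ (T : K →ₐ[k] K) (d : Derivation k K K),
      TMap f ξ p s T d := by
  have hcK : CharZero K := charZero_of_injective_algebraMap (algebraMap k K).injective
  obtain ⟨hp, hs⟩ := deg_ne_of_q2 hq
  obtain ⟨d, hdl, hdp, hds⟩ := exists_tder hξ hf hps hp
  have hfx : aeval ξ f = 0 := (hξ.zero_iff f).mpr dvd_rfl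
  obtain ⟨A, hA⟩ : ∃ A, A = aeval ξ (pderiv p f) := ⟨_, rfl⟩
  obtain ⟨B, hB⟩ : ∃ B, B = aeval ξ (pderiv s f) := ⟨_, rfl⟩
  obtain ⟨q, hqq⟩ : ∃ q, q = aeval ξ (q2 p s f) := ⟨_, rfl⟩
  obtain ⟨c, hcc⟩ : ∃ c, c = aeval ξ (c6 p s f) := ⟨_, rfl⟩
  have hq' : q = B ^ 2 * aeval ξ (pderiv p (pderiv p f)) -
      2 * A * B * aeval ξ (pderiv p (pderiv s f)) + A ^ 2 * aeval ξ (pderiv s (pderiv s f)) := by
    rw [hqq, hA, hB]
    unfold q2
    simp only [map_add, map_sub, map_mul, map_pow, map_ofNat]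
  have hc' : c = B ^ 3 * aeval ξ (pderiv p (pderiv p (pderiv p f))) -
      3 * B ^ 2 * A * aeval ξ (pderiv p (pderiv p (pderiv s f))) +
      3 * B * A ^ 2 * aeval ξ (pderiv p (pderiv s (pderiv s f))) -
      A ^ 3 * aeval ξ (pderiv s (pderiv s (pderiv s f))) := by
    rw [hcc, hA, hB]
    unfold c6
    simp only [map_add, map_sub, map_mul, map_pow, map_ofNat]
  rw [← hqq] at hq
  rw [← hcc] at hc
  rw [← hB] at hdp
  rw [← hA] at hds
  obtain ⟨t, ht⟩ : ∃ t, t * c = -3 * q := ⟨-3 * q / c, div_mul_cancel₀ _ hc⟩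
  have ht0 : t ≠ 0 := by
    rintro rfl
    rw [zero_mul] at ht
    apply hq
    linear_combination (1 / 3 : K) * ht
  obtain ⟨v, hv⟩ : ∃ v : Fin N → K, v = fun l => if l = p then B else
    if l = s then - A else 0 := ⟨_, rfl⟩
  have hvp : v p = B := by rw [hv]; simp
  have hvs : v s = - A := by rw [hv]; simp [Ne.symm hps]
  have hvl : ∀ l, l ≠ p → l ≠ s → v l = 0 := by
    intro l h1 h2
    rw [hv]
    simp [h1, h2]
  have hdeg := lin_natDegree (x := ξ) hvl hps hd
  have hd3 : (Polynomial.derivative (Polynomial.derivative (Polynomial.derivative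
      (Polynomial.derivative (lin ξ v f))))) = 0 := by
    apply Polynomial.derivative_of_natDegree_zero
    have h5 := Polynomial.natDegree_derivative_le (Polynomial.derivative (lin ξ v f))
    have h6 := Polynomial.natDegree_derivative_le (lin ξ v f)
    have h7 := Polynomial.natDegree_derivative_le
      (Polynomial.derivative (Polynomial.derivative (lin ξ v f)))
    omega
  have hdeg' : (Polynomial.derivative (lin ξ v f)).natDegree ≤ 3 := by
    have h6 := Polynomial.natDegree_derivative_le (lin ξ v f)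
    omega
  have e1 : (Polynomial.derivative (lin ξ v f)).eval 0 = 0 := by
    rw [lin_d1 hps hvl, hvp, hvs, ← hA, ← hB]
    ring
  have e2 : (Polynomial.derivative (Polynomial.derivative (lin ξ v f))).eval 0 = q := by
    rw [lin_d2 hps hvl, hvp, hvs, hq']
    ring
  have e3 : (Polynomial.derivative (Polynomial.derivative
      (Polynomial.derivative (lin ξ v f)))).eval 0 = c := by
    rw [lin_d3 hps hvl, hvp, hvs, hc']
    ring
  obtain ⟨y, hy⟩ : ∃ y : Fin N → K, y = fun l => ξ l + t * v l := ⟨_, rfl⟩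
  have hyf : aeval y f = 0 := by
    have h1 := eval_cubic hdeg t
    rw [lin_eval, lin_zero, hfx, e1, e2, e3, ← hy] at h1
    have h2 : (6 : K) * aeval y f = 0 := by
      rw [h1]
      linear_combination t ^ 2 * ht
    exact (mul_eq_zero.mp h2).resolve_left (by norm_num)
  have hyl : ∀ l, l ≠ p → l ≠ s → y l = ξ l := by
    intro l h1 h2
    rw [hy]
    exact update_two hvl t h1 h2
  have hyp : y p = ξ p + t * B := by rw [hy, ← hvp]
  have hys : y s = ξ s - t * A := by
    rw [hy]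
    change ξ s + t * v s = _
    rw [hvs]
    ring
  obtain ⟨A', hA'⟩ : ∃ A', A' = aeval y (pderiv p f) := ⟨_, rfl⟩
  obtain ⟨B', hB'⟩ : ∃ B', B' = aeval y (pderiv s f) := ⟨_, rfl⟩
  have r3 : B * A' - A * B' = - t * q / 2 := by
    have h1 := eval_cubic hdeg' t
    rw [hd3, e1, e2, e3, Polynomial.eval_zero, lin_der hps hvl, hvp, hvs] at h1
    simp only [Polynomial.eval_add, Polynomial.eval_mul, Polynomial.eval_C, lin_eval] at h1
    rw [← hy, ← hA', ← hB'] at h1
    have h2 : (12 : K) * (B * A' - A * B' - (- t * q / 2)) = 0 := by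
      linear_combination 2 * h1 + 6 * t * ht
    exact sub_eq_zero.mp ((mul_eq_zero.mp h2).resolve_left (by norm_num))
  have r1 : A' * d (y p) + B' * d (y s) = 0 := by
    have h1 := der_aeval d (x := y) hps (fun l h1 h2 => by rw [hyl l h1 h2, hdl l h1 h2]) f
    rw [hyf, map_zero, ← hA', ← hB'] at h1
    exact h1.symm
  have hdA : d A = aeval ξ (pderiv p (pderiv p f)) * B -
      aeval ξ (pderiv p (pderiv s f)) * A := by
    rw [hA, der_aeval d hps hdl, hdp, hds, ← hA, pderiv_comm s p]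
    ring
  have hdB : d B = aeval ξ (pderiv p (pderiv s f)) * B -
      aeval ξ (pderiv s (pderiv s f)) * A := by
    rw [hB, der_aeval d hps hdl, hdp, hds, ← hB]
    ring
  have r2 : B * d (y s) + A * d (y p) = - t * q := by
    rw [hyp, hys, map_add, map_sub, Derivation.leibniz, Derivation.leibniz, hdp, hds, hdA, hdB, hq']
    simp only [smul_eq_mul]
    ring
  have htq : t * q ≠ 0 := mul_ne_zero ht0 hq
  have sp : d (y p) = -2 * B' := by
    have h1 : (t * q) * (d (y p) - (-2 * B')) = 0 := by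
      linear_combination (2 * d (y p)) * r3 - 2 * B * r1 + 2 * B' * r2
    exact sub_eq_zero.mp ((mul_eq_zero.mp h1).resolve_left htq)
  have ss : d (y s) = 2 * A' := by
    have h1 : (t * q) * (d (y s) - (2 * A')) = 0 := by
      linear_combination (2 * d (y s)) * r3 + 2 * A * r1 - 2 * A' * r2
    exact sub_eq_zero.mp ((mul_eq_zero.mp h1).resolve_left htq)
  obtain ⟨T, hT⟩ : ∃ T : K →ₐ[k] K, ∀ l, T (ξ l) = y l := by
    have hindp := indep_of hf hp (fun P => (hξ.zero_iff P).mp)
    have hind : AlgebraicIndependent k (fun l : {l : Fin N // l ≠ p ∧ l ≠ s} => y l) := by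
      have h3 := hindp.comp (fun l : {l : Fin N // l ≠ p ∧ l ≠ s} =>
        (⟨l, l.2.1⟩ : {l : Fin N // l ≠ p})) (fun a b hab => Subtype.ext
          (congrArg (fun z : {l : Fin N // l ≠ p} => (z : Fin N)) hab))
      have h1 : (fun l : {l : Fin N // l ≠ p ∧ l ≠ s} => y l) =
          (fun l : {l : Fin N // l ≠ p} => ξ l) ∘ (fun l : {l : Fin N // l ≠ p ∧ l ≠ s} =>
            (⟨l, l.2.1⟩ : {l : Fin N // l ≠ p})) := by
        funext l
        exact hyl l l.2.1 l.2.2
      rw [h1]
      exact h3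
    have hkill : ∀ z ∈ y '' {l | l ≠ p ∧ l ≠ s}, d z = 0 := by
      rintro _ ⟨l, hl, rfl⟩
      rw [hyl l hl.1 hl.2, hdl l hl.1 hl.2]
    by_cases h0 : d (y s) = 0
    · have h1 : d (y p) ≠ 0 := by
        intro h1
        rw [h0, h1] at r2
        apply htq
        linear_combination r2
      refine exists_hom hξ hyf hs hf (indep_of_notMem (Ne.symm hps) ?_ ?_)
      · have h2 := hind.comp (fun l : {l : Fin N // l ≠ s ∧ l ≠ p} =>
          (⟨l, l.2.2, l.2.1⟩ : {l : Fin N // l ≠ p ∧ l ≠ s})) (fun a b hab => Subtype.ext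
            (congrArg (fun z : {l : Fin N // l ≠ p ∧ l ≠ s} => (z : Fin N)) hab))
        exact h2
      · intro h2
        apply h1
        refine der_cl d hkill (cl_mono ?_ h2)
        rintro _ ⟨l, hl, rfl⟩
        exact ⟨l, ⟨hl.2, hl.1⟩, rfl⟩
    · exact exists_hom hξ hyf hp hf (indep_of_notMem hps hind fun h2 => h0 (der_cl d hkill h2))
  have hTa : ∀ g : MvPolynomial (Fin N) k, T (aeval ξ g) = aeval y g := by
    intro g
    have h1 : (T.comp (aeval ξ) : MvPolynomial (Fin N) k →ₐ[k] K) = aeval y := by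
      apply MvPolynomial.algHom_ext
      intro l
      rw [AlgHom.comp_apply, aeval_X, aeval_X, hT]
    exact DFunLike.congr_fun h1 g
  refine ⟨T, d, fun l h1 h2 => by rw [hT, hyl l h1 h2], ?_, ?_, hdl, by rw [hdp, hB], by
    rw [hds, hA], ?_⟩
  · rw [hT, hyp, ← hcc, ← hqq, ← hB]
    linear_combination B * ht
  · rw [hT, hys, ← hcc, ← hqq, ← hA]
    linear_combination - A * ht
  · intro z
    have h1 : TDer (T : K →+* K) (fun z => d (T z) - (-2) * T (d z)) :=
      (TDer.comp_left (T := (T : K →+* K)) d).sub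
        ((TDer.comp_right (T := (T : K →+* K)) d).smul (-2))
    have h2 := h1.cl (k := k) (S := Set.range ξ) (fun c => by
      rw [T.commutes, d.map_algebraMap, map_zero, mul_zero, sub_zero]) (by
      rintro _ ⟨l, rfl⟩
      rw [hT]
      by_cases h3 : l = p
      · rw [h3, hdp, sp, hB, hTa, ← hB']
        ring
      · by_cases h4 : l = s
        · rw [h4, hds, ss, hA, map_neg, hTa, ← hA']
          ring
        · rw [hyl l h3 h4, hdl l h3 h4, map_zero, mul_zero, sub_zero]) (z := z) (by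
      rw [mem_cl_iff, hξ.gen]
      exact isAlgebraic_algebraMap (⟨z, trivial⟩ : (⊤ : IntermediateField k K)))
    exact sub_eq_zero.mp h2

variable {T : K →ₐ[k] K} {d : Derivation k K K}

theorem TMap.pow (h : TMap f ξ p s T d) (m : ℕ) (z : K) :
    d ((T ^ m) z) = ((-2 : ℤ) ^ m : ℤ) * (T ^ m) (d z) := by
  induction m generalizing z with
  | zero => simp
  | succ m ih =>
    rw [pow_succ, AlgHom.mul_apply, ih, h.eigen, AlgHom.mul_apply, map_mul, map_neg, map_ofNat]
    push_cast
    ring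

/-- periodic functions are algebraic over the base -/
theorem TMap.periodic [CharZero k] (h : TMap f ξ p s T d) (hξ : GP f ξ) (hf : f ≠ 0) (hps : p ≠ s)
    (hp : degreeOf p f ≠ 0) {m : ℕ} (hm : 1 ≤ m) {a : K} (ha : (T ^ m) a = a) :
    a ∈ cl k (ξ '' {l | l ≠ p ∧ l ≠ s}) := by
  have hcK : CharZero K := charZero_of_injective_algebraMap (algebraMap k K).injective
  by_contra hcon
  have hK : ∀ z : K, z ∈ cl k (insert (ξ s) (ξ '' {l | l ≠ p ∧ l ≠ s})) := by
    intro z
    refine cl_mono ?_ (mem_cl_ne hξ hf hp z)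
    rintro _ ⟨l, hl, rfl⟩
    by_cases h4 : l = s
    · rw [h4]; exact Set.mem_insert _ _
    · exact Set.mem_insert_of_mem _ ⟨l, ⟨hl, h4⟩, rfl⟩
  have hs' : ξ s ∈ cl k (insert a (ξ '' {l | l ≠ p ∧ l ≠ s})) := cl_exch (hK a) hcon
  have hK' : ∀ z : K, z ∈ cl k (insert a (ξ '' {l | l ≠ p ∧ l ≠ s})) := by
    intro z
    refine cl_sub ?_ (hK z)
    rintro y (rfl | hy)
    · exact hs'
    · exact subset_cl _ (Set.mem_insert_of_mem _ hy)
  have hda : d a ≠ 0 := by
    intro h0
    apply GP.pderiv_ne (fun P => (hξ.zero_iff P).mp) hp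
    have h1 := der_cl d (S := insert a (ξ '' {l | l ≠ p ∧ l ≠ s})) (by
      rintro y (rfl | ⟨l, hl, rfl⟩)
      · exact h0
      · exact h.d_l l hl.1 hl.2) hs'
    rw [h.d_s] at h1
    exact neg_eq_zero.mp h1
  have hfixl : ∀ l, l ≠ p → l ≠ s → ∀ n : ℕ, (T ^ n) (ξ l) = ξ l := by
    intro l h1 h2 n
    induction n with
    | zero => simp
    | succ n ih => rw [pow_succ, AlgHom.mul_apply, h.T_l l h1 h2, ih]
  refine no_mult (N := IntermediateField.adjoin k (insert a (ξ '' {l | l ≠ p ∧ l ≠ s}))) (T ^ m)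
    ?_ (μ := (-2 : ℤ) ^ m) ?_ hda ?_ (mem_cl_iff.mp (hK' (d a)))
  · intro y hy
    induction hy using IntermediateField.adjoin_induction with
    | mem y hy =>
      rcases hy with rfl | ⟨l, hl, rfl⟩
      · exact ha
      · exact hfixl l hl.1 hl.2 m
    | algebraMap c => exact (T ^ m).commutes c
    | add x y _ _ hx hy => rw [map_add, hx, hy]
    | inv y _ hy => rw [map_inv₀, hy]
    | mul x y _ _ hx hy => rw [map_mul, hx, hy]
  · rw [abs_pow]
    norm_num
    calc (2 : ℤ) = 2 ^ 1 := by norm_num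
      _ ≤ 2 ^ m := pow_le_pow_right₀ (by norm_num) hm
  · conv_lhs => rw [← ha]
    exact h.pow m a

end Pool.Agent.R867.H
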