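import Pool.Agent.R867.H.Irr

/-! The universal hypersurface is rational: elimination of the constant coefficient. -/

set_option autoImplicit false

namespace Pool.Agent.R867.H

open MvPolynomial Pool.Agent.R867.Mov

universe u v w

section Theta

variable {N : ℕ} (R : Type u) [CommRing R] (E : Finset (Fin N →₀ ℕ))

/-- the universal polynomial with exponents in `E` over `R` -/
noncomputable def uR : MvPolynomial (Fin N) (MvPolynomial E R) :=
  ∑ m : E, monomial (m : Fin N →₀ ℕ) (X m)

open Classical in
/-- elimination of the constant coefficient -/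
noncomputable def thA : MvPolynomial E R →ₐ[R] MvPolynomial (Fin N) (MvPolynomial E R) :=
  aeval (fun m : E => if (m : Fin N →₀ ℕ) = 0 then C (X m) - uR R E else C (X m))

/-- elimination of the constant coefficient -/
noncomputable def th : MvPolynomial (Fin N) (MvPolynomial E R) →+*
    MvPolynomial (Fin N) (MvPolynomial E R) := eval₂Hom (thA R E).toRingHom X

variable {R E}

theorem th_C (s : MvPolynomial E R) : th R E (C s) = thA R E s := by
  unfold th
  rw [coe_eval₂Hom, eval₂_C]
  rfl

theorem th_X (l : Fin N) : th R E (X l) = X l := by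
  unfold th
  rw [coe_eval₂Hom, eval₂_X]

theorem th_uR (h0 : (0 : Fin N →₀ ℕ) ∈ E) : th R E (uR R E) = 0 := by
  classical
  have h1 : ∀ m : E, th R E (monomial (m : Fin N →₀ ℕ) (X m)) =
      monomial (m : Fin N →₀ ℕ) (X m) - if m = ⟨0, h0⟩ then uR R E else 0 := by
    intro m
    have h2 : th R E (monomial (m : Fin N →₀ ℕ) (X m)) =
        thA R E (X m) * monomial (m : Fin N →₀ ℕ) 1 := by
      rw [← mul_one (X m), ← C_mul_monomial, map_mul, th_C]
      congr 1
      · rw [mul_one]
      · rw [monomial_eq, map_mul, C_1, map_one, one_mul, one_mul, Finsupp.prod, map_prod]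
        refine Finset.prod_congr rfl fun l _ => ?_
        rw [map_pow, th_X]
    rw [h2]
    unfold thA
    rw [aeval_X]
    by_cases h : m = ⟨0, h0⟩
    · have h3 : (m : Fin N →₀ ℕ) = 0 := congrArg Subtype.val h
      rw [if_pos h3, if_pos h, h3]
      have h4 : (monomial (0 : Fin N →₀ ℕ)) (1 : MvPolynomial E R) = 1 := rfl
      rw [h4, mul_one]
      rfl
    · have h3 : (m : Fin N →₀ ℕ) ≠ 0 := fun h4 => h (Subtype.ext h4)
      rw [if_neg h3, if_neg h, sub_zero, C_mul_monomial, mul_one]
  have h2 : uR R E = ∑ m : E, monomial (m : Fin N →₀ ℕ) (X m) := rfl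
  conv_lhs => rw [h2]
  rw [map_sum, Finset.sum_congr rfl fun m _ => h1 m, Finset.sum_sub_distrib, ← h2,
    Finset.sum_ite_eq' Finset.univ, if_pos (Finset.mem_univ _), sub_self]

theorem th_sub (Q : MvPolynomial (Fin N) (MvPolynomial E R)) : uR R E ∣ Q - th R E Q := by
  classical
  induction Q using MvPolynomial.induction_on with
  | C s =>
    rw [th_C]
    induction s using MvPolynomial.induction_on with
    | C a =>
      have h1 : thA R E (C a) = C (C a) := by
        unfold thA
        rw [aeval_C]
        rfl
      rw [h1, sub_self]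
      exact dvd_zero _
    | add p q hp hq =>
      have h1 : C (p + q) - thA R E (p + q) = (C p - thA R E p) + (C q - thA R E q) := by
        rw [map_add, map_add]
        ring
      rw [h1]
      exact dvd_add hp hq
    | mul_X p m hp =>
      have h2 : uR R E ∣ C (X m) - thA R E (X m) := by
        unfold thA
        rw [aeval_X]
        split_ifs
        · rw [sub_sub_cancel]
        · rw [sub_self]
          exact dvd_zero _
      have h1 : C (p * X m) - thA R E (p * X m) =
          (C p - thA R E p) * C (X m) + thA R E p * (C (X m) - thA R E (X m)) := by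
        rw [map_mul, map_mul]
        ring
      rw [h1]
      exact dvd_add (hp.mul_right _) (h2.mul_left _)
  | add p q hp hq =>
    have h1 : p + q - th R E (p + q) = (p - th R E p) + (q - th R E q) := by
      rw [map_add]
      ring
    rw [h1]
    exact dvd_add hp hq
  | mul_X p l hp =>
    have h1 : p * X l - th R E (p * X l) = (p - th R E p) * X l := by
      rw [map_mul, th_X]
      ring
    rw [h1]
    exact hp.mul_right _

theorem dvd_of_th {Q : MvPolynomial (Fin N) (MvPolynomial E R)} (h : th R E Q = 0) :
    uR R E ∣ Q := by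
  have := th_sub Q
  rwa [h, sub_zero] at this

theorem coeff_uR [Nontrivial R] (m : E) : coeff (m : Fin N →₀ ℕ) (uR R E) = X m := by
  classical
  unfold uR
  rw [coeff_sum]
  simp only [coeff_monomial]
  have h1 : ∀ m' : E, (if (m' : Fin N →₀ ℕ) = m then (X m' : MvPolynomial E R) else 0) =
      if m' = m then X m' else 0 := by
    intro m'
    by_cases h : m' = m
    · rw [if_pos h, if_pos (congrArg Subtype.val h)]
    · rw [if_neg h, if_neg (fun h' => h (Subtype.ext h'))]
  rw [Finset.sum_congr rfl fun m' _ => h1 m', Finset.sum_ite_eq' Finset.univ m,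
    if_pos (Finset.mem_univ m)]

theorem degreeOf_uR [Nontrivial R] {l : Fin N} (hl : Finsupp.single l 1 ∈ E) :
    degreeOf l (uR R E) ≠ 0 := by
  intro h0
  have h1 : Finsupp.single l 1 ∈ (uR R E).support := by
    rw [mem_support_iff]
    have := coeff_uR (R := R) ⟨_, hl⟩
    rw [this]
    exact X_ne_zero _
  have h2 := monomial_le_degreeOf l h1
  rw [h0, Finsupp.single_eq_same] at h2
  omega

theorem uR_ne [Nontrivial R] {l : Fin N} (hl : Finsupp.single l 1 ∈ E) : uR R E ≠ 0 := by
  intro h0
  apply degreeOf_uR (R := R) hl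
  rw [h0]
  exact degreeOf_zero l

theorem thA_ne [IsDomain R] {l : Fin N} (hl : Finsupp.single l 1 ∈ E) {s : MvPolynomial E R}
    (hs : s ≠ 0) : thA R E s ≠ 0 := by
  intro h0
  have h1 : uR R E ∣ C s := dvd_of_th (by rw [th_C, h0])
  obtain ⟨H, hH⟩ := h1
  have hH0 : H ≠ 0 := by
    rintro rfl
    rw [mul_zero] at hH
    exact hs (C_injective _ _ (hH.trans C_0.symm))
  have h2 := degreeOf_mul_eq (n := l) (uR_ne (R := R) hl) hH0
  rw [← hH, degreeOf_C] at h2
  have := degreeOf_uR (R := R) hl
  omega

/-- the universal polynomial is prime to the constants -/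
theorem uR_dvd [IsDomain R] (h0 : (0 : Fin N →₀ ℕ) ∈ E) {l : Fin N} (hl : Finsupp.single l 1 ∈ E)
    {s : MvPolynomial E R} (hs : s ≠ 0) {Q : MvPolynomial (Fin N) (MvPolynomial E R)}
    (h : uR R E ∣ C s * Q) : uR R E ∣ Q := by
  obtain ⟨H, hH⟩ := h
  apply dvd_of_th
  have h1 := congrArg (th R E) hH
  rw [map_mul, map_mul, th_uR h0, zero_mul, th_C] at h1
  exact (mul_eq_zero.mp h1).resolve_left (thA_ne hl hs)

end Theta

end Pool.Agent.R867.H
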