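import Pool.Agent.R867.H.Rel

/-! Points of the general hypersurface with given exponents. -/

set_option autoImplicit false

namespace Pool.Agent.R867.H

open MvPolynomial Pool.Agent.R867.Mov

universe u v w

section Transport

variable {N : ℕ} {E : Type}

/-- if the example over `ℚ` has a point at which the Jacobian does not vanish, then the general
member has such a point -/
theorem univ_pt {i j : Fin N} (g₁ g₂ h : MvPolynomial (Fin N) (MvPolynomial E ℚ)) (c₀ : E → ℚ)
    (r₀ : Fin N → ℚ) (h1 : g₁.eval₂ (aeval c₀ : MvPolynomial E ℚ →ₐ[ℚ] ℚ).toRingHom r₀ = 0)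
    (h2 : g₂.eval₂ (aeval c₀ : MvPolynomial E ℚ →ₐ[ℚ] ℚ).toRingHom r₀ = 0)
    (h3 : h.eval₂ (aeval c₀ : MvPolynomial E ℚ →ₐ[ℚ] ℚ).toRingHom r₀ ≠ 0)
    (h4 : (pderiv i g₁ * pderiv j g₂ - pderiv j g₁ * pderiv i g₂).eval₂
      (aeval c₀ : MvPolynomial E ℚ →ₐ[ℚ] ℚ).toRingHom r₀ ≠ 0) :
    ∃ Φ : MvPolynomial E ℚ, Φ ≠ 0 ∧ ∀ {k' : Type u} [Field k'] [IsAlgClosed k']
      (φ : MvPolynomial E ℚ →+* k'), φ Φ ≠ 0 → ∃ r : Fin N → k', g₁.eval₂ φ r = 0 ∧
        g₂.eval₂ φ r = 0 ∧ (h * (pderiv i g₁ * pderiv j g₂ - pderiv j g₁ * pderiv i g₂)).eval₂ φ r ≠ 0 := by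
  obtain ⟨J, hJ⟩ : ∃ J, J = pderiv i g₁ * pderiv j g₂ - pderiv j g₁ * pderiv i g₂ := ⟨_, rfl⟩
  rw [← hJ] at h4 ⊢
  refine spread g₁ g₂ (h * J) ?_
  intro G hG m hcon
  obtain ⟨σ, hσ⟩ : ∃ σ : MvPolynomial (Fin N) (MvPolynomial E ℚ) ≃ₐ[ℚ] MvPolynomial (Fin N ⊕ E) ℚ,
    σ = (sumAlgEquiv ℚ (Fin N) E).symm := ⟨_, rfl⟩
  have hσd : ∀ (b : Fin N) P, σ (pderiv b P) = pderiv (Sum.inl b) (σ P) := by
    intro b P
    rw [hσ, AlgEquiv.symm_apply_eq, ← pderiv_sumAlgEquiv, AlgEquiv.apply_symm_apply]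
  have hσe : ∀ P, aeval (Sum.elim r₀ c₀) (σ P) =
      P.eval₂ (aeval c₀ : MvPolynomial E ℚ →ₐ[ℚ] ℚ).toRingHom r₀ := by
    intro P
    obtain ⟨Q, rfl⟩ := (sumAlgEquiv ℚ (Fin N) E).surjective P
    rw [hσ, AlgEquiv.symm_apply_apply]
    induction Q using MvPolynomial.induction_on with
    | C a =>
      rw [sumAlgEquiv_C_inl, eval₂_C]
      simp
    | add P Q hP hQ => rw [map_add, map_add, eval₂_add, hP, hQ]
    | mul_X P l hP =>
      rw [map_mul, map_mul, eval₂_mul, hP]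
      rcases l with l | l
      · rw [sumAlgEquiv_X_inl, eval₂_X, aeval_X]
        rfl
      · rw [sumAlgEquiv_X_inr, eval₂_C, aeval_X]
        simp
  have hσC : ∀ b : Fin N, pderiv (Sum.inl b) (σ (C G)) = 0 := by
    intro b
    rw [← hσd, pderiv_C, map_zero]
  have hG' : σ (C G) ≠ 0 := by
    intro h0
    exact hG (C_injective _ _ ((σ.injective (h0.trans (map_zero σ).symm)).trans C_0.symm))
  refine jac (k := ℚ) (Ω := ℚ) (r := Sum.elim r₀ c₀) (g₁ := σ g₁) (g₂ := σ g₂) (h := σ (h * J))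
    (i := Sum.inl i) (j := Sum.inl j) ?_ ?_ ?_ ?_ (σ (C G)) hG' (hσC i) (hσC j) m ?_
  · rw [hσe, h1]
  · rw [hσe, h2]
  · rw [hσe, eval₂_mul]
    exact mul_ne_zero h3 h4
  · rw [← hσd, ← hσd, ← hσd, ← hσd, ← map_mul, ← map_mul, ← map_sub, ← hJ, hσe]
    exact h4
  · obtain ⟨a, b, hab⟩ := hcon
    refine ⟨σ a, σ b, ?_⟩
    rw [← map_pow, ← map_mul, hab, map_add, map_mul, map_mul]

end Transport

section Universal

variable {N : ℕ} (E : Finset (Fin N →₀ ℕ))

/-- the universal polynomial with exponents in `E` -/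
noncomputable def uF : MvPolynomial (Fin N) (MvPolynomial E ℚ) :=
  ∑ m : E, monomial (m : Fin N →₀ ℕ) (X m)

/-- the specialization at the coefficients of `f` -/
noncomputable def sp {k : Type u} [CommRing k] [Algebra ℚ k] (f : MvPolynomial (Fin N) k) :
    MvPolynomial E ℚ →+* k :=
  (aeval (fun m : E => coeff (m : Fin N →₀ ℕ) f) : MvPolynomial E ℚ →ₐ[ℚ] k).toRingHom

variable {E}

theorem map_uF {k : Type u} [CommRing k] [Algebra ℚ k] {f : MvPolynomial (Fin N) k}
    (hf : f.support ⊆ E) : MvPolynomial.map (sp E f) (uF E) = f := by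
  classical
  unfold uF
  rw [map_sum]
  have h1 : ∀ m : E, MvPolynomial.map (sp E f) (monomial (m : Fin N →₀ ℕ) (X m)) =
      monomial (m : Fin N →₀ ℕ) (coeff (m : Fin N →₀ ℕ) f) := by
    intro m
    rw [map_monomial]
    unfold sp
    simp
  rw [Finset.sum_congr rfl (fun m _ => h1 m)]
  rw [Finset.sum_coe_sort E (fun m => monomial m (coeff m f))]
  rw [← Finset.sum_subset hf]
  · exact f.support_sum_monomial_coeff
  · intro m _ hm
    rw [notMem_support_iff.mp hm, monomial_zero]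

end Universal

section Maps

variable {N : ℕ} {R : Type v} {S : Type w} [CommRing R] [CommRing S] (φ : R →+* S)
  (F : MvPolynomial (Fin N) R)

theorem map_q2 (p s : Fin N) : MvPolynomial.map φ (q2 p s F) = q2 p s (MvPolynomial.map φ F) := by
  unfold q2
  simp only [map_add, map_sub, map_mul, map_pow, map_ofNat, pderiv_map]

theorem map_c6 (p s : Fin N) : MvPolynomial.map φ (c6 p s F) = c6 p s (MvPolynomial.map φ F) := by
  unfold c6
  simp only [map_add, map_sub, map_mul, map_pow, map_ofNat, pderiv_map]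

theorem map_rt (u i j : Fin N) :
    MvPolynomial.map φ (rt u i j F) = rt u i j (MvPolynomial.map φ F) := by
  unfold rt
  simp only [map_sub, map_mul, pderiv_map]

theorem map_F2 (a b : Fin N) : MvPolynomial.map φ (F2 F a b) = F2 (MvPolynomial.map φ F) a b := by
  unfold F2
  simp only [pderiv_map]

theorem map_F3 (a b c : Fin N) :
    MvPolynomial.map φ (F3 F a b c) = F3 (MvPolynomial.map φ F) a b c := by
  unfold F3
  simp only [pderiv_map]

theorem map_vf (i j a : Fin N) :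
    MvPolynomial.map φ (vf i j F a) = vf i j (MvPolynomial.map φ F) a := by
  unfold vf
  split_ifs <;> simp only [map_add, map_neg, map_zero, pderiv_map]

theorem map_B2 (i j l : Fin N) : MvPolynomial.map φ (B2 (F2 F) (vf i j F) (vf i l F)) =
    B2 (F2 (MvPolynomial.map φ F)) (vf i j (MvPolynomial.map φ F))
      (vf i l (MvPolynomial.map φ F)) := by
  rw [B2_map]
  congr 1
  · funext a b
    exact map_F2 φ F a b
  · funext a
    exact map_vf φ F i j a
  · funext a
    exact map_vf φ F i l a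

theorem map_B3 (i j l m : Fin N) :
    MvPolynomial.map φ (B3 (F3 F) (vf i j F) (vf i l F) (vf i m F)) =
    B3 (F3 (MvPolynomial.map φ F)) (vf i j (MvPolynomial.map φ F))
      (vf i l (MvPolynomial.map φ F)) (vf i m (MvPolynomial.map φ F)) := by
  rw [B3_map]
  congr 1
  · funext a b c
    exact map_F3 φ F a b c
  · funext a
    exact map_vf φ F i j a
  · funext a
    exact map_vf φ F i l a
  · funext a
    exact map_vf φ F i m a

theorem map_ndP (i j l : Fin N) :
    MvPolynomial.map φ (ndP i j l F) = ndP i j l (MvPolynomial.map φ F) := by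
  unfold ndP
  rw [map_mul, res_map]
  unfold aP bP gP c0P c1P c2P c3P
  simp only [map_add, map_sub, map_mul, map_pow, map_ofNat, map_B2, map_B3]

end Maps

/-! ### the examples -/

section Examples

variable {N : ℕ} {E : Finset (Fin N →₀ ℕ)}

theorem sub_add {R : Type v} [CommSemiring R] {f g : MvPolynomial (Fin N) R} (hf : f.support ⊆ E) (hg : g.support ⊆ E) :
    (f + g).support ⊆ E := by
  classical
  exact support_add.trans (Finset.union_subset hf hg)

theorem sub_mon {m : Fin N →₀ ℕ} (hm : m ∈ E) (a : ℚ) : (monomial m a : MvPolynomial (Fin N) ℚ).support ⊆ E :=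
  support_monomial_subset.trans (Finset.singleton_subset_iff.mpr hm)

/-- the general member has a point of the required kind, for the flex condition -/
theorem ex_flex {p s i j : Fin N} (hps : p ≠ s) (hij : i ≠ j) (hip : i ≠ p) (his : i ≠ s)
    (hjp : j ≠ p) (hjs : j ≠ s) (h1 : Finsupp.single i 1 ∈ E) (h2 : Finsupp.single p 1 ∈ E)
    (h3 : Finsupp.single s 3 ∈ E) (h4 : Finsupp.single j 1 + Finsupp.single s 2 ∈ E) :
    ∃ Φ : MvPolynomial E ℚ, Φ ≠ 0 ∧ ∀ {k' : Type u} [Field k'] [IsAlgClosed k']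
      (φ : MvPolynomial E ℚ →+* k'), φ Φ ≠ 0 → ∃ r : Fin N → k', (uF E).eval₂ φ r = 0 ∧
        (q2 p s (uF E)).eval₂ φ r = 0 ∧ (c6 p s (uF E) * (pderiv i (uF E) *
          pderiv j (q2 p s (uF E)) - pderiv j (uF E) * pderiv i (q2 p s (uF E)))).eval₂ φ r ≠ 0 := by
  classical
  obtain ⟨f, hf⟩ : ∃ f : MvPolynomial (Fin N) ℚ, f = X i + X p + X s ^ 3 + X j * X s ^ 2 :=
    ⟨_, rfl⟩
  have hsupp : f.support ⊆ E := by
    have h5 : f = monomial (Finsupp.single i 1) 1 + monomial (Finsupp.single p 1) 1 +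
        monomial (Finsupp.single s 3) 1 +
        monomial (Finsupp.single j 1 + Finsupp.single s 2) 1 := by
      rw [hf, X_pow_eq_monomial, X_pow_eq_monomial, X, X, X, monomial_mul, one_mul]
    rw [h5]
    exact sub_add (sub_add (sub_add (sub_mon h1 _) (sub_mon h2 _)) (sub_mon h3 _)) (sub_mon h4 _)
  have hmap := map_uF hsupp
  have key : ∀ P : MvPolynomial (Fin N) (MvPolynomial E ℚ), P.eval₂ (aeval (fun m : E => coeff (m : Fin N →₀ ℕ) f) :
      MvPolynomial E ℚ →ₐ[ℚ] ℚ).toRingHom 0 = eval 0 (MvPolynomial.map (sp E f) P) := by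
    intro P
    rw [eval_map]
    rfl
  refine univ_pt _ _ _ (fun m : E => coeff (m : Fin N →₀ ℕ) f) 0 ?_ ?_ ?_ ?_
  · rw [key, hmap, hf]
    simp
  · rw [key, map_q2, hmap, hf]
    unfold q2
    simp [pderiv_X, Pi.single_apply, hps, hij, hip, his, hjp, hjs, Ne.symm hps, Ne.symm hij,
      Ne.symm hip, Ne.symm his, Ne.symm hjp, Ne.symm hjs]
  · rw [key, map_c6, hmap, hf]
    unfold c6
    simp [pderiv_X, Pi.single_apply, hps, hij, hip, his, hjp, hjs, Ne.symm hps, Ne.symm hij,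
      Ne.symm hip, Ne.symm his, Ne.symm hjp, Ne.symm hjs]
    rw [map_ofNat, map_ofNat]
    norm_num
  · rw [key, map_sub, map_mul, map_mul, ← pderiv_map, ← pderiv_map, ← pderiv_map, ← pderiv_map,
      map_q2, hmap, hf]
    unfold q2
    simp [pderiv_X, Pi.single_apply, hps, hij, hip, his, hjp, hjs, Ne.symm hps, Ne.symm hij,
      Ne.symm hip, Ne.symm his, Ne.symm hjp, Ne.symm hjs]
    rw [map_ofNat]
    norm_num

theorem ex_line {u i j : Fin N} (hij : i ≠ j) (hiu : i ≠ u) (hju : j ≠ u)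
    (h1 : Finsupp.single i 1 ∈ E) (h2 : Finsupp.single u 2 ∈ E)
    (h3 : Finsupp.single j 1 + Finsupp.single u 1 ∈ E) :
    ∃ Φ : MvPolynomial E ℚ, Φ ≠ 0 ∧ ∀ {k' : Type u} [Field k'] [IsAlgClosed k']
      (φ : MvPolynomial E ℚ →+* k'), φ Φ ≠ 0 → ∃ r : Fin N → k', (uF E).eval₂ φ r = 0 ∧
        (rt u i j (uF E)).eval₂ φ r ≠ 0 := by
  classical
  obtain ⟨f, hf⟩ : ∃ f : MvPolynomial (Fin N) ℚ, f = X i + X u ^ 2 + X j * X u :=
    ⟨_, rfl⟩
  have hsupp : f.support ⊆ E := by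
    have h5 : f = monomial (Finsupp.single i 1) 1 + monomial (Finsupp.single u 2) 1 +
        monomial (Finsupp.single j 1 + Finsupp.single u 1) 1 := by
      rw [hf, X_pow_eq_monomial, X, X, X, monomial_mul, one_mul]
    rw [h5]
    exact sub_add (sub_add (sub_mon h1 _) (sub_mon h2 _)) (sub_mon h3 _)
  have hmap := map_uF hsupp
  have key : ∀ P : MvPolynomial (Fin N) (MvPolynomial E ℚ), P.eval₂ (aeval (fun m : E => coeff (m : Fin N →₀ ℕ) f) :
      MvPolynomial E ℚ →ₐ[ℚ] ℚ).toRingHom 0 = eval 0 (MvPolynomial.map (sp E f) P) := by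
    intro P
    rw [eval_map]
    rfl
  obtain ⟨Φ, hΦ, h⟩ := univ_pt (i := i) (j := j) (uF E) (X j) (rt u i j (uF E))
    (fun m : E => coeff (m : Fin N →₀ ℕ) f) 0 (by
      rw [key, hmap, hf]
      simp) (by
      rw [eval₂_X]
      rfl) (by
      rw [key, map_rt, hmap, hf]
      unfold rt
      simp [pderiv_X, Pi.single_apply, hij, hiu, hju, Ne.symm hij, Ne.symm hiu, Ne.symm hju]
      rw [map_ofNat]
      norm_num) (by
      rw [key, map_sub, map_mul, map_mul, ← pderiv_map, ← pderiv_map, ← pderiv_map, ← pderiv_map,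
        hmap, hf]
      simp [pderiv_X, Pi.single_apply, hij, hiu, hju, Ne.symm hij, Ne.symm hiu, Ne.symm hju])
  refine ⟨Φ, hΦ, fun {k'} _ _ φ hφ => ?_⟩
  obtain ⟨r, h5, -, h7⟩ := h φ hφ
  refine ⟨r, h5, fun h0 => h7 ?_⟩
  rw [eval₂_mul, h0, zero_mul]

theorem ex_cubic {i j l : Fin N} (hij : i ≠ j) (hil : i ≠ l) (hjl : j ≠ l)
    (h1 : Finsupp.single i 1 ∈ E) (h2 : Finsupp.single j 2 ∈ E)
    (h3 : Finsupp.single l 2 ∈ E) (h4 : Finsupp.single j 3 ∈ E) :
    ∃ Φ : MvPolynomial E ℚ, Φ ≠ 0 ∧ ∀ {k' : Type u} [Field k'] [IsAlgClosed k']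
      (φ : MvPolynomial E ℚ →+* k'), φ Φ ≠ 0 → ∃ r : Fin N → k', (uF E).eval₂ φ r = 0 ∧
        (ndP i j l (uF E)).eval₂ φ r ≠ 0 := by
  classical
  obtain ⟨f, hf⟩ : ∃ f : MvPolynomial (Fin N) ℚ, f = X i + X j ^ 2 - X l ^ 2 + X j ^ 3 :=
    ⟨_, rfl⟩
  have hsupp : f.support ⊆ E := by
    have h5 : f = monomial (Finsupp.single i 1) 1 + monomial (Finsupp.single j 2) 1 +
        monomial (Finsupp.single l 2) (-1) + monomial (Finsupp.single j 3) 1 := by
      have h6 : (monomial (Finsupp.single l 2) (-1) : MvPolynomial (Fin N) ℚ) =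
          - monomial (Finsupp.single l 2) 1 := by
        rw [map_neg]
      rw [hf, X_pow_eq_monomial, X_pow_eq_monomial, X_pow_eq_monomial, h6, X]
      ring
    rw [h5]
    exact sub_add (sub_add (sub_add (sub_mon h1 _) (sub_mon h2 _)) (sub_mon h3 _)) (sub_mon h4 _)
  have hmap := map_uF hsupp
  have key : ∀ P : MvPolynomial (Fin N) (MvPolynomial E ℚ), P.eval₂ (aeval (fun m : E => coeff (m : Fin N →₀ ℕ) f) :
      MvPolynomial E ℚ →ₐ[ℚ] ℚ).toRingHom 0 = eval 0 (MvPolynomial.map (sp E f) P) := by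
    intro P
    rw [eval_map]
    rfl
  obtain ⟨Φ, hΦ, h⟩ := univ_pt (i := i) (j := j) (uF E) (X j) (ndP i j l (uF E))
    (fun m : E => coeff (m : Fin N →₀ ℕ) f) 0 (by
      rw [key, hmap, hf]
      simp) (by
      rw [eval₂_X]
      rfl) (by
      rw [key, map_ndP, hmap]
      have h6 : aeval (0 : Fin N → ℚ) (pderiv i f) ≠ 0 := by
        rw [hf]
        simp [pderiv_X, Pi.single_apply, hij, hil, Ne.symm hij, Ne.symm hil]
      have h7 : Asy f i j l (0 : Fin N → ℚ) (fun m => if m = j then 1 else if m = l then 1 else 0) := by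
        refine ⟨fun m _ h1 h2 => by simp [h1, h2], by simp, 1, one_ne_zero, ?_⟩
        rw [hf, map_add, map_sub, map_add, map_pow, map_pow, map_pow, lin_X, lin_X, lin_X]
        simp [hij, hil, Ne.symm hij, Ne.symm hil, Ne.symm hjl]
      have h8 : Asy f i j l (0 : Fin N → ℚ) (fun m => if m = j then 1 else if m = l then -1 else 0) := by
        refine ⟨fun m _ h1 h2 => by simp [h1, h2], by simp, 1, one_ne_zero, ?_⟩
        rw [hf, map_add, map_sub, map_add, map_pow, map_pow, map_pow, lin_X, lin_X, lin_X]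
        simp [hij, hil, Ne.symm hij, Ne.symm hil, Ne.symm hjl]
      have h9 : lin (0 : Fin N → ℚ) (fun m => (if m = j then (1 : ℚ) else if m = l then 1 else 0) +
          (if m = j then 1 else if m = l then -1 else 0)) f =
          Polynomial.C 4 * Polynomial.X ^ 2 + Polynomial.C 8 * Polynomial.X ^ 3 := by
        rw [hf, map_add, map_sub, map_add, map_pow, map_pow, map_pow, lin_X, lin_X, lin_X]
        simp only [hij, hil, Ne.symm hjl, if_true, if_false, Pi.zero_apply, add_zero, mul_zero,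
          zero_add, map_zero, add_neg_cancel]
        have h10 : (Polynomial.C 4 : Polynomial ℚ) = Polynomial.C (1 + 1) ^ 2 := by
          rw [← Polynomial.C_pow]
          norm_num
        have h11 : (Polynomial.C 8 : Polynomial ℚ) = Polynomial.C (1 + 1) ^ 3 := by
          rw [← Polynomial.C_pow]
          norm_num
        rw [h10, h11]
        ring
      exact node_ne hij hil hjl h6 h7 h8 (by
        rw [h9]
        simp [Polynomial.coeff_X_pow])) (by
      rw [key, map_sub, map_mul, map_mul, ← pderiv_map, ← pderiv_map, ← pderiv_map, ← pderiv_map,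
        hmap, hf]
      simp [pderiv_X, Pi.single_apply, hij, hil, hjl, Ne.symm hij, Ne.symm hil, Ne.symm hjl])
  refine ⟨Φ, hΦ, fun {k'} _ _ φ hφ => ?_⟩
  obtain ⟨r, h5, -, h7⟩ := h φ hφ
  refine ⟨r, h5, fun h0 => h7 ?_⟩
  rw [eval₂_mul, h0, zero_mul]

end Examples

end Pool.Agent.R867.H
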